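import Pool.Agent.H55.DK.FStm
import Mathlib.MeasureTheory.Measure.FiniteMeasurePi

/-!
# DK-WALK: the law of the vector of the block sums
-/

set_option autoImplicit false

namespace Pool.Agent.H55.DK.WALK

open Finset Filter Topology MeasureTheory ProbabilityTheory
open scoped NNReal
open Pool.Agent.H499R2.ND.TJ (PP XX ZZ clt meas_XX meas_ZZ ident indep nl)

theorem law_blocks (b r : ℕ) :
    PP.map (fun ω (i : Fin r) => ∑ k : Fin b, XX ((i : ℕ) * b + k) ω) =
      Measure.pi (fun _ : Fin r => PP.map (fun ω => ∑ k : Fin b, XX (k : ℕ) ω)) := by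
  set ν : Measure ℝ := PP.map (XX 0) with hν
  have hνp : IsProbabilityMeasure ν := Measure.isProbabilityMeasure_map (meas_XX 0).aemeasurable
  have hid : ∀ i, PP.map (XX i) = ν := fun i => (ident i).map_eq
  let S : (Fin b → ℝ) → ℝ := fun v => ∑ k, v k
  have hS : Measurable S := by
    unfold S
    fun_prop
  have hmX : ∀ i, Measurable (XX i) := meas_XX
  have h1 : PP.map (fun ω => ∑ k : Fin b, XX (k : ℕ) ω) =
      (Measure.infinitePi fun _ : Fin b => ν).map S := by
    have hi : iIndepFun (fun k : Fin b => XX (k : ℕ)) PP := indep.precomp Fin.val_injective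
    have h2 := (iIndepFun_iff_map_fun_eq_infinitePi_map (fun k : Fin b => meas_XX (k : ℕ))).1 hi
    simp only [hid] at h2
    rw [← h2, Measure.map_map hS (measurable_pi_lambda _ fun k => meas_XX (k : ℕ))]
    rfl
  let g : Fin r × Fin b → ℕ := fun p => (p.1 : ℕ) * b + p.2
  have hg : Function.Injective g := by
    rintro ⟨i, k⟩ ⟨i', k'⟩ h
    have h : (i : ℕ) * b + k = (i' : ℕ) * b + k' := h
    have hk := k.2
    have hk' := k'.2
    have e1 : (i : ℕ) = i' := by
      have a1 : ((i : ℕ) * b + k) / b = i := by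
        rw [Nat.add_comm, Nat.add_mul_div_right _ _ (by omega), Nat.div_eq_of_lt hk, zero_add]
      have a2 : ((i' : ℕ) * b + k') / b = i' := by
        rw [Nat.add_comm, Nat.add_mul_div_right _ _ (by omega), Nat.div_eq_of_lt hk', zero_add]
      rw [← a1, h, a2]
    have e2 : (k : ℕ) = k' := by
      rw [e1] at h
      omega
    exact Prod.ext (Fin.ext e1) (Fin.ext e2)
  have hmg : Measurable (fun ω (p : Fin r × Fin b) => XX (g p) ω) :=
    measurable_pi_lambda _ fun p => meas_XX (g p)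
  have h2 : PP.map (fun ω (p : Fin r × Fin b) => XX (g p) ω) =
      Measure.infinitePi (fun _ : Fin r × Fin b => ν) := by
    have hi : iIndepFun (fun p : Fin r × Fin b => XX (g p)) PP := indep.precomp hg
    have h2 := (iIndepFun_iff_map_fun_eq_infinitePi_map (fun p => meas_XX (g p))).1 hi
    simp only [hid] at h2
    exact h2
  have h3 := Measure.infinitePi_map_curry (ι := Fin r) (κ := Fin b) (fun _ _ => ν)
  rw [← h2, Measure.map_map (MeasurableEquiv.measurable _) hmg] at h3
  have h4 : PP.map (fun ω (i : Fin r) => ∑ k : Fin b, XX ((i : ℕ) * b + k) ω) =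
      (PP.map ((MeasurableEquiv.curry (Fin r) (Fin b) ℝ) ∘
        fun ω (p : Fin r × Fin b) => XX (g p) ω)).map (fun x i => S (x i)) := by
    rw [Measure.map_map (by fun_prop) ((MeasurableEquiv.measurable _).comp hmg)]
    rfl
  have hp : IsProbabilityMeasure ((Measure.infinitePi fun _ : Fin b => ν).map S) :=
    Measure.isProbabilityMeasure_map hS.aemeasurable
  rw [h4, h3, Measure.infinitePi_map_pi (fun _ : Fin r => Measure.infinitePi fun _ : Fin b => ν)
    (fun _ => hS), Measure.infinitePi_eq_pi, h1]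

theorem diff_eq {G b : ℕ} (hG : 0 < G) (hb : 0 < b) (ω : ℕ → ℕ) (i : ℕ) :
    ((Yw ω ((i + 1) * b) - Yw ω (i * b) : ℤ) : ℝ) / Real.sqrt (2 * G * b) =
      (-(1 / Real.sqrt G)) * ((Real.sqrt b)⁻¹ * ∑ k : Fin b, XX (i * b + k) ω) := by
  have hGr : (0 : ℝ) < G := by exact_mod_cast hG
  have hbr : (0 : ℝ) < b := by exact_mod_cast hb
  have e1 : ((Yw ω ((i + 1) * b) - Yw ω (i * b) : ℤ) : ℝ) =
      -(Real.sqrt 2 * ∑ k : Fin b, XX (i * b + k) ω) := by
    have h2 : Real.sqrt 2 ≠ 0 := by positivity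
    have a1 : ∑ j ∈ range ((i + 1) * b), ((ω j : ℤ) + 1) =
        ∑ j ∈ range (i * b), ((ω j : ℤ) + 1) + ∑ k ∈ range b, ((ω (i * b + k) : ℤ) + 1) := by
      have : (i + 1) * b = i * b + b := by ring
      rw [this, sum_range_add]
    unfold Yw
    rw [a1]
    push_cast
    have a2 : ∑ k : Fin b, XX (i * b + k) ω = ∑ k ∈ range b, XX (i * b + k) ω :=
      Fin.sum_univ_eq_sum_range (fun k => XX (i * b + k) ω) b
    rw [a2, mul_sum]
    have a3 : ∀ k ∈ range b, Real.sqrt 2 * XX (i * b + k) ω = (ω (i * b + k) : ℝ) - 1 := by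
      intro k _
      unfold XX nl
      field_simp
    rw [sum_congr rfl a3, sum_sub_distrib]
    have a4 : ∑ k ∈ range b, ((ω (i * b + k) : ℝ) + 1) =
        ∑ k ∈ range b, (ω (i * b + k) : ℝ) + b := by
      rw [sum_add_distrib]
      simp
    rw [a4]
    simp only [sum_const, card_range, nsmul_eq_mul, mul_one]
    ring
  rw [e1]
  have h2 : Real.sqrt (2 * G * b) = Real.sqrt 2 * Real.sqrt G * Real.sqrt b := by
    rw [Real.sqrt_mul (by positivity), Real.sqrt_mul (by norm_num)]
  rw [h2]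
  have h3 : Real.sqrt 2 ≠ 0 := by positivity
  have h4 : Real.sqrt G ≠ 0 := by positivity
  have h5 : Real.sqrt b ≠ 0 := by positivity
  field_simp

theorem main : S_WALK := by
  intro G hG r Φ hΦ hb
  have hGr : (0 : ℝ) < G := by exact_mod_cast hG
  set c : ℝ := -(1 / Real.sqrt G) with hc
  let f : ℝ → ℝ := fun x => c * x
  have hf : Continuous f := by
    unfold f
    fun_prop
  have h1 := clt.tendsto
  have h2 := ProbabilityMeasure.tendsto_map_of_tendsto_of_continuous _ _ h1 hf
  have h3 := ((ProbabilityMeasure.continuous_pi (α := fun _ : Fin r => ℝ)).tendsto _).comp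
    (tendsto_pi_nhds.2 fun _ : Fin r => h2)
  rw [ProbabilityMeasure.tendsto_iff_forall_integral_tendsto] at h3
  have h4 := h3 (BoundedContinuousFunction.ofNormedAddCommGroup Φ hΦ 1 (fun v => by
    rw [Real.norm_eq_abs]; exact hb v))
  have e2 : (Measure.pi fun _ : Fin r => gaussianReal 0 (1 / (G : ℝ≥0))) =
      Measure.pi fun _ : Fin r => ((gaussianReal 0 1).map (id : ℝ → ℝ)).map f := by
    rw [Measure.map_id]
    have : (gaussianReal 0 1).map f = gaussianReal 0 (1 / (G : ℝ≥0)) := by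
      unfold f
      rw [gaussianReal_map_const_mul]
      congr 1
      · ring
      · ext
        simp only [NNReal.coe_one, mul_one, NNReal.coe_div, NNReal.coe_natCast,
          NNReal.coe_mk]
        rw [hc, neg_sq, div_pow, one_pow, Real.sq_sqrt hGr.le]
    rw [this]
  rw [e2]
  refine Tendsto.congr' ?_ h4
  filter_upwards [eventually_gt_atTop 0] with b hb0
  have e3 : ∀ ω : ℕ → ℕ, (fun i : Fin r =>
      ((Yw ω (((i : ℕ) + 1) * b) - Yw ω ((i : ℕ) * b) : ℤ) : ℝ) / Real.sqrt (2 * G * b)) =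
      fun i : Fin r => f ((Real.sqrt b)⁻¹ * ∑ k : Fin b, XX ((i : ℕ) * b + k) ω) := by
    intro ω
    funext i
    exact diff_eq hG hb0 ω i
  simp only [e3]
  have hm1 : Measurable (fun ω (i : Fin r) => ∑ k : Fin b, XX ((i : ℕ) * b + k) ω) :=
    measurable_pi_lambda _ fun i => Finset.measurable_sum _ fun k _ => meas_XX _
  have hm2 : Measurable (fun (v : Fin r → ℝ) (i : Fin r) => f ((Real.sqrt b)⁻¹ * v i)) := by
    unfold f
    fun_prop
  have e4 : PP.map (fun ω (i : Fin r) => f ((Real.sqrt b)⁻¹ * ∑ k : Fin b, XX ((i : ℕ) * b + k) ω))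
      = Measure.pi (fun _ : Fin r => (PP.map (ZZ b)).map f) := by
    have a1 : PP.map (fun ω (i : Fin r) =>
        f ((Real.sqrt b)⁻¹ * ∑ k : Fin b, XX ((i : ℕ) * b + k) ω)) =
        (PP.map (fun ω (i : Fin r) => ∑ k : Fin b, XX ((i : ℕ) * b + k) ω)).map
          (fun (v : Fin r → ℝ) (i : Fin r) => f ((Real.sqrt b)⁻¹ * v i)) := by
      rw [Measure.map_map hm2 hm1]
      rfl
    have hm3 : Measurable (fun ω : ℕ → ℕ => ∑ k : Fin b, XX (k : ℕ) ω) :=
      Finset.measurable_sum _ fun k _ => meas_XX _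
    have hm4 : Measurable (fun x : ℝ => f ((Real.sqrt b)⁻¹ * x)) := by
      unfold f
      fun_prop
    have hp : IsProbabilityMeasure (PP.map (fun ω => ∑ k : Fin b, XX (k : ℕ) ω)) :=
      Measure.isProbabilityMeasure_map hm3.aemeasurable
    have hp2 : ∀ _ : Fin r, IsProbabilityMeasure ((PP.map (fun ω => ∑ k : Fin b, XX (k : ℕ) ω)).map
        (fun x : ℝ => f ((Real.sqrt b)⁻¹ * x))) := fun _ =>
      Measure.isProbabilityMeasure_map hm4.aemeasurable
    rw [a1, law_blocks, Measure.pi_map_pi (f := fun (_ : Fin r) (x : ℝ) => f ((Real.sqrt b)⁻¹ * x))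
      (fun _ => hm4.aemeasurable)]
    congr 1
    funext _
    rw [Measure.map_map hm4 hm3, Measure.map_map hf.measurable (meas_ZZ b)]
    congr 1
    funext ω
    simp only [Function.comp_apply]
    unfold ZZ
    rw [Fin.sum_univ_eq_sum_range (fun k => XX k ω) b]
  have hm5 : Measurable (fun ω (i : Fin r) =>
      f ((Real.sqrt b)⁻¹ * ∑ k : Fin b, XX ((i : ℕ) * b + k) ω)) := hm2.comp hm1
  have e5 : (∫ ω : ℕ → ℕ, Φ (fun i : Fin r =>
      f ((Real.sqrt b)⁻¹ * ∑ k : Fin b, XX ((i : ℕ) * b + k) ω)) ∂PP) =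
      ∫ v : Fin r → ℝ, Φ v ∂(PP.map (fun ω (i : Fin r) =>
        f ((Real.sqrt b)⁻¹ * ∑ k : Fin b, XX ((i : ℕ) * b + k) ω))) :=
    (integral_map hm5.aemeasurable hΦ.aestronglyMeasurable).symm
  rw [e5, e4]
  rfl

end Pool.Agent.H55.DK.WALK
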