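import Pool.Agent.H55.DK.Stm

/-!
# DK-CPATH: the path of the Collatz function
-/

set_option autoImplicit false

namespace Pool.Agent.H55.DK.CPATH

open Finset Filter Topology MeasureTheory ProbabilityTheory
open Pool.Agent.H499R2.ND.TJ (PP geo)
open Pool.Agent.Results.MP_f7abf1_nt.BlockLaw (Syr wait)


theorem C_two (v m : ℕ) : ∀ i ≤ v, C^[i] (2 ^ v * m) = 2 ^ (v - i) * m := by
  intro i
  induction i with
  | zero => intro _; rfl
  | succ i ih =>
    intro h
    rw [Function.iterate_succ_apply', ih (by omega)]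
    obtain ⟨c, hc⟩ : ∃ c, v - i = c + 1 := ⟨v - i - 1, by omega⟩
    have h2 : v - (i + 1) = c := by omega
    rw [hc, h2, pow_succ, mul_right_comm, mul_comm]
    unfold C
    rw [if_pos (by omega), Nat.mul_div_cancel_left _ (by norm_num)]

theorem C_block {m : ℕ} (hm : m % 2 = 1) (i : ℕ) : 2 ^ i ∣ 3 * m + 1 → C^[i + 1] m = (3 * m + 1) / 2 ^ i := by
  induction i with
  | zero =>
    intro _
    rw [zero_add, Function.iterate_one, pow_zero, Nat.div_one]
    unfold C
    rw [if_neg (by omega)]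
  | succ i ih =>
    intro hd
    rw [Function.iterate_succ_apply', ih ((pow_dvd_pow 2 (Nat.le_succ i)).trans hd)]
    obtain ⟨c, hc⟩ := hd
    have h1 : (3 * m + 1) / 2 ^ i = 2 * c := by
      rw [hc, pow_succ, mul_assoc, Nat.mul_div_cancel_left _ (by positivity)]
    have h2 : (3 * m + 1) / 2 ^ (i + 1) = c := by
      rw [hc, Nat.mul_div_cancel_left _ (by positivity)]
    rw [h1, h2]
    unfold C
    rw [if_pos (by omega)]
    omega

/-- the time of the `j`-th odd term -/
def tt (v m j : ℕ) : ℕ := v + j + UL.S m j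

theorem tt_succ (v m j : ℕ) : tt v m (j + 1) = (wait m j + 1) + tt v m j := by
  unfold tt
  rw [UL.S_succ]
  omega

theorem C_tt {m : ℕ} (hm : m % 2 = 1) (v j : ℕ) : C^[tt v m j] (2 ^ v * m) = Syr^[j] m := by
  induction j with
  | zero =>
    have h1 : tt v m 0 = v := by simp [tt, UL.S]
    rw [h1, C_two v m v le_rfl, Nat.sub_self, pow_zero, one_mul]
    rfl
  | succ j ih =>
    rw [tt_succ, Function.iterate_add_apply, ih, Function.iterate_succ_apply' Syr]
    exact C_block (UL.syr_iter_odd hm j) _ pow_padicValNat_dvd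

theorem C_mid {m : ℕ} (hm : m % 2 = 1) (v j s : ℕ) (h1 : 1 ≤ s) (h2 : s ≤ wait m j + 1) :
    C^[tt v m j + s] (2 ^ v * m) = (3 * Syr^[j] m + 1) / 2 ^ (s - 1) := by
  rw [add_comm, Function.iterate_add_apply, C_tt hm]
  obtain ⟨i, rfl⟩ : ∃ i, s = i + 1 := ⟨s - 1, by omega⟩
  rw [Nat.add_sub_cancel]
  have hw : 2 ^ wait m j ∣ 3 * Syr^[j] m + 1 := pow_padicValNat_dvd
  exact C_block (UL.syr_iter_odd hm j) i ((pow_dvd_pow 2 (by omega)).trans hw)

theorem pos (v m : ℕ) (J k : ℕ) (hk : k < tt v m J) :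
    k < v ∨ ∃ j < J, ∃ s ≤ wait m j, k = tt v m j + s := by
  induction J with
  | zero =>
    left
    simpa [tt, UL.S] using hk
  | succ J ih =>
    rcases Nat.lt_or_ge k (tt v m J) with h | h
    · rcases ih h with h1 | ⟨j, hj, s, hs, h2⟩
      · exact Or.inl h1
      · exact Or.inr ⟨j, by omega, s, hs, h2⟩
    · rw [tt_succ] at hk
      exact Or.inr ⟨J, by omega, k - tt v m J, by omega, by omega⟩

theorem stop {m : ℕ} (hm : m % 2 = 1) (v : ℕ) {J : ℕ} (h1 : Syr^[J] m = 1) (h2 : ∀ i < J, Syr^[i] m ≠ 1) :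
    IsTC (2 ^ v * m) (tt v m J) := by
  refine ⟨by rw [C_tt hm, h1], fun k hk => ?_⟩
  rcases pos v m J k hk with h | ⟨j, hj, s, hs, rfl⟩
  · rw [C_two v m k h.le]
    obtain ⟨c, hc⟩ : ∃ c, v - k = c + 1 := ⟨v - k - 1, by omega⟩
    rw [hc, pow_succ, mul_right_comm]
    omega
  · rcases Nat.eq_zero_or_pos s with h0 | h0
    · subst h0
      rw [add_zero, C_tt hm]
      exact h2 j hj
    · rw [C_mid hm v j s h0 (by omega)]
      obtain ⟨c, hc⟩ : 2 ^ s ∣ 3 * Syr^[j] m + 1 := (pow_dvd_pow 2 hs).trans pow_padicValNat_dvd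
      obtain ⟨i, rfl⟩ : ∃ i, s = i + 1 := ⟨s - 1, by omega⟩
      rw [Nat.add_sub_cancel, hc, pow_succ, mul_assoc, Nat.mul_div_cancel_left _ (by positivity)]
      omega

/-- the error term -/
noncomputable def E (m j : ℕ) : ℝ :=
  Real.log ((Syr^[j] m : ℕ) : ℝ) - Real.log m - j * Real.log 3 + (UL.S m j : ℕ) * Real.log 2

theorem syr_pos {m : ℕ} (hm : m % 2 = 1) (j : ℕ) : 1 ≤ Syr^[j] m := by
  have := UL.syr_iter_odd hm j
  omega

theorem E_succ {m : ℕ} (hm : m % 2 = 1) (j : ℕ) :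
    0 ≤ E m (j + 1) - E m j ∧ E m (j + 1) - E m j ≤ 1 / ((Syr^[j] m : ℕ) : ℝ) := by
  have hp : 1 ≤ Syr^[j] m := syr_pos hm j
  have hp' : 1 ≤ Syr^[j + 1] m := syr_pos hm (j + 1)
  have hpR : (0 : ℝ) < ((Syr^[j] m : ℕ) : ℝ) := by exact_mod_cast hp
  have hpR' : (0 : ℝ) < ((Syr^[j + 1] m : ℕ) : ℝ) := by exact_mod_cast hp'
  have h1 : Syr^[j + 1] m * 2 ^ wait m j = 3 * Syr^[j] m + 1 := by
    rw [Function.iterate_succ_apply']
    exact Nat.div_mul_cancel pow_padicValNat_dvd
  have h2 : ((Syr^[j + 1] m : ℕ) : ℝ) * 2 ^ wait m j = 3 * ((Syr^[j] m : ℕ) : ℝ) + 1 := by exact_mod_cast h1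
  have h3 : Real.log ((Syr^[j + 1] m : ℕ) : ℝ) + (wait m j : ℕ) * Real.log 2 =
      Real.log (3 * ((Syr^[j] m : ℕ) : ℝ) + 1) := by
    rw [← h2, Real.log_mul hpR'.ne' (by positivity), Real.log_pow]
  have h4 : 3 * ((Syr^[j] m : ℕ) : ℝ) + 1 = 3 * ((Syr^[j] m : ℕ) : ℝ) * (1 + 1 / (3 * ((Syr^[j] m : ℕ) : ℝ))) := by
    field_simp
  have h5 : Real.log (3 * ((Syr^[j] m : ℕ) : ℝ) + 1) = Real.log 3 + Real.log ((Syr^[j] m : ℕ) : ℝ) +
      Real.log (1 + 1 / (3 * ((Syr^[j] m : ℕ) : ℝ))) := by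
    rw [h4, Real.log_mul (by positivity) (by positivity), Real.log_mul (by norm_num) hpR.ne']
  have h6 : E m (j + 1) - E m j = Real.log (1 + 1 / (3 * ((Syr^[j] m : ℕ) : ℝ))) := by
    unfold E
    rw [UL.S_succ]
    push_cast at h3 ⊢
    linarith
  have h7 : (0 : ℝ) < 1 / (3 * ((Syr^[j] m : ℕ) : ℝ)) := by positivity
  rw [h6]
  refine ⟨Real.log_nonneg (by linarith), ?_⟩
  have h8 := Real.log_le_sub_one_of_pos (show (0 : ℝ) < 1 + 1 / (3 * ((Syr^[j] m : ℕ) : ℝ)) by positivity)
  have h9 : (1 : ℝ) / (3 * ((Syr^[j] m : ℕ) : ℝ)) ≤ 1 / ((Syr^[j] m : ℕ) : ℝ) := by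
    apply one_div_le_one_div_of_le hpR
    linarith
  linarith

theorem E_zero (m : ℕ) : E m 0 = 0 := by simp [E, UL.S]

theorem E_nonneg {m : ℕ} (hm : m % 2 = 1) (j : ℕ) : 0 ≤ E m j := by
  induction j with
  | zero => rw [E_zero]
  | succ j ih => linarith [(E_succ hm j).1]

theorem E_le_sum {m : ℕ} (hm : m % 2 = 1) (j : ℕ) : E m j ≤ ∑ i ∈ range j, 1 / ((Syr^[i] m : ℕ) : ℝ) := by
  induction j with
  | zero => simp [E_zero]
  | succ j ih =>
    rw [Finset.sum_range_succ]
    linarith [(E_succ hm j).2]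

theorem E_bound {m : ℕ} (hm : m % 2 = 1) {J : ℕ} (h1 : Syr^[J] m = 1) (h2 : ∀ i < J, Syr^[i] m ≠ 1)
    {j : ℕ} (hj : j ≤ J) : E m j ≤ 1 + Real.log (J + 2) := by
  refine (E_le_sum hm j).trans ?_
  have hinj : Set.InjOn (fun i => Syr^[i] m) (range j) := by
    have key : ∀ i k, i < k → k < J → Syr^[i] m ≠ Syr^[k] m := by
      intro i k hik hk h
      have h3 : Syr^[J - k + i] m = 1 := by
        rw [Function.iterate_add_apply, h, ← Function.iterate_add_apply]
        rw [show J - k + k = J by omega]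
        exact h1
      exact h2 _ (by omega) h3
    intro i hi k hk h
    rw [Finset.mem_coe, Finset.mem_range] at hi hk
    by_contra hne
    rcases lt_or_gt_of_ne hne with h3 | h3
    · exact key i k h3 (by omega) h
    · exact key k i h3 (by omega) h.symm
  have h3 : ∑ i ∈ range j, 1 / ((Syr^[i] m : ℕ) : ℝ) =
      ∑ x ∈ (range j).image (fun i => Syr^[i] m), 1 / (x : ℝ) := by
    rw [Finset.sum_image]
    exact hinj
  rw [h3]
  refine (UL.inv_sum _ ?_).trans ?_
  · intro x hx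
    rw [Finset.mem_image] at hx
    obtain ⟨i, _, rfl⟩ := hx
    exact syr_pos hm i
  · rw [Finset.card_image_of_injOn hinj, Finset.card_range]
    have h4 := harmonic_le_one_add_log j
    have h5 : Real.log j ≤ Real.log (J + 2) := by
      rcases Nat.eq_zero_or_pos j with h0 | h0
      · subst h0
        simp only [Nat.cast_zero, Real.log_zero]
        exact Real.log_nonneg (by have : (0 : ℝ) ≤ J := Nat.cast_nonneg J; linarith)
      · apply Real.log_le_log (by exact_mod_cast h0)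
        have : (j : ℝ) ≤ J := by exact_mod_cast hj
        linarith
    refine le_trans (le_of_eq ?_) (h4.trans (by linarith))
    unfold harmonic
    push_cast
    apply Finset.sum_congr rfl
    intro i _
    rw [one_div]

theorem log6 : Real.log 6 = Real.log 2 + Real.log 3 := by
  rw [← Real.log_mul (by norm_num) (by norm_num)]
  norm_num

/-- the deviation at the times of the odd terms -/
theorem dev {m : ℕ} (hm : m % 2 = 1) (v j : ℕ) :
    Real.log ((Syr^[j] m : ℕ) : ℝ) - Real.log ((2 ^ v * m : ℕ) : ℝ) + ((tt v m j : ℕ) : ℝ) / 3 * Real.log (4 / 3) =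
      Real.log 6 / 3 * (Yn m j : ℤ) + E m j - v * (Real.log 2 - Real.log (4 / 3) / 3) := by
  have h1 : Real.log ((2 ^ v * m : ℕ) : ℝ) = v * Real.log 2 + Real.log m := by
    have : (0 : ℝ) < m := by
      have : 0 < m := by omega
      exact_mod_cast this
    push_cast
    rw [Real.log_mul (by positivity) this.ne', Real.log_pow]
  rw [h1, UL.log43_eq, log6]
  unfold E tt Yn
  push_cast
  ring

theorem main : S_CPATH := by
  intro v m J hm h1 h2
  have hlog2 : 0 < Real.log 2 := Real.log_pos (by norm_num)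
  have hlog2' : Real.log 2 ≤ 1 := UL.log2_hi
  have h43 : Real.log (4 / 3) ≤ 1 / 3 := UL.log43_hi
  have h43' : (1 / 4 : ℝ) ≤ Real.log (4 / 3) := UL.log43_lo
  have hlog2'' : (1 / 2 : ℝ) ≤ Real.log 2 := by
    have := Real.log_two_gt_d9
    linarith
  set c0 := Real.log 2 - Real.log (4 / 3) / 3 with hc0
  have hc1 : 0 ≤ c0 := by linarith
  have hc2 : c0 ≤ 1 := by linarith
  have hv : (0 : ℝ) ≤ v := Nat.cast_nonneg v
  have hvc : v * c0 ≤ v := by nlinarith
  have hvc0 : 0 ≤ v * c0 := by positivity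
  have hJ : 0 ≤ Real.log ((J : ℝ) + 2) := Real.log_nonneg (by
    have : (0 : ℝ) ≤ J := Nat.cast_nonneg J
    linarith)
  have hE : ∀ j ≤ J, 0 ≤ E m j ∧ E m j ≤ 1 + Real.log (J + 2) := fun j hj =>
    ⟨E_nonneg hm j, E_bound hm h1 h2 hj⟩
  have her : er0 v J = v + 10 + 2 * Real.log (J + 2) := rfl
  have hm0 : (0 : ℝ) < m := by
    have : 0 < m := by omega
    exact_mod_cast this
  have hlogn : Real.log ((2 ^ v * m : ℕ) : ℝ) = v * Real.log 2 + Real.log m := by
    push_cast
    rw [Real.log_mul (by positivity) hm0.ne', Real.log_pow]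
  refine ⟨tt v m J, stop hm v h1 h2, ?_, fun thr => ⟨fun h k hk => ?_, fun h j hj => ?_⟩⟩
  · have h3 := dev hm v J
    rw [h1, Nat.cast_one, Real.log_one, ← hc0] at h3
    obtain ⟨h4, h5⟩ := hE J le_rfl
    have h6 : ((tt v m J : ℕ) : ℝ) * Real.log (4 / 3) / 3 - Real.log ((2 ^ v * m : ℕ) : ℝ) -
        Real.log 6 / 3 * (Yn m J : ℤ) = E m J - v * c0 := by
      linarith
    rw [h6, abs_le, her]
    constructor <;> linarith
  · -- upper bound along the path
    have hthr : er0 v J ≤ thr := by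
      have := h 0 (Nat.zero_le J)
      have hY : Yn m 0 = 0 := by simp [Yn, UL.S]
      rw [hY] at this
      simpa using this
    have hodd : ∀ j ≤ J, Real.log ((Syr^[j] m : ℕ) : ℝ) - Real.log ((2 ^ v * m : ℕ) : ℝ) +
        ((tt v m j : ℕ) : ℝ) / 3 * Real.log (4 / 3) + 9 + Real.log (J + 2) ≤ thr := by
      intro j hj
      rw [dev hm v j, ← hc0]
      have h3 := h j hj
      rw [her] at h3
      obtain ⟨h4, h5⟩ := hE j hj
      linarith
    rcases hk.lt_or_eq with hk | hk
    · rcases pos v m J k hk with h3 | ⟨j, hj, s, hs, rfl⟩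
      · rw [C_two v m k h3.le, hlogn]
        push_cast
        rw [Real.log_mul (by positivity) hm0.ne', Real.log_pow, Nat.cast_sub h3.le]
        have h4 : (0 : ℝ) ≤ k := Nat.cast_nonneg k
        have h5 : 0 ≤ er0 v J := by rw [her]; positivity
        nlinarith
      · rcases Nat.eq_zero_or_pos s with h0 | h0
        · subst h0
          rw [add_zero, C_tt hm]
          have h3 := hodd j hj.le
          linarith
        · rw [C_mid hm v j s h0 (by omega)]
          have h3 := hodd j hj.le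
          have hx : 1 ≤ Syr^[j] m := syr_pos hm j
          have hxR : (1 : ℝ) ≤ ((Syr^[j] m : ℕ) : ℝ) := by exact_mod_cast hx
          have hw : 2 ^ wait m j ∣ 3 * Syr^[j] m + 1 := pow_padicValNat_dvd
          have hd : 2 ^ (s - 1) ∣ 3 * Syr^[j] m + 1 := (pow_dvd_pow 2 (by omega)).trans hw
          have h4 : (((3 * Syr^[j] m + 1) / 2 ^ (s - 1) : ℕ) : ℝ) =
              (3 * ((Syr^[j] m : ℕ) : ℝ) + 1) / 2 ^ (s - 1) := by
            rw [Nat.cast_div hd (by positivity)]
            push_cast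
            rfl
          have h5 : Real.log (3 * ((Syr^[j] m : ℕ) : ℝ) + 1) ≤ 2 * Real.log 2 + Real.log ((Syr^[j] m : ℕ) : ℝ) := by
            have h6 : Real.log (3 * ((Syr^[j] m : ℕ) : ℝ) + 1) ≤ Real.log (2 ^ 2 * ((Syr^[j] m : ℕ) : ℝ)) :=
              Real.log_le_log (by positivity) (by linarith)
            rw [Real.log_mul (by norm_num) (by positivity), Real.log_pow] at h6
            push_cast at h6
            exact h6
          rw [h4, Real.log_div (by positivity) (by positivity), Real.log_pow, Nat.cast_sub h0]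
          rw [hlogn] at h3 ⊢
          push_cast
          have h7 : (1 : ℝ) ≤ s := by exact_mod_cast h0
          nlinarith
    · rw [hk, C_tt hm]
      have h3 := hodd J le_rfl
      linarith
  · -- lower bound
    have hmono : tt v m j ≤ tt v m J := by
      have : Monotone (tt v m) := monotone_nat_of_le_succ fun i => by rw [tt_succ]; omega
      exact this hj
    have h3 := h (tt v m j) hmono
    rw [C_tt hm] at h3
    have h4 := dev hm v j
    rw [← hc0] at h4
    obtain ⟨h5, h6⟩ := hE j hj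
    rw [her]
    linarith

end Pool.Agent.H55.DK.CPATH
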