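import Pool.Agent.H55.DK.Stm

/-! Project DK: the error of one short stage is `O(1 / t ^ 3)`. -/

set_option autoImplicit false

namespace Pool.Agent.H55.DK.ERR

open Pool.Agent.H320R2.PD Pool.Agent.H499R2.ND Finset Filter Topology

theorem main : S_ERR := by
  obtain ⟨Cm, hCm, hmix⟩ := mix 64
  refine ⟨2 * (Cm * (2 ^ 64 / 0.4096 + 1)) + 3 * ((24 : ℕ).factorial * 12800 ^ 24)
    + 4 * 2 * ((3 : ℕ).factorial * 5 ^ 3), 1000, by positivity, le_rfl, ?_⟩
  intro A hA ht k m m' hm hk8 hk1 hm'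
  set t := Real.log A with htdef
  have htpos : 0 < t := by linarith
  have ht1 : 1 ≤ t := by linarith
  have hexpA : Real.exp t = A := Real.exp_log hA
  have hk0 : 0 < k := by
    rcases Nat.eq_zero_or_pos k with h | h
    · subst h
      norm_num at hk8
      linarith
    · exact h
  have hk1N : 1 ≤ k := hk0
  have hkpos : (1 : ℝ) ≤ k := by exact_mod_cast hk1N
  have hkR : (0 : ℝ) < k := by linarith
  -- `m`
  have hm2 : (m : ℝ) ^ 2 ≤ t := by
    refine le_trans ?_ hm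
    rcases Nat.eq_zero_or_pos m with h | h
    · subst h; norm_num
    · exact pow_le_pow_right₀ (by exact_mod_cast h) (by norm_num)
  have hmt : (m : ℝ) ≤ t / 2 := by
    have h1 : (m : ℝ) ≤ Real.sqrt t := Real.le_sqrt_of_sq_le hm2
    have h2 : Real.sqrt t ≤ t / 2 := by
      rw [Real.sqrt_le_left (by positivity)]
      nlinarith
    linarith
  -- `m'`
  set y : ℝ := (0.8 * t) ^ (1 / 16 : ℝ) with hy
  have hy16 : y ^ 16 = 0.8 * t := by
    rw [hy, ← Real.rpow_natCast, ← Real.rpow_mul (by positivity)]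
    norm_num
  have hy1 : 1 ≤ y := Real.one_le_rpow (by linarith) (by norm_num)
  have hm'y : (m' : ℝ) ≤ y := by rw [hm']; exact Nat.floor_le (by linarith)
  have hm'lo : y / 2 ≤ m' := by
    have h1 : y < m' + 1 := by rw [hm']; exact Nat.lt_floor_add_one y
    have h2 : 1 ≤ m' := by
      rw [hm', Nat.one_le_floor_iff]
      exact hy1
    have h3 : (1 : ℝ) ≤ m' := by exact_mod_cast h2
    linarith
  have hm'pos : 1 ≤ m' := by
    rw [hm', Nat.one_le_floor_iff]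
    exact hy1
  have hm'R : (0 : ℝ) < m' := by exact_mod_cast hm'pos
  have hm'k : m' ≤ k := by
    have h1 : (m' : ℝ) ^ 16 ≤ (k : ℝ) ^ 16 := by
      calc (m' : ℝ) ^ 16 ≤ y ^ 16 := pow_le_pow_left₀ hm'R.le hm'y 16
        _ = 0.8 * t := hy16
        _ ≤ (k : ℝ) ^ 8 := by linarith
        _ ≤ (k : ℝ) ^ 16 := pow_le_pow_right₀ hkpos (by norm_num)
    have h2 : (m' : ℝ) ≤ k := (pow_le_pow_iff_left₀ hm'R.le hkR.le (by norm_num)).1 h1
    exact_mod_cast h2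
  refine ⟨hk1N, hm'k, ?_⟩
  -- exponentially small quantities
  have hexp5 := exp_neg_le 3 (by norm_num : (0 : ℝ) < 5) htpos
  have hsmall : (2 : ℝ) ^ (41 * k / 20) * (2 * 3 ^ m / A) ≤ 2 * Real.exp (-(t / 5)) := by
    have h1 := pow_tm_le htpos.le hk1
    have h2 := pow_m_le ht hm2
    have h3 : (2 : ℝ) ^ (41 * k / 20) * (2 * 3 ^ m / A)
        ≤ Real.exp (0.7106 * t) * (2 * Real.exp (0.05 * t) / Real.exp t) := by
      rw [← hexpA]
      apply mul_le_mul h1 _ (by positivity) (Real.exp_pos _).le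
      apply div_le_div_of_nonneg_right _ (Real.exp_pos _).le
      linarith
    have h4 : Real.exp (0.7106 * t) * (2 * Real.exp (0.05 * t) / Real.exp t)
        = 2 * Real.exp (0.7106 * t + 0.05 * t - t) := by
      rw [Real.exp_sub, Real.exp_add]; ring
    rw [h4] at h3
    refine h3.trans ?_
    apply mul_le_mul_of_nonneg_left _ (by norm_num)
    apply Real.exp_le_exp.2
    linarith
  have hexpsmall : Real.exp (-(t / 5)) ≤ 1 / 2 := by
    have h1 := Real.add_one_le_exp (t / 5)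
    rw [Real.exp_neg, inv_eq_one_div]
    apply one_div_le_one_div_of_le (by norm_num)
    linarith
  have h3mA : 0 ≤ (2 * 3 ^ m / A : ℝ) := by positivity
  have hone : (2 * 3 ^ m / A : ℝ) ≤ 2 * Real.exp (-(t / 5)) := by
    have : (1 : ℝ) ≤ 2 ^ (41 * k / 20) := one_le_pow₀ (by norm_num)
    nlinarith
  -- mixing
  have hδ := hmix k m m' (3 * k) hk1N hm'pos hm'k (le_refl _)
  set δ := ∑ T ∈ range (k * (3 * k) + 1), dev (FWT (3 * k) k T) wwt (fun w => (Wo w : ℤ)) (k + m) m'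
    with hδdef
  have hδnn : 0 ≤ δ := sum_nonneg fun _ _ => sum_nonneg fun _ _ => abs_nonneg _
  have hδ2 : δ ≤ (Cm * (2 ^ 64 / 0.4096 + 1)) / t ^ 3 := by
    have e1 : ((k : ℝ) + m) ≤ t := by linarith
    have e2 : (1 / (m' : ℝ)) ^ 64 ≤ (2 ^ 64 / 0.4096) / t ^ 4 := by
      have h1 : (y / 2) ^ 64 ≤ (m' : ℝ) ^ 64 := pow_le_pow_left₀ (by positivity) hm'lo 64
      have h2 : (y / 2) ^ 64 = 0.4096 * t ^ 4 / 2 ^ 64 := by
        rw [div_pow, show (64 : ℕ) = 16 * 4 by norm_num, pow_mul y, hy16]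
        ring
      rw [div_pow, one_pow, div_le_div_iff₀ (by positivity) (by positivity), one_mul]
      rw [h2, div_le_iff₀ (by positivity)] at h1
      have h3 : (2 : ℝ) ^ 64 / 0.4096 * (m' : ℝ) ^ 64 = ((m' : ℝ) ^ 64 * 2 ^ 64) / 0.4096 := by ring
      rw [h3, le_div_iff₀ (by norm_num)]
      linarith
    have e3 : ((m : ℝ) / k) ^ 64 ≤ 1 / t ^ 4 := by
      have h1 : (m : ℝ) ^ 64 ≤ t ^ 4 := by
        calc (m : ℝ) ^ 64 = ((m : ℝ) ^ 16) ^ 4 := by rw [← pow_mul]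
          _ ≤ t ^ 4 := pow_le_pow_left₀ (by positivity) hm 4
      have h2 : t ^ 8 ≤ (k : ℝ) ^ 64 := by
        calc t ^ 8 ≤ ((k : ℝ) ^ 8) ^ 8 := pow_le_pow_left₀ htpos.le hk8 8
          _ = (k : ℝ) ^ 64 := by rw [← pow_mul]
      rw [div_pow, div_le_div_iff₀ (by positivity) (by positivity), one_mul]
      calc (m : ℝ) ^ 64 * t ^ 4 ≤ t ^ 4 * t ^ 4 := mul_le_mul_of_nonneg_right h1 (by positivity)
        _ = t ^ 8 := by ring
        _ ≤ (k : ℝ) ^ 64 := h2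
    have e4 : t * (Cm * ((2 ^ 64 / 0.4096) / t ^ 4 + 1 / t ^ 4)) = (Cm * (2 ^ 64 / 0.4096 + 1)) / t ^ 3 := by
      field_simp
    calc δ ≤ (k + m) * (Cm * ((1 / (m' : ℝ)) ^ 64 + ((m : ℝ) / k) ^ 64)) := hδ
      _ ≤ t * (Cm * ((2 ^ 64 / 0.4096) / t ^ 4 + 1 / t ^ 4)) := by
          have p1 : 0 ≤ (1 / (m' : ℝ)) ^ 64 := pow_nonneg (by positivity) _
          have p2 : 0 ≤ ((m : ℝ) / k) ^ 64 := pow_nonneg (by positivity) _
          apply mul_le_mul e1 _ (mul_nonneg hCm.le (add_nonneg p1 p2)) htpos.le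
          apply mul_le_mul_of_nonneg_left _ hCm.le
          linarith
      _ = _ := e4
  -- mass
  have hmass := mass_GW k
  have hmass2 : Real.exp (-(k / 12800 : ℝ)) ≤ ((24 : ℕ).factorial * 12800 ^ 24) / t ^ 3 := by
    have h1 := exp_neg_le 24 (by norm_num : (0 : ℝ) < 12800) hkR
    refine h1.trans ?_
    apply div_le_div_of_nonneg_left (by positivity) (by positivity)
    calc t ^ 3 ≤ ((k : ℝ) ^ 8) ^ 3 := pow_le_pow_left₀ htpos.le hk8 3
      _ = (k : ℝ) ^ 24 := by rw [← pow_mul]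
  unfold Err
  rw [← hδdef]
  have hd : |((1 : ℤ) : ℝ)| = 1 := by norm_num
  rw [hd]
  have f1 : (1 + 2 ^ (41 * k / 20) * (2 * 3 ^ m / A)) * δ ≤ 2 * δ :=
    mul_le_mul_of_nonneg_right (by linarith) hδnn
  have f2 : (1 + ((1 : ℝ) + 2) * 2 ^ (41 * k / 20)) * (2 * 3 ^ m / A) ≤ 4 * (2 * Real.exp (-(t / 5))) := by
    calc (1 + ((1 : ℝ) + 2) * 2 ^ (41 * k / 20)) * (2 * 3 ^ m / A)
        = (2 * 3 ^ m / A) + 3 * (2 ^ (41 * k / 20) * (2 * 3 ^ m / A)) := by ring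
      _ ≤ 2 * Real.exp (-(t / 5)) + 3 * (2 * Real.exp (-(t / 5))) := by linarith
      _ = _ := by ring
  have f3 : 4 * (2 * Real.exp (-(t / 5))) ≤ 4 * (2 * (((3 : ℕ).factorial * 5 ^ 3) / t ^ 3)) := by
    linarith
  calc (1 + 2 ^ (41 * k / 20) * (2 * 3 ^ m / A)) * δ
      + (1 - ∑ w ∈ GW (3 * k) k ((39 * k + 19) / 20) (41 * k / 20), wwt w)
      + (1 + ((1 : ℝ) + 2) * 2 ^ (41 * k / 20)) * (2 * 3 ^ m / A)
      ≤ 2 * ((Cm * (2 ^ 64 / 0.4096 + 1)) / t ^ 3)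
        + 3 * (((24 : ℕ).factorial * 12800 ^ 24) / t ^ 3)
        + 4 * (2 * (((3 : ℕ).factorial * 5 ^ 3) / t ^ 3)) := by
        linarith
    _ = _ := by ring

end Pool.Agent.H55.DK.ERR
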