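import Pool.Agent.H55.DK.FStm

/-! DK-BM (helper19): step functions with grid values of Brownian motion. -/

set_option autoImplicit false

namespace Pool.Agent.H55.DK.BM

open Finset Filter Topology MeasureTheory ProbabilityTheory
open scoped NNReal

/-- the grid time -/
noncomputable def gt (G : ℕ) (i : ℕ) : ℝ≥0 := (i : ℝ≥0) / (G : ℝ≥0)

lemma gt_coe (G i : ℕ) : ((gt G i : ℝ≥0) : ℝ) = (i : ℝ) / G := by
  unfold gt
  push_cast
  rfl

lemma gt_mono (G : ℕ) : Monotone (gt G) := by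
  intro i j hij
  unfold gt
  gcongr

/-- the increments -/
noncomputable def inc {Ω : Type} (B : ℝ≥0 → Ω → ℝ) (G : ℕ) {r : ℕ} (i : Fin r) (ω : Ω) : ℝ :=
  B (gt G ((i : ℕ) + 1)) ω - B (gt G (i : ℕ)) ω

lemma law_inc {Ω : Type} [MeasurableSpace Ω] {P : Measure Ω} [IsProbabilityMeasure P]
    {B : ℝ≥0 → Ω → ℝ} (hB : IsPreBrownianReal B P) {G r : ℕ} (hG : 0 < G) :
    P.map (fun ω (i : Fin r) => inc B G i ω) =
      Measure.pi (fun _ : Fin r => gaussianReal 0 (1 / (G : ℝ≥0))) := by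
  have hind : iIndepFun (fun (i : Fin r) ω => inc B G i ω) P := by
    have h1 := hB.hasIndepIncrements.nat (gt_mono G)
    exact h1.precomp (g := fun i : Fin r => (i : ℕ)) Fin.val_injective
  have hm : ∀ i : Fin r, AEMeasurable (fun ω => inc B G i ω) P := fun i =>
    (hB.aemeasurable _).sub (hB.aemeasurable _)
  rw [(iIndepFun_iff_map_fun_eq_pi_map hm).1 hind]
  congr 1
  funext i
  have h2 := (hB.hasLaw_sub (gt G ((i : ℕ) + 1)) (gt G (i : ℕ))).map_eq
  have h3 : (fun ω => inc B G i ω) = B (gt G ((i : ℕ) + 1)) - B (gt G (i : ℕ)) := rfl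
  rw [h3, h2]
  congr 1
  have hG' : (0 : ℝ) < G := by exact_mod_cast hG
  apply NNReal.coe_injective
  rw [coe_nndist, Real.dist_eq]
  have e1 : (gt G ((i : ℕ) + 1)).1 = ((i : ℕ) + 1 : ℝ) / G := by
    show ((gt G ((i : ℕ) + 1) : ℝ≥0) : ℝ) = _
    unfold gt
    push_cast
    rfl
  have e2 : (gt G (i : ℕ)).1 = ((i : ℕ) : ℝ) / G := by
    show ((gt G (i : ℕ) : ℝ≥0) : ℝ) = _
    unfold gt
    push_cast
    rfl
  rw [e1, e2]
  push_cast
  rw [← sub_div, add_sub_cancel_left]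
  exact abs_of_pos (by positivity)

lemma stp_cont_aux {r : ℕ} (G : ℕ) (v w : Fin r → ℝ) (s : ℝ) :
    |stp G v s - stp G w s| ≤ ∑ i, |v i - w i| := by
  unfold stp
  rw [← Finset.sum_sub_distrib]
  refine (Finset.abs_sum_le_sum_abs _ _).trans (Finset.sum_le_sum fun i _ => ?_)
  split_ifs
  · exact le_rfl
  · rw [sub_self, abs_zero]
    exact abs_nonneg _

lemma cont_F {F : (ℝ → ℝ) → ℝ} (hF : Adm F) (G r : ℕ) :
    Continuous (fun v : Fin r → ℝ => F (stp G v)) := by
  rw [Metric.continuous_iff]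
  intro v ε hε
  obtain ⟨η, hη, h⟩ := hF.2 (ε / 2) (by positivity)
  refine ⟨η / (r + 1), by positivity, fun w hw => ?_⟩
  rw [Real.dist_eq]
  refine lt_of_le_of_lt (h _ _ fun s _ _ => ?_) (by linarith)
  refine (stp_cont_aux G w v s).trans ?_
  have h1 : ∀ i, |w i - v i| ≤ η / (r + 1) := by
    intro i
    have := dist_le_pi_dist w v i
    rw [Real.dist_eq] at this
    linarith
  calc ∑ i, |w i - v i| ≤ ∑ _i : Fin r, η / (r + 1) := Finset.sum_le_sum fun i _ => h1 i
    _ = r * (η / (r + 1)) := by simp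
    _ ≤ η := by
      rw [mul_div_assoc', div_le_iff₀ (by positivity)]
      nlinarith

lemma stp_inc {Ω : Type} (B : ℝ≥0 → Ω → ℝ) (G r : ℕ) (ω : Ω) {s : ℝ} (hs : 0 ≤ s) :
    stp G (fun i : Fin r => inc B G i ω) s = B (gt G (min ⌊s * G⌋₊ r)) ω - B (gt G 0) ω := by
  unfold stp inc
  have h1 : ∀ i : ℕ, ((i : ℝ) + 1 ≤ s * G) ↔ i < ⌊s * G⌋₊ := by
    intro i
    rw [Nat.lt_iff_add_one_le, Nat.le_floor_iff (by positivity)]
    push_cast
    rfl
  simp only [h1]
  rw [Fin.sum_univ_eq_sum_range (fun i => if i < ⌊s * G⌋₊ then B (gt G (i + 1)) ω - B (gt G i) ω else 0) r,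
    ← Finset.sum_filter]
  have h2 : (range r).filter (fun i => i < ⌊s * G⌋₊) = range (min ⌊s * G⌋₊ r) := by
    ext i
    simp only [mem_filter, mem_range, lt_min_iff]
    exact and_comm
  rw [h2, Finset.sum_range_sub (fun i => B (gt G i) ω)]

lemma time_close {g h : ℕ} (hg : 0 < g) (hh : 0 < h) {s : ℝ} (hs : 0 ≤ s) (hs1 : s ≤ 1) :
    |((gt (g * h) (min ⌊s * ((g * h : ℕ) : ℝ)⌋₊ ((g - 1) * h)) : ℝ≥0) : ℝ) - s| ≤ 1 / g := by
  have hg' : (0 : ℝ) < g := by exact_mod_cast hg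
  have hh' : (1 : ℝ) ≤ h := by exact_mod_cast hh
  set G : ℕ := g * h with hG
  have hGr : (G : ℝ) = g * h := by rw [hG]; push_cast; rfl
  have hG0 : (0 : ℝ) < G := by rw [hGr]; positivity
  have hGg : 1 / (G : ℝ) ≤ 1 / g := by
    rw [hGr]
    exact one_div_le_one_div_of_le hg' (by nlinarith)
  have e1 : ∀ i : ℕ, ((gt G i : ℝ≥0) : ℝ) = (i : ℝ) / G := by
    intro i
    unfold gt
    push_cast
    rfl
  rw [e1]
  have hf1 : (⌊s * (G : ℝ)⌋₊ : ℝ) ≤ s * G := Nat.floor_le (by positivity)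
  have hf2 : s * G < ⌊s * (G : ℝ)⌋₊ + 1 := Nat.lt_floor_add_one _
  rcases le_total ⌊s * (G : ℝ)⌋₊ ((g - 1) * h) with hle | hle
  · rw [min_eq_left hle, abs_le]
    constructor
    · have : s - 1 / G ≤ (⌊s * (G : ℝ)⌋₊ : ℝ) / G := by
        rw [le_div_iff₀ hG0, sub_mul, one_div, inv_mul_cancel₀ hG0.ne']
        linarith
      linarith
    · have : (⌊s * (G : ℝ)⌋₊ : ℝ) / G ≤ s := by rwa [div_le_iff₀ hG0]
      have : 0 < 1 / (g : ℝ) := by positivity
      linarith
  · rw [min_eq_right hle]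
    have hr : (((g - 1) * h : ℕ) : ℝ) = (g - 1) * h := by
      rw [Nat.cast_mul, Nat.cast_sub hg, Nat.cast_one]
    have h1 : (((g - 1) * h : ℕ) : ℝ) / G = 1 - 1 / g := by
      rw [hr, hGr]
      field_simp
    have h2 : (((g - 1) * h : ℕ) : ℝ) ≤ s * G := by
      have : (((g - 1) * h : ℕ) : ℝ) ≤ (⌊s * (G : ℝ)⌋₊ : ℝ) := by exact_mod_cast hle
      linarith
    have h3 : (((g - 1) * h : ℕ) : ℝ) / G ≤ s := by rwa [div_le_iff₀ hG0]
    rw [h1] at h3 ⊢
    rw [abs_le]
    constructor <;> linarith [show 0 < 1 / (g : ℝ) by positivity]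

theorem main : S_BM := by
  intro Ω _ P _ B hB F hF h hh
  have h1 : ∀ g : ℕ, 0 < g → ∫ v : Fin ((g - 1) * h g) → ℝ, F (stp (g * h g) v)
      ∂(Measure.pi fun _ => gaussianReal 0 (1 / ((g * h g : ℕ) : ℝ≥0))) =
      ∫ ω, F (stp (g * h g) (fun i : Fin ((g - 1) * h g) => inc B (g * h g) i ω)) ∂P := by
    intro g hg
    rw [← law_inc hB.toIsPreBrownianReal (Nat.mul_pos hg (hh g)), integral_map]
    · exact aemeasurable_pi_lambda _ fun i => (hB.aemeasurable _).sub (hB.aemeasurable _)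
    · exact (cont_F hF _ _).aestronglyMeasurable
  refine Tendsto.congr' (f₁ := fun g : ℕ => ∫ ω, F (stp (g * h g)
    (fun i : Fin ((g - 1) * h g) => inc B (g * h g) i ω)) ∂P) ?_ ?_
  · filter_upwards [eventually_gt_atTop 0] with g hg
    exact (h1 g hg).symm
  · refine tendsto_integral_of_dominated_convergence (fun _ => (1 : ℝ)) ?_ (integrable_const _) ?_ ?_
    · intro g
      have hm : AEMeasurable (fun ω (i : Fin ((g - 1) * h g)) => inc B (g * h g) i ω) P :=
        aemeasurable_pi_lambda _ fun i => (hB.aemeasurable _).sub (hB.aemeasurable _)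
      exact ((cont_F hF (g * h g) ((g - 1) * h g)).measurable.comp_aemeasurable hm).aestronglyMeasurable
    · intro g
      exact Eventually.of_forall fun ω => by
        rw [Real.norm_eq_abs]
        exact hF.1 _
    · filter_upwards [hB.cont, hB.eval_zero_ae_eq_zero] with ω hc h0
      rw [Metric.tendsto_atTop]
      intro ε hε
      obtain ⟨η, hη, hη2⟩ := hF.2 (ε / 2) (by positivity)
      -- uniform continuity
      have huc : UniformContinuousOn (fun t : ℝ => B t.toNNReal ω) (Set.Icc 0 1) :=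
        isCompact_Icc.uniformContinuousOn_of_continuous
          ((hc.comp continuous_real_toNNReal).continuousOn)
      rw [Metric.uniformContinuousOn_iff] at huc
      obtain ⟨d, hd, hd2⟩ := huc η hη
      obtain ⟨N, hN⟩ := exists_nat_gt (1 / d)
      refine ⟨N + 1, fun g hg => ?_⟩
      have hg0 : 0 < g := by omega
      have hg' : (0 : ℝ) < g := by exact_mod_cast hg0
      have hgd : 1 / (g : ℝ) < d := by
        rw [div_lt_iff₀ hg']
        have : (N : ℝ) + 1 ≤ g := by exact_mod_cast hg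
        rw [div_lt_iff₀ hd] at hN
        nlinarith
      rw [Real.dist_eq]
      refine lt_of_le_of_lt (hη2 _ _ fun s hs0 hs1 => ?_) (by linarith)
      rw [stp_inc B _ _ ω hs0]
      have hz : gt (g * h g) 0 = 0 := by unfold gt; simp
      rw [hz, h0, sub_zero]
      set τ := gt (g * h g) (min ⌊s * ((g * h g : ℕ) : ℝ)⌋₊ ((g - 1) * h g)) with hτ
      have hclose := time_close hg0 (hh g) hs0 hs1
      rw [← hτ] at hclose
      have hτ1 : (τ : ℝ) ≤ 1 := by
        have hG0 : (0 : ℝ) < ((g * h g : ℕ) : ℝ) := by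
          exact_mod_cast Nat.mul_pos hg0 (hh g)
        have : ((τ : ℝ≥0) : ℝ) = ((min ⌊s * ((g * h g : ℕ) : ℝ)⌋₊ ((g - 1) * h g) : ℕ) : ℝ) /
            ((g * h g : ℕ) : ℝ) := by
          rw [hτ, gt_coe]
        rw [this, div_le_one hG0]
        have : min ⌊s * ((g * h g : ℕ) : ℝ)⌋₊ ((g - 1) * h g) ≤ g * h g :=
          (min_le_right _ _).trans (Nat.mul_le_mul_right _ (Nat.sub_le _ _))
        exact_mod_cast this
      have h2 := hd2 (τ : ℝ) ⟨τ.coe_nonneg, hτ1⟩ s ⟨hs0, hs1⟩ (by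
        rw [Real.dist_eq]
        exact lt_of_le_of_lt hclose hgd)
      rw [Real.dist_eq] at h2
      simp only [Real.toNNReal_coe] at h2
      exact h2.le

end Pool.Agent.H55.DK.BM
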