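import Pool.Agent.H55.DK.FStm
import Pool.Agent.H55.DK.CPATH

/-! DK-CDEV (helper19): all terms of the trajectory of `C`. -/

set_option autoImplicit false

namespace Pool.Agent.H55.DK.CDEV

open Finset Filter Topology
open Pool.Agent.Results.MP_f7abf1_nt.BlockLaw (Syr wait)
open Pool.Agent.H55.DK.CPATH (tt tt_succ C_tt C_mid C_two pos stop E E_nonneg E_bound syr_pos)

theorem tc_unique {n s t : ℕ} (hs : IsTC n s) (ht : IsTC n t) : s = t := by
  rcases lt_trichotomy s t with h | h | h
  · exact absurd hs.1 (ht.2 s h)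
  · exact h
  · exact absurd ht.1 (hs.2 t h)

theorem main : S_CDEV := by
  intro v m J t hm h1 h2 ht
  have htt : t = tt v m J := tc_unique ht (stop hm v h1 h2)
  subst htt
  have hlog2 : 0 < Real.log 2 := Real.log_pos (by norm_num)
  have hlog2' : Real.log 2 ≤ 1 := UL.log2_hi
  have hlog2u : Real.log 2 ≤ 7 / 10 := by
    have := Real.log_two_lt_d9
    linarith
  have h43 : Real.log (4 / 3) ≤ 1 / 3 := UL.log43_hi
  have h43' : (1 / 4 : ℝ) ≤ Real.log (4 / 3) := UL.log43_lo
  have hlog2'' : (1 / 2 : ℝ) ≤ Real.log 2 := by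
    have := Real.log_two_gt_d9
    linarith
  set c0 := Real.log 2 - Real.log (4 / 3) / 3 with hc0
  have hc1 : 0 ≤ c0 := by linarith
  have hc2 : c0 ≤ 1 := by linarith
  have hv : (0 : ℝ) ≤ v := Nat.cast_nonneg v
  have hvc : v * c0 ≤ v := by nlinarith
  have hvc0 : 0 ≤ v * c0 := by positivity
  have hJ : 0 ≤ Real.log ((J : ℝ) + 2) := Real.log_nonneg (by
    have : (0 : ℝ) ≤ J := Nat.cast_nonneg J
    linarith)
  have hE : ∀ j ≤ J, 0 ≤ E m j ∧ E m j ≤ 1 + Real.log (J + 2) := fun j hj =>
    ⟨E_nonneg hm j, E_bound hm h1 h2 hj⟩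
  have her : er0 v J = v + 10 + 2 * Real.log (J + 2) := rfl
  have hm0 : (0 : ℝ) < m := by
    have : 0 < m := by omega
    exact_mod_cast this
  have hlogn : Real.log ((2 ^ v * m : ℕ) : ℝ) = v * Real.log 2 + Real.log m := by
    push_cast
    rw [Real.log_mul (by positivity) hm0.ne', Real.log_pow]
  have htime : ∀ j, ((tt v m j : ℕ) : ℝ) - 3 * j = v - ((Yn m j : ℤ) : ℝ) := by
    intro j
    unfold tt Yn
    push_cast
    ring
  have hdev : ∀ j, dev (2 ^ v * m) (tt v m j) = Real.log 6 / 3 * (Yn m j : ℤ) + E m j - v * c0 := by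
    intro j
    unfold DK.dev
    rw [C_tt hm, CPATH.dev hm v j]
  refine ⟨by unfold tt Yn; push_cast; ring, fun k hk => ?_⟩
  have hcase0 : ∀ j ≤ J, |dev (2 ^ v * m) (tt v m j) - Real.log 6 / 3 * (Yn m j : ℤ)| ≤
      |((Yn m (j + 1) - Yn m j : ℤ) : ℝ)| + er0 v J ∧
      |((tt v m j : ℕ) : ℝ) - 3 * j| ≤ v + 3 + |((Yn m j : ℤ) : ℝ)| + |((Yn m (j + 1) : ℤ) : ℝ)| := by
    intro j hj
    obtain ⟨h5, h6⟩ := hE j hj
    have a1 := abs_nonneg ((Yn m (j + 1) - Yn m j : ℤ) : ℝ)
    have a2 := abs_nonneg ((Yn m (j + 1) : ℤ) : ℝ)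
    constructor
    · rw [hdev, her, abs_le]
      constructor <;> linarith
    · rw [htime, abs_le]
      have b1 := le_abs_self ((Yn m j : ℤ) : ℝ)
      have b2 := neg_abs_le ((Yn m j : ℤ) : ℝ)
      constructor <;> linarith
  rcases hk.lt_or_eq with hk | hk
  · rcases pos v m J k hk with h3 | ⟨j, hj, s, hs, rfl⟩
    · refine ⟨0, Nat.zero_le J, ?_, ?_⟩
      · have hY : Yn m 0 = 0 := by simp [Yn, UL.S]
        have hd : dev (2 ^ v * m) k = -(k * c0) := by
          unfold DK.dev
          rw [C_two v m k h3.le, hlogn]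
          push_cast
          rw [Real.log_mul (by positivity) hm0.ne', Real.log_pow, Nat.cast_sub h3.le]
          rw [hc0]
          ring
        rw [hd, hY]
        have a1 := abs_nonneg ((Yn m (0 + 1) - 0 : ℤ) : ℝ)
        have hkv : (k : ℝ) ≤ v := by exact_mod_cast h3.le
        have hk0 : (0 : ℝ) ≤ k := Nat.cast_nonneg k
        have b1 : 0 ≤ k * c0 := by positivity
        have b2 : k * c0 ≤ v := by nlinarith
        rw [Int.cast_zero, mul_zero, sub_zero, her, abs_le]
        constructor <;> linarith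
      · have a1 := abs_nonneg ((Yn m 0 : ℤ) : ℝ)
        have a2 := abs_nonneg ((Yn m (0 + 1) : ℤ) : ℝ)
        have hkv : (k : ℝ) ≤ v := by exact_mod_cast h3.le
        have hk0 : (0 : ℝ) ≤ k := Nat.cast_nonneg k
        rw [Nat.cast_zero, mul_zero, sub_zero, abs_of_nonneg hk0]
        linarith
    · refine ⟨j, hj.le, ?_⟩
      rcases Nat.eq_zero_or_pos s with h0 | h0
      · subst h0
        rw [add_zero]
        exact hcase0 j hj.le
      · obtain ⟨h5, h6⟩ := hE j hj.le
        have hwY : ((wait m j : ℕ) : ℝ) = 2 - ((Yn m (j + 1) - Yn m j : ℤ) : ℝ) := by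
          unfold Yn
          rw [UL.S_succ]
          push_cast
          ring
        have hsw : (s : ℝ) ≤ ((wait m j : ℕ) : ℝ) := by exact_mod_cast hs
        have hs1 : (1 : ℝ) ≤ s := by exact_mod_cast h0
        constructor
        · have hx : 1 ≤ Syr^[j] m := syr_pos hm j
          have hxR : (1 : ℝ) ≤ ((Syr^[j] m : ℕ) : ℝ) := by exact_mod_cast hx
          have hw : 2 ^ wait m j ∣ 3 * Syr^[j] m + 1 := pow_padicValNat_dvd
          have hd : 2 ^ (s - 1) ∣ 3 * Syr^[j] m + 1 := (pow_dvd_pow 2 (by omega)).trans hw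
          have h4 : (((3 * Syr^[j] m + 1) / 2 ^ (s - 1) : ℕ) : ℝ) =
              (3 * ((Syr^[j] m : ℕ) : ℝ) + 1) / 2 ^ (s - 1) := by
            rw [Nat.cast_div hd (by positivity)]
            push_cast
            rfl
          have h5' : Real.log (3 * ((Syr^[j] m : ℕ) : ℝ) + 1) ≤
              2 * Real.log 2 + Real.log ((Syr^[j] m : ℕ) : ℝ) := by
            have h6 : Real.log (3 * ((Syr^[j] m : ℕ) : ℝ) + 1) ≤
                Real.log (2 ^ 2 * ((Syr^[j] m : ℕ) : ℝ)) :=
              Real.log_le_log (by positivity) (by linarith)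
            rw [Real.log_mul (by norm_num) (by positivity), Real.log_pow] at h6
            push_cast at h6
            exact h6
          have h5'' : Real.log ((Syr^[j] m : ℕ) : ℝ) ≤ Real.log (3 * ((Syr^[j] m : ℕ) : ℝ) + 1) :=
            Real.log_le_log (by linarith) (by linarith)
          have hd2 : dev (2 ^ v * m) (tt v m j + s) = Real.log 6 / 3 * (Yn m j : ℤ) + E m j - v * c0 +
              (Real.log (3 * ((Syr^[j] m : ℕ) : ℝ) + 1) - Real.log ((Syr^[j] m : ℕ) : ℝ)) +
              Real.log 2 - s * c0 := by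
            rw [← hdev j]
            unfold DK.dev
            rw [C_mid hm v j s h0 (by omega), C_tt hm, h4, Real.log_div (by positivity) (by positivity),
              Real.log_pow, Nat.cast_sub h0, hc0]
            push_cast
            ring
          rw [hd2, her]
          have hsc : s * c0 ≤ s := by nlinarith
          have hsc0 : 0 ≤ s * c0 := by positivity
          have b1 := neg_abs_le ((Yn m (j + 1) - Yn m j : ℤ) : ℝ)
          have b2 := abs_nonneg ((Yn m (j + 1) - Yn m j : ℤ) : ℝ)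
          rw [abs_le]
          constructor <;> linarith
        · push_cast
          have h7 := htime j
          have h8 : ((tt v m j : ℕ) : ℝ) + s - 3 * j = v - ((Yn m j : ℤ) : ℝ) + s := by linarith
          rw [h8]
          have b1 := neg_abs_le ((Yn m (j + 1) : ℤ) : ℝ)
          have b2 := abs_nonneg ((Yn m (j + 1) : ℤ) : ℝ)
          have b3 := le_abs_self ((Yn m j : ℤ) : ℝ)
          have b4 := neg_abs_le ((Yn m j : ℤ) : ℝ)
          push_cast at hwY
          rw [abs_le]
          constructor <;> linarith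
  · rw [hk]
    exact ⟨J, le_rfl, hcase0 J le_rfl⟩

end Pool.Agent.H55.DK.CDEV
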