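import Pool.Agent.H55.DK.Stm

/-!
# Project DK: control of the path in blocks and in the tail (proof of `S_CTRL`)
-/

set_option autoImplicit false

namespace Pool.Agent.H55.DK.CTRL

open Pool.Agent.H499R2.ND Finset Filter Topology
open Pool.Agent.TH977.IP (Sy ex)
open Pool.Agent.H319R2.Lln (mu)
open Pool.Agent.Results.MP_f7abf1_nt.BlockLaw (T Syr wait oddCount iter_cast wait_cast count_cls)
open Pool.Agent.H55.DK

theorem PB_le {S S' : Set ℤ} {A : ℝ} {m : ℕ} {ρ ρ' : ℝ} (hA : 0 < A) (hS : S ⊆ S') (hρ : ρ' ≤ ρ)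
    (h : PB S' A m ρ') : PB S A m ρ := by
  intro u v huv
  have h1 := h u v huv
  have h2 : (cls S A (2 * A) m u v).card ≤ (cls S' A (2 * A) m u v).card := by
    apply Finset.card_le_card
    intro x hx
    rw [mem_cls] at hx ⊢
    exact ⟨hx.1, hx.2.1, hS hx.2.2.1, hx.2.2.2⟩
  calc ((cls S A (2 * A) m u v).card : ℝ) ≤ ((cls S' A (2 * A) m u v).card : ℝ) := by
        exact_mod_cast h2
    _ ≤ ρ' * (A / (2 * 3 ^ m)) := h1
    _ ≤ ρ * (A / (2 * 3 ^ m)) := mul_le_mul_of_nonneg_right hρ (by positivity)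

theorem Yn_sub (n K j : ℕ) : Yn n (K + j) - Yn n K = Yz ((Syr^[K] n : ℕ) : ℤ) j := by
  have h := wait_cast (Syr^[K] n)
  have h1 : ∀ i, ex 1 ((Sy 1)^[i] ((Syr^[K] n : ℕ) : ℤ)) = wait n (K + i) := by
    intro i
    rw [congrFun h i]
    unfold wait
    rw [← Function.iterate_add_apply, add_comm i K]
  unfold Yn Yz UL.S
  rw [Finset.sum_range_add]
  simp_rw [h1]
  push_cast
  ring

theorem Syr_one : Syr 1 = 1 := by
  unfold Syr
  have h : padicValNat 2 (3 * 1 + 1) = 2 := by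
    rw [show 3 * 1 + 1 = 2 ^ 2 by norm_num]
    exact padicValNat.prime_pow 2
  rw [h]
  norm_num

theorem Syr_iter_one (k : ℕ) : Syr^[k] 1 = 1 := by
  induction k with
  | zero => rfl
  | succ k ih => rw [Function.iterate_succ_apply, Syr_one, ih]

theorem reach_aux (k : ℕ) : ∀ m : ℕ, m % 2 = 1 → T^[k] m = 1 → ∃ j, Syr^[j] m = 1 := by
  induction k using Nat.strong_induction_on with
  | _ k ih =>
    intro m hm hk
    have he := UL.val_pos hm
    rcases Nat.eq_zero_or_pos k with h0 | h0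
    · subst h0
      exact ⟨0, hk⟩
    · rcases Nat.lt_or_ge k (padicValNat 2 (3 * m + 1)) with h1 | h1
      · exfalso
        have hd : 2 ^ (k + 1) ∣ 3 * m + 1 := (pow_dvd_pow 2 h1).trans pow_padicValNat_dvd
        have hd' : 2 ^ k ∣ 3 * m + 1 := (pow_dvd_pow 2 (Nat.le_succ k)).trans hd
        rw [UL.T_block hm k h0 hd'] at hk
        obtain ⟨c, hc⟩ := hd
        have h2 : (3 * m + 1) / 2 ^ k = 2 * c := by
          rw [hc, pow_succ, mul_assoc, Nat.mul_div_cancel_left _ (by positivity)]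
        rw [h2] at hk
        omega
      · have h2 : T^[k - padicValNat 2 (3 * m + 1)] (Syr m) = 1 := by
          rw [← UL.T_val hm, ← Function.iterate_add_apply, Nat.sub_add_cancel h1]
          exact hk
        obtain ⟨j, hj⟩ := ih _ (by omega) (Syr m) UL.Syr_odd h2
        exact ⟨j + 1, by rw [Function.iterate_succ_apply]; exact hj⟩

theorem reach {n : ℕ} (hn : n % 2 = 1) (hR : UL.R n) (K : ℕ) : ∃ j, Syr^[j] (Syr^[K] n) = 1 := by
  obtain ⟨k, hk⟩ := hR
  obtain ⟨i, hi⟩ := reach_aux k n hn hk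
  refine ⟨i, ?_⟩
  rw [← Function.iterate_add_apply, add_comm, Function.iterate_add_apply, hi]
  exact Syr_iter_one K

open Classical in
theorem oddCount_eq (X : ℕ) (P : ℕ → Prop) :
    oddCount X P = (((range (X + 1)).filter fun n => Odd n ∧ P n).card : ℝ) := by
  unfold oddCount
  rw [← Set.ncard_coe_finset]
  congr 2
  ext n
  simp only [Finset.coe_filter, Finset.mem_range]
  constructor
  · rintro ⟨h1, h2⟩
    exact ⟨by omega, h2⟩
  · rintro ⟨h1, h2⟩
    exact ⟨by omega, h2⟩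

theorem oddCount_le (X r : ℕ) (P Q' : ℕ → Prop) (Q : ℕ → ℕ → Prop)
    (h : ∀ n, Odd n → P n → (∃ i < r, Q i n) ∨ Q' n) :
    oddCount X P ≤ ∑ i ∈ range r, oddCount X (Q i) + oddCount X Q' := by
  classical
  rw [oddCount_eq, oddCount_eq]
  simp_rw [oddCount_eq]
  have h1 : ((range (X + 1)).filter fun n => Odd n ∧ P n) ⊆
      ((range r).biUnion fun i => (range (X + 1)).filter fun n => Odd n ∧ Q i n) ∪
        (range (X + 1)).filter fun n => Odd n ∧ Q' n := by
    intro n hn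
    rw [Finset.mem_filter] at hn
    rw [Finset.mem_union, Finset.mem_biUnion]
    rcases h n hn.2.1 hn.2.2 with ⟨i, hi, hq⟩ | hq
    · exact Or.inl ⟨i, Finset.mem_range.2 hi, Finset.mem_filter.2 ⟨hn.1, hn.2.1, hq⟩⟩
    · exact Or.inr (Finset.mem_filter.2 ⟨hn.1, hn.2.1, hq⟩)
  have h2 := (Finset.card_le_card h1).trans ((Finset.card_union_le _ _).trans
    (Nat.add_le_add_right Finset.card_biUnion_le _))
  exact_mod_cast h2

/-- asymptotic conditions -/
theorem ev_cond {ε κ C η : ℝ} (r : ℕ) (L0 t0 t1 : ℝ) (hε : 0 < ε) (hκ : 0 < κ) (hη : 0 < η)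
    (hr : 0 < r) : ∀ᶠ L : ℝ in atTop, L0 ≤ L ∧ (r : ℝ) ^ 2 ≤ L ∧ 1 ≤ L ∧ t0 ≤ 3 / 4 * κ * L ∧
      t1 ≤ 3 / 4 * κ * L ∧ ε * r / 2 ≤ Real.sqrt L ∧
      12 * (2 * L) ^ (1 / 4 : ℝ) ≤ ε * Real.sqrt L ∧
      2 * (ε * r / (8 * Real.sqrt L)) ^ 2 * (2 * (2 * L) ^ (1 / 4 : ℝ) + 1) ≤ 1 ∧
      C / (3 / 4 * κ * L) ^ 2 ≤ η := by
  have hy : Tendsto (fun L : ℝ => (2 * L) ^ (1 / 4 : ℝ)) atTop atTop :=
    (tendsto_rpow_atTop (by norm_num)).comp (tendsto_id.const_mul_atTop (by norm_num))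
  have hs : Tendsto (fun L : ℝ => Real.sqrt L) atTop atTop := Real.tendsto_sqrt_atTop
  have hc : Tendsto (fun L : ℝ => C / (3 / 4 * κ * L) ^ 2) atTop (𝓝 0) := by
    refine Tendsto.const_div_atTop ?_ C
    exact (tendsto_pow_atTop (by norm_num)).comp (tendsto_id.const_mul_atTop (by positivity))
  filter_upwards [eventually_ge_atTop L0, eventually_ge_atTop ((r : ℝ) ^ 2), eventually_ge_atTop 1,
    eventually_ge_atTop (t0 / (3 / 4 * κ)), eventually_ge_atTop (t1 / (3 / 4 * κ)),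
    hs.eventually_ge_atTop (ε * r / 2), hy.eventually_ge_atTop (24 / ε),
    hy.eventually_ge_atTop 1, hy.eventually_ge_atTop (ε ^ 2 * r ^ 2),
    hc.eventually_lt_const hη] with L h1 h2 h3 h4 h5 h6 h7 h8 h9 h10
  have hL0 : 0 < L := by linarith
  have hk : 0 < 3 / 4 * κ := by positivity
  rw [div_le_iff₀ hk] at h4 h5
  set y : ℝ := (2 * L) ^ (1 / 4 : ℝ) with hyd
  have hy0 : 0 < y := by linarith
  have hy4 : y ^ 4 = 2 * L := by
    rw [hyd, ← Real.rpow_natCast, ← Real.rpow_mul (by positivity)]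
    norm_num
  have hsq : y ^ 2 / 2 ≤ Real.sqrt L := by
    apply Real.le_sqrt_of_sq_le
    calc (y ^ 2 / 2) ^ 2 = y ^ 4 / 4 := by ring
      _ = L / 2 := by rw [hy4]; ring
      _ ≤ L := by linarith
  have hsL : Real.sqrt L ^ 2 = L := Real.sq_sqrt hL0.le
  have hsL0 : 0 < Real.sqrt L := Real.sqrt_pos.2 hL0
  refine ⟨h1, h2, h3, by linarith, by linarith, h6, ?_, ?_, h10.le⟩
  · rw [div_le_iff₀ hε] at h7
    calc 12 * y = 24 * y / 2 := by ring
      _ ≤ (y * ε) * y / 2 := by gcongr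
      _ = ε * (y ^ 2 / 2) := by ring
      _ ≤ ε * Real.sqrt L := by gcongr
  · have e1 : 2 * (ε * r / (8 * Real.sqrt L)) ^ 2 * (2 * y + 1) =
        (ε ^ 2 * r ^ 2) * (2 * y + 1) / (32 * L) := by
      rw [div_pow, mul_pow, mul_pow, hsL]
      field_simp
      ring
    rw [e1, div_le_one (by positivity)]
    have h11 : 2 * y + 1 ≤ 3 * y := by linarith
    have h12 : y ^ 2 * 1 ≤ y ^ 2 * y ^ 2 := by
      have : 1 ≤ y ^ 2 := one_le_pow₀ h8
      gcongr
    calc ε ^ 2 * r ^ 2 * (2 * y + 1) ≤ y * (3 * y) := by gcongr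
      _ = 3 * (y ^ 2 * 1) := by ring
      _ ≤ 3 * (y ^ 2 * y ^ 2) := by gcongr
      _ = 6 * L := by
          have : y ^ 2 * y ^ 2 = 2 * L := by rw [← hy4]; ring
          rw [this]
          ring
      _ ≤ 32 * L := by linarith

theorem log43_lo : (1 / 4 : ℝ) ≤ Real.log (4 / 3) := by
  have h := Real.one_sub_inv_le_log_of_pos (show (0 : ℝ) < 4 / 3 by norm_num)
  norm_num at h ⊢
  linarith

theorem log43_hi : Real.log (4 / 3) ≤ 1 / 3 := by
  have h := Real.log_le_sub_one_of_pos (show (0 : ℝ) < 4 / 3 by norm_num)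
  linarith

theorem two_mu : 2 * mu = Real.log (4 / 3) := by
  unfold mu
  ring

theorem main (hSTAGE : S_STAGE) (hTAIL : S_TAIL) (hPULL : S_PULL) (hCOUNT : S_COUNT) :
    S_CTRL := by
  intro ε η hε hη
  obtain ⟨C, t0, hC, ht0, hstage⟩ := hSTAGE
  obtain ⟨B, t1, hB, ht1, htail⟩ := hTAIL (η / 8) (by positivity)
  have hκ₀ : 0 < min (1 / 4 : ℝ) (ε ^ 2 / (3 * B ^ 2)) := lt_min (by norm_num) (by positivity)
  refine ⟨min (1 / 4) (ε ^ 2 / (3 * B ^ 2)), hκ₀, min_le_left _ _, ?_⟩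
  intro κ hκ hκκ
  have hκ4 : κ ≤ 1 / 4 := hκκ.trans (min_le_left _ _)
  have hκB : κ * (3 * B ^ 2) ≤ ε ^ 2 := by
    have := hκκ.trans (min_le_right _ _)
    rwa [le_div_iff₀ (by positivity)] at this
  -- the choice of `r₀`
  have hlim : Tendsto (fun r : ℕ => 4 * (r : ℝ) * Real.exp (1 - ε ^ 2 * r / 128)) atTop (𝓝 0) := by
    have h1 : Tendsto (fun x : ℝ => x ^ 1 * Real.exp (-(ε ^ 2 / 128) * x)) atTop (𝓝 0) := by
      have h2 := isLittleO_pow_exp_pos_mul_atTop (k := 1) (b := ε ^ 2 / 128) (by positivity)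
      have h3 := h2.tendsto_div_nhds_zero
      refine h3.congr fun x => ?_
      rw [div_eq_mul_inv, ← Real.exp_neg]
      congr 2
      ring
    have h4 := (h1.comp tendsto_natCast_atTop_atTop).const_mul (4 * Real.exp 1)
    rw [mul_zero] at h4
    refine h4.congr fun r => ?_
    simp only [Function.comp_apply, pow_one]
    rw [show (1 : ℝ) - ε ^ 2 * r / 128 = 1 + -(ε ^ 2 / 128) * r by ring, Real.exp_add]
    ring
  obtain ⟨r₁, hr₁⟩ := (hlim.eventually_lt_const (show (0 : ℝ) < η / 8 by positivity)).exists_forall_of_atTop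
  refine ⟨max (max r₁ ⌈48 / κ⌉₊) 1, lt_of_lt_of_le one_pos (le_max_right _ _), ?_⟩
  intro r hr
  have hr1 : r₁ ≤ r := (le_max_left _ _).trans ((le_max_left _ _).trans hr)
  have hr2 : 48 / κ ≤ r := by
    have h1 : ⌈48 / κ⌉₊ ≤ r := (le_max_right _ _).trans ((le_max_left _ _).trans hr)
    exact (Nat.le_ceil _).trans (by exact_mod_cast h1)
  have hr0 : 0 < r := lt_of_lt_of_le one_pos ((le_max_right _ _).trans hr)
  have hrR : (0 : ℝ) < r := by exact_mod_cast hr0
  have hrexp := hr₁ r hr1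
  set η₁ : ℝ := η / (16 * r) with hη₁
  have hη₁0 : 0 < η₁ := by positivity
  set E : ℝ := 4 * Real.exp (1 - ε ^ 2 * r / 128) with hE
  have hE0 : 0 < E := by positivity
  obtain ⟨L0, hpull⟩ := hPULL κ η₁ hκ (by linarith) hη₁0
  have hcount1 := hCOUNT (κ / 8) (E + η₁ + η₁) (by positivity) (by linarith) (by positivity)
  have hcount2 := hCOUNT (κ / 8) (η / 8 + η₁) (by positivity) (by linarith) (by positivity)
  have hlog : Tendsto (fun X : ℕ => Real.log X) atTop atTop :=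
    Real.tendsto_log_atTop.comp tendsto_natCast_atTop_atTop
  have hcond := hlog.eventually (ev_cond (C := C) r L0 t0 t1 hε hκ hη₁0 hr0)
  filter_upwards [hcount1, hcount2, hcond] with X hc1 hc2 hc3 b hb hb1 hb2
  obtain ⟨c1, c2, c3, c4, c5, c6, c7, c8, c9⟩ := hc3
  set L : ℝ := Real.log X with hL
  have hL0 : 0 < L := by linarith
  set w : ℝ := ε * Real.sqrt L with hw
  have hsL : Real.sqrt L ^ 2 = L := Real.sq_sqrt hL0.le
  have hsL0 : 0 < Real.sqrt L := Real.sqrt_pos.2 hL0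
  have hw0 : 0 < w := by positivity
  have hw2 : w ^ 2 = ε ^ 2 * L := by rw [hw, mul_pow, hsL]
  have hbR : (0 : ℝ) < b := by exact_mod_cast hb
  have hlo := log43_lo
  have hhi := log43_hi
  have hl0 : 0 < Real.log (4 / 3) := by linarith
  -- bounds for `b`
  have hb3 : (r : ℝ) * b ≤ 4 * L := by
    have h1 : (r : ℝ) * b * (1 / 4) ≤ r * b * Real.log (4 / 3) := by gcongr
    have h2 : 0 ≤ κ * L := by positivity
    linarith
  have hb4 : L ≤ (r : ℝ) * b := by
    have h1 : (r : ℝ) * b * Real.log (4 / 3) ≤ r * b * (1 / 3) := by gcongr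
    have h2 : κ * L ≤ 1 / 4 * L := mul_le_mul_of_nonneg_right hκ4 hL0.le
    have h3 : 0 < (r : ℝ) * b := by positivity
    linarith
  have hsb : Real.sqrt L ≤ b := by
    have h1 : (r : ℝ) ≤ Real.sqrt L := Real.le_sqrt_of_sq_le c2
    have h2 : (r : ℝ) * Real.sqrt L ≤ r * b := by
      calc (r : ℝ) * Real.sqrt L ≤ Real.sqrt L * Real.sqrt L := by gcongr
        _ = L := by rw [← sq, hsL]
        _ ≤ r * b := hb4
    exact le_of_mul_le_mul_left h2 hrR
  have hbκ : (b : ℝ) ≤ κ * L / 12 := by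
    have h1 : 48 ≤ r * κ := by rwa [div_le_iff₀ hκ] at hr2
    have h2 : 48 * (b : ℝ) ≤ κ * (4 * L) := by
      calc 48 * (b : ℝ) ≤ r * κ * b := by gcongr
        _ = κ * (r * b) := by ring
        _ ≤ κ * (4 * L) := by gcongr
    linarith
  -- `lam`
  set lam : ℝ := w / (8 * b) with hlam
  have hlam0 : 0 ≤ lam := by positivity
  have hlam4 : lam ≤ 1 / 4 := by
    rw [hlam, div_le_iff₀ (by positivity)]
    have h1 : r * w ≤ r * (2 * b) := by
      calc r * w = 2 * (ε * r / 2) * Real.sqrt L := by rw [hw]; ring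
        _ ≤ 2 * Real.sqrt L * Real.sqrt L := by gcongr
        _ = 2 * L := by rw [mul_assoc, ← sq, hsL]
        _ ≤ 2 * (r * b) := by linarith
        _ = r * (2 * b) := by ring
    have h2 := le_of_mul_le_mul_left h1 hrR
    linarith
  have hlam2 : lam ≤ ε * r / (8 * Real.sqrt L) := by
    rw [hlam, div_le_div_iff₀ (by positivity) (by positivity)]
    calc w * (8 * Real.sqrt L) = 8 * ε * Real.sqrt L ^ 2 := by rw [hw]; ring
      _ = 8 * ε * L := by rw [hsL]
      _ ≤ 8 * ε * (r * b) := by gcongr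
      _ = ε * r * (8 * b) := by ring
  have hmuK : ∀ i : ℕ, i ≤ r → 2 * mu * ((i * b : ℕ) : ℝ) ≤ (1 - κ) * L := by
    intro i hi
    rw [two_mu]
    push_cast
    have hi' : (i : ℝ) ≤ r := by exact_mod_cast hi
    calc Real.log (4 / 3) * (i * b) ≤ Real.log (4 / 3) * (r * b) := by gcongr
      _ = r * b * Real.log (4 / 3) := by ring
      _ ≤ (1 - κ) * L := hb2
  have hK : ∀ i : ℕ, (i * b = 0 ∨ Real.sqrt L ≤ ((i * b : ℕ) : ℝ)) := by
    intro i
    rcases Nat.eq_zero_or_pos i with h | h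
    · left
      rw [h, zero_mul]
    · right
      push_cast
      have hi : (1 : ℝ) ≤ i := by exact_mod_cast h
      calc Real.sqrt L ≤ b := hsb
        _ = 1 * b := (one_mul _).symm
        _ ≤ i * b := by gcongr
  -- the blocks
  have hblock : ∀ i < r, oddCount X (fun n => ∃ j ≤ b, w < |((Yn n (i * b + j) - Yn n (i * b) : ℤ) : ℝ)|) ≤
      (E + η₁ + η₁) * X := by
    intro i hi
    set S : Set ℤ := {M : ℤ | ∃ j ≤ b, w < |((Yz M j : ℤ) : ℝ)|} with hS
    have hcnt : oddCount X (fun n => ∃ j ≤ b, w < |((Yn n (i * b + j) - Yn n (i * b) : ℤ) : ℝ)|) =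
        ((cls {M : ℤ | (Sy 1)^[i * b] M ∈ S} 0 (X + 1) 0 1 0).card : ℝ) := by
      refine count_cls X fun n _ => ?_
      show (∃ j ≤ b, w < |((Yz ((Sy 1)^[i * b] (n : ℤ)) j : ℤ) : ℝ)|) ↔ _
      simp_rw [iter_cast, ← Yn_sub]
    rw [hcnt]
    refine hc1 _ fun A hA hlA => ?_
    refine hpull L c1 S (E + η₁) (by positivity) (i * b) (hK i) (hmuK i hi.le) ?_ A hA (by
      have : κ / 8 * L = κ * L / 8 := by ring
      rw [← this]
      exact hlA)
    intro A' hA' hlA' m hm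
    rw [abs_le] at hlA'
    have hmu := hmuK i hi.le
    have hmu0 : 0 ≤ 2 * mu * ((i * b : ℕ) : ℝ) := by
      rw [two_mu]
      positivity
    have ht : 3 / 4 * κ * L ≤ Real.log A' := by linarith [hlA'.1]
    have htu : Real.log A' ≤ 2 * L := by
      have h1 : κ * L ≤ 1 / 4 * L := mul_le_mul_of_nonneg_right hκ4 hL0.le
      linarith [hlA'.2]
    have ht0' : 0 < Real.log A' := lt_of_lt_of_le (by positivity) ht
    have hy : Real.log A' ^ (1 / 4 : ℝ) ≤ (2 * L) ^ (1 / 4 : ℝ) :=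
      Real.rpow_le_rpow ht0'.le htu (by norm_num)
    have h := hstage A' hA' (c4.trans ht) b (by linarith) lam w hlam0 hlam4 (by linarith) m hm
    refine PB_le hA' subset_rfl ?_ h
    have h1 : 4 * Real.exp (2 * lam ^ 2 * (b + 2 * Real.log A' ^ (1 / 4 : ℝ) + 1) - lam * w / 2) ≤ E := by
      rw [hE]
      refine mul_le_mul_of_nonneg_left ?_ (by norm_num)
      rw [Real.exp_le_exp]
      have h2 : 2 * lam ^ 2 * (b + 2 * Real.log A' ^ (1 / 4 : ℝ) + 1) - lam * w / 2 =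
          -(w ^ 2 / (32 * b)) + 2 * lam ^ 2 * (2 * Real.log A' ^ (1 / 4 : ℝ) + 1) := by
        rw [hlam]
        field_simp
        ring
      rw [h2]
      have h3 : 2 * lam ^ 2 * (2 * Real.log A' ^ (1 / 4 : ℝ) + 1) ≤ 1 := by
        refine le_trans ?_ c8
        gcongr
      have h4 : ε ^ 2 * r / 128 ≤ w ^ 2 / (32 * b) := by
        rw [hw2, div_le_div_iff₀ (by norm_num) (by positivity)]
        calc ε ^ 2 * r * (32 * b) = 32 * ε ^ 2 * (r * b) := by ring
          _ ≤ 32 * ε ^ 2 * (4 * L) := by gcongr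
          _ = ε ^ 2 * L * 128 := by ring
      linarith
    have h5 : C / Real.log A' ^ 2 ≤ η₁ := by
      refine le_trans ?_ c9
      gcongr
    linarith
  -- the tail
  have htailc : oddCount X (fun n => ((Sy 1)^[r * b] (n : ℤ)) ∈ BadT w) ≤ (η / 8 + η₁) * X := by
    have hcnt : oddCount X (fun n => ((Sy 1)^[r * b] (n : ℤ)) ∈ BadT w) =
        ((cls {M : ℤ | (Sy 1)^[r * b] M ∈ BadT w} 0 (X + 1) 0 1 0).card : ℝ) :=
      count_cls X fun n _ => Iff.rfl
    rw [hcnt]
    refine hc2 _ fun A hA hlA => ?_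
    refine hpull L c1 (BadT w) (η / 8) (by positivity) (r * b) (hK r) (hmuK r le_rfl) ?_ A hA (by
      have : κ / 8 * L = κ * L / 8 := by ring
      rw [← this]
      exact hlA)
    intro A' hA' hlA' m hm
    rw [abs_le] at hlA'
    have hmu := hmuK r le_rfl
    have hmu2 : (1 - 2 * κ) * L ≤ 2 * mu * ((r * b : ℕ) : ℝ) := by
      rw [two_mu]
      push_cast
      linarith
    have ht : 3 / 4 * κ * L ≤ Real.log A' := by linarith [hlA'.1]
    have htu : Real.log A' ≤ 9 / 4 * κ * L := by linarith [hlA'.2]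
    have hΛ : t1 ≤ 9 / 4 * κ * L := by
      have : 0 ≤ κ * L := by positivity
      linarith
    have h := htail (9 / 4 * κ * L) hΛ A' hA' (c5.trans ht) htu m hm
    refine PB_le hA' ?_ le_rfl h
    have hBw : B * Real.sqrt (9 / 4 * κ * L) ≤ w := by
      refine (sq_le_sq₀ (by positivity) hw0.le).1 ?_
      rw [mul_pow, Real.sq_sqrt (by positivity), hw2]
      calc B ^ 2 * (9 / 4 * κ * L) = 3 / 4 * (κ * (3 * B ^ 2)) * L := by ring
        _ ≤ 3 / 4 * ε ^ 2 * L := by gcongr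
        _ ≤ ε ^ 2 * L := by
            have : 0 ≤ ε ^ 2 * L := by positivity
            linarith
    rintro M ⟨h1, h2, h3, j, h4, h5⟩
    exact ⟨h1, h2, h3, j, h4, lt_of_le_of_lt hBw h5⟩
  -- the union bound
  have hun := oddCount_le X r (fun n => UL.R n ∧ ¬ Ctl w r b n)
    (fun n => ((Sy 1)^[r * b] (n : ℤ)) ∈ BadT w)
    (fun i n => ∃ j ≤ b, w < |((Yn n (i * b + j) - Yn n (i * b) : ℤ) : ℝ)|) (by
    rintro n hn ⟨hR, hctl⟩
    have hn' : n % 2 = 1 := Nat.odd_iff.1 hn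
    unfold Ctl at hctl
    rw [not_and_or] at hctl
    rcases hctl with h | h
    · left
      push Not at h
      obtain ⟨i, hi, j, hj, h1⟩ := h
      exact ⟨i, hi, j, hj, h1⟩
    · right
      push Not at h
      obtain ⟨j, h1, h2⟩ := h
      rw [iter_cast]
      have hodd := UL.syr_iter_odd hn' (r * b)
      refine ⟨?_, ?_, ?_, j, ?_, ?_⟩
      · have : 0 < Syr^[r * b] n := by omega
        exact_mod_cast this
      · have : Odd (Syr^[r * b] n) := Nat.odd_iff.2 hodd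
        exact_mod_cast this
      · obtain ⟨i, hi⟩ := reach hn' hR (r * b)
        refine ⟨i, ?_⟩
        rw [iter_cast, hi]
        rfl
      · intro i hi h3
        rw [iter_cast] at h3
        have h4 : Syr^[i] (Syr^[r * b] n) = 1 := by exact_mod_cast h3
        rw [← Function.iterate_add_apply] at h4
        exact h1 (i + r * b) (by omega) (by omega) h4
      · rw [← Yn_sub]
        exact h2)
  have hsum : ∑ i ∈ range r, oddCount X
      (fun n => ∃ j ≤ b, w < |((Yn n (i * b + j) - Yn n (i * b) : ℤ) : ℝ)|) ≤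
      r * ((E + η₁ + η₁) * X) := by
    calc _ ≤ ∑ _i ∈ range r, (E + η₁ + η₁) * (X : ℝ) :=
          Finset.sum_le_sum fun i hi => hblock i (Finset.mem_range.1 hi)
      _ = _ := by simp
  have hX0 : (0 : ℝ) ≤ X := Nat.cast_nonneg X
  refine hun.trans ((add_le_add hsum htailc).trans ?_)
  have h1 : r * E ≤ η / 8 := by
    have : 4 * (r : ℝ) * Real.exp (1 - ε ^ 2 * r / 128) = r * E := by rw [hE]; ring
    linarith
  have h2 : r * η₁ = η / 16 := by
    rw [hη₁]
    field_simp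
  have h3 : η₁ ≤ η / 16 := by
    rw [hη₁]
    apply div_le_div_of_nonneg_left hη.le (by norm_num)
    have : (1 : ℝ) ≤ r := by exact_mod_cast hr0
    linarith
  calc r * ((E + η₁ + η₁) * X) + (η / 8 + η₁) * X = (r * E + r * η₁ + r * η₁ + η / 8 + η₁) * X := by
        ring
    _ ≤ (η / 8 + η / 16 + η / 16 + η / 8 + η / 16) * X := by
        refine mul_le_mul_of_nonneg_right ?_ hX0
        linarith
    _ ≤ η * X := by
        refine mul_le_mul_of_nonneg_right ?_ hX0
        linarith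

end Pool.Agent.H55.DK.CTRL
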