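import Pool.Agent.H55.DK.DET

/-!
# Project DK: the trajectory is close to the step function of the block sums, numerical part
-/

set_option autoImplicit false

namespace Pool.Agent.H55.DK.DET

open Finset Filter Topology MeasureTheory ProbabilityTheory
open Pool.Agent.Results.MP_f7abf1_nt.BlockLaw (T Syr wait oddCount HasDensity)
open Pool.Agent.H55.UL (R slow log_tendsto sqrt_diff log43_lo log43_hi log2_hi)

/-- pure real estimate: from the comparison of the deviations to the rescaled paths -/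
theorem scaled {dv Y c σ τ w E M D η : ℝ} (hc : 1 / 2 ≤ c) (hσ : 0 < σ) (hτ : 0 < τ)
    (h1 : |dv - c * Y| ≤ 5 * w + E) (hY : |Y| ≤ M) (h2 : |τ - σ| ≤ D)
    (h3 : 2 * (5 * w + E) / σ + M * D / (σ * τ) ≤ η) : |dv / (c * σ) - Y / τ| ≤ η := by
  have hcpos : 0 < c := by linarith
  have e : dv / (c * σ) - Y / τ = (dv - c * Y) / (c * σ) + Y * (τ - σ) / (σ * τ) := by
    field_simp
    ring
  rw [e]
  refine (abs_add_le _ _).trans (le_trans (add_le_add ?_ ?_) h3)
  · rw [abs_div, abs_of_pos (by positivity : 0 < c * σ), div_le_div_iff₀ (by positivity) hσ]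
    have h4 : 0 ≤ 5 * w + E := (abs_nonneg _).trans h1
    have h5 : |dv - c * Y| * σ ≤ (5 * w + E) * σ := mul_le_mul_of_nonneg_right h1 hσ.le
    have h6 : (5 * w + E) * σ ≤ 2 * (5 * w + E) * (c * σ) := by
      have : 0 ≤ (5 * w + E) * σ := by positivity
      nlinarith
    exact h5.trans h6
  · rw [abs_div, abs_of_pos (by positivity : 0 < σ * τ), abs_mul]
    have h4 : 0 ≤ M := (abs_nonneg _).trans hY
    gcongr

theorem main (hD : S_CDEV) : S_DET := by
  intro η hη
  set e : ℝ := η / 40 with he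
  have he0 : 0 < e := by positivity
  refine ⟨e, he0, ?_⟩
  intro g h v hg hh θ hθ
  set G : ℕ := g * h with hG
  set r : ℕ := (g - 1) * h with hr
  have hG0 : 0 < G := Nat.mul_pos (by omega) hh
  have hGR : (0 : ℝ) < G := by exact_mod_cast hG0
  set c1 : ℝ := ((r : ℝ) + 1) * e with hc1
  have hc10 : 0 ≤ c1 := by positivity
  set D0 : ℝ := v + |Real.log θ| with hD0
  have hD00 : 0 ≤ D0 := by positivity
  set D : ℝ := 2 * G + 8 * D0 with hDd
  have hD0' : 0 ≤ D := by positivity
  set A : ℝ := 100 * (v + 20 + D0 + G + c1 + e) + 100 * (D + 1) * (c1 + 1) with hA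
  have hA0 : 0 ≤ A := by positivity
  have s1 := log_tendsto.eventually (slow A (show (0 : ℝ) < min (η / 8) (1 / G) by positivity))
  have s2 := log_tendsto.eventually (slow (2 * c1 + 3) (show (0 : ℝ) < 1 by norm_num))
  have s3 := log_tendsto.eventually (slow (2 * D + 1) (show (0 : ℝ) < 1 by norm_num))
  filter_upwards [s1, s2, s3, log_tendsto.eventually_ge_atTop (max 1 (2 * G))]
    with X hs1 hs2 hs3 hL b hb m hmX hmθ hm hRm hctl s hs0 hs1'
  set L := Real.log X with hLd
  have hL1 : 1 ≤ L := (le_max_left _ _).trans hL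
  have hL2 : 2 * (G : ℝ) ≤ L := (le_max_right _ _).trans hL
  have hL0 : 0 < L := by linarith
  have hqlo := log43_lo
  have hqhi := log43_hi
  set q := Real.log (4 / 3) with hq
  have hqpos : 0 < q := by linarith
  set w : ℝ := e * Real.sqrt L with hw
  have hsL : 1 ≤ Real.sqrt L := by rw [Real.one_le_sqrt]; exact hL1
  have hsL2 : Real.sqrt L * Real.sqrt L = L := Real.mul_self_sqrt hL0.le
  have hw0 : 0 ≤ w := by positivity
  have hlogL : 0 ≤ Real.log L := Real.log_nonneg hL1
  obtain ⟨_, t1, t2⟩ := hs1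
  obtain ⟨_, t3, t4⟩ := hs2
  obtain ⟨_, t5, t6⟩ := hs3
  -- `b`
  have hLq0 : L * q ≤ L * (1 / 3) := mul_le_mul_of_nonneg_left hqhi hL0.le
  have hLq : 3 * L ≤ L / q := by
    rw [le_div_iff₀ hqpos]
    linarith
  have hbx : (b : ℝ) ≤ L / q / G ∧ L / q / G < b + 1 := by
    have h0 : 0 ≤ L / q / G := by positivity
    rw [hb]
    exact ⟨Nat.floor_le h0, Nat.lt_floor_add_one _⟩
  have hb1 : (G : ℝ) * b ≤ L / q := by
    have := hbx.1
    rw [le_div_iff₀ hGR] at this
    linarith
  have hb2 : L / q ≤ G * b + G := by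
    have := hbx.2.le
    rw [div_le_iff₀ hGR] at this
    linarith
  have hbG : |L / q - G * b| ≤ G := by
    rw [abs_le]
    constructor <;> linarith
  have hbL : L ≤ G * b := by linarith
  have hb0 : 0 < b := by
    rcases Nat.eq_zero_or_pos b with h0 | h0
    · rw [h0] at hbL
      simp at hbL
      linarith
    · exact h0
  have hbR : (0 : ℝ) < b := by exact_mod_cast hb0
  have hbLG : L / G ≤ b := by
    rw [div_le_iff₀ hGR]
    linarith
  obtain ⟨J, hJ, hJ', hIsT⟩ := exists_J hm hRm
  have hm1 : 1 ≤ m := by omega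
  have hrG : (r : ℝ) ≤ G := by
    have : r ≤ G := Nat.mul_le_mul_right h (Nat.sub_le g 1)
    exact_mod_cast this
  have hrw : ((r : ℝ) + 1) * w = c1 * Real.sqrt L := by rw [hc1, hw]; ring
  -- `J ≤ 24 L`
  have hJL : (J : ℝ) ≤ 24 * L := by
    apply J_le hm hJ hJ' hIsT hw0 hctl hmX
    · have h1 : (r : ℝ) * b ≤ G * b := mul_le_mul_of_nonneg_right hrG hbR.le
      have h2 : (r : ℝ) * b ≤ L / q := h1.trans hb1
      rw [le_div_iff₀ hqpos] at h2
      exact h2
    · have h2 : 2 * ((r : ℝ) + 1) * w + 3 ≤ (2 * c1 + 3) * Real.sqrt L := by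
        have e1 : 2 * ((r : ℝ) + 1) * w = 2 * (((r : ℝ) + 1) * w) := by ring
        have e2 : (2 * c1 + 3) * Real.sqrt L = 2 * (c1 * Real.sqrt L) + 3 * Real.sqrt L := by ring
        rw [e1, hrw, e2]
        linarith
      linarith
  have hE : er0 v J ≤ v + 18 + 2 * Real.log L := by
    unfold er0
    have h5 : Real.log ((J : ℝ) + 2) ≤ Real.log (26 * L) := by
      apply Real.log_le_log
      · positivity
      · linarith
    have h6 : Real.log (26 * L) = Real.log 26 + Real.log L := Real.log_mul (by norm_num) hL0.ne'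
    have h7 : Real.log 26 ≤ 4 := by
      have h8 : Real.log 26 ≤ Real.log (2 ^ (5 : ℕ)) := Real.log_le_log (by norm_num) (by norm_num)
      rw [Real.log_pow] at h8
      have := Real.log_two_lt_d9
      push_cast at h8
      linarith
    linarith
  have hE0 := er0_nonneg v J
  set E := er0 v J with hEd
  -- `log n`
  have hX0 : (0 : ℝ) < X := by
    rcases (Nat.cast_nonneg X : (0 : ℝ) ≤ X).eq_or_lt with h0 | h0
    · exfalso
      rw [← h0] at hLd
      rw [Real.log_zero] at hLd
      linarith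
    · exact h0
  have hmR : (0 : ℝ) < m := by exact_mod_cast hm1
  have hmX' : Real.log m ≤ L := by
    apply Real.log_le_log hmR
    exact_mod_cast hmX
  have hlogn : Real.log ((2 ^ v * m : ℕ) : ℝ) = v * Real.log 2 + Real.log m := by
    push_cast
    rw [Real.log_mul (by positivity) hmR.ne', Real.log_pow]
  have h2l := log2_hi
  have h2pos : 0 < Real.log 2 := Real.log_pos (by norm_num)
  have hlogm0 : 0 ≤ Real.log m := Real.log_natCast_nonneg m
  have hmL : L - |Real.log θ| ≤ Real.log m := by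
    have h1 := Real.log_le_log (by positivity) hmθ
    rw [Real.log_mul hθ.ne' hX0.ne'] at h1
    have := neg_abs_le (Real.log θ)
    linarith
  have hv0 : (0 : ℝ) ≤ v := Nat.cast_nonneg v
  have hlnL : |Real.log ((2 ^ v * m : ℕ) : ℝ) - L| ≤ D0 := by
    rw [hlogn]
    have q1 : (v : ℝ) * Real.log 2 ≤ v * 1 := mul_le_mul_of_nonneg_left h2l hv0
    have q2 : 0 ≤ (v : ℝ) * Real.log 2 := by positivity
    have q3 := abs_nonneg (Real.log θ)
    rw [abs_le, hD0]
    constructor <;> linarith
  have hln0 : 0 ≤ Real.log ((2 ^ v * m : ℕ) : ℝ) := by rw [hlogn]; positivity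
  set ln := Real.log ((2 ^ v * m : ℕ) : ℝ) with hln
  set Sg : ℝ := Real.sqrt (2 * L / q) with hSg
  have hSgL : 2 * Real.sqrt L ≤ Sg := by
    have h1 : 2 * Real.sqrt L = Real.sqrt (4 * L) := by
      rw [Real.sqrt_mul (by norm_num)]
      have : Real.sqrt 4 = 2 := by
        rw [show (4 : ℝ) = 2 ^ 2 by norm_num]
        exact Real.sqrt_sq (by norm_num)
      rw [this]
    rw [h1]
    apply Real.sqrt_le_sqrt
    rw [le_div_iff₀ hqpos]
    linarith
  have h1L : 1 ≤ 2 * L / q := by
    rw [le_div_iff₀ hqpos]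
    linarith
  have hrd : |Real.sqrt (2 * ln / q) - Sg| ≤ 8 * D0 := by
    refine (sqrt_diff (by positivity) h1L).trans ?_
    have h2 : 2 * ln / q - 2 * L / q = (2 / q) * (ln - L) := by ring
    rw [h2, abs_mul, abs_of_pos (by positivity)]
    apply mul_le_mul _ hlnL (abs_nonneg _) (by norm_num)
    rw [div_le_iff₀ hqpos]
    linarith
  set σ : ℝ := Real.sqrt (2 * ln / q) with hσ
  set τ : ℝ := Real.sqrt (2 * (G : ℕ) * b) with hτ
  have hτSg : |τ - Sg| ≤ 2 * G := by
    refine (sqrt_diff (by positivity) h1L).trans ?_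
    have h2 : 2 * (G : ℝ) * b - 2 * L / q = -(2 * (L / q - G * b)) := by ring
    rw [h2, abs_neg, abs_mul, abs_two]
    linarith
  have hτσ : |τ - σ| ≤ D := by
    have h2 : τ - σ = (τ - Sg) + (Sg - σ) := by ring
    rw [h2]
    rw [abs_sub_comm] at hrd
    refine (abs_add_le _ _).trans ?_
    rw [hDd]
    linarith
  have hσlo : Real.sqrt L ≤ σ := by
    have h2 := (abs_le.1 hrd).1
    have h3 : 8 * D0 ≤ Real.sqrt L := by
      have h4 : 8 * D0 ≤ (2 * D + 1) * (1 + Real.log L) := by
        have : 0 ≤ (2 * D + 1) * Real.log L := by positivity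
        have h5 : 8 * D0 ≤ D := by rw [hDd]; linarith
        linarith
      linarith
    linarith
  have hτlo : Real.sqrt L ≤ τ := by
    have h2 := (abs_le.1 hτSg).1
    have h3 : 2 * (G : ℝ) ≤ Real.sqrt L := by
      have h4 : 2 * (G : ℝ) ≤ (2 * D + 1) * (1 + Real.log L) := by
        have : 0 ≤ (2 * D + 1) * Real.log L := by positivity
        have h5 : 2 * (G : ℝ) ≤ D := by rw [hDd]; linarith
        linarith
      linarith
    linarith
  have hσ0 : 0 < σ := by linarith
  have hτ0 : 0 < τ := by linarith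
  -- large `b`
  set M : ℝ := c1 * Real.sqrt L with hM
  have hM0 : 0 ≤ M := by positivity
  have hsum : (v + 3 + 2 * M) / 3 + 1 / 3 + 4 * (M + 3 * w + E + D0) + G ≤ b := by
    have k1 : (v + 3 + 2 * M) / 3 + 1 / 3 + 4 * (M + 3 * w + E + D0) + G ≤
        5 * v + 76 + 8 * Real.log L + 4 * D0 + G + (5 * c1 + 12 * e) * Real.sqrt L := by
      have e1 : (5 * c1 + 12 * e) * Real.sqrt L = 5 * M + 12 * w := by rw [hM, hw]; ring
      rw [e1]
      linarith
    have k2 : Real.log L ≤ Real.sqrt L := by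
      have h1 := Real.log_le_sub_one_of_pos (show 0 < Real.sqrt L by linarith)
      rw [Real.log_sqrt hL0.le] at h1
      have h2 : (2 * c1 + 3) * (1 + Real.log L) ≤ 1 * Real.sqrt L := t3
      have h3 : 0 ≤ 2 * c1 * (1 + Real.log L) := by positivity
      have h4 : (2 * c1 + 3) * (1 + Real.log L) = 2 * c1 * (1 + Real.log L) + 3 + 3 * Real.log L := by ring
      linarith
    have k3 : 5 * v + 76 + 8 * Real.log L + 4 * D0 + G + (5 * c1 + 12 * e) * Real.sqrt L ≤ A * Real.sqrt L := by
      have e1 : A * Real.sqrt L = (5 * v + 76 + 4 * D0 + G) * Real.sqrt L + 8 * Real.sqrt L +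
          (5 * c1 + 12 * e) * Real.sqrt L +
          (95 * v + 1916 + 96 * D0 + 99 * G + 95 * c1 + 88 * e + 100 * (D + 1) * (c1 + 1)) * Real.sqrt L := by
        rw [hA]; ring
      have e2 : (5 * v + 76 + 4 * D0 + G) * 1 ≤ (5 * v + 76 + 4 * D0 + G) * Real.sqrt L :=
        mul_le_mul_of_nonneg_left hsL (by positivity)
      have e3 : 0 ≤ (95 * v + 1916 + 96 * D0 + 99 * G + 95 * c1 + 88 * e + 100 * (D + 1) * (c1 + 1)) *
          Real.sqrt L := by positivity
      rw [e1]
      linarith
    have k4 : A * Real.sqrt L ≤ 1 / G * L := t2.trans (by gcongr; exact min_le_right _ _)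
    have k5 : 1 / (G : ℝ) * L = L / G := by ring
    linarith
  obtain ⟨t, ht, hdv⟩ := comp hD hm hJ hJ' hb0 hw0 hctl (le_of_eq hrw) hlnL hbG hs0 hs1' hsum
  rw [← hEd] at hdv
  have hlen := len_eq ht
  unfold path
  rw [hlen]
  -- the step function
  have hst : stp G (fun i : Fin r => ((Yn m (((i : ℕ) + 1) * b) - Yn m ((i : ℕ) * b) : ℤ) : ℝ) /
      Real.sqrt (2 * (G : ℕ) * b)) s = ((Yn m (min ⌊s * G⌋₊ r * b) : ℤ) : ℝ) / τ := by
    have h1 := stp_eq r G (fun i => ((Yn m (i * b) : ℤ) : ℝ) / τ) s hs0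
    have h2 : (fun i : Fin r => ((Yn m (((i : ℕ) + 1) * b) - Yn m ((i : ℕ) * b) : ℤ) : ℝ) /
      Real.sqrt (2 * (G : ℕ) * b)) = (fun i : Fin r => ((Yn m (((i : ℕ) + 1) * b) : ℤ) : ℝ) / τ -
        ((Yn m ((i : ℕ) * b) : ℤ) : ℝ) / τ) := by
      funext i
      rw [← hτ]
      push_cast
      ring
    rw [h2, h1, zero_mul, Yn_zero]
    simp
  rw [hst]
  have hYM := bound hJ hJ' hb0 hw0 hctl (min ⌊s * G⌋₊ r * b)
  rw [hrw] at hYM
  have hfin := scaled (dv := dev (2 ^ v * m) ⌊s * t⌋₊) (η := η) c6_lo hσ0 hτ0 hdv hYM hτσ ?_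
  · unfold scale
    exact hfin
  · have e1 : 2 * (5 * w + E) / σ ≤ η / 2 := by
      rw [div_le_iff₀ hσ0]
      have h1 : 10 * w = η / 4 * Real.sqrt L := by rw [hw, he]; ring
      have h2 : 2 * E ≤ η / 8 * Real.sqrt L := by
        have h3 : 2 * E ≤ A * (1 + Real.log L) := by
          have h4 : 2 * E ≤ 2 * v + 36 + 4 * Real.log L := by linarith
          have h5 : (2 * v + 36 : ℝ) ≤ A := by
            rw [hA]
            have : 0 ≤ (D + 1) * (c1 + 1) := by positivity
            linarith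
          have h6 : 4 * Real.log L ≤ A * Real.log L := by
            apply mul_le_mul_of_nonneg_right _ hlogL
            rw [hA]
            have : 0 ≤ (D + 1) * (c1 + 1) := by positivity
            linarith
          linarith
        refine h3.trans (t1.trans ?_)
        gcongr
        exact min_le_left _ _
      have h3 : η / 2 * Real.sqrt L ≤ η / 2 * σ := by gcongr
      have h4 : 0 ≤ η / 8 * Real.sqrt L := by positivity
      linarith
    have e2 : M * D / (σ * τ) ≤ η / 2 := by
      rw [div_le_iff₀ (by positivity)]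
      have h1 : M * D = c1 * D * Real.sqrt L := by rw [hM]; ring
      have h2 : c1 * D ≤ η / 8 * Real.sqrt L := by
        have h3 : c1 * D ≤ A * (1 + Real.log L) := by
          have h5 : c1 * D ≤ A := by
            have e1 : A = c1 * D + (100 * (v + 20 + D0 + G + c1 + e) + 99 * (c1 * D) + 100 * (D + c1 + 1)) := by
              rw [hA]; ring
            have e2 : 0 ≤ 100 * (v + 20 + D0 + G + c1 + e) + 99 * (c1 * D) + 100 * (D + c1 + 1) := by positivity
            linarith
          have : 0 ≤ A * Real.log L := by positivity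
          linarith
        refine h3.trans (t1.trans ?_)
        gcongr
        exact min_le_left _ _
      have h3 : Real.sqrt L * Real.sqrt L ≤ σ * τ := mul_le_mul hσlo hτlo (by positivity) hσ0.le
      calc M * D = c1 * D * Real.sqrt L := h1
        _ ≤ η / 8 * Real.sqrt L * Real.sqrt L := by gcongr
        _ = η / 8 * (Real.sqrt L * Real.sqrt L) := by ring
        _ ≤ η / 2 * (σ * τ) := by
          apply mul_le_mul (by linarith) h3 (by positivity) (by positivity)
    linarith

end Pool.Agent.H55.DK.DET
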