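import Pool.Agent.H55.DK.FStm

/-!
# Project DK: assembly of the functional limit theorem
-/

set_option autoImplicit false

namespace Pool.Agent.H55.DK.FCLT

open Finset Filter Topology MeasureTheory ProbabilityTheory
open scoped NNReal
open Pool.Agent.H499R2.ND.TJ (PP)
open Pool.Agent.Results.MP_f7abf1_nt.BlockLaw (T Syr wait blocks Admissible prob oddCount HasDensity)
open Pool.Agent.H55.UL (R R_two oc_mono oc_or oc_le oc_nonneg oc_small log_tendsto log43_lo log43_hi)

open Classical in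
theorem oc_sum (X : ℕ) (P : ℕ → Prop) : oddCount X P = oddSum X (fun m => if P m then (1 : ℝ) else 0) := by
  unfold oddCount oddSum
  rw [Finset.sum_ite, Finset.sum_const_zero, add_zero, Finset.sum_const, nsmul_eq_mul, mul_one,
    ← Set.ncard_coe_finset]
  congr 2
  ext n
  simp only [Set.mem_ofPred_eq, Finset.coe_filter, Finset.mem_filter, Finset.mem_range]
  constructor
  · rintro ⟨h1, h2, h3⟩
    exact ⟨⟨by omega, h2⟩, h3⟩
  · rintro ⟨⟨h1, h2⟩, h3⟩
    exact ⟨by omega, h2, h3⟩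

open Classical in
theorem sum_close {X : ℕ} {f g : ℕ → ℝ} {ε : ℝ} {Bad : ℕ → Prop} (hε : 0 ≤ ε)
    (h1 : ∀ m, m ≤ X → Odd m → ¬ Bad m → |f m - g m| ≤ ε) (h2 : ∀ m, |f m - g m| ≤ 2) :
    |oddSum X f - oddSum X g| ≤ ε * X + 2 * oddCount X Bad := by
  have e1 : oddSum X f - oddSum X g = ∑ m ∈ (range (X + 1)).filter Odd, (f m - g m) := by
    unfold oddSum
    rw [Finset.sum_sub_distrib]
  have e2 : oddCount X (fun _ => True) = ∑ m ∈ (range (X + 1)).filter Odd, (1 : ℝ) := by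
    rw [oc_sum]
    unfold oddSum
    simp
  have e3 := oc_le X (fun _ => True)
  rw [e1]
  calc |∑ m ∈ (range (X + 1)).filter Odd, (f m - g m)| ≤ ∑ m ∈ (range (X + 1)).filter Odd, |f m - g m| :=
        Finset.abs_sum_le_sum_abs _ _
    _ ≤ ∑ m ∈ (range (X + 1)).filter Odd, (ε * 1 + 2 * (if Bad m then (1 : ℝ) else 0)) := by
        apply Finset.sum_le_sum
        intro m hm
        rw [Finset.mem_filter, Finset.mem_range] at hm
        by_cases hb : Bad m
        · rw [if_pos hb]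
          linarith [h2 m]
        · rw [if_neg hb]
          linarith [h1 m (by omega) hm.2 hb]
    _ = ε * oddCount X (fun _ => True) + 2 * oddCount X Bad := by
        rw [Finset.sum_add_distrib, ← Finset.mul_sum, ← Finset.mul_sum, ← e2, oc_sum X Bad]
        rfl
    _ ≤ ε * X + 2 * oddCount X Bad := by
        have := mul_le_mul_of_nonneg_left e3 hε
        linarith

theorem blocks_Yn (m b : ℕ) {r : ℕ} (i : Fin r) :
    2 * (b : ℝ) - (blocks (fun i => i * b) r (wait m) i : ℕ) =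
      ((Yn m (((i : ℕ) + 1) * b) - Yn m ((i : ℕ) * b) : ℤ) : ℝ) := by
  have h := UL.S_sub m (show (i : ℕ) * b ≤ ((i : ℕ) + 1) * b from Nat.mul_le_mul_right b (Nat.le_succ _))
  unfold blocks
  rw [← h]
  unfold Yn
  push_cast
  ring

theorem blocks_Yw (ω : ℕ → ℕ) (b : ℕ) {r : ℕ} (i : Fin r) :
    2 * (b : ℝ) - (blocks (fun i => i * b) r (fun j => ω j + 1) i : ℕ) =
      ((Yw ω (((i : ℕ) + 1) * b) - Yw ω ((i : ℕ) * b) : ℤ) : ℝ) := by
  have h := Finset.sum_range_add_sum_Ico (fun j => ((ω j : ℤ) + 1))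
    (show (i : ℕ) * b ≤ ((i : ℕ) + 1) * b from Nat.mul_le_mul_right b (Nat.le_succ _))
  unfold blocks Yw
  rw [← h]
  push_cast
  ring

/-- the functional of the increments is continuous -/
theorem stp_cont {F : (ℝ → ℝ) → ℝ} (hF : Adm F) (r G : ℕ) : Continuous (fun v : Fin r → ℝ => F (stp G v)) := by
  rw [Metric.continuous_iff]
  intro v ε hε
  obtain ⟨η, hη, h⟩ := hF.2 (ε / 2) (by positivity)
  refine ⟨η / (r + 1), by positivity, fun v' hv' => ?_⟩
  rw [Real.dist_eq]
  refine lt_of_le_of_lt (h _ _ ?_) (by linarith)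
  intro s _ _
  unfold stp
  rw [← Finset.sum_sub_distrib]
  refine (Finset.abs_sum_le_sum_abs _ _).trans ?_
  calc ∑ i : Fin r, |(if ((i : ℕ) : ℝ) + 1 ≤ s * G then v' i else 0) - (if ((i : ℕ) : ℝ) + 1 ≤ s * G then v i else 0)|
      ≤ ∑ _i : Fin r, η / (r + 1) := by
        apply Finset.sum_le_sum
        intro i _
        split_ifs
        · rw [← Real.dist_eq]
          exact (dist_le_pi_dist v' v i).trans hv'.le
        · simp
          positivity
    _ = r * (η / (r + 1)) := by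
        rw [Finset.sum_const, Finset.card_univ, Fintype.card_fin, nsmul_eq_mul]
    _ ≤ η := by
        rw [← mul_div_assoc, div_le_iff₀ (by positivity)]
        nlinarith

open Classical in
/-- one class -/
theorem class_lim (hT : S_CTRL) (hTV : S_TV) (hW : S_WALK) (hB : S_BM) (hD : S_DET) {δ : ℝ} (hδ : HasDensity R δ)
    (hδ0 : 0 ≤ δ) (hδ1 : δ ≤ 1) (Ω : Type) [MeasurableSpace Ω] (P : Measure Ω) [IsProbabilityMeasure P]
    (B : ℝ≥0 → Ω → ℝ) (hBM : IsBrownianReal B P) (F : (ℝ → ℝ) → ℝ) (hF : Adm F) (v : ℕ) {ε : ℝ} (hε : 0 < ε) :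
    ∀ᶠ X : ℕ in atTop, |oddSum X (fun m => if R (2 ^ v * m) then F (path (2 ^ v * m)) else 0) -
      δ / 2 * (∫ ω, F (fun s => B s.toNNReal ω) ∂P) * X| ≤ ε * X := by
  set I : ℝ := ∫ ω, F (fun s => B s.toNNReal ω) ∂P with hI
  set ε' : ℝ := ε / 10 with hε'
  have hε0 : 0 < ε' := by positivity
  obtain ⟨η, hη, hUC⟩ := hF.2 ε' hε0
  obtain ⟨e, he, hdet⟩ := hD η hη
  obtain ⟨κ₀, hκ₀, hκ₀4, hctrl⟩ := hT e ε' he hε0
  have hex : ∀ g : ℕ, ∃ h : ℕ, 0 < h ∧ (1 < g → 1 / (g : ℝ) ≤ κ₀ → ∀ᶠ X : ℕ in atTop, ∀ b : ℕ, 0 < b →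
    (1 - 2 * (1 / (g : ℝ))) * Real.log X ≤ (((g - 1) * h : ℕ) : ℝ) * b * Real.log (4 / 3) →
    (((g - 1) * h : ℕ) : ℝ) * b * Real.log (4 / 3) ≤ (1 - 1 / (g : ℝ)) * Real.log X →
    oddCount X (fun n => R n ∧ ¬ Ctl (e * Real.sqrt (Real.log X)) ((g - 1) * h) b n) ≤ ε' * X) := by
    intro g
    by_cases hg : 1 < g ∧ 1 / (g : ℝ) ≤ κ₀
    · obtain ⟨r₀, hr₀, hr⟩ := hctrl (1 / (g : ℝ)) (by
        have : (0 : ℝ) < g := by exact_mod_cast (by omega : 0 < g)
        positivity) hg.2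
      refine ⟨r₀, hr₀, fun _ _ => hr ((g - 1) * r₀) ?_⟩
      have : 1 ≤ g - 1 := by omega
      calc r₀ = 1 * r₀ := (one_mul _).symm
        _ ≤ (g - 1) * r₀ := Nat.mul_le_mul_right r₀ this
    · exact ⟨1, one_pos, fun h1 h2 => absurd ⟨h1, h2⟩ hg⟩
  choose hh hh0 hhc using hex
  have hBMlim := hB Ω P B hBM F hF hh hh0
  -- choice of `g`
  have hg1 : ∀ᶠ g : ℕ in atTop, |(∫ v : Fin ((g - 1) * hh g) → ℝ, F (stp (g * hh g) v)
    ∂(Measure.pi fun _ => gaussianReal 0 (1 / ((g * hh g : ℕ) : ℝ≥0)))) - I| ≤ ε' := by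
    have := Metric.tendsto_atTop.1 hBMlim ε' hε0
    obtain ⟨N, hN⟩ := this
    filter_upwards [eventually_ge_atTop N] with g hg
    have := hN g hg
    rw [Real.dist_eq] at this
    exact this.le
  have hg2 : ∀ᶠ g : ℕ in atTop, 1 / (g : ℝ) ≤ κ₀ := by
    have h1 : Tendsto (fun g : ℕ => 1 / (g : ℝ)) atTop (𝓝 0) := tendsto_one_div_atTop_nhds_zero_nat
    exact h1.eventually_le_const hκ₀
  obtain ⟨g, ⟨⟨hgI, hgκ⟩, hg⟩⟩ := ((hg1.and hg2).and (eventually_gt_atTop 1)).exists
  set h : ℕ := hh g with hhd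
  have hh0' : 0 < h := hh0 g
  have hXc := hhc g hg hgκ
  rw [← hhd] at hXc
  set G : ℕ := g * h with hG
  set r : ℕ := (g - 1) * h with hr
  have hG0 : 0 < G := Nat.mul_pos (by omega) hh0'
  have hGR : (0 : ℝ) < G := by exact_mod_cast hG0
  have hgR : (0 : ℝ) < g := by exact_mod_cast (by omega : 0 < g)
  have hhR : (0 : ℝ) < h := by exact_mod_cast hh0'
  have hGgh : (G : ℝ) = g * h := by rw [hG]; push_cast; ring
  have hrgh : (r : ℝ) = (g - 1) * h := by
    rw [hr]
    push_cast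
    rw [Nat.cast_sub hg.le]
    push_cast
    ring
  have hrG : (r : ℝ) / G = 1 - 1 / g := by
    rw [hrgh, hGgh]
    field_simp
  -- the walk
  have hΦc := stp_cont hF r G
  have hwalk := hW G hG0 r (fun v => F (stp G v)) hΦc (fun v => hF.1 _)
  set Eg : ℝ := ∫ v : Fin r → ℝ, F (stp G v) ∂(Measure.pi fun _ => gaussianReal 0 (1 / (G : ℝ≥0))) with hEg
  have hgI' : |Eg - I| ≤ ε' := hgI
  obtain ⟨b₀, hb₀⟩ := eventually_atTop.1 ((Metric.tendsto_atTop.1 hwalk ε' hε0).choose_spec |> fun h =>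
    eventually_atTop.2 ⟨_, h⟩)
  set θ : ℝ := ε' / 2 with hθ
  have hθ0 : 0 < θ := by positivity
  have hκ'0 : (0 : ℝ) < 1 / G := by positivity
  filter_upwards [hXc, hTV δ hδ (1 / G) ε' hκ'0 hε0, oc_small hθ0, hdet g h v hg hh0' θ hθ0,
    log_tendsto.eventually_ge_atTop (max (max 1 (G * (b₀ + 1))) (g * r))]
    with X hXc hXl hXs hXd hL
  set L := Real.log X with hLd
  have hL1 : 1 ≤ L := ((le_max_left _ _).trans (le_max_left _ _)).trans hL
  have hL2 : (G : ℝ) * (b₀ + 1) ≤ L := ((le_max_right _ _).trans (le_max_left _ _)).trans hL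
  have hL3 : (g : ℝ) * r ≤ L := (le_max_right _ _).trans hL
  have hL0 : 0 < L := by linarith
  have hqlo := log43_lo
  have hqhi := log43_hi
  set q := Real.log (4 / 3) with hq
  have hqpos : 0 < q := by linarith
  have hX0 : (0 : ℝ) ≤ X := Nat.cast_nonneg X
  set b : ℕ := ⌊L / q / (g * h : ℕ)⌋₊ with hbd
  have hLq0 : L * q ≤ L * (1 / 3) := mul_le_mul_of_nonneg_left hqhi hL0.le
  have hLq : 3 * L ≤ L / q := by
    rw [le_div_iff₀ hqpos]
    linarith
  have hbx : (b : ℝ) ≤ L / q / G ∧ L / q / G < b + 1 := by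
    have h0 : 0 ≤ L / q / G := by positivity
    exact ⟨Nat.floor_le h0, Nat.lt_floor_add_one _⟩
  have hb1 : (G : ℝ) * b ≤ L / q := by
    have := hbx.1
    rw [le_div_iff₀ hGR] at this
    linarith
  have hb2 : L / q ≤ G * b + G := by
    have := hbx.2.le
    rw [div_le_iff₀ hGR] at this
    linarith
  have hGL : (G : ℝ) ≤ L := by
    have : (G : ℝ) * 1 ≤ G * (b₀ + 1) := by
      apply mul_le_mul_of_nonneg_left _ hGR.le
      have : (0 : ℝ) ≤ b₀ := Nat.cast_nonneg _
      linarith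
    linarith
  have hbb : b₀ ≤ b := by
    have h1 : (G : ℝ) * (b₀ + 1) ≤ G * (b + 1) := by linarith
    have h2 := le_of_mul_le_mul_left h1 hGR
    have h3 : (b₀ : ℝ) ≤ b := by linarith
    exact_mod_cast h3
  have hbL : L ≤ G * b := by linarith
  have hb0 : 0 < b := by
    rcases Nat.eq_zero_or_pos b with h0 | h0
    · rw [h0] at hbL
      simp at hbL
      linarith
    · exact h0
  have hbR : (0 : ℝ) < b := by exact_mod_cast hb0
  -- conditions
  have c1 : 1 / (G : ℝ) * L ≤ b := by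
    rw [one_div_mul_eq_div, div_le_iff₀ hGR]
    linarith
  have hrb : (r : ℝ) * b ≤ (1 - 1 / g) * L / q := by
    have h1 : (r : ℝ) * b = (r / G) * (G * b) := by field_simp
    rw [h1, hrG]
    have h2 : 0 ≤ 1 - 1 / (g : ℝ) := by
      rw [← hrG]
      positivity
    calc (1 - 1 / (g : ℝ)) * (G * b) ≤ (1 - 1 / g) * (L / q) := mul_le_mul_of_nonneg_left hb1 h2
      _ = (1 - 1 / g) * L / q := by ring
  have c2 : ((r * b : ℕ) : ℝ) ≤ (1 - 1 / G) * L / q := by
    push_cast
    refine hrb.trans ?_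
    have h1 : 1 / (G : ℝ) ≤ 1 / g := by
      apply one_div_le_one_div_of_le hgR
      rw [hGgh]
      have h2 : (1 : ℝ) ≤ h := by exact_mod_cast hh0'
      have h3 := mul_le_mul_of_nonneg_left h2 hgR.le
      linarith
    gcongr
  have c3 : (r : ℝ) * b * q ≤ (1 - 1 / (g : ℝ)) * L := by
    rwa [le_div_iff₀ hqpos] at hrb
  have c4 : (1 - 2 * (1 / (g : ℝ))) * L ≤ r * b * q := by
    have h1 : (r : ℝ) * b = (r / G) * (G * b) := by field_simp
    have h2 : 0 ≤ (r : ℝ) / G := by positivity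
    have h3 : (r : ℝ) / G * (L / q) ≤ r * b + r := by
      calc (r : ℝ) / G * (L / q) ≤ r / G * (G * b + G) := mul_le_mul_of_nonneg_left hb2 h2
        _ = r * b + r := by field_simp
    have h4 : (1 - 1 / (g : ℝ)) * L ≤ (r * b + r) * q := by
      rw [hrG, ← mul_div_assoc, div_le_iff₀ hqpos] at h3
      exact h3
    have h5 : (r : ℝ) * q ≤ 1 / g * L := by
      rw [one_div_mul_eq_div, le_div_iff₀ hgR]
      have h6 : (0 : ℝ) ≤ g * r := by positivity
      have h7 := mul_le_mul_of_nonneg_left hqhi h6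
      have h8 : (r : ℝ) * q * g = g * r * q := by ring
      rw [h8]
      linarith
    have h6 : ((r : ℝ) * b + r) * q = r * b * q + r * q := by ring
    rw [h6] at h4
    have h7 : (1 - 2 * (1 / (g : ℝ))) * L = (1 - 1 / (g : ℝ)) * L - 1 / g * L := by ring
    rw [h7]
    linarith
  have hbad := hXc b hb0 c4 c3
  -- the law
  set Ψ : (Fin r → ℕ) → ℝ := fun u => F (stp G (fun i => (2 * (b : ℝ) - (u i : ℕ)) / Real.sqrt (2 * (G : ℕ) * b))) with hΨ
  have l1 := hXl r b c1 c2 (fun u => (Ψ u + 1) / 2) (fun u => by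
    have := abs_le.1 (hF.1 (stp G (fun i => (2 * (b : ℝ) - (u i : ℕ)) / Real.sqrt (2 * (G : ℕ) * b))))
    constructor
    · have h1 : -1 ≤ Ψ u := this.1
      linarith
    · have h1 : Ψ u ≤ 1 := this.2
      linarith)
  have l2 := hXl r b c1 c2 (fun _ => 1) (fun _ => ⟨zero_le_one, le_rfl⟩)
  have hΨw : ∀ ω : ℕ → ℕ, Ψ (blocks (fun i => i * b) r (fun j => ω j + 1)) = F (stp G (fun i : Fin r =>
      ((Yw ω (((i : ℕ) + 1) * b) - Yw ω ((i : ℕ) * b) : ℤ) : ℝ) / Real.sqrt (2 * G * b))) := by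
    intro ω
    simp only [hΨ, blocks_Yw]
  have hΨn : ∀ m : ℕ, Ψ (blocks (fun i => i * b) r (wait m)) = F (stp G (fun i : Fin r =>
      ((Yn m (((i : ℕ) + 1) * b) - Yn m ((i : ℕ) * b) : ℤ) : ℝ) / Real.sqrt (2 * (G : ℕ) * b))) := by
    intro m
    simp only [hΨ, blocks_Yn]
  set W : ℝ := ∫ ω : ℕ → ℕ, Ψ (blocks (fun i => i * b) r (fun j => ω j + 1)) ∂PP with hWd
  have hWE : |W - Eg| ≤ ε' := by
    have h1 := hb₀ b hbb
    rw [Real.dist_eq] at h1
    have h2 : W = ∫ ω : ℕ → ℕ, F (stp G (fun i : Fin r =>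
      ((Yw ω (((i : ℕ) + 1) * b) - Yw ω ((i : ℕ) * b) : ℤ) : ℝ) / Real.sqrt (2 * G * b))) ∂PP := by
      rw [hWd]
      congr 1
      funext ω
      exact hΨw ω
    rw [h2]
    exact h1.le
  have hmeas : Measurable fun ω : ℕ → ℕ => Ψ (blocks (fun i => i * b) r (fun j => ω j + 1)) := by
    have h1 : Measurable fun ω : ℕ → ℕ => blocks (fun i => i * b) r (fun j => ω j + 1) := by
      apply measurable_pi_lambda
      intro i
      unfold blocks
      apply Finset.measurable_sum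
      intro j _
      exact (measurable_pi_apply j).add_const 1
    exact (measurable_of_countable Ψ).comp h1
  have hint : Integrable (fun ω : ℕ → ℕ => Ψ (blocks (fun i => i * b) r (fun j => ω j + 1))) PP := by
    apply Integrable.of_bound hmeas.aestronglyMeasurable 1
    filter_upwards with ω
    exact hF.1 _
  have hWint : ∫ ω : ℕ → ℕ, (Ψ (blocks (fun i => i * b) r (fun j => ω j + 1)) + 1) / 2 ∂PP = (W + 1) / 2 := by
    rw [integral_div, integral_add hint (integrable_const _)]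
    simp [hWd]
  rw [hWint] at l1
  have hone : ∫ _ω : ℕ → ℕ, (1 : ℝ) ∂PP = 1 := by simp
  rw [hone] at l2
  -- the sums
  set f : ℕ → ℝ := fun m => if R (2 ^ v * m) then F (path (2 ^ v * m)) else 0 with hf
  set f1 : ℕ → ℝ := fun m => if R m then Ψ (blocks (fun i => i * b) r (wait m)) else 0 with hf1
  set f2 : ℕ → ℝ := fun m => if R m then (Ψ (blocks (fun i => i * b) r (wait m)) + 1) / 2 else 0 with hf2
  set f3 : ℕ → ℝ := fun m => if R m then (1 : ℝ) else 0 with hf3
  have hlin : oddSum X f1 = 2 * oddSum X f2 - oddSum X f3 := by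
    unfold oddSum
    rw [Finset.mul_sum, ← Finset.sum_sub_distrib]
    apply Finset.sum_congr rfl
    intro m _
    simp only [hf1, hf2, hf3]
    split_ifs <;> ring
  set Bad : ℕ → Prop := fun n => (R n ∧ ¬ Ctl (e * Real.sqrt L) r b n) ∨ ¬ (θ * X ≤ n) with hBad
  have hBc : oddCount X Bad ≤ 2 * ε' * X := by
    have h6 := oc_or X (fun n => R n ∧ ¬ Ctl (e * Real.sqrt L) r b n) (fun n => ¬ (θ * X ≤ n))
    have h7 : oddCount X (fun n => ¬ (θ * X ≤ n)) ≤ 2 * θ * X := hXs
    have h8 : 2 * θ * X = ε' * X := by rw [hθ]; ring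
    have h9 : oddCount X (fun n => R n ∧ ¬ Ctl (e * Real.sqrt L) r b n) ≤ ε' * X := hbad
    linarith
  have hclose : |oddSum X f - oddSum X f1| ≤ ε' * X + 2 * oddCount X Bad := by
    apply sum_close hε0.le
    · intro m hmX hm hb'
      obtain ⟨g1, g2⟩ := not_or.1 hb'
      rw [not_not] at g2
      by_cases hRm : R m
      · have hG' : Ctl (e * Real.sqrt L) r b m := by
          by_contra h
          exact g1 ⟨hRm, h⟩
        have hR2 : R (2 ^ v * m) := R_two.2 hRm
        simp only [hf, hf1]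
        rw [if_pos hR2, if_pos hRm, hΨn m]
        apply hUC
        intro s hs0 hs1
        exact hXd b rfl m hmX g2 (Nat.odd_iff.1 hm) hRm hG' s hs0 hs1
      · have hR2 : ¬ R (2 ^ v * m) := fun h => hRm (R_two.1 h)
        simp only [hf, hf1]
        rw [if_neg hR2, if_neg hRm, sub_zero, abs_zero]
        exact hε0.le
    · intro m
      have a1 : |f m| ≤ 1 := by
        simp only [hf]
        split_ifs
        · exact hF.1 _
        · simp
      have a2 : |f1 m| ≤ 1 := by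
        simp only [hf1]
        split_ifs
        · exact hF.1 _
        · simp
      have a3 := abs_sub (f m) (f1 m)
      linarith [abs_sub_abs_le_abs_sub (f m) (f1 m)]
  have k1 := abs_le.1 l1
  have k2 := abs_le.1 l2
  have k3 := abs_le.1 hclose
  have k4 : |δ / 2 * W * X - δ / 2 * I * X| ≤ ε' * X := by
    have h1 : δ / 2 * W * X - δ / 2 * I * X = δ / 2 * (W - I) * X := by ring
    rw [h1, abs_mul, abs_mul, abs_of_nonneg (by positivity : 0 ≤ δ / 2), abs_of_nonneg hX0]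
    have h2 : |W - I| ≤ 2 * ε' := by
      have : W - I = (W - Eg) + (Eg - I) := by ring
      rw [this]
      refine (abs_add_le _ _).trans ?_
      linarith
    have h3 : δ / 2 * |W - I| ≤ 1 / 2 * (2 * ε') := by
      apply mul_le_mul _ h2 (abs_nonneg _) (by norm_num)
      linarith
    have h4 : 1 / 2 * (2 * ε') = ε' := by ring
    rw [h4] at h3
    exact mul_le_mul_of_nonneg_right h3 hX0
  have k5 := abs_le.1 k4
  have hε10 : ε * X = 10 * (ε' * X) := by rw [hε']; ring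
  have hpos : 0 ≤ ε' * X := by positivity
  have m1 : oddSum X f2 = oddSum X (fun m => if R m then (fun u => (Ψ u + 1) / 2) (blocks (fun i => i * b) r (wait m)) else 0) := rfl
  rw [abs_le, hε10]
  have n1 : δ / 2 * ((W + 1) / 2) * X = δ / 2 * W * X / 2 + δ / 2 * X / 2 := by ring
  have n2 : δ / 2 * 1 * X = δ / 2 * X := by ring
  rw [n1] at k1
  rw [n2] at k2
  rw [← m1] at k1
  have m2 : oddSum X f3 = oddSum X (fun m => if R m then (fun _ : Fin r → ℕ => (1 : ℝ)) (blocks (fun i => i * b) r (wait m)) else 0) := rfl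
  rw [← m2] at k2
  constructor
  · linarith [k1.1, k1.2, k2.1, k2.2, k3.1, k3.2, k5.1, k5.2]
  · linarith [k1.1, k1.2, k2.1, k2.2, k3.1, k3.2, k5.1, k5.2]

open Classical in
theorem main (hT : S_CTRL) (hTV : S_TV) (hSUM : S_SUM) (hW : S_WALK) (hB : S_BM) (hD : S_DET) : S_FCLT := by
  intro δ hδ Ω _ P _ B hBM F hF
  obtain ⟨δ', h0, h1, _, h3, _⟩ := Pool.Agent.H55.UL.tail
  have hδ' : δ' = δ := tendsto_nhds_unique h3 hδ
  subst hδ'
  have h4 := hSUM (fun n => if R n then F (path n) else 0) (fun n => by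
    show |if R n then F (path n) else 0| ≤ 1
    split_ifs
    · exact hF.1 _
    · simp) (δ' * ∫ ω, F (fun s => B s.toNNReal ω) ∂P) ?_
  · exact h4
  · intro v
    rw [Metric.tendsto_atTop]
    intro ε hε
    obtain ⟨N, hN⟩ := eventually_atTop.1 (class_lim hT hTV hW hB hD hδ h0.le h1 Ω P B hBM F hF v
      (show 0 < ε / 2 by positivity))
    refine ⟨max N 1, fun X hX => ?_⟩
    have h5 := hN X ((le_max_left _ _).trans hX)
    have hXR : (0 : ℝ) < X := by
      have : 1 ≤ X := (le_max_right _ _).trans hX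
      exact_mod_cast this
    rw [Real.dist_eq]
    have e1 : oddSum X (fun m => if R (2 ^ v * m) then F (path (2 ^ v * m)) else 0) / X -
        δ' * (∫ ω, F (fun s => B s.toNNReal ω) ∂P) / 2 =
        (oddSum X (fun m => if R (2 ^ v * m) then F (path (2 ^ v * m)) else 0) -
        δ' / 2 * (∫ ω, F (fun s => B s.toNNReal ω) ∂P) * X) / X := by
      field_simp
    rw [e1, abs_div, abs_of_pos hXR, div_lt_iff₀ hXR]
    refine lt_of_le_of_lt h5 ?_
    nlinarith

end Pool.Agent.H55.DK.FCLT
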