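import Pool.Agent.H55.DK.F3

/-!
# Project DK: the assembly
-/

set_option autoImplicit false

namespace Pool.Agent.H55.DK

open Finset Filter Topology MeasureTheory ProbabilityTheory
open Pool.Agent.H499R2.ND.TJ (PP)
open Pool.Agent.Results.MP_f7abf1_nt.BlockLaw (T Syr wait blocks Admissible prob oddCount HasDensity)
open Pool.Agent.H55.UL (R R_two oc_mono oc_or oc_nonneg oc_small b_facts log_tendsto sqrt_diff log43_lo log43_hi
  log2_hi)

theorem Co_congr {r b : ℕ} {p q p' q' : ℝ} {Y : ℕ → ℤ} (h1 : p = p') (h2 : q = q') (h : Co r b p q Y) : Co r b p' q' Y := by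
  rw [← h1, ← h2]; exact h

/-- the numbers of the set reach `1` -/
theorem Set1_R (y z : ℝ) {v m : ℕ} (h : Set1 y z (2 ^ v * m)) (hC : ∀ n t, IsTC n t → R n) : R m := by
  obtain ⟨t, ht, _⟩ := h
  exact R_two.1 (hC _ t ht)

theorem reach_C (k : ℕ) : ∀ n : ℕ, C^[k] n = 1 → R n := by
  induction k using Nat.strong_induction_on with
  | _ k ih =>
    intro n h
    rcases Nat.eq_zero_or_pos k with h0 | h0
    · subst h0
      exact ⟨0, h⟩
    · obtain ⟨k, rfl⟩ : ∃ k', k = k' + 1 := ⟨k - 1, by omega⟩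
      rw [Function.iterate_succ_apply] at h
      rcases Nat.mod_two_eq_zero_or_one n with h2 | h2
      · have e : C n = T n := by
          unfold C
          rw [if_pos h2, UL.T_even h2]
        rw [e] at h
        exact UL.R_T.2 (ih k (by omega) _ h)
      · have e1 : C n = 3 * n + 1 := by
          unfold C
          rw [if_neg (by omega)]
        rw [e1] at h
        rcases Nat.eq_zero_or_pos k with h3 | h3
        · subst h3
          have : 3 * n + 1 = 1 := h
          omega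
        · obtain ⟨k, rfl⟩ : ∃ k', k = k' + 1 := ⟨k - 1, by omega⟩
          rw [Function.iterate_succ_apply] at h
          have e2 : C (3 * n + 1) = T n := by
            unfold C
            rw [if_pos (by omega), UL.T_odd h2]
          rw [e2] at h
          exact UL.R_T.2 (ih k (by omega) _ h)

theorem class_law (hT : S_CTRL) (hP : S_PMAX) (hM : S_MLAW) (hC : S_CPATH) {δ : ℝ} (hδ : HasDensity R δ)
    (hδ0 : 0 ≤ δ) (hδ1 : δ ≤ 1) {y : ℝ} (z : ℝ) (hy : 0 ≤ y) (v : ℕ) {ε : ℝ} (hε : 0 < ε) : ∀ᶠ X : ℕ in atTop,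
    |oddCount X (fun m => Set1 y z (2 ^ v * m)) - FF y z * oddCount X (fun m => R (2 ^ v * m))| ≤ ε * X := by
  set η : ℝ := ε / 16 with hη
  have hη0 : 0 < η := by positivity
  obtain ⟨e, he, hup, hlow⟩ := choice z hy hη0
  obtain ⟨κ₀, hκ₀, hκ₀4, hctrl⟩ := hT (e / 8) η (by positivity) hη0
  set κ : ℝ := min κ₀ (e / (16 * (|y| + |z| + 1))) with hκ
  have hκ0 : 0 < κ := lt_min hκ₀ (by positivity)
  have hκ4 : κ ≤ 1 / 4 := (min_le_left _ _).trans hκ₀4
  have hκe : (|y| + |z| + 1) * (16 * κ) ≤ e := by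
    have h1 : κ ≤ e / (16 * (|y| + |z| + 1)) := min_le_right _ _
    rw [le_div_iff₀ (by positivity)] at h1
    linarith
  have hκy : |y| * (16 * κ) ≤ e := by
    refine le_trans (mul_le_mul_of_nonneg_right ?_ (by positivity)) hκe
    linarith [abs_nonneg z]
  have hκz : |z| * (16 * κ) ≤ e := by
    refine le_trans (mul_le_mul_of_nonneg_right ?_ (by positivity)) hκe
    linarith [abs_nonneg y]
  obtain ⟨r₀, hr₀, hctrl⟩ := hctrl κ hκ0 (min_le_left _ _)
  obtain ⟨r₁, hr₁, hexp⟩ := exp_small (show (0 : ℝ) < e ^ 2 / 4 by positivity) hη0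
  set r : ℕ := max r₀ r₁ with hr
  have hr0 : 0 < r := lt_of_lt_of_le hr₀ (le_max_left _ _)
  have hrR : (0 : ℝ) < r := by exact_mod_cast hr0
  have hexp' : (r : ℝ) * (2 * Real.exp (-(e ^ 2 * r / 4))) ≤ η := by
    have := hexp r (le_max_right _ _)
    rwa [show e ^ 2 / 4 * (r : ℝ) = e ^ 2 * r / 4 by ring] at this
  have hctrl := hctrl r (le_max_left _ _)
  set κ' : ℝ := min κ (1 / r) with hκ'
  have hκ'0 : 0 < κ' := lt_min hκ0 (by positivity)
  set θ : ℝ := η / 2 with hθ
  have hθ0 : 0 < θ := by positivity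
  -- the model
  have hm1 : ∀ᶠ K : ℕ in atTop, PP.real (Fu K (y + e + e) (z + e)) ≤ FF y z + 2 * η := by
    have h1 := hM (y + e + e) (z + e) (by linarith)
    have h2 : FF (y + e + e) (z + e) < FF y z + 2 * η := by
      have : y + e + e = y + 2 * e := by ring
      rw [this]
      linarith
    exact (h1.eventually_lt_const h2).mono fun K hK => hK.le
  have hm2 : ∀ᶠ K : ℕ in atTop, FF y z - 2 * η ≤ PP.real (Fu K (y - e) (z - e)) := by
    rcases hlow with h0 | ⟨h0, h1⟩
    · have h1 : FF y z = 0 := by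
        rw [h0]
        unfold FF
        simp
      rw [h1]
      filter_upwards with K
      have : 0 ≤ PP.real (Fu K (y - e) (z - e)) := measureReal_nonneg
      linarith
    · have h2 := hM (y - e) (z - e) h0
      exact (h2.eventually_const_lt (show FF y z - 2 * η < FF (y - e) (z - e) by linarith)).mono fun K hK => hK.le
  obtain ⟨K₁, hK₁⟩ := eventually_atTop.1 (hm1.and hm2)
  obtain ⟨hFF0, hFF1⟩ := FF_mem hM z hy
  filter_upwards [hctrl, co_law hδ hκ'0 hη0, oc_small hθ0, b_facts (show κ ≤ 1 / 2 by linarith) hr0,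
    numeric he hκ0 hκ4 hκy v r hθ0, numeric he hκ0 hκ4 hκz v r hθ0,
    log_tendsto.eventually_ge_atTop (max (max (K₁ : ℝ) 1) (max (r / κ) (r * (2 * e ^ 2 * r)))),
    log_tendsto.eventually (UL.slow (2 * ((r : ℝ) + 1) * (e / 8) + 3) (show (0 : ℝ) < 1 by norm_num))]
    with X hXc hXl hXs hXb hXy hXz hL hsl
  obtain ⟨hb, hLK, hK1, hK2⟩ := hXb
  set L := Real.log X with hLdef
  set b : ℕ := ⌊(1 - κ) * L / Real.log (4 / 3) / r⌋₊ with hbdef
  have hlo := log43_lo
  have hhi := log43_hi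
  have hqpos : 0 < Real.log (4 / 3) := by linarith
  have hL1 : (K₁ : ℝ) ≤ L := ((le_max_left _ _).trans (le_max_left _ _)).trans hL
  have hL2 : 1 ≤ L := ((le_max_right _ _).trans (le_max_left _ _)).trans hL
  have hL3 : r / κ ≤ L := ((le_max_left _ _).trans (le_max_right _ _)).trans hL
  have hL4 : r * (2 * e ^ 2 * r) ≤ L := ((le_max_right _ _).trans (le_max_right _ _)).trans hL
  have hX0 : (0 : ℝ) ≤ X := Nat.cast_nonneg X
  have hbR : (0 : ℝ) < b := by exact_mod_cast hb
  have hLK' : L ≤ r * b := by push_cast at hLK; exact hLK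
  -- conditions on `r b`
  have c1 : (1 - 2 * κ) * L ≤ r * b * Real.log (4 / 3) := by
    push_cast at hK2
    rw [sub_le_iff_le_add, div_le_iff₀ hqpos] at hK2
    rw [div_le_iff₀ hκ0] at hL3
    have h1 : (r : ℝ) * Real.log (4 / 3) ≤ r := by
      have := mul_le_mul_of_nonneg_left hhi hrR.le
      linarith
    have h2 : ((r : ℝ) * b + r) * Real.log (4 / 3) = r * b * Real.log (4 / 3) + r * Real.log (4 / 3) := by ring
    linarith
  have c2 : r * b * Real.log (4 / 3) ≤ (1 - κ) * L := by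
    push_cast at hK1
    rwa [le_div_iff₀ hqpos] at hK1
  have c3 : κ' * L ≤ b := by
    have h1 : κ' ≤ 1 / r := min_le_right _ _
    have h2 : κ' * L ≤ 1 / r * L := mul_le_mul_of_nonneg_right h1 (by linarith)
    have h3 : 1 / (r : ℝ) * L ≤ 1 / r * (r * b) := mul_le_mul_of_nonneg_left hLK' (by positivity)
    have h4 : 1 / (r : ℝ) * (r * b) = b := by field_simp
    linarith
  have c4 : ((r * b : ℕ) : ℝ) ≤ (1 - κ') * L / Real.log (4 / 3) := by
    refine hK1.trans ?_
    have h1 : κ' ≤ κ := min_le_left _ _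
    gcongr
  have c5 : 2 * e ^ 2 * r ≤ b := by
    have h1 : (r : ℝ) * (2 * e ^ 2 * r) ≤ r * b := hL4.trans hLK'
    exact le_of_mul_le_mul_left h1 hrR
  have c6 : K₁ ≤ r * b := by
    have : (K₁ : ℝ) ≤ ((r * b : ℕ) : ℝ) := hL1.trans hLK
    exact_mod_cast this
  obtain ⟨m1, m2⟩ := hK₁ (r * b) c6
  -- the law
  set τ : ℝ := Real.sqrt (2 * (r * b : ℕ)) with hτ
  have l1 := hXl r b c3 c4 ((y + e) * τ) ((z + e) * τ)
  have l2 := hXl r b c3 c4 ((y - e) * τ) ((z - e) * τ)
  have l3 := hXl 0 b c3 (by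
    rw [zero_mul, Nat.cast_zero]
    have : κ' ≤ 1 / 4 := (min_le_left _ _).trans hκ4
    apply div_nonneg (mul_nonneg (by linarith) (by linarith)) hqpos.le) 0 0
  have hR0 : oddCount X (fun n => R n ∧ Co 0 b 0 0 (Yn n)) = oddCount X R := by
    congr 1
    funext n
    apply propext
    constructor
    · exact fun h => h.1
    · intro h
      refine ⟨h, ?_, ?_⟩
      · intro i hi
        obtain rfl : i = 0 := by omega
        rw [zero_mul, Yn_zero]
        simp
      · rw [zero_mul, Yn_zero]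
        simp
  have hP0 : PP.real {ω | Co 0 b 0 0 (Yw ω)} = 1 := by
    have : {ω | Co 0 b 0 0 (Yw ω)} = Set.univ := by
      ext ω
      simp only [Set.mem_ofPred_eq, Set.mem_univ, iff_true]
      refine ⟨?_, ?_⟩
      · intro i hi
        obtain rfl : i = 0 := by omega
        simp [Yw]
      · simp [Yw]
    rw [this]
    simp
  rw [hR0, hP0] at l3
  set P1 := PP.real {ω | Co r b ((y + e) * τ) ((z + e) * τ) (Yw ω)} with hP1
  set P2 := PP.real {ω | Co r b ((y - e) * τ) ((z - e) * τ) (Yw ω)} with hP2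
  have p1 : P1 ≤ FF y z + 3 * η := by
    have h1 := co_le_full hP hb (y + e) (z + e) he c5
    rw [← hτ] at h1
    have h2 : PP.real (Fu (r * b) (y + e + e) (z + e)) ≤ FF y z + 2 * η := m1
    linarith
  have p2 : FF y z - 2 * η ≤ P2 := m2.trans (full_le_co r b (y - e) (z - e))
  -- the good numbers
  set w : ℝ := e / 8 * Real.sqrt L with hw
  have hw0 : 0 ≤ w := by positivity
  have hctl := hXc b hb c1 c2
  set Bad : ℕ → Prop := fun n => (R n ∧ ¬ Ctl w r b n) ∨ ¬ (θ * X ≤ n) with hBad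
  have hB : oddCount X Bad ≤ 2 * η * X := by
    have h6 := oc_or X (fun n => R n ∧ ¬ Ctl w r b n) (fun n => ¬ (θ * X ≤ n))
    have h7 : oddCount X (fun n => ¬ (θ * X ≤ n)) ≤ 2 * θ * X := hXs
    have h8 : 2 * θ * X = η * X := by rw [hθ]; ring
    have h9 : oddCount X (fun n => R n ∧ ¬ Ctl w r b n) ≤ η * X := hctl
    linarith
  have key : ∀ m : ℕ, m ≤ X → m % 2 = 1 → R m → ¬ Bad m →
      (Set1 y z (2 ^ v * m) → Co r b ((y + e) * τ) ((z + e) * τ) (Yn m)) ∧
      (Co r b ((y - e) * τ) ((z - e) * τ) (Yn m) → Set1 y z (2 ^ v * m)) := by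
    intro m hmX hm hRm hb'
    obtain ⟨g1, g2⟩ := not_or.1 hb'
    rw [not_not] at g2
    have hG : Ctl w r b m := by
      by_contra h
      exact g1 ⟨hRm, h⟩
    obtain ⟨J, hJ, hJ', hIsT⟩ := exists_J hm hRm
    have hJL : (J : ℝ) ≤ 24 * L := by
      apply J_le hm hJ hJ' hIsT hw0 hG hmX
      · have h1 : 0 ≤ κ * L := mul_nonneg hκ0.le (by linarith)
        have : (1 - κ) * L ≤ L := by linarith
        exact c2.trans this
      · obtain ⟨s1, _, s2⟩ := hsl
        have h1 : 1 ≤ Real.sqrt L := by rw [Real.one_le_sqrt]; exact hL2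
        have h2 : 2 * ((r : ℝ) + 1) * w + 3 ≤ (2 * ((r : ℝ) + 1) * (e / 8) + 3) * Real.sqrt L := by
          have h3 : (2 * ((r : ℝ) + 1) * (e / 8) + 3) * Real.sqrt L = 2 * ((r : ℝ) + 1) * w + 3 * Real.sqrt L := by
            rw [hw]; ring
          rw [h3]
          linarith
        linarith
    exact sandwich hC hm hJ hJ' hb hw0 hG (hXy b c1 c2 m J hmX g2 (by omega) hJL)
      (hXz b c1 c2 m J hmX g2 (by omega) hJL)
  have hRR : ∀ m, Set1 y z (2 ^ v * m) → R m := by
    rintro m ⟨t, ht, _⟩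
    exact R_two.1 (reach_C t _ ht.1)
  set N := oddCount X (fun m => Set1 y z (2 ^ v * m)) with hN
  set N1 := oddCount X (fun m => R m ∧ Co r b ((y + e) * τ) ((z + e) * τ) (Yn m)) with hN1
  set N2 := oddCount X (fun m => R m ∧ Co r b ((y - e) * τ) ((z - e) * τ) (Yn m)) with hN2
  have a1 : N ≤ N1 + 2 * η * X := by
    have h6 : N ≤ oddCount X (fun m => (R m ∧ Co r b ((y + e) * τ) ((z + e) * τ) (Yn m)) ∨ Bad m) := by
      apply oc_mono
      rintro m hmX hm h
      by_cases hb' : Bad m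
      · exact Or.inr hb'
      · exact Or.inl ⟨hRR m h, (key m hmX (Nat.odd_iff.1 hm) (hRR m h) hb').1 h⟩
    have h7 := oc_or X (fun m => R m ∧ Co r b ((y + e) * τ) ((z + e) * τ) (Yn m)) Bad
    linarith
  have a2 : N2 ≤ N + 2 * η * X := by
    have h6 : N2 ≤ oddCount X (fun m => Set1 y z (2 ^ v * m) ∨ Bad m) := by
      apply oc_mono
      rintro m hmX hm ⟨h1, h2⟩
      by_cases hb' : Bad m
      · exact Or.inr hb'
      · exact Or.inl ((key m hmX (Nat.odd_iff.1 hm) h1 hb').2 h2)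
    have h7 := oc_or X (fun m => Set1 y z (2 ^ v * m)) Bad
    linarith
  have hRv : oddCount X (fun m => R (2 ^ v * m)) = oddCount X R := by
    congr 1
    funext m
    exact propext R_two
  rw [hRv]
  set Q := oddCount X R with hQ
  have l1' := abs_le.1 l1
  have l2' := abs_le.1 l2
  have l3' := abs_le.1 l3
  have hηX : 0 ≤ η * X := by positivity
  have hδX : 0 ≤ δ / 2 * X := by positivity
  have hδX1 : δ / 2 * X ≤ X := by
    have h1 := mul_le_mul_of_nonneg_right hδ1 hX0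
    linarith
  have b1 : δ / 2 * P1 * X ≤ FF y z * (δ / 2 * X) + 3 * η * X := by
    have h1 : P1 * (δ / 2 * X) ≤ (FF y z + 3 * η) * (δ / 2 * X) := mul_le_mul_of_nonneg_right p1 hδX
    have h2 : 3 * η * (δ / 2 * X) ≤ 3 * η * X := mul_le_mul_of_nonneg_left hδX1 (by positivity)
    linarith
  have b2 : FF y z * (δ / 2 * X) - 2 * η * X ≤ δ / 2 * P2 * X := by
    have h1 : (FF y z - 2 * η) * (δ / 2 * X) ≤ P2 * (δ / 2 * X) := mul_le_mul_of_nonneg_right p2 hδX
    have h2 : 2 * η * (δ / 2 * X) ≤ 2 * η * X := mul_le_mul_of_nonneg_left hδX1 (by positivity)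
    linarith
  have b3 : FF y z * (δ / 2 * X) ≤ FF y z * Q + η * X := by
    have h1 : FF y z * (δ / 2 * X) ≤ FF y z * (Q + η * X) := mul_le_mul_of_nonneg_left (by linarith [l3'.1]) hFF0
    have h2 : FF y z * (η * X) ≤ 1 * (η * X) := mul_le_mul_of_nonneg_right hFF1 hηX
    linarith
  have b4 : FF y z * Q ≤ FF y z * (δ / 2 * X) + η * X := by
    have h1 : FF y z * Q ≤ FF y z * (δ / 2 * X + η * X) := mul_le_mul_of_nonneg_left (by linarith [l3'.2]) hFF0
    have h2 : FF y z * (η * X) ≤ 1 * (η * X) := mul_le_mul_of_nonneg_right hFF1 hηX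
    linarith
  have hε16 : ε * X = 16 * (η * X) := by rw [hη]; ring
  rw [abs_le, hε16]
  constructor
  · linarith [l2'.1]
  · linarith [l1'.2]

namespace FIN

theorem main (hT : S_CTRL) (hP : S_PMAX) (hM : S_MLAW) (hC : S_CPATH) : S_FIN := by
  intro δ hδ y z hy
  obtain ⟨δ', h0, h1, _, h3, _⟩ := Pool.Agent.H55.UL.tail
  have hδ' : δ' = δ := by
    obtain ⟨_, _, _, _, h3', _⟩ := Pool.Agent.H55.UL.tail
    exact tendsto_nhds_unique h3 hδ
  subst hδ'
  obtain ⟨hFF0, hFF1⟩ := FF_mem hM z hy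
  exact Pool.Agent.H55.UL.dens_transfer hFF0 hFF1 (fun v ε hε => class_law hT hP hM hC hδ h0.le h1 z hy v hε) hδ

end FIN

end Pool.Agent.H55.DK
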