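import Pool.Agent.H55.DK.Stm

/-! Project DK: membership in `SEf`. -/

set_option autoImplicit false

namespace Pool.Agent.H55.DK.MEM

open Pool.Agent.H320R2.PD Pool.Agent.H499R2.ND Finset Filter Topology
open Pool.Agent.TH977.IP (Sy ex stf word_seq)

theorem main : S_MEM := by
  intro ks
  induction ks with
  | nil =>
    intro F M h
    exact h
  | cons k ks ih =>
    intro F M hMS
    intro w hl hw x hx hV
    obtain ⟨h1, h2⟩ := word_seq (d := 1) odd_one w hw M x hx hV
    rw [hl] at h1 h2
    rw [List.sum_cons] at hMS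
    apply ih _ x
    have e0 : (Sy 1)^[ks.sum] x = (Sy 1)^[k + ks.sum] M := by
      rw [h2, ← Function.iterate_add_apply, add_comm ks.sum k]
    have e : (fun j => ex 1 ((Sy 1)^[j] x)) = fun j => ex 1 ((Sy 1)^[k + j] M) := by
      funext j
      rw [h2, ← Function.iterate_add_apply, add_comm j k]
    rw [e0, e, h1]
    exact hMS

end Pool.Agent.H55.DK.MEM
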