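import Pool.Agent.H55.DK.Stm

/-! # DK-MLAW: the joint law of the maximum and the end of the random walk -/

set_option autoImplicit false

namespace Pool.Agent.H55.DK.MLAW

open MeasureTheory ProbabilityTheory Filter Topology Finset
open Pool.Agent.H499R2.ND.TJ (PP ZZ XX nl lim_set meas_ZZ no_atom)
open Pool.Agent.H499R2.ND (Phi_continuous Phi_neg)
open Pool.Agent.H55.DK

/-- the sum of the first `K` waiting times -/
def Nn (K : ℕ) (ω : ℕ → ℕ) : ℕ := ∑ i ∈ range K, (ω i + 1)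

theorem Yw_eq (ω : ℕ → ℕ) (K : ℕ) : Yw ω K = 2 * (K : ℤ) - (Nn K ω : ℤ) := by
  unfold Yw Nn
  push_cast
  rfl

theorem meas_Nn (K : ℕ) : Measurable (Nn K) := by
  unfold Nn
  exact Finset.measurable_fun_sum _ fun i _ => (measurable_pi_apply i).add_const 1

theorem meas_Yw (K : ℕ) : Measurable fun ω => Yw ω K := by
  have h : (fun ω => Yw ω K) = (fun t : ℕ => 2 * (K : ℤ) - (t : ℤ)) ∘ Nn K := by
    funext ω
    exact Yw_eq ω K
  rw [h]
  exact measurable_from_top.comp (meas_Nn K)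

theorem ZZ_eq (K : ℕ) (ω : ℕ → ℕ) : ZZ K ω = -((Yw ω K : ℤ) : ℝ) / Real.sqrt (2 * K) := by
  have h1 : -((Yw ω K : ℤ) : ℝ) = ∑ i ∈ range K, ((ω i : ℝ) - 1) := by
    unfold Yw
    push_cast
    rw [Finset.sum_add_distrib, Finset.sum_sub_distrib]
    simp only [sum_const, card_range, nsmul_eq_mul, mul_one]
    ring
  rw [h1, Real.sqrt_mul (by norm_num)]
  unfold ZZ XX nl
  rw [← Finset.sum_div]
  by_cases hK : K = 0
  · subst hK
    simp
  · have h2 : Real.sqrt 2 ≠ 0 := by positivity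
    have h3 : Real.sqrt K ≠ 0 := by
      rw [Real.sqrt_ne_zero']
      exact_mod_cast Nat.pos_of_ne_zero hK
    field_simp

/-- probability that the normalised sum is at least `c` -/
noncomputable def Q (K : ℕ) (c : ℝ) : ℝ := PP.real (ZZ K ⁻¹' Set.Ici c)

theorem set_eq {K : ℕ} (hK : 0 < K) (u : ℝ) :
    {ω : ℕ → ℕ | ((Yw ω K : ℤ) : ℝ) ≤ u} = ZZ K ⁻¹' Set.Ici (-(u / Real.sqrt (2 * K))) := by
  ext ω
  have h : 0 < Real.sqrt (2 * K) := by
    rw [Real.sqrt_pos]
    have : (0 : ℝ) < K := by exact_mod_cast hK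
    linarith
  rw [Set.mem_ofPred_eq, Set.mem_preimage, Set.mem_Ici, ZZ_eq, neg_div, neg_le_neg_iff,
    div_le_div_iff_of_pos_right h]

theorem Q_anti (K : ℕ) : Antitone (Q K) := by
  intro a b h
  exact measureReal_mono (Set.preimage_mono (Set.Ici_subset_Ici.2 h))

theorem Q_lim (c : ℝ) :
    Tendsto (fun K => Q K c) atTop (𝓝 (Pool.Agent.H499R2.ND.Phi (-c))) := by
  have h1 : (gaussianReal 0 1).real (Set.Ici c) = Pool.Agent.H499R2.ND.Phi (-c) := by
    rw [Phi_neg]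
    unfold Pool.Agent.H499R2.ND.Phi
    rw [← Set.compl_Iio, probReal_compl_eq_one_sub measurableSet_Iio]
    congr 1
    apply measureReal_congr
    exact Iio_ae_eq_Iic' (no_atom c)
  rw [← h1]
  exact lim_set measurableSet_Ici (by rw [frontier_Ici]; exact no_atom c)

/-- moving thresholds -/
theorem Q_lim' {n : ℕ → ℕ} {c : ℕ → ℝ} {c₀ : ℝ} (hn : Tendsto n atTop atTop)
    (hc : Tendsto c atTop (𝓝 c₀)) :
    Tendsto (fun K => Q (n K) (c K)) atTop (𝓝 (Pool.Agent.H499R2.ND.Phi (-c₀))) := by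
  rw [tendsto_order]
  have hcont : Tendsto (fun θ : ℝ => Pool.Agent.H499R2.ND.Phi (-(c₀ + θ))) (𝓝 0)
      (𝓝 (Pool.Agent.H499R2.ND.Phi (-c₀))) := by
    have h1 : Continuous fun θ : ℝ => Pool.Agent.H499R2.ND.Phi (-(c₀ + θ)) :=
      Phi_continuous.comp (by fun_prop)
    have h2 := h1.tendsto 0
    simpa using h2
  constructor
  · intro a ha
    obtain ⟨θ, h1, h2⟩ := (((hcont.eventually (lt_mem_nhds ha)).filter_mono
      (nhdsWithin_le_nhds (s := Set.Ioi 0))).and self_mem_nhdsWithin).exists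
    have h3 : Tendsto (fun K => Q (n K) (c₀ + θ)) atTop
        (𝓝 (Pool.Agent.H499R2.ND.Phi (-(c₀ + θ)))) := (Q_lim (c₀ + θ)).comp hn
    filter_upwards [h3.eventually (lt_mem_nhds h1),
      hc.eventually (gt_mem_nhds (show c₀ < c₀ + θ by linarith))] with K h4 h5
    exact h4.trans_le (Q_anti _ h5.le)
  · intro a ha
    obtain ⟨θ, h1, h2⟩ := (((hcont.eventually (gt_mem_nhds ha)).filter_mono
      (nhdsWithin_le_nhds (s := Set.Iio 0))).and self_mem_nhdsWithin).exists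
    have h3 : Tendsto (fun K => Q (n K) (c₀ + θ)) atTop
        (𝓝 (Pool.Agent.H499R2.ND.Phi (-(c₀ + θ)))) := (Q_lim (c₀ + θ)).comp hn
    filter_upwards [h3.eventually (gt_mem_nhds h1),
      hc.eventually (lt_mem_nhds (show c₀ + θ < c₀ by linarith))] with K h4 h5
    exact (Q_anti _ h5.le).trans_lt h4

/-- summation of the reflection identity -/
theorem refl_sum (hR : S_REFL) {K a : ℕ} (ha : a < K) {z : ℤ} (hz : z ≤ a + 1) :
    PP.real {ω : ℕ → ℕ | (∃ j < K, (a : ℤ) ≤ Yw ω j) ∧ Yw ω K ≤ z} =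
      PP.real {ω : ℕ → ℕ | Yw ω (K - a) ≤ z - 2 * a} := by
  obtain ⟨B, hB⟩ : ∃ B : Set ℕ, B = {T : ℕ | 2 * (K : ℤ) - z ≤ (T : ℤ)} := ⟨_, rfl⟩
  obtain ⟨A, hA⟩ : ∃ A : Set (ℕ → ℕ), A = {ω : ℕ → ℕ | ∃ j < K, (a : ℤ) ≤ Yw ω j} := ⟨_, rfl⟩
  have hAm : MeasurableSet A := by
    have : A = ⋃ j ∈ range K, (fun ω => Yw ω j) ⁻¹' Set.Ici (a : ℤ) := by
      rw [hA]
      ext ω
      simp
    rw [this]
    exact Finset.measurableSet_biUnion _ fun j _ => meas_Yw j measurableSet_Ici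
  have e1 : {ω : ℕ → ℕ | (∃ j < K, (a : ℤ) ≤ Yw ω j) ∧ Yw ω K ≤ z} =
      ⋃ T ∈ B, A ∩ Nn K ⁻¹' {T} := by
    ext ω
    rw [Set.mem_ofPred_eq, Yw_eq]
    simp only [Set.mem_iUnion, Set.mem_inter_iff, Set.mem_preimage, Set.mem_singleton_iff,
      exists_prop, hA, hB, Set.mem_ofPred_eq]
    constructor
    · rintro ⟨h1, h2⟩
      exact ⟨_, by linarith, h1, rfl⟩
    · rintro ⟨T, h1, h2, h3⟩
      exact ⟨h2, by rw [h3]; linarith⟩
  have e2 : {ω : ℕ → ℕ | Yw ω (K - a) ≤ z - 2 * a} = ⋃ T ∈ B, Nn (K - a) ⁻¹' {T} := by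
    ext ω
    rw [Set.mem_ofPred_eq, Yw_eq]
    simp only [Set.mem_iUnion, Set.mem_preimage, Set.mem_singleton_iff, exists_prop, hB,
      Set.mem_ofPred_eq]
    rw [Nat.cast_sub ha.le]
    constructor
    · intro h1
      exact ⟨_, by linarith, rfl⟩
    · rintro ⟨T, h1, h2⟩
      rw [h2]
      linarith
  have hd1 : B.PairwiseDisjoint fun T => A ∩ Nn K ⁻¹' {T} := by
    intro T _ T' _ hTT
    rw [Function.onFun, Set.disjoint_left]
    rintro ω ⟨_, h1⟩ ⟨_, h2⟩
    exact hTT (h1.symm.trans h2)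
  have hd2 : B.PairwiseDisjoint fun T => Nn (K - a) ⁻¹' {T} := by
    intro T _ T' _ hTT
    rw [Function.onFun, Set.disjoint_left]
    intro ω h1 h2
    exact hTT (h1.symm.trans h2)
  rw [measureReal_def, measureReal_def, e1, e2,
    measure_biUnion (Set.to_countable B) hd1 fun T _ =>
      hAm.inter (meas_Nn K (measurableSet_singleton T)),
    measure_biUnion (Set.to_countable B) hd2 fun T _ =>
      meas_Nn (K - a) (measurableSet_singleton T)]
  congr 1
  refine tsum_congr fun T => ?_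
  have hT : 2 * (K : ℤ) - z ≤ (T.1 : ℤ) := by
    have h0 : T.1 ∈ {T : ℕ | 2 * (K : ℤ) - z ≤ (T : ℤ)} := hB ▸ T.2
    exact h0
  have h1 := hR K a T.1 ha (by
    have : 2 * (K : ℤ) ≤ (T.1 : ℤ) + a + 1 := by linarith
    exact_mod_cast this)
  rw [measureReal_def, measureReal_def, ENNReal.toReal_eq_toReal_iff' (measure_ne_top _ _)
    (measure_ne_top _ _)] at h1
  rw [hA]
  exact h1

theorem floor_lim {w : ℕ → ℤ} {x : ℝ}
    (h : ∀ K : ℕ, |(w K : ℝ) - x * Real.sqrt (2 * K)| ≤ 1) :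
    Tendsto (fun K : ℕ => (w K : ℝ) / Real.sqrt (2 * K)) atTop (𝓝 x) := by
  have hs : Tendsto (fun K : ℕ => Real.sqrt (2 * (K : ℝ))) atTop atTop :=
    Real.tendsto_sqrt_atTop.comp (tendsto_natCast_atTop_atTop.const_mul_atTop (by norm_num))
  have h1 : Tendsto (fun K : ℕ => 1 / Real.sqrt (2 * (K : ℝ))) atTop (𝓝 0) :=
    tendsto_const_nhds.div_atTop hs
  rw [tendsto_iff_dist_tendsto_zero]
  refine squeeze_zero' (Eventually.of_forall fun _ => dist_nonneg) ?_ h1
  filter_upwards [hs.eventually_gt_atTop 0] with K hK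
  rw [Real.dist_eq]
  have h2 : (w K : ℝ) / Real.sqrt (2 * K) - x = (w K - x * Real.sqrt (2 * K)) /
      Real.sqrt (2 * K) := by
    field_simp
  rw [h2, abs_div, abs_of_pos hK]
  gcongr
  exact h K

theorem main (hR : S_REFL) : S_MLAW := by
  intro y z hy
  obtain ⟨m, hm⟩ : ∃ m, m = min y z := ⟨_, rfl⟩
  obtain ⟨r, hr⟩ : ∃ r : ℕ → ℝ, r = fun K : ℕ => Real.sqrt (2 * (K : ℝ)) := ⟨_, rfl⟩
  have hr0 : ∀ K, 0 ≤ r K := by
    intro K
    rw [hr]
    exact Real.sqrt_nonneg _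
  obtain ⟨a, ha⟩ : ∃ a : ℕ → ℕ, a = fun K : ℕ => ⌊y * r K⌋₊ + 1 := ⟨_, rfl⟩
  obtain ⟨w, hw⟩ : ∃ w : ℕ → ℤ, w = fun K : ℕ => ⌊m * r K⌋ := ⟨_, rfl⟩
  have ha1 : ∀ K, y * r K < a K := by
    intro K
    rw [ha]
    push_cast
    exact Nat.lt_floor_add_one _
  have ha2 : ∀ K, (a K : ℝ) ≤ y * r K + 1 := by
    intro K
    rw [ha]
    push_cast
    have := Nat.floor_le (mul_nonneg hy (hr0 K))
    linarith
  have hs : Tendsto r atTop atTop := by
    rw [hr]
    exact Real.tendsto_sqrt_atTop.comp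
      (tendsto_natCast_atTop_atTop.const_mul_atTop (by norm_num))
  have la : Tendsto (fun K : ℕ => (a K : ℝ) / r K) atTop (𝓝 y) := by
    have := floor_lim (w := fun K => (a K : ℤ)) (x := y) (fun K => by
      have h1 := ha1 K
      have h2 := ha2 K
      rw [hr] at h1 h2
      rw [abs_le]
      push_cast
      constructor <;> linarith)
    rw [hr]
    simpa using this
  have lw : Tendsto (fun K : ℕ => (w K : ℝ) / r K) atTop (𝓝 m) := by
    have := floor_lim (w := w) (x := m) (fun K => by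
      have h1 : (w K : ℝ) ≤ m * Real.sqrt (2 * K) := by
        rw [hw, hr]
        exact Int.floor_le _
      have h2 : m * Real.sqrt (2 * K) < w K + 1 := by
        rw [hw, hr]
        exact Int.lt_floor_add_one _
      rw [abs_le]
      constructor <;> linarith)
    rw [hr]
    exact this
  -- `a K / K → 0`
  have lK : Tendsto (fun K : ℕ => (a K : ℝ) / K) atTop (𝓝 0) := by
    have h1 : Tendsto (fun K : ℕ => 2 * ((a K : ℝ) / r K) * (r K)⁻¹) atTop (𝓝 (2 * y * 0)) :=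
      (la.const_mul 2).mul (tendsto_inv_atTop_zero.comp hs)
    rw [mul_zero] at h1
    refine h1.congr' ?_
    filter_upwards [eventually_gt_atTop 0] with K hK
    have hK0 : (0 : ℝ) < K := by exact_mod_cast hK
    have h2 : r K * r K = 2 * K := by
      rw [hr]
      exact Real.mul_self_sqrt (by positivity)
    have h3 : r K ≠ 0 := by
      intro h0
      rw [h0, mul_zero] at h2
      linarith
    have h4 : (K : ℝ) = r K * r K / 2 := by linarith
    rw [h4]
    field_simp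
  have hlt : ∀ᶠ K : ℕ in atTop, a K < K := by
    filter_upwards [lK.eventually (gt_mem_nhds (show (0 : ℝ) < 1 / 2 by norm_num)),
      eventually_gt_atTop 0] with K h1 h2
    have hK0 : (0 : ℝ) < K := by exact_mod_cast h2
    rw [div_lt_iff₀ hK0] at h1
    have : (a K : ℝ) < K := by linarith
    exact_mod_cast this
  have hn : Tendsto (fun K => K - a K) atTop atTop := by
    rw [tendsto_atTop]
    intro b
    filter_upwards [lK.eventually (gt_mem_nhds (show (0 : ℝ) < 1 / 2 by norm_num)),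
      eventually_gt_atTop (2 * b), hlt] with K h1 h2 h3
    have hK0 : (0 : ℝ) < K := by
      have : 0 < K := by omega
      exact_mod_cast this
    rw [div_lt_iff₀ hK0] at h1
    have h4 : 2 * (a K : ℝ) < K := by linarith
    have h5 : 2 * a K < K := by exact_mod_cast h4
    omega
  -- the second threshold
  obtain ⟨c, hc⟩ : ∃ c : ℕ → ℝ, c = fun K : ℕ =>
      -((((w K - 2 * (a K : ℤ) : ℤ)) : ℝ) / Real.sqrt (2 * ((K - a K : ℕ) : ℝ))) := ⟨_, rfl⟩
  have lc : Tendsto c atTop (𝓝 (2 * y - m)) := by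
    have h1 : Tendsto (fun K : ℕ => (2 * ((a K : ℝ) / r K) - (w K : ℝ) / r K) /
        Real.sqrt (1 - (a K : ℝ) / K)) atTop (𝓝 ((2 * y - m) / Real.sqrt (1 - 0))) := by
      refine ((la.const_mul 2).sub lw).div ?_ (by simp)
      exact (Real.continuous_sqrt.tendsto _).comp (tendsto_const_nhds.sub lK)
    rw [sub_zero, Real.sqrt_one, div_one] at h1
    refine h1.congr' ?_
    filter_upwards [hlt] with K hK
    have hK0 : (0 : ℝ) < K := by
      have : 0 < K := by omega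
      exact_mod_cast this
    have hKa : (a K : ℝ) < K := by exact_mod_cast hK
    have e1 : Real.sqrt (2 * ((K - a K : ℕ) : ℝ)) = r K * Real.sqrt (1 - (a K : ℝ) / K) := by
      rw [hr, ← Real.sqrt_mul (by positivity)]
      congr 1
      rw [Nat.cast_sub hK.le]
      field_simp
    have h2 : 0 < r K := by
      rw [hr]
      exact Real.sqrt_pos.2 (by positivity)
    have h3 : 0 < Real.sqrt (1 - (a K : ℝ) / K) := by
      apply Real.sqrt_pos.2
      rw [sub_pos, div_lt_one hK0]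
      exact hKa
    rw [hc]
    simp only
    rw [e1]
    push_cast
    field_simp
    ring
  have l1 : Tendsto (fun K => Q K (-m)) atTop (𝓝 (Pool.Agent.H499R2.ND.Phi m)) := by
    have := Q_lim (-m)
    rwa [neg_neg] at this
  have l2 : Tendsto (fun K => Q (K - a K) (c K)) atTop
      (𝓝 (Pool.Agent.H499R2.ND.Phi (m - 2 * y))) := by
    have := Q_lim' hn lc
    rwa [neg_sub] at this
  have l3 := l1.sub l2
  have eF : FF y z = Pool.Agent.H499R2.ND.Phi m - Pool.Agent.H499R2.ND.Phi (m - 2 * y) := by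
    unfold FF
    rw [← hm]
    unfold Pool.Agent.Results.MP_f7abf1_nt.BlockLaw.Phi
    rw [cdf_eq_real, cdf_eq_real]
    rfl
  rw [eF]
  refine l3.congr' ?_
  filter_upwards [hlt] with K hK
  have hK0 : 0 < K := by omega
  have hKr : (0 : ℝ) < K := by exact_mod_cast hK0
  have hrK : 0 < r K := by
    rw [hr]
    exact Real.sqrt_pos.2 (by positivity)
  have hrK' : Real.sqrt (2 * (K : ℝ)) = r K := by rw [hr]
  -- the event
  obtain ⟨A, hA⟩ : ∃ A : Set (ℕ → ℕ), A = {ω : ℕ → ℕ | ∃ j < K, (a K : ℤ) ≤ Yw ω j} := ⟨_, rfl⟩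
  have hAm : MeasurableSet A := by
    have : A = ⋃ j ∈ range K, (fun ω => Yw ω j) ⁻¹' Set.Ici (a K : ℤ) := by
      rw [hA]
      ext ω
      simp
    rw [this]
    exact Finset.measurableSet_biUnion _ fun j _ => meas_Yw j measurableSet_Ici
  obtain ⟨D, hD⟩ : ∃ D : Set (ℕ → ℕ), D = {ω : ℕ → ℕ | ((Yw ω K : ℤ) : ℝ) ≤ m * r K} := ⟨_, rfl⟩
  have eD : PP.real D = Q K (-m) := by
    rw [hD, set_eq hK0, hrK', mul_div_cancel_right₀ _ hrK.ne']
    rfl
  have eDA : PP.real (D ∩ A) = Q (K - a K) (c K) := by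
    have h1 : D ∩ A = {ω : ℕ → ℕ | (∃ j < K, (a K : ℤ) ≤ Yw ω j) ∧ Yw ω K ≤ w K} := by
      ext ω
      rw [hD, hA, hw]
      simp only [Set.mem_inter_iff, Set.mem_ofPred_eq, Int.le_floor]
      exact and_comm
    have hz : w K ≤ (a K : ℤ) + 1 := by
      have h2 : (w K : ℝ) ≤ m * r K := by
        rw [hw]
        exact Int.floor_le _
      have h3 : m * r K ≤ y * r K := by
        apply mul_le_mul_of_nonneg_right _ hrK.le
        rw [hm]
        exact min_le_left _ _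
      have h4 := ha1 K
      have h5 : (w K : ℝ) ≤ ((a K : ℤ) : ℝ) := by
        push_cast
        linarith
      have h6 : w K ≤ (a K : ℤ) := by exact_mod_cast h5
      linarith
    rw [h1, refl_sum hR hK hz]
    have h7 : {ω : ℕ → ℕ | Yw ω (K - a K) ≤ w K - 2 * (a K : ℤ)} =
        {ω : ℕ → ℕ | ((Yw ω (K - a K) : ℤ) : ℝ) ≤ ((w K - 2 * (a K : ℤ) : ℤ) : ℝ)} := by
      ext ω
      simp only [Set.mem_ofPred_eq, Int.cast_le]
    rw [h7, set_eq (by omega), hc]
    rfl
  have eE : {ω : ℕ → ℕ | (∀ j ≤ K, ((Yw ω j : ℤ) : ℝ) ≤ y * Real.sqrt (2 * K)) ∧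
      ((Yw ω K : ℤ) : ℝ) ≤ z * Real.sqrt (2 * K)} = D \ A := by
    ext ω
    rw [hD, hA, hrK']
    simp only [Set.mem_sdiff, Set.mem_ofPred_eq, not_exists, not_and, not_le]
    have key : ∀ j, ((Yw ω j : ℤ) : ℝ) ≤ y * r K ↔ Yw ω j < (a K : ℤ) := by
      intro j
      constructor
      · intro h
        have h1 := ha1 K
        have h2 : ((Yw ω j : ℤ) : ℝ) < ((a K : ℤ) : ℝ) := by
          push_cast
          linarith
        exact_mod_cast h2
      · intro h
        have h1 : Yw ω j ≤ (⌊y * r K⌋₊ : ℤ) := by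
          rw [ha] at h
          push_cast at h
          linarith
        have h2 : ((Yw ω j : ℤ) : ℝ) ≤ ((⌊y * r K⌋₊ : ℤ) : ℝ) := by exact_mod_cast h1
        have h3 := Nat.floor_le (mul_nonneg hy (hr0 K))
        push_cast at h2
        linarith
    constructor
    · rintro ⟨h1, h2⟩
      refine ⟨?_, fun j hj => (key j).1 (h1 j hj.le)⟩
      rw [hm, min_mul_of_nonneg _ _ hrK.le]
      exact le_min (h1 K le_rfl) h2
    · rintro ⟨h1, h2⟩
      rw [hm, min_mul_of_nonneg _ _ hrK.le] at h1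
      refine ⟨fun j hj => ?_, h1.trans (min_le_right _ _)⟩
      rcases lt_or_eq_of_le hj with h | h
      · exact (key j).2 (h2 j h)
      · rw [h]
        exact h1.trans (min_le_left _ _)
  rw [eE, ← eD, ← eDA]
  have := measureReal_inter_add_sdiff (μ := PP) (s := D) hAm
  linarith

end Pool.Agent.H55.DK.MLAW
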