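import Pool.Agent.H55.DK.Stm

/-!
# DK-WMAX: maximal inequality for the recursive means
-/

set_option autoImplicit false

namespace Pool.Agent.H55.DK.WMAX

open Pool.Agent.H320R2.PD Finset Filter Topology MeasureTheory


/-- the moment generating function of one letter -/
theorem mgf_aux (lam : ℝ) (h : |lam| ≤ 1 / 4) :
    Real.exp (-lam) < 2 ∧ Real.exp lam / (2 - Real.exp (-lam)) ≤ Real.exp (2 * lam ^ 2) := by
  have habs := abs_le.1 h
  have h1 : |Real.exp (-lam) - 1 - (-lam)| ≤ (-lam) ^ 2 :=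
    Real.abs_exp_sub_one_sub_id_le (by rw [abs_neg]; linarith)
  have h2 := abs_le.1 h1
  have hsq : lam ^ 2 ≤ 1 / 16 := by nlinarith
  have hlt : Real.exp (-lam) < 2 := by nlinarith
  refine ⟨hlt, ?_⟩
  have hpos : 0 < 2 - Real.exp (-lam) := by linarith
  have hE : 0 < Real.exp (-lam) := Real.exp_pos _
  set u := 1 - Real.exp (-lam) with hu
  have hu2 : u ^ 2 ≤ 7 / 4 * lam ^ 2 := by
    have h3 : |u| ≤ 5 / 4 * |lam| := by
      have h4 : |u| ≤ |lam| + lam ^ 2 := by
        rw [abs_le]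
        constructor
        · have := neg_abs_le lam
          have := h2.2
          nlinarith [abs_nonneg lam, sq_abs lam, neg_abs_le lam, le_abs_self lam]
        · nlinarith [abs_nonneg lam, sq_abs lam, neg_abs_le lam, le_abs_self lam]
      have h5 : lam ^ 2 ≤ 1 / 4 * |lam| := by
        rw [← sq_abs]
        nlinarith [abs_nonneg lam]
      linarith
    have h6 : u ^ 2 ≤ (5 / 4 * |lam|) ^ 2 := by
      rw [← sq_abs u]
      exact pow_le_pow_left₀ (abs_nonneg u) h3 2
    rw [mul_pow, sq_abs] at h6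
    nlinarith [sq_nonneg lam]
  have h7 : Real.exp (-(2 * lam ^ 2)) ≤ 1 - u ^ 2 := by
    have h8 : |Real.exp (-(2 * lam ^ 2)) - 1 - (-(2 * lam ^ 2))| ≤ (-(2 * lam ^ 2)) ^ 2 :=
      Real.abs_exp_sub_one_sub_id_le (by
        rw [abs_neg, abs_of_nonneg (by positivity)]
        linarith)
    have h9 := (abs_le.1 h8).2
    nlinarith [sq_nonneg lam, mul_nonneg (sq_nonneg lam) (sub_nonneg.2 hsq)]
  have h10 : Real.exp lam * Real.exp (-lam) = 1 := by rw [← Real.exp_add]; simp
  have h11 : Real.exp (2 * lam ^ 2) * Real.exp (-(2 * lam ^ 2)) = 1 := by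
    rw [← Real.exp_add]; simp
  -- `e^λ / (2 - e^{-λ}) = 1 / (1 - u²)`
  have h12 : (1 - u ^ 2) = Real.exp (-lam) * (2 - Real.exp (-lam)) := by rw [hu]; ring
  rw [div_le_iff₀ hpos]
  have h13 : 1 ≤ Real.exp (2 * lam ^ 2) * (1 - u ^ 2) :=
    h11.symm.le.trans (mul_le_mul_of_nonneg_left h7 (Real.exp_pos _).le)
  rw [h12] at h13
  calc Real.exp lam = Real.exp lam * 1 := (mul_one _).symm
    _ ≤ Real.exp lam * (Real.exp (2 * lam ^ 2) * (Real.exp (-lam) * (2 - Real.exp (-lam)))) :=
        mul_le_mul_of_nonneg_left h13 (Real.exp_pos _).le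
    _ = (Real.exp lam * Real.exp (-lam)) * (Real.exp (2 * lam ^ 2) * (2 - Real.exp (-lam))) := by ring
    _ = Real.exp (2 * lam ^ 2) * (2 - Real.exp (-lam)) := by rw [h10, one_mul]

theorem mgf_letter (cap : ℕ) (lam : ℝ) (h : |lam| ≤ 1 / 4) :
    ∑ e ∈ Icc 1 cap, (1 / 2 : ℝ) ^ e * Real.exp (lam * (2 - e)) ≤ Real.exp (2 * lam ^ 2) := by
  obtain ⟨h1, h2⟩ := mgf_aux lam h
  have hE : 0 < Real.exp (-lam) := Real.exp_pos _
  have h3 : ∀ e ∈ Icc 1 cap, (1 / 2 : ℝ) ^ e * Real.exp (lam * (2 - e)) =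
      Real.exp (2 * lam) * (Real.exp (-lam) / 2) ^ e := by
    intro e _
    rw [show lam * (2 - (e : ℝ)) = 2 * lam + (e : ℝ) * (-lam) by ring, Real.exp_add, Real.exp_nat_mul,
      one_div_pow, div_pow]
    ring
  rw [Finset.sum_congr rfl h3, ← Finset.mul_sum]
  have h4 := sum_Icc_pow_le cap (r := Real.exp (-lam) / 2) (by positivity) (by linarith)
  refine (mul_le_mul_of_nonneg_left h4 (Real.exp_pos _).le).trans (le_trans (le_of_eq ?_) h2)
  have h5 : Real.exp (2 * lam) = Real.exp lam * Real.exp lam := by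
    rw [← Real.exp_add]; congr 1; ring
  have h6 : Real.exp lam * Real.exp (-lam) = 1 := by rw [← Real.exp_add]; simp
  have h7 : (2 - Real.exp (-lam)) ≠ 0 := by linarith
  have h8 : 1 - Real.exp (-lam) / 2 = (2 - Real.exp (-lam)) / 2 := by ring
  rw [h8, h5]
  field_simp
  linear_combination h6

theorem mgf_word (cap k : ℕ) (lam : ℝ) (h : |lam| ≤ 1 / 4) :
    ∑ w ∈ FW cap k, wwt w * Real.exp (lam * (2 * (k : ℝ) - (w.sum : ℕ))) ≤
      Real.exp (2 * lam ^ 2 * k) := by
  induction k with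
  | zero =>
    rw [sum_FW_zero]
    simp [wwt]
  | succ k ih =>
    rw [sum_FW_succ]
    have h1 : ∀ e ∈ Icc 1 cap, ∑ v ∈ FW cap k, wwt (e :: v) *
        Real.exp (lam * (2 * ((k + 1 : ℕ) : ℝ) - ((e :: v).sum : ℕ))) =
        ((1 / 2 : ℝ) ^ e * Real.exp (lam * (2 - e))) *
          ∑ v ∈ FW cap k, wwt v * Real.exp (lam * (2 * (k : ℝ) - (v.sum : ℕ))) := by
      intro e _
      rw [Finset.mul_sum]
      refine Finset.sum_congr rfl fun v _ => ?_
      have h2 : lam * (2 * ((k + 1 : ℕ) : ℝ) - ((e :: v).sum : ℕ)) =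
          lam * (2 - e) + lam * (2 * (k : ℝ) - (v.sum : ℕ)) := by
        rw [List.sum_cons]
        push_cast
        ring
      rw [h2, Real.exp_add]
      have h3 : wwt (e :: v) = (1 / 2 : ℝ) ^ e * wwt v := by
        unfold wwt
        rw [List.sum_cons, pow_add]
      rw [h3]
      ring
    rw [Finset.sum_congr rfl h1, ← Finset.sum_mul]
    have h4 := mgf_letter cap lam h
    have h5 : 0 ≤ ∑ v ∈ FW cap k, wwt v * Real.exp (lam * (2 * (k : ℝ) - (v.sum : ℕ))) :=
      Finset.sum_nonneg fun v _ => mul_nonneg (by unfold wwt; positivity) (Real.exp_pos _).le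
    calc _ ≤ Real.exp (2 * lam ^ 2) * Real.exp (2 * lam ^ 2 * k) :=
          mul_le_mul h4 ih h5 (Real.exp_pos _).le
      _ = Real.exp (2 * lam ^ 2 * ((k + 1 : ℕ) : ℝ)) := by
          rw [← Real.exp_add]; congr 1; push_cast; ring

theorem wwt_nonneg' (w : List ℕ) : 0 ≤ wwt w := by unfold wwt; positivity

theorem WEf_mono (cap : ℕ) (ks : List ℕ) : ∀ (f g : List ℕ → ℝ), (∀ l, f l ≤ g l) →
    WEf cap ks f ≤ WEf cap ks g := by
  induction ks with
  | nil => intro f g h; exact h []
  | cons k ks ih =>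
    intro f g h
    simp only [WEf]
    exact Finset.sum_le_sum fun w _ => mul_le_mul_of_nonneg_left (ih _ _ fun l => h _) (wwt_nonneg' w)

theorem WEf_one (cap : ℕ) (ks : List ℕ) : WEf cap ks (fun _ => 1) ≤ 1 := by
  induction ks with
  | nil => exact le_rfl
  | cons k ks ih =>
    simp only [WEf]
    rw [← Finset.sum_mul]
    have h1 := sum_wwt_le cap k
    have h2 : 0 ≤ ∑ w ∈ FW cap k, wwt w := Finset.sum_nonneg fun w _ => wwt_nonneg' w
    calc (∑ w ∈ FW cap k, wwt w) * WEf cap ks (fun _ => 1) ≤ (∑ w ∈ FW cap k, wwt w) * 1 :=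
          mul_le_mul_of_nonneg_left ih h2
      _ ≤ 1 := by linarith

theorem one_le (lam b y S : ℝ) (hl : 0 ≤ lam) (hS : 0 ≤ S) (hb : b < |y|) :
    1 ≤ Real.exp (2 * lam ^ 2 * S + lam * (y - b)) + Real.exp (2 * lam ^ 2 * S + lam * (-y - b)) := by
  rcases abs_cases y with ⟨h, -⟩ | ⟨h, -⟩
  · have h1 : 0 ≤ 2 * lam ^ 2 * S + lam * (y - b) := by
      have : 0 ≤ y - b := by rw [h] at hb; linarith
      positivity
    have := Real.one_le_exp h1
    have := Real.exp_pos (2 * lam ^ 2 * S + lam * (-y - b))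
    linarith
  · have h1 : 0 ≤ 2 * lam ^ 2 * S + lam * (-y - b) := by
      have : 0 ≤ -y - b := by rw [h] at hb; linarith
      positivity
    have := Real.one_le_exp h1
    have := Real.exp_pos (2 * lam ^ 2 * S + lam * (y - b))
    linarith

open Classical in
theorem main : S_WMAX := by
  intro cap ks
  induction ks with
  | nil =>
    intro lam b y h0 h1
    simp only [WEf]
    by_cases hb : Dv b y [] []
    · rw [if_pos hb]
      exact one_le lam b y _ h0 (by simp) hb
    · rw [if_neg hb]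
      positivity
  | cons k ks ih =>
    intro lam b y h0 h1
    have habs : |lam| ≤ 1 / 4 := by rw [abs_of_nonneg h0]; exact h1
    have habs' : |-lam| ≤ 1 / 4 := by rw [abs_neg]; exact habs
    by_cases hb : b < |y|
    · refine le_trans (WEf_mono cap (k :: ks) _ (fun _ => 1) fun l => ?_) ((WEf_one cap _).trans
        (one_le lam b y _ h0 (Nat.cast_nonneg _) hb))
      split_ifs <;> norm_num
    · simp only [WEf]
      have h2 : ∀ w ∈ FW cap k, wwt w * WEf cap ks
          (fun l => if Dv b y (k :: ks) (w.sum :: l) then (1 : ℝ) else 0) ≤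
          Real.exp (2 * lam ^ 2 * (ks.sum : ℕ) + lam * (y - b)) *
            (wwt w * Real.exp (lam * (2 * (k : ℝ) - (w.sum : ℕ)))) +
          Real.exp (2 * lam ^ 2 * (ks.sum : ℕ) + lam * (-y - b)) *
            (wwt w * Real.exp (-lam * (2 * (k : ℝ) - (w.sum : ℕ)))) := by
        intro w _
        have h3 : WEf cap ks (fun l => if Dv b y (k :: ks) (w.sum :: l) then (1 : ℝ) else 0) ≤
            WEf cap ks (fun l => if Dv b (y + (2 * (k : ℝ) - (w.sum : ℕ))) ks l then (1 : ℝ) else 0) := by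
          apply WEf_mono
          intro l
          by_cases h4 : Dv b (y + (2 * (k : ℝ) - (w.sum : ℕ))) ks l
          · rw [if_pos h4]
            split_ifs <;> norm_num
          · rw [if_neg h4, if_neg]
            intro h5
            rcases h5 with h5 | h5
            · exact hb h5
            · exact h4 h5
        have h4 := h3.trans (ih lam b (y + (2 * (k : ℝ) - (w.sum : ℕ))) h0 h1)
        refine (mul_le_mul_of_nonneg_left h4 (wwt_nonneg' w)).trans (le_of_eq ?_)
        have e1 : Real.exp (2 * lam ^ 2 * (ks.sum : ℕ) + lam * (y + (2 * (k : ℝ) - (w.sum : ℕ)) - b)) =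
            Real.exp (2 * lam ^ 2 * (ks.sum : ℕ) + lam * (y - b)) *
              Real.exp (lam * (2 * (k : ℝ) - (w.sum : ℕ))) := by
          rw [← Real.exp_add]; congr 1; ring
        have e2 : Real.exp (2 * lam ^ 2 * (ks.sum : ℕ) + lam * (-(y + (2 * (k : ℝ) - (w.sum : ℕ))) - b)) =
            Real.exp (2 * lam ^ 2 * (ks.sum : ℕ) + lam * (-y - b)) *
              Real.exp (-lam * (2 * (k : ℝ) - (w.sum : ℕ))) := by
          rw [← Real.exp_add]; congr 1; ring
        rw [e1, e2]
        generalize Real.exp (2 * lam ^ 2 * (ks.sum : ℕ) + lam * (y - b)) = A1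
        generalize Real.exp (2 * lam ^ 2 * (ks.sum : ℕ) + lam * (-y - b)) = A2
        generalize Real.exp (lam * (2 * (k : ℝ) - (w.sum : ℕ))) = A3
        generalize Real.exp (-lam * (2 * (k : ℝ) - (w.sum : ℕ))) = A4
        ring
      refine (Finset.sum_le_sum h2).trans ?_
      rw [Finset.sum_add_distrib, ← Finset.mul_sum, ← Finset.mul_sum]
      have h5 := mgf_word cap k lam habs
      have h6 := mgf_word cap k (-lam) habs'
      rw [neg_sq] at h6
      have e3 : Real.exp (2 * lam ^ 2 * ((k :: ks).sum : ℕ) + lam * (y - b)) =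
          Real.exp (2 * lam ^ 2 * (ks.sum : ℕ) + lam * (y - b)) * Real.exp (2 * lam ^ 2 * k) := by
        rw [← Real.exp_add]
        congr 1
        rw [List.sum_cons]
        push_cast
        ring
      have e4 : Real.exp (2 * lam ^ 2 * ((k :: ks).sum : ℕ) + lam * (-y - b)) =
          Real.exp (2 * lam ^ 2 * (ks.sum : ℕ) + lam * (-y - b)) * Real.exp (2 * lam ^ 2 * k) := by
        rw [← Real.exp_add]
        congr 1
        rw [List.sum_cons]
        push_cast
        ring
      rw [e3, e4]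
      exact add_le_add (mul_le_mul_of_nonneg_left h5 (Real.exp_pos _).le)
        (mul_le_mul_of_nonneg_left h6 (Real.exp_pos _).le)

end Pool.Agent.H55.DK.WMAX
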