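import Pool.Agent.H55.DK.PT
import Pool.Agent.H55.DK.WMAX

/-!
# DK-PMAX: maximal inequality in the model
-/

set_option autoImplicit false

namespace Pool.Agent.H55.DK.PMAX

open Finset Filter Topology MeasureTheory ProbabilityTheory
open Pool.Agent.H499R2.ND.TJ (PP geo)
open Pool.Agent.Results.MP_f7abf1_nt.BlockLaw (Syr wait)
open Pool.Agent.H55.DK.PT


theorem geo_apply (x : ℕ) : geo {x} = ENNReal.ofReal ((1 / 2 : ℝ) ^ (x + 1)) := by
  rw [← Pool.Agent.H499R2.ND.TJ.geo_real x, measureReal_def, ENNReal.ofReal_toReal (measure_ne_top _ _)]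

/-- moment generating function of one letter -/
theorem mgf (K : ℕ) (lam : ℝ) (h : |lam| ≤ 1 / 4) :
    ∫⁻ ω, ENNReal.ofReal (Real.exp (lam * (1 - (ω K : ℝ)))) ∂PP ≤ ENNReal.ofReal (Real.exp (2 * lam ^ 2)) := by
  obtain ⟨h1, h2⟩ := WMAX.mgf_aux lam h
  have hE : 0 < Real.exp (-lam) := Real.exp_pos _
  have e1 : ∫⁻ ω, ENNReal.ofReal (Real.exp (lam * (1 - (ω K : ℝ)))) ∂PP =
      ∫⁻ x : ℕ, ENNReal.ofReal (Real.exp (lam * (1 - (x : ℝ)))) ∂geo := by
    rw [← Pool.Agent.H499R2.ND.TJ.map_eval K, lintegral_map Measurable.of_discrete (measurable_pi_apply K)]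
  rw [e1, lintegral_countable']
  have e2 : ∀ x : ℕ, ENNReal.ofReal (Real.exp (lam * (1 - (x : ℝ)))) * geo {x} =
      ENNReal.ofReal (Real.exp lam / 2 * (Real.exp (-lam) / 2) ^ x) := by
    intro x
    rw [geo_apply, ← ENNReal.ofReal_mul (Real.exp_pos _).le]
    congr 1
    rw [show lam * (1 - (x : ℝ)) = lam + (x : ℝ) * (-lam) by ring, Real.exp_add, Real.exp_nat_mul,
      one_div_pow, div_pow, pow_succ]
    field_simp
  rw [tsum_congr e2, ← ENNReal.ofReal_tsum_of_nonneg (fun x => by positivity)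
    ((summable_geometric_of_lt_one (by positivity) (by linarith)).mul_left _), tsum_mul_left,
    tsum_geometric_of_lt_one (by positivity) (by linarith)]
  apply ENNReal.ofReal_le_ofReal
  refine le_trans (le_of_eq ?_) h2
  have h7 : (2 - Real.exp (-lam)) ≠ 0 := by linarith
  have h8 : 1 - Real.exp (-lam) / 2 = (2 - Real.exp (-lam)) / 2 := by ring
  rw [h8]
  field_simp

/-- the increment -/
noncomputable def X (a : ℕ) (ω : ℕ → ℕ) (j : ℕ) : ℝ := ((Yw ω (a + j) - Yw ω a : ℤ) : ℝ)

theorem X_zero (a : ℕ) (ω : ℕ → ℕ) : X a ω 0 = 0 := by simp [X]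

theorem X_succ (a : ℕ) (ω : ℕ → ℕ) (j : ℕ) : X a ω (j + 1) = X a ω j + (1 - (ω (a + j) : ℝ)) := by
  unfold X Yw
  rw [← add_assoc, Finset.sum_range_succ]
  push_cast
  ring

theorem X_dep (a : ℕ) (ω ω' : ℕ → ℕ) (j : ℕ) (h : ∀ i < a + j, ω i = ω' i) : X a ω j = X a ω' j := by
  induction j with
  | zero => rw [X_zero, X_zero]
  | succ j ih =>
    rw [X_succ, X_succ, ih fun i hi => h i (by omega), h (a + j) (by omega)]

/-- not exceeded until time `q` -/
def N (a : ℕ) (lam c : ℝ) (q : ℕ) : Set (ℕ → ℕ) := {ω | ∀ j ≤ q, lam * X a ω j ≤ c}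

theorem N_dep {a : ℕ} {lam c : ℝ} {q : ℕ} {ω ω' : ℕ → ℕ} (h : ∀ i < a + q, ω i = ω' i) :
    ω ∈ N a lam c q ↔ ω' ∈ N a lam c q := by
  have h1 : ∀ j ≤ q, X a ω j = X a ω' j := fun j hj => X_dep a ω ω' j fun i hi => h i (by omega)
  constructor
  · intro h2 j hj
    rw [← h1 j hj]
    exact h2 j hj
  · intro h2 j hj
    rw [h1 j hj]
    exact h2 j hj

open Classical in
theorem V_bound (a : ℕ) (lam c : ℝ) (h : |lam| ≤ 1 / 4) (q : ℕ) :
    ∫⁻ ω, (if ω ∈ N a lam c q then ENNReal.ofReal (Real.exp (lam * X a ω q - c)) else 1) ∂PP ≤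
      ENNReal.ofReal (Real.exp (2 * lam ^ 2 * q - c)) := by
  induction q with
  | zero =>
    have h1 : ∀ ω : ℕ → ℕ, (if ω ∈ N a lam c 0 then ENNReal.ofReal (Real.exp (lam * X a ω 0 - c)) else 1) ≤
        ENNReal.ofReal (Real.exp (2 * lam ^ 2 * (0 : ℕ) - c)) := by
      intro ω
      have e : 2 * lam ^ 2 * ((0 : ℕ) : ℝ) - c = -c := by simp
      rw [e, X_zero, mul_zero, zero_sub]
      split_ifs with h2
      · exact le_rfl
      · have h3 : c < 0 := by
          by_contra hc
          apply h2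
          intro j hj
          have : j = 0 := by omega
          subst this
          rw [X_zero, mul_zero]
          linarith
        rw [← ENNReal.ofReal_one]
        exact ENNReal.ofReal_le_ofReal (Real.one_le_exp (by linarith))
    refine (lintegral_mono h1).trans ?_
    rw [lintegral_const, measure_univ, mul_one]
  | succ q ih =>
    let A : (ℕ → ℕ) → ENNReal := fun ω => if ω ∈ N a lam c q then 0 else 1
    let B : (ℕ → ℕ) → ENNReal := fun ω => if ω ∈ N a lam c q then ENNReal.ofReal (Real.exp (lam * X a ω q - c)) else 0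
    have hA : Dep (a + q) A := by
      intro ω ω' hω
      simp only [A]
      rw [N_dep hω]
    have hB : Dep (a + q) B := by
      intro ω ω' hω
      simp only [B]
      rw [N_dep hω, X_dep a ω ω' q hω]
    have h1 : ∀ ω : ℕ → ℕ, (if ω ∈ N a lam c (q + 1) then
        ENNReal.ofReal (Real.exp (lam * X a ω (q + 1) - c)) else 1) ≤
        A ω + B ω * ENNReal.ofReal (Real.exp (lam * (1 - (ω (a + q) : ℝ)))) := by
      intro ω
      by_cases h2 : ω ∈ N a lam c q
      · have h3 : A ω + B ω * ENNReal.ofReal (Real.exp (lam * (1 - (ω (a + q) : ℝ)))) =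
            ENNReal.ofReal (Real.exp (lam * X a ω (q + 1) - c)) := by
          simp only [A, B]
          rw [if_pos h2, if_pos h2, zero_add, ← ENNReal.ofReal_mul (Real.exp_pos _).le, ← Real.exp_add, X_succ]
          congr 2
          ring
        rw [h3]
        split_ifs with h4
        · exact le_rfl
        · rw [← ENNReal.ofReal_one]
          apply ENNReal.ofReal_le_ofReal
          apply Real.one_le_exp
          by_contra h5
          apply h4
          intro j hj
          rcases Nat.lt_or_ge j (q + 1) with h6 | h6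
          · exact h2 j (by omega)
          · have : j = q + 1 := by omega
            subst this
            linarith
      · have h3 : ω ∉ N a lam c (q + 1) := fun h4 => h2 fun j hj => h4 j (by omega)
        rw [if_neg h3]
        simp only [A]
        rw [if_neg h2]
        exact le_self_add
    refine (lintegral_mono h1).trans ?_
    rw [lintegral_add_left hA.meas, lint_mul hB fun x => ENNReal.ofReal (Real.exp (lam * (1 - (x : ℝ))))]
    have h2 := mgf (a + q) lam h
    have h3 : (1 : ENNReal) ≤ ENNReal.ofReal (Real.exp (2 * lam ^ 2)) := by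
      rw [← ENNReal.ofReal_one]
      exact ENNReal.ofReal_le_ofReal (Real.one_le_exp (by positivity))
    have h4 : (∫⁻ ω, A ω ∂PP) + ∫⁻ ω, B ω ∂PP ≤ ENNReal.ofReal (Real.exp (2 * lam ^ 2 * q - c)) := by
      rw [← lintegral_add_left hA.meas]
      refine le_trans (le_of_eq ?_) ih
      congr 1
      funext ω
      simp only [A, B]
      split_ifs <;> simp
    calc (∫⁻ ω, A ω ∂PP) + (∫⁻ ω, B ω ∂PP) * ∫⁻ ω, ENNReal.ofReal (Real.exp (lam * (1 - (ω (a + q) : ℝ)))) ∂PP
        ≤ (∫⁻ ω, A ω ∂PP) * ENNReal.ofReal (Real.exp (2 * lam ^ 2)) +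
          (∫⁻ ω, B ω ∂PP) * ENNReal.ofReal (Real.exp (2 * lam ^ 2)) := by
          refine add_le_add ?_ (mul_le_mul_right h2 _)
          calc (∫⁻ ω, A ω ∂PP) = (∫⁻ ω, A ω ∂PP) * 1 := (mul_one _).symm
            _ ≤ _ := mul_le_mul_right h3 _
      _ = ((∫⁻ ω, A ω ∂PP) + ∫⁻ ω, B ω ∂PP) * ENNReal.ofReal (Real.exp (2 * lam ^ 2)) := by rw [add_mul]
      _ ≤ ENNReal.ofReal (Real.exp (2 * lam ^ 2 * q - c)) * ENNReal.ofReal (Real.exp (2 * lam ^ 2)) :=
          mul_le_mul_left h4 _
      _ = ENNReal.ofReal (Real.exp (2 * lam ^ 2 * ((q + 1 : ℕ) : ℝ) - c)) := by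
          rw [← ENNReal.ofReal_mul (Real.exp_pos _).le, ← Real.exp_add]
          congr 2
          push_cast
          ring

open Classical in
theorem one_sided (a q : ℕ) (lam c : ℝ) (h : |lam| ≤ 1 / 4) :
    PP {ω : ℕ → ℕ | ∃ j ≤ q, c < lam * X a ω j} ≤ ENNReal.ofReal (Real.exp (2 * lam ^ 2 * q - c)) := by
  refine le_trans ?_ (V_bound a lam c h q)
  have hm : MeasurableSet (N a lam c q)ᶜ := by
    apply MeasurableSet.compl
    apply meas_dep (K := a + q)
    intro ω ω' hω
    exact propext (N_dep hω)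
  have e : {ω : ℕ → ℕ | ∃ j ≤ q, c < lam * X a ω j} = (N a lam c q)ᶜ := by
    ext ω
    simp only [N, Set.mem_ofPred_eq, Set.mem_compl_iff, not_forall, not_le, exists_prop]
  rw [e, ← lintegral_indicator_one hm]
  apply lintegral_mono
  intro ω
  by_cases h1 : ω ∈ N a lam c q
  · rw [Set.indicator_of_notMem (by simpa using h1)]
    exact zero_le
  · rw [Set.indicator_of_mem (by simpa using h1)]
    simp only [Pi.one_apply]
    rw [if_neg h1]

theorem main : S_PMAX := by
  intro a q lam b h0 h1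
  have habs : |lam| ≤ 1 / 4 := by rw [abs_of_nonneg h0]; exact h1
  have habs' : |-lam| ≤ 1 / 4 := by rw [abs_neg]; exact habs
  rcases h0.eq_or_lt with h2 | h2
  · rw [← h2]
    have : PP.real {ω : ℕ → ℕ | ∃ j ≤ q, b < |((Yw ω (a + j) - Yw ω a : ℤ) : ℝ)|} ≤ 1 := measureReal_le_one
    have e : 2 * Real.exp (2 * (0 : ℝ) ^ 2 * q - 0 * b) = 2 := by simp
    rw [e]
    linarith
  · have h3 : {ω : ℕ → ℕ | ∃ j ≤ q, b < |((Yw ω (a + j) - Yw ω a : ℤ) : ℝ)|} ⊆
        {ω : ℕ → ℕ | ∃ j ≤ q, lam * b < lam * X a ω j} ∪ {ω : ℕ → ℕ | ∃ j ≤ q, lam * b < -lam * X a ω j} := by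
      rintro ω ⟨j, hj, hb⟩
      rcases abs_cases ((Yw ω (a + j) - Yw ω a : ℤ) : ℝ) with ⟨h4, -⟩ | ⟨h4, -⟩
      · left
        refine ⟨j, hj, ?_⟩
        rw [h4] at hb
        exact mul_lt_mul_of_pos_left hb h2
      · right
        refine ⟨j, hj, ?_⟩
        rw [h4] at hb
        have := mul_lt_mul_of_pos_left hb h2
        unfold X
        linarith
    have h4 : PP {ω : ℕ → ℕ | ∃ j ≤ q, b < |((Yw ω (a + j) - Yw ω a : ℤ) : ℝ)|} ≤
        ENNReal.ofReal (2 * Real.exp (2 * lam ^ 2 * q - lam * b)) := by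
      refine (measure_mono h3).trans ((measure_union_le _ _).trans ?_)
      have h5 := one_sided a q lam (lam * b) habs
      have h6 := one_sided a q (-lam) (lam * b) habs'
      rw [neg_sq] at h6
      refine (add_le_add h5 h6).trans (le_of_eq ?_)
      rw [← ENNReal.ofReal_add (Real.exp_pos _).le (Real.exp_pos _).le]
      congr 1
      ring
    rw [measureReal_def]
    exact ENNReal.toReal_le_of_le_ofReal (by positivity) h4

end Pool.Agent.H55.DK.PMAX
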