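import Pool.Agent.H55.DK.Stm

/-! Project DK: a bound for windows is pulled back along `K` odd steps. -/

set_option autoImplicit false

namespace Pool.Agent.H55.DK.PULL

open Pool.Agent.H320R2.PD Pool.Agent.H499R2.ND Finset Filter Topology
open Pool.Agent.TH977.IP (Sy ex stf key_size parts parts_length parts_sum)
open Pool.Agent.H319R2.Lln (mu)

theorem WEf_nonneg (cap : ℕ) (ks : List ℕ) : ∀ ρ : List ℕ → ℝ, (∀ l, 0 ≤ ρ l) → 0 ≤ WEf cap ks ρ := by
  induction ks with
  | nil => intro ρ h; exact h []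
  | cons k ks ih =>
    intro ρ h
    unfold WEf
    exact sum_nonneg fun w _ => mul_nonneg (wwt_nonneg w) (ih _ fun l => h _)

theorem WEf_const_le (cap : ℕ) (ks : List ℕ) {ρ : ℝ} (hρ : 0 ≤ ρ) : WEf cap ks (fun _ => ρ) ≤ ρ := by
  induction ks with
  | nil => exact le_rfl
  | cons k ks ih =>
    unfold WEf
    calc ∑ w ∈ FW cap k, wwt w * WEf cap ks (fun _ => ρ) ≤ ∑ w ∈ FW cap k, wwt w * ρ :=
          sum_le_sum fun w _ => mul_le_mul_of_nonneg_left ih (wwt_nonneg w)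
      _ = (∑ w ∈ FW cap k, wwt w) * ρ := by rw [sum_mul]
      _ ≤ 1 * ρ := mul_le_mul_of_nonneg_right (sum_wwt_le cap k) hρ
      _ = ρ := one_mul ρ

theorem div_N {κ L : ℝ} (hκ : 0 < κ) (hκ1 : κ ≤ 1) (hL : 0 < L) {N : ℕ} (hN : 30 / κ ≤ N)
    {D : ℕ} (hD : (D : ℝ) ≤ (1 - κ) * L / (2 * mu)) : (D : ℝ) / N ≤ κ * L / 8 := by
  obtain ⟨hmu1, hmu2⟩ := mu_bounds
  have hmu : 0 < mu := by linarith
  have hN0 : (0 : ℝ) < N := lt_of_lt_of_le (by positivity) hN
  have h1 : 2 * mu * D ≤ (1 - κ) * L := by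
    rw [le_div_iff₀ (by positivity)] at hD
    linarith
  have hD0 : (0 : ℝ) ≤ D := Nat.cast_nonneg D
  have h2 : 0.28 * (D : ℝ) ≤ L := by
    have h3 : 0.28 * (D : ℝ) ≤ 2 * mu * D := mul_le_mul_of_nonneg_right (by linarith) hD0
    nlinarith
  rw [div_le_iff₀ hN0]
  rw [div_le_iff₀ hκ] at hN
  have h4 : κ * L / 8 * N = L / 8 * (N * κ) := by ring
  rw [h4]
  have h5 : L / 8 * 30 ≤ L / 8 * (N * κ) := mul_le_mul_of_nonneg_left hN (by positivity)
  linarith

theorem gf_list {κ L : ℝ} (hκ : 0 < κ) (hκ1 : κ ≤ 1) (hL : 0 < L) {N : ℕ}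
    (hN : 30 / κ ≤ N) {τ : ℝ} (hτ : τ ≤ κ * L / 2)
    (ks : List ℕ) : ∀ (D : ℕ) (A : ℝ) (P : List ℕ → ℝ → Prop), 0 < A →
      (∀ k ∈ ks, 2 * L ≤ (k : ℝ) ^ 8 ∧ (k : ℝ) ≤ κ * L / 8) →
      (D : ℝ) + (ks.sum : ℕ) ≤ (1 - κ) * L / (2 * mu) →
      |Real.log A - (L - 2 * mu * D)| ≤ κ * L / 8 + D / N →
      (∀ (l : List ℕ) (A' : ℝ), 0 < A' →
        |Real.log A' - (L - 2 * mu * ((D + ks.sum : ℕ) : ℝ))| ≤ κ * L / 8 + ((D + ks.sum : ℕ) : ℝ) / N → P l A') →
      Gf N τ ks P A := by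
  have hN0 : (0 : ℝ) < N := lt_of_lt_of_le (by positivity) hN
  induction ks with
  | nil =>
    intro D A P hA _ hD hlog hP
    exact hP [] A hA (by simpa using hlog)
  | cons k ks ih =>
    intro D A P hA hks hD hlog hP
    rw [List.sum_cons, Nat.cast_add] at hD
    have hs0 : (0 : ℝ) ≤ (ks.sum : ℕ) := Nat.cast_nonneg _
    have hk0 : (0 : ℝ) ≤ (k : ℝ) := Nat.cast_nonneg _
    obtain ⟨h1, h2⟩ := key_size hκ hκ1 hL hN (D := D) (by linarith) hlog
    obtain ⟨h3, h4⟩ := hks k (by simp)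
    have hκL : 0 < κ * L := by positivity
    refine ⟨by linarith, by linarith, by linarith, ?_⟩
    intro T hT
    refine ih (D + k) _ _ (by positivity) (fun k' hk' => hks k' (by simp [hk'])) ?_ ?_ ?_
    · rw [Nat.cast_add]
      linarith
    · rw [log_nextL hA]
      have hlog2 : 0 < Real.log 2 := Real.log_pos (by norm_num)
      have hlog2' : Real.log 2 < 1 := by
        have := Real.log_two_lt_d9
        linarith
      have hT2 : |(T : ℝ) - 2 * k| ≤ k / N := by
        rw [le_div_iff₀ hN0]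
        linarith
      have hT3 : |((T : ℝ) - 2 * k) * Real.log 2| ≤ k / N := by
        rw [abs_mul, abs_of_pos hlog2]
        have := abs_nonneg ((T : ℝ) - 2 * k)
        nlinarith
      have hT4 := abs_le.mp hT3
      have h' := abs_le.mp hlog
      have e : ((D + k : ℕ) : ℝ) / N = D / N + k / N := by
        push_cast
        ring
      rw [e]
      push_cast
      rw [abs_le]
      constructor <;> linarith [h'.1, h'.2, hT4.1, hT4.2]
    · intro l A' hA' hl
      apply hP (T :: l) A' hA'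
      have e : D + (k :: ks).sum = D + k + ks.sum := by rw [List.sum_cons]; ring
      rw [e]
      exact hl

theorem main (hC : S_COMP) (hM : S_MEM) : S_PULL := by
  intro κ η hκ hκ1 hη
  obtain ⟨p, hpdef⟩ : ∃ p : ℕ, p = ⌈64 / κ⌉₊ := ⟨_, rfl⟩
  have hp : 64 / κ ≤ p := by rw [hpdef]; exact Nat.le_ceil _
  have hp0 : (0 : ℝ) < p := lt_of_lt_of_le (by positivity) hp
  have hp0N : 0 < p := by exact_mod_cast hp0
  have hp1 : 1 ≤ p := hp0N
  have hp64 : (64 : ℝ) ≤ p := by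
    refine le_trans ?_ hp
    rw [le_div_iff₀ hκ]
    linarith
  obtain ⟨N, hNdef⟩ : ∃ N : ℕ, N = max 20 ⌈30 / κ⌉₊ := ⟨_, rfl⟩
  have hN20 : 20 ≤ N := by rw [hNdef]; exact le_max_left _ _
  have hN : 30 / κ ≤ N := by
    refine (Nat.le_ceil _).trans ?_
    have : ⌈30 / κ⌉₊ ≤ N := by rw [hNdef]; exact le_max_right _ _
    exact_mod_cast this
  obtain ⟨C, t0, hCpos, ht0, hcomp⟩ := hC N hN20
  -- the size of L
  obtain ⟨L0, hL0def⟩ : ∃ L0 : ℝ, L0 = 2 * t0 / κ + 16 * p / κ + 2 * (2 * (p : ℝ)) ^ 8 + p * C * 8 / (κ ^ 3 * η) + 1 :=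
    ⟨_, rfl⟩
  have hη' : 0 < κ ^ 3 * η := by positivity
  refine ⟨L0, ?_⟩
  intro L hL S ρ hρ K hK hKL hPB A hA hAL
  have q1 : 0 ≤ 2 * t0 / κ := by positivity
  have q2 : 0 ≤ 16 * p / κ := by positivity
  have q3 : 0 ≤ 2 * (2 * (p : ℝ)) ^ 8 := by positivity
  have q4 : 0 ≤ p * C * 8 / (κ ^ 3 * η) := by positivity
  have hLa : 2 * t0 / κ ≤ L := by linarith
  have hLb : 16 * p / κ ≤ L := by linarith
  have hLc : 2 * (2 * (p : ℝ)) ^ 8 ≤ L := by linarith
  have hLd : p * C * 8 / (κ ^ 3 * η) ≤ L := by linarith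
  have hL1 : 1 ≤ L := by linarith
  have hLpos : 0 < L := by linarith
  have hκL : 0 < κ * L := by positivity
  have hκL1 : κ * L ≤ L := by nlinarith
  rcases hK with hK0 | hKs
  · subst hK0
    have h1 : {M : ℤ | (Sy 1)^[0] M ∈ S} = S := by
      ext x
      simp
    rw [h1]
    refine PB_mono hA (by linarith : ρ ≤ ρ + η) ?_
    apply hPB A hA
    · simp only [Nat.cast_zero, mul_zero, sub_zero]
      linarith
    · obtain ⟨h2, h3⟩ := abs_le.1 hAL
      simp only [Nat.cast_zero]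
      norm_num
      linarith
  · have hKpos : 0 < K := by
      have : 0 < Real.sqrt L := Real.sqrt_pos.2 hLpos
      have : (0 : ℝ) < K := by linarith
      exact_mod_cast this
    obtain ⟨hmu1, hmu2⟩ := mu_bounds
    have hmu : 0 < mu := by linarith
    have hKL' : (K : ℝ) ≤ (1 - κ) * L / (2 * mu) := by
      rw [le_div_iff₀ (by positivity)]
      linarith
    have hK0R : (0 : ℝ) ≤ K := Nat.cast_nonneg K
    have hK4 : (K : ℝ) ≤ 4 * L := by
      have h3 : 0.28 * (K : ℝ) ≤ 2 * mu * K := mul_le_mul_of_nonneg_right (by linarith) hK0R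
      have h4 : (1 - κ) * L ≤ L := by nlinarith
      linarith
    set ks := parts p K with hks
    have hksum : ks.sum = K := parts_sum hp1 K
    have hklen : ks.length = p := parts_length hp1 K
    have hmem : ∀ k ∈ ks, 2 * L ≤ (k : ℝ) ^ 8 ∧ (k : ℝ) ≤ κ * L / 8 := by
      intro k hk
      have hk12 : K / p ≤ k ∧ k ≤ K / p + K % p := by
        rw [hks] at hk
        unfold parts at hk
        rw [List.mem_cons, List.mem_replicate] at hk
        omega
      obtain ⟨hk1, hk2⟩ := hk12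
      have hk1R : ((K / p : ℕ) : ℝ) ≤ k := by exact_mod_cast hk1
      have hk2R : (k : ℝ) ≤ ((K / p : ℕ) : ℝ) + ((K % p : ℕ) : ℝ) := by exact_mod_cast hk2
      have h1 : (K : ℝ) < p * (((K / p : ℕ) : ℝ) + 1) := by
        exact_mod_cast Nat.lt_mul_div_succ K hp0N
      have h2 : ((K / p : ℕ) : ℝ) ≤ (K : ℝ) / p := Nat.cast_div_le
      have h3 : ((K % p : ℕ) : ℝ) ≤ p := by exact_mod_cast (Nat.mod_lt K hp0N).le
      have hpκ : 64 ≤ p * κ := by rwa [div_le_iff₀ hκ] at hp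
      have hLb' : 16 * p ≤ L * κ := by rwa [div_le_iff₀ hκ] at hLb
      constructor
      · -- the lower bound
        set r := Real.sqrt L with hr
        have hrsq : r ^ 2 = L := Real.sq_sqrt hLpos.le
        have hr0 : 0 ≤ r := Real.sqrt_nonneg _
        have h2p : (2 * (p : ℝ)) ≤ r := by
          apply Real.le_sqrt_of_sq_le
          have : (2 * (p : ℝ)) ^ 2 ≤ (2 * (p : ℝ)) ^ 8 := by
            apply pow_le_pow_right₀ _ (by norm_num)
            linarith
          have h8 : 0 ≤ (2 * (p : ℝ)) ^ 8 := by positivity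
          linarith
        have hk3 : r ≤ 2 * p * k := by
          have h5 : (K : ℝ) < p * ((k : ℝ) + 1) := lt_of_lt_of_le h1 (by
            apply mul_le_mul_of_nonneg_left _ hp0.le
            linarith)
          nlinarith
        have h6 : r ^ 8 ≤ (2 * p * k) ^ 8 := pow_le_pow_left₀ hr0 hk3 8
        have h7 : r ^ 8 = L ^ 4 := by rw [← hrsq, ← pow_mul]
        rw [h7, mul_pow] at h6
        have h9 : 0 < (2 * (p : ℝ)) ^ 8 := by positivity
        -- 2 L (2p)^8 ≤ L^2 ≤ L^4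
        have h10 : 2 * L * (2 * (p : ℝ)) ^ 8 ≤ L ^ 4 := by
          have h11 : 2 * L * (2 * (p : ℝ)) ^ 8 ≤ L ^ 2 := by nlinarith
          have h12 : L ^ 2 ≤ L ^ 4 := pow_le_pow_right₀ hL1 (by norm_num)
          linarith
        have h13 : (2 * (p : ℝ)) ^ 8 * (2 * L) ≤ (2 * (p : ℝ)) ^ 8 * (k : ℝ) ^ 8 := by
          calc (2 * (p : ℝ)) ^ 8 * (2 * L) = 2 * L * (2 * (p : ℝ)) ^ 8 := by ring
            _ ≤ L ^ 4 := h10
            _ ≤ _ := h6
        exact le_of_mul_le_mul_left h13 h9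
      · have h4 : (K : ℝ) / p ≤ κ * L / 16 := by
          rw [div_le_iff₀ hp0]
          nlinarith
        nlinarith
    have hτ : t0 ≤ κ * L / 2 := by
      rw [div_le_iff₀ hκ] at hLa
      linarith
    have hG : Gf N (κ * L / 2) ks (fun l A' => ∀ m : ℕ, (m : ℝ) ^ 16 ≤ Real.log A' → PB S A' m ρ) A := by
      apply gf_list hκ hκ1 hLpos hN le_rfl ks 0 A _ hA hmem
      · rw [hksum]
        simpa using hKL'
      · simpa using hAL
      · intro l A' hA' hl
        rw [hksum, zero_add] at hl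
        apply hPB A' hA'
        have := div_N hκ hκ1 hLpos hN hKL'
        linarith
    have h := hcomp (κ * L / 2) hτ ks (3 * ks.sum)
      (by
        intro k hk
        have := List.single_le_sum (l := ks) (fun _ _ => Nat.zero_le _) k hk
        omega) (fun _ => S) (fun _ => ρ) (fun _ => hρ) A hA hG 0 (by
        obtain ⟨h2, h3⟩ := abs_le.1 hAL
        norm_num
        linarith)
    have hsub : ∀ x : ℤ, A ≤ (x : ℝ) → (x : ℝ) < 2 * A → x ∈ {M : ℤ | (Sy 1)^[K] M ∈ S} →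
        x ∈ SEf ks (fun _ => S) := by
      intro x _ _ hx
      apply hM ks _ x
      rw [hksum]
      exact hx
    refine PB_sub hsub (PB_mono hA ?_ h)
    have h1 := WEf_const_le (3 * ks.sum) ks hρ
    have h2 : (ks.length : ℝ) * (C / (κ * L / 2) ^ 3) ≤ η := by
      rw [hklen]
      rw [div_le_iff₀ hη'] at hLd
      have h3 : (p : ℝ) * (C / (κ * L / 2) ^ 3) = p * C * 8 / (κ ^ 3 * L ^ 3) := by
        field_simp
        norm_num
      rw [h3, div_le_iff₀ (by positivity)]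
      have h4 : L ≤ L ^ 3 := by
        calc L = L ^ 1 := (pow_one L).symm
          _ ≤ L ^ 3 := pow_le_pow_right₀ hL1 (by norm_num)
      have h5 : L * (κ ^ 3 * η) ≤ L ^ 3 * (κ ^ 3 * η) := mul_le_mul_of_nonneg_right h4 hη'.le
      linarith
    linarith

end Pool.Agent.H55.DK.PULL
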