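import Pool.Agent.H55.DK.PT

/-!
# DK-REFL: the reflection identity
-/

set_option autoImplicit false

namespace Pool.Agent.H55.DK.REFL

open Finset Filter Topology MeasureTheory ProbabilityTheory
open Pool.Agent.H499R2.ND.TJ (PP geo)
open Pool.Agent.Results.MP_f7abf1_nt.BlockLaw (Syr wait)
open Pool.Agent.H55.UL (wt meas_wt indep_wt wt_law bs meas_bs bs_law sum_choose conv)
open Pool.Agent.H55.DK.PT


theorem Yw_eq (ω : ℕ → ℕ) (j : ℕ) : Yw ω j = 2 * (j : ℤ) - (bs (range j) ω : ℤ) := by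
  unfold Yw bs
  push_cast
  rfl

theorem bs_ge (K : ℕ) (ω : ℕ → ℕ) : K ≤ bs (range K) ω := by
  unfold bs
  calc K = ∑ _j ∈ range K, 1 := by simp
    _ ≤ _ := Finset.sum_le_sum fun i _ => by omega

/-- hockey stick sum -/
theorem hs (m n T : ℕ) (h : n < T) :
    ∑ y ∈ range (n + 1), PP.real {ω | bs (range m) ω = y} * (1 / 2 : ℝ) ^ (T - y) =
      (n.choose m : ℝ) * (1 / 2 : ℝ) ^ T := by
  rcases Nat.eq_zero_or_pos m with rfl | hm
  · rw [Finset.sum_range_succ']
    have h0 : ∀ y : ℕ, PP.real {ω | bs (range 0) ω = y + 1} = 0 := by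
      intro y
      have : {ω : ℕ → ℕ | bs (range 0) ω = y + 1} = ∅ := by
        ext ω
        simp [bs]
      rw [this]
      simp
    have h1 : PP.real {ω : ℕ → ℕ | bs (range 0) ω = 0} = 1 := by
      have : {ω : ℕ → ℕ | bs (range 0) ω = 0} = Set.univ := by
        ext ω
        simp [bs]
      rw [this]
      simp
    rw [Finset.sum_eq_zero (fun y _ => by rw [h0 y, zero_mul]), h1]
    simp
  · obtain ⟨h0, h1⟩ := bs_law (range m) ⟨0, mem_range.2 hm⟩
    rw [Finset.sum_range_succ', h0, zero_mul, add_zero]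
    have h2 : ∀ y ∈ range n, PP.real {ω | bs (range m) ω = y + 1} * (1 / 2 : ℝ) ^ (T - (y + 1)) =
        (y.choose (m - 1) : ℝ) * (1 / 2 : ℝ) ^ T := by
      intro y hy
      rw [mem_range] at hy
      rw [h1 y, card_range, mul_assoc, ← pow_add]
      congr 2
      omega
    rw [Finset.sum_congr rfl h2, ← Finset.sum_mul]
    congr 1
    have h3 := sum_choose (m - 1) n
    rw [show m - 1 + 1 = m by omega] at h3
    rw [← h3]
    push_cast
    rfl

theorem aux : ∀ K a T : ℕ, a < K → 2 * K ≤ T + a + 1 →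
    PP.real ({ω : ℕ → ℕ | ∃ j < K, (a : ℤ) ≤ Yw ω j} ∩ {ω | bs (range K) ω = T}) =
      PP.real {ω : ℕ → ℕ | bs (range (K - a)) ω = T} := by
  intro K
  induction K with
  | zero => intro a T h; omega
  | succ K ih =>
    intro a T ha hT
    have hdep : Dep K (fun ω => ω ∈ {ω : ℕ → ℕ | ∃ j < K + 1, (a : ℤ) ≤ Yw ω j}) := by
      intro ω ω' h
      have h1 : ∀ j < K + 1, Yw ω j = Yw ω' j := by
        intro j hj
        rw [Yw_eq, Yw_eq, bs_dep j ω ω' fun i hi => h i (by omega)]
      simp only [Set.mem_ofPred_eq, eq_iff_iff]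
      exact ⟨fun ⟨j, hj, h2⟩ => ⟨j, hj, by rw [← h1 j hj]; exact h2⟩,
        fun ⟨j, hj, h2⟩ => ⟨j, hj, by rw [h1 j hj]; exact h2⟩⟩
    rw [conv' hdep]
    have hR : PP.real {ω : ℕ → ℕ | bs (range (K + 1 - a)) ω = T} =
        ∑ y ∈ range T, PP.real {ω | bs (range (K - a)) ω = y} * (1 / 2 : ℝ) ^ (T - y) := by
      rw [show K + 1 - a = (K - a) + 1 by omega, Finset.range_add_one]
      exact conv (by simp) T
    rw [hR]
    obtain ⟨n, hn⟩ : ∃ n, n = 2 * K - a := ⟨_, rfl⟩
    have hnT : n < T := by omega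
    rw [← Finset.sum_range_add_sum_Ico _ (show n + 1 ≤ T from hnT),
      ← Finset.sum_range_add_sum_Ico (fun y => PP.real {ω | bs (range (K - a)) ω = y} * (1 / 2 : ℝ) ^ (T - y))
        (show n + 1 ≤ T from hnT)]
    congr 1
    · rw [hs (K - a) n T hnT]
      have h1 : ∀ y ∈ range (n + 1), PP.real ({ω : ℕ → ℕ | ∃ j < K + 1, (a : ℤ) ≤ Yw ω j} ∩
          {ω | bs (range K) ω = y}) * (1 / 2 : ℝ) ^ (T - y) =
          PP.real {ω | bs (range K) ω = y} * (1 / 2 : ℝ) ^ (T - y) := by
        intro y hy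
        rw [mem_range] at hy
        congr 2
        apply Set.inter_eq_right.2
        intro ω hω
        rw [Set.mem_ofPred_eq] at hω
        refine ⟨K, Nat.lt_succ_self K, ?_⟩
        rw [Yw_eq, hω]
        omega
      rw [Finset.sum_congr rfl h1, hs K n T hnT]
      congr 2
      have h2 : n = K + (K - a) := by omega
      rw [h2]
      exact Nat.choose_symm_add
    · apply Finset.sum_congr rfl
      intro y hy
      rw [Finset.mem_Ico] at hy
      congr 1
      have h1 : {ω : ℕ → ℕ | ∃ j < K + 1, (a : ℤ) ≤ Yw ω j} ∩ {ω | bs (range K) ω = y} =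
          {ω : ℕ → ℕ | ∃ j < K, (a : ℤ) ≤ Yw ω j} ∩ {ω | bs (range K) ω = y} := by
        ext ω
        simp only [Set.mem_inter_iff, Set.mem_ofPred_eq]
        constructor
        · rintro ⟨⟨j, hj, h2⟩, h3⟩
          refine ⟨⟨j, ?_, h2⟩, h3⟩
          by_contra hjK
          have : j = K := by omega
          subst this
          rw [Yw_eq, h3] at h2
          omega
        · rintro ⟨⟨j, hj, h2⟩, h3⟩
          exact ⟨⟨j, by omega, h2⟩, h3⟩
      rw [h1]
      rcases Nat.lt_or_ge a K with hlt | hge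
      · exact ih a y hlt (by omega)
      · have haK : a = K := by omega
        subst haK
        have h2 : {ω : ℕ → ℕ | ∃ j < a, (a : ℤ) ≤ Yw ω j} ∩ {ω | bs (range a) ω = y} = ∅ := by
          ext ω
          simp only [Set.mem_inter_iff, Set.mem_ofPred_eq, Set.mem_empty_iff_false, iff_false, not_and]
          rintro ⟨j, hj, h3⟩ -
          rw [Yw_eq] at h3
          have := bs_ge j ω
          omega
        have h3 : {ω : ℕ → ℕ | bs (range (a - a)) ω = y} = ∅ := by
          ext ω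
          simp only [Nat.sub_self, Set.mem_ofPred_eq, Set.mem_empty_iff_false, iff_false]
          simp [bs]
          omega
        rw [h2, h3]

theorem main : S_REFL := by
  intro K a T h1 h2
  exact aux K a T h1 h2

end Pool.Agent.H55.DK.REFL
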