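import Pool.Agent.H55.DK.F1

/-!
# Project DK: deviation and scale
-/

set_option autoImplicit false

namespace Pool.Agent.H55.DK

/-- deviation of `C^k n` -/
noncomputable def dev (n k : ℕ) : ℝ := Real.log (C^[k] n : ℕ) - Real.log n + k / 3 * Real.log (4 / 3)

/-- scale -/
noncomputable def scale (n : ℕ) : ℝ := Real.log 6 / 3 * Real.sqrt (2 * Real.log n / Real.log (4 / 3))

theorem scale_nonneg (n : ℕ) : 0 ≤ scale n := by
  unfold scale
  have := c6_lo
  positivity

theorem dev_end {n t : ℕ} (h : IsTC n t) : dev n t = t / 3 * Real.log (4 / 3) - Real.log n := by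
  unfold dev
  rw [h.1]
  simp
  ring

end Pool.Agent.H55.DK
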