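import Pool.Agent.H55.DK.FIN
import Pool.Agent.H55.DK.Defs2

/-!
# Project DK: the final form of the law of the maximal deviation
-/

set_option autoImplicit false

namespace Pool.Agent.H55.DK

open Filter Topology
open Pool.Agent.Results.MP_f7abf1_nt.BlockLaw (Syr wait oddCount HasDensity)

/-- the joint law -/
theorem joint (hF : S_FIN) {δ : ℝ} (hδ : HasDensity UL.R δ) {y : ℝ} (z : ℝ) (hy : 0 ≤ y) :
    HasDensity (fun n => ∃ t, IsTC n t ∧ (∀ k ≤ t, dev n k ≤ y * scale n) ∧ dev n t ≤ z * scale n)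
      (δ * (Pool.Agent.Results.MP_f7abf1_nt.BlockLaw.Phi (min y z) -
        Pool.Agent.Results.MP_f7abf1_nt.BlockLaw.Phi (min y z - 2 * y))) := by
  have h := hF δ hδ y z hy
  have e : (fun n => ∃ t, IsTC n t ∧ (∀ k ≤ t, dev n k ≤ y * scale n) ∧ dev n t ≤ z * scale n) = Set1 y z := by
    funext n
    apply propext
    unfold Set1
    have hq : 0 < Real.log (4 / 3) := by linarith [UL.log43_lo]
    have hend : ∀ t, IsTC n t → (dev n t ≤ z * scale n ↔ (t : ℝ) ≤ 3 / Real.log (4 / 3) * Real.log n +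
        z * (Real.log 6 / Real.log (4 / 3) * Real.sqrt (2 * Real.log n / Real.log (4 / 3)))) := by
      intro t ht
      rw [dev_end ht]
      unfold scale
      set q := Real.log (4 / 3) with hqd
      set σ := Real.sqrt (2 * Real.log n / q) with hσ
      have h1 : 3 / q * Real.log n + z * (Real.log 6 / q * σ) = 3 / q * (Real.log n + z * (Real.log 6 / 3 * σ)) := by
        field_simp
      have h2 : (t : ℝ) = 3 / q * (t / 3 * q) := by field_simp
      rw [h1]
      conv_rhs => rw [h2]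
      rw [mul_le_mul_iff_right₀ (by positivity)]
      constructor <;> intro h <;> linarith
    have hdev : ∀ k, (dev n k ≤ y * scale n ↔ Real.log ((C^[k] n : ℕ) : ℝ) ≤ Real.log n - k / 3 * Real.log (4 / 3) +
        y * (Real.log 6 / 3 * Real.sqrt (2 * Real.log n / Real.log (4 / 3)))) := by
      intro k
      unfold dev scale
      constructor <;> intro h <;> linarith
    constructor
    · rintro ⟨t, h1, h2, h3⟩
      exact ⟨t, h1, fun k hk => (hdev k).1 (h2 k hk), (hend t h1).1 h3⟩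
    · rintro ⟨t, h1, h2, h3⟩
      exact ⟨t, h1, fun k hk => (hdev k).2 (h2 k hk), (hend t h1).2 h3⟩
  rw [e, mul_comm]
  exact h

/-- the law of the maximum -/
theorem maxlaw (hF : S_FIN) {δ : ℝ} (hδ : HasDensity UL.R δ) {y : ℝ} (hy : 0 ≤ y) :
    HasDensity (fun n => ∃ t, IsTC n t ∧ ∀ k ≤ t, dev n k ≤ y * scale n)
      (δ * (2 * Pool.Agent.Results.MP_f7abf1_nt.BlockLaw.Phi y - 1)) := by
  have h := joint hF hδ y hy
  have e : (fun n => ∃ t, IsTC n t ∧ (∀ k ≤ t, dev n k ≤ y * scale n) ∧ dev n t ≤ y * scale n) =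
      (fun n => ∃ t, IsTC n t ∧ ∀ k ≤ t, dev n k ≤ y * scale n) := by
    funext n
    apply propext
    constructor
    · rintro ⟨t, h1, h2, _⟩
      exact ⟨t, h1, h2⟩
    · rintro ⟨t, h1, h2⟩
      exact ⟨t, h1, h2, h2 t le_rfl⟩
  rw [e] at h
  have e2 : Pool.Agent.Results.MP_f7abf1_nt.BlockLaw.Phi (min y y) -
      Pool.Agent.Results.MP_f7abf1_nt.BlockLaw.Phi (min y y - 2 * y) =
      2 * Pool.Agent.Results.MP_f7abf1_nt.BlockLaw.Phi y - 1 := by
    rw [min_self]
    have h3 : y - 2 * y = -y := by ring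
    rw [h3]
    have e3 : ∀ x, Pool.Agent.Results.MP_f7abf1_nt.BlockLaw.Phi x = Pool.Agent.H499R2.ND.Phi x :=
      fun x => (Pool.Agent.H499R2.ND.phi_cdf x).symm
    rw [e3, e3]
    have := Pool.Agent.H499R2.ND.Phi_neg y
    linarith
  rw [e2] at h
  exact h

end Pool.Agent.H55.DK
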