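import Pool.Agent.H55.DK.TAIL

/-! Project DK: the path stays in a strip during a stage. -/

set_option autoImplicit false

namespace Pool.Agent.H55.DK.STAGE

open Pool.Agent.H320R2.PD Pool.Agent.H499R2.ND Finset Filter Topology
open Pool.Agent.TH977.IP (Sy ex stf)
open Pool.Agent.H55.DK.TAIL

/-- DK-STAGE -/
theorem main (hC : S_COMP) (hM : S_MEM) (hW : S_WMAX) : S_STAGE := by
  classical
  obtain ⟨C, t0, hC0, ht0, hcomp⟩ := hC 20 le_rfl
  refine ⟨2 * C, 2 * t0, by positivity, by linarith, ?_⟩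
  intro A hA hAt q hq lam b hlam hlam1 hb m hm
  obtain ⟨t, ht⟩ : ∃ t, t = Real.log A := ⟨_, rfl⟩
  rw [← ht] at hAt hq hb hm ⊢
  have ht1 : 2000 ≤ t := by linarith
  have htp : 0 < t := by linarith
  obtain ⟨s, hs⟩ : ∃ s, s = t ^ (1 / 4 : ℝ) := ⟨_, rfl⟩
  rw [← hs] at hb ⊢
  have hs0 : 0 ≤ s := by rw [hs]; positivity
  have hs4 : s ^ 4 = t := by
    rw [hs, ← Real.rpow_natCast, ← Real.rpow_mul htp.le]
    norm_num
  have hs5 : 5 ≤ s := by
    by_contra hcon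
    push Not at hcon
    have : s ^ 4 ≤ 5 ^ 4 := pow_le_pow_left₀ hs0 hcon.le 4
    norm_num at this
    linarith
  have hst : s ≤ 0.01 * t := by
    have h1 : (5 : ℝ) ^ 3 ≤ s ^ 3 := pow_le_pow_left₀ (by norm_num) hs5 3
    have h2 : s * 5 ^ 3 ≤ s * s ^ 3 := mul_le_mul_of_nonneg_left h1 hs0
    have h3 : s * s ^ 3 = t := by rw [← hs4]; ring
    rw [h3] at h2
    linarith
  obtain ⟨k, hk⟩ : ∃ k : ℕ, k = ⌈s⌉₊ := ⟨_, rfl⟩
  have hk1 : s ≤ k := by rw [hk]; exact Nat.le_ceil _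
  have hk2 : (k : ℝ) < s + 1 := by rw [hk]; exact Nat.ceil_lt_add_one hs0
  have hk0 : (0 : ℝ) < k := by linarith
  have hkN : 0 < k := by exact_mod_cast hk0
  obtain ⟨p, hp⟩ : ∃ p : ℕ, p = q / k + 1 := ⟨_, rfl⟩
  have hpq : q ≤ p * k := by
    rw [hp, mul_comm]
    exact (Nat.lt_mul_div_succ q hkN).le
  have hpk : p * k ≤ q + k := by
    rw [hp, Nat.add_mul, one_mul]
    exact Nat.add_le_add_right (Nat.div_mul_le_self q k) k
  have hpkR : ((p * k : ℕ) : ℝ) ≤ q + k := by exact_mod_cast hpk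
  have hp1 : (p : ℝ) ≤ t := by
    have h1 : p ≤ q + 1 := by
      rw [hp]
      exact Nat.add_le_add_right (Nat.div_le_self q k) 1
    have h2 : (p : ℝ) ≤ q + 1 := by exact_mod_cast h1
    linarith
  have hk8 : t ≤ (k : ℝ) ^ 8 := by
    rw [← hs4]
    exact (pow_le_pow_left₀ hs0 hk1 4).trans (pow_le_pow_right₀ (by linarith) (by norm_num))
  let ks := List.replicate p k
  let F : List ℕ → Set ℤ := fun l => if Win k l ∧ ¬ Dv (b / 2) 0 ks l then ∅ else Set.univ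
  let ρ : List ℕ → ℝ := fun l => 2 * (if Dv (b / 2) 0 ks l then 1 else 0) + 0
  have hρ : ∀ l, 0 ≤ ρ l := by
    intro l
    show 0 ≤ 2 * (if Dv (b / 2) 0 ks l then (1 : ℝ) else 0) + 0
    split_ifs <;> norm_num
  have hG : Gf 20 (0.9 * t) ks
      (fun l A' => ∀ m : ℕ, (m : ℝ) ^ 16 ≤ Real.log A' → PB (F l) A' m (ρ l)) A := by
    refine gf_list (by linarith) p _ A hA (by rw [← ht]; linarith) (by rw [← ht]; exact hk8) ?_
    intro l hl hlen m' hm'
    have hA' : 0 < A * 3 ^ (p * k) / 2 ^ l.sum := by positivity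
    by_cases hD : Dv (b / 2) 0 ks l
    · have e2 : ρ l = 2 * 1 + 0 := by
        show 2 * (if Dv (b / 2) 0 ks l then (1 : ℝ) else 0) + 0 = _
        rw [if_pos hD]
      refine PB_mono hA' (ρ := 2) (by rw [e2]; norm_num) (PB_triv _ hA' ?_ hm')
      have h1 := win_sum k l hl
      rw [hlen] at h1
      obtain ⟨h2, h3⟩ := dec_bd h1
      rw [TAIL.log_next hA, ← ht]
      linarith
    · have e1 : F l = ∅ := if_pos ⟨hl, hD⟩
      rw [e1]
      exact PB_empty hA' (hρ l) fun x _ _ hx => hx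
  have hS := hcomp (0.9 * t) (by linarith) ks (3 * k)
    (fun x hx => by rw [List.eq_of_mem_replicate hx]) F ρ hρ A hA hG m (by rw [← ht]; exact hm)
  have hlen : (ks.length : ℝ) = p := by simp [ks]
  have hks : ks.sum = p * k := by simp [ks]
  have hWE : WEf (3 * k) ks ρ ≤
      4 * Real.exp (2 * lam ^ 2 * (q + 2 * s + 1) - lam * b / 2) := by
    have h1 := WEf_affine (3 * k) ks (fun l => if Dv (b / 2) 0 ks l then (1 : ℝ) else 0) 2 0 le_rfl
    have h2 := hW (3 * k) ks lam (b / 2) 0 hlam hlam1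
    rw [hks] at h2
    have h5 : ∀ y : ℝ, y = 0 → Real.exp (2 * lam ^ 2 * ((p * k : ℕ) : ℝ) + lam * (y - b / 2)) ≤
        Real.exp (2 * lam ^ 2 * (q + 2 * s + 1) - lam * b / 2) := by
      intro y hy
      apply Real.exp_le_exp.2
      have h6 := mul_le_mul_of_nonneg_left (show ((p * k : ℕ) : ℝ) ≤ q + 2 * s + 1 by linarith)
        (show 0 ≤ 2 * lam ^ 2 by positivity)
      rw [hy]
      linarith
    have h7 := h5 0 rfl
    have h8 := h5 (-0) neg_zero
    have h3 : WEf (3 * k) ks ρ =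
      WEf (3 * k) ks (fun l => 2 * (if Dv (b / 2) 0 ks l then (1 : ℝ) else 0) + 0) := rfl
    rw [h3]
    linarith
  have herr : (ks.length : ℝ) * (C / (0.9 * t) ^ 3) ≤ 2 * C / t ^ 2 := by
    rw [hlen]
    calc (p : ℝ) * (C / (0.9 * t) ^ 3) ≤ t * (C / (0.9 * t) ^ 3) :=
          mul_le_mul_of_nonneg_right hp1 (by positivity)
      _ = (1 / (0.9 ^ 3)) * (C / t ^ 2) := by
          field_simp
      _ ≤ 2 * (C / t ^ 2) := mul_le_mul_of_nonneg_right (by norm_num) (by positivity)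
      _ = 2 * C / t ^ 2 := by ring
  refine PB_sub (S' := SEf ks F) ?_ (PB_mono hA (by linarith) hS)
  rintro M _ _ ⟨j, hj, hjb⟩
  apply hM ks F M
  by_cases hgood : Win k (stf ks fun j => ex 1 ((Sy 1)^[j] M)) ∧
      ¬ Dv (b / 2) 0 ks (stf ks fun j => ex 1 ((Sy 1)^[j] M))
  · exfalso
    have := path_bound k (b / 2) p (fun j => ex 1 ((Sy 1)^[j] M)) 0 hgood.1 hgood.2 j
      (hj.trans hpq)
    rw [Yz_cast] at hjb
    linarith
  · have e : F (stf ks fun j => ex 1 ((Sy 1)^[j] M)) = Set.univ := if_neg hgood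
    rw [e]
    exact Set.mem_univ _

end Pool.Agent.H55.DK.STAGE
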