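import Pool.Agent.H55.DK.FStm

/-! Project DK: from the classes `2 ^ v * (odd)` to all integers, for bounded functions. -/

set_option autoImplicit false

namespace Pool.Agent.H55.DK.SUM

open Finset Filter Topology

/-- sum over `1 ≤ n ≤ N` -/
noncomputable def sm (N : ℕ) (f : ℕ → ℝ) : ℝ := ∑ n ∈ Icc 1 N, f n

theorem sm_abs {f : ℕ → ℝ} (hf : ∀ n, |f n| ≤ 1) (N : ℕ) : |sm N f| ≤ N := by
  unfold sm
  refine (Finset.abs_sum_le_sum_abs _ _).trans ?_
  refine (Finset.sum_le_sum fun n _ => hf n).trans ?_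
  simp

theorem sm_split (N : ℕ) (f : ℕ → ℝ) : sm N f = oddSum N f + sm (N / 2) (fun n => f (2 * n)) := by
  unfold sm oddSum
  have e : Icc 1 N = (range (N + 1)).filter Odd ∪ (Icc 1 (N / 2)).image (fun n => 2 * n) := by
    ext n
    simp only [mem_Icc, mem_union, mem_filter, mem_range, mem_image]
    constructor
    · rintro ⟨h1, h2⟩
      rcases Nat.even_or_odd n with he | ho
      · right
        obtain ⟨k, hk⟩ := he
        exact ⟨k, ⟨by omega, by omega⟩, by omega⟩
      · exact Or.inl ⟨by omega, ho⟩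
    · rintro (⟨h1, h2⟩ | ⟨k, ⟨h1, h2⟩, rfl⟩)
      · exact ⟨h2.pos, by omega⟩
      · exact ⟨by omega, by omega⟩
  have hd : Disjoint ((range (N + 1)).filter Odd) ((Icc 1 (N / 2)).image (fun n => 2 * n)) := by
    rw [Finset.disjoint_left]
    intro n hn hn'
    rw [mem_filter, Nat.odd_iff] at hn
    rw [mem_image] at hn'
    obtain ⟨k, _, hk⟩ := hn'
    omega
  rw [e, Finset.sum_union hd, Finset.sum_image (fun a _ b _ h => by simpa using h)]

theorem odd_sum {c : ℝ} (V : ℕ) : ∀ f : ℕ → ℝ, (∀ n, |f n| ≤ 1) →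
    (∀ v : ℕ, Tendsto (fun X : ℕ => oddSum X (fun m => f (2 ^ v * m)) / X) atTop (𝓝 (c / 2))) →
    ∀ ε : ℝ, 0 < ε → ∀ᶠ N : ℕ in atTop, |sm N f - c * N| ≤ (ε + (1 + |c|) / 2 ^ V) * N := by
  induction V with
  | zero =>
    intro f hf _ ε hε
    filter_upwards with N
    have h1 := sm_abs hf N
    have h2 : |c * (N : ℝ)| = |c| * N := by rw [abs_mul, Nat.abs_cast]
    have h3 : 0 ≤ ε * (N : ℝ) := by positivity
    calc |sm N f - c * N| ≤ |sm N f| + |c * (N : ℝ)| := abs_sub _ _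
      _ ≤ N + |c| * N := by rw [h2]; linarith
      _ ≤ (ε + (1 + |c|) / 2 ^ 0) * N := by
          rw [pow_zero, div_one]
          linarith
  | succ V ih =>
    intro f hf h ε hε
    have h1 : ∀ᶠ N : ℕ in atTop, |oddSum N f - c / 2 * N| ≤ ε / 4 * N := by
      have h2 := h 0
      simp only [pow_zero, one_mul] at h2
      rw [Metric.tendsto_atTop] at h2
      obtain ⟨N₀, hN₀⟩ := h2 (ε / 4) (by positivity)
      filter_upwards [eventually_ge_atTop (max N₀ 1)] with N hN
      have h3 := hN₀ N ((le_max_left _ _).trans hN)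
      have hN1 : 1 ≤ N := (le_max_right _ _).trans hN
      have hNR : (0 : ℝ) < N := by exact_mod_cast hN1
      rw [Real.dist_eq] at h3
      have h4 : oddSum N f - c / 2 * N = (oddSum N f / N - c / 2) * N := by
        field_simp
      rw [h4, abs_mul, abs_of_pos hNR]
      exact mul_le_mul_of_nonneg_right h3.le hNR.le
    have h2 := ih (fun n => f (2 * n)) (fun n => hf _) (by
      intro v
      have e : ∀ m : ℕ, 2 * (2 ^ v * m) = 2 ^ (v + 1) * m := fun m => by ring
      simp only [e]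
      exact h (v + 1)) ε hε
    have h3 : Tendsto (fun N : ℕ => N / 2) atTop atTop := by
      apply tendsto_atTop_atTop.2
      intro b
      exact ⟨2 * b, fun a ha => by omega⟩
    have h0 : ∀ᶠ N : ℕ in atTop, |c| / 2 ≤ ε / 4 * (N : ℝ) := by
      have h4 : Tendsto (fun N : ℕ => ε / 4 * (N : ℝ)) atTop atTop :=
        tendsto_natCast_atTop_atTop.const_mul_atTop (by positivity)
      exact h4.eventually_ge_atTop _
    filter_upwards [h1, h3.eventually h2, h0] with N q1 q2 q3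
    rw [sm_split N f]
    have e : oddSum N f + sm (N / 2) (fun n => f (2 * n)) - c * N =
        (oddSum N f - c / 2 * N) + (sm (N / 2) (fun n => f (2 * n)) - c * ((N / 2 : ℕ) : ℝ)) +
          c * (((N / 2 : ℕ) : ℝ) - N / 2) := by
      ring
    rw [e]
    have h4 : ((N / 2 : ℕ) : ℝ) ≤ N / 2 := Nat.cast_div_le
    have h5 : (N : ℝ) / 2 - 1 / 2 ≤ ((N / 2 : ℕ) : ℝ) := by
      have : N ≤ 2 * (N / 2) + 1 := by omega
      have h6 : (N : ℝ) ≤ 2 * ((N / 2 : ℕ) : ℝ) + 1 := by exact_mod_cast this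
      linarith
    have h6 : |c * (((N / 2 : ℕ) : ℝ) - N / 2)| ≤ |c| / 2 := by
      rw [abs_mul]
      have h7 : |((N / 2 : ℕ) : ℝ) - N / 2| ≤ 1 / 2 := by
        rw [abs_le]
        constructor <;> linarith
      calc |c| * |((N / 2 : ℕ) : ℝ) - N / 2| ≤ |c| * (1 / 2) := mul_le_mul_of_nonneg_left h7 (abs_nonneg _)
        _ = |c| / 2 := by ring
    have h8 : (ε + (1 + |c|) / 2 ^ V) * ((N / 2 : ℕ) : ℝ) ≤ (ε + (1 + |c|) / 2 ^ V) * (N / 2) := by
      apply mul_le_mul_of_nonneg_left h4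
      positivity
    have h9 : (ε + (1 + |c|) / 2 ^ V) * ((N : ℝ) / 2) = (ε / 2) * N + (1 + |c|) / 2 ^ (V + 1) * N := by
      rw [pow_succ]
      field_simp
    have h10 : (ε + (1 + |c|) / 2 ^ (V + 1)) * (N : ℝ) = ε * N + (1 + |c|) / 2 ^ (V + 1) * N := by ring
    refine (abs_add_le _ _).trans ?_
    refine (add_le_add (abs_add_le _ _) le_rfl).trans ?_
    rw [h10]
    linarith

theorem main : S_SUM := by
  intro f hf c h
  rw [Metric.tendsto_atTop']
  intro ε hε
  obtain ⟨V, hV⟩ := exists_pow_lt_of_lt_one (show (0 : ℝ) < ε / 4 / (1 + |c|) by positivity)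
    (show (1 / 2 : ℝ) < 1 by norm_num)
  obtain ⟨N₀, hN₀⟩ := eventually_atTop.1 (odd_sum V f hf h (ε / 4) (by positivity))
  refine ⟨max N₀ 1, fun N hN => ?_⟩
  have h2 := hN₀ N ((le_max_left _ _).trans hN.le)
  have hN1 : 1 < N := lt_of_le_of_lt (le_max_right _ _) hN
  have hNR : (0 : ℝ) < N := by
    have : 0 < N := by omega
    exact_mod_cast this
  have h3 : (∑ n ∈ Icc 1 N, f n) / N - c = (sm N f - c * N) / N := by
    unfold sm
    field_simp
  rw [Real.dist_eq, h3, abs_div, abs_of_pos hNR, div_lt_iff₀ hNR]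
  refine lt_of_le_of_lt h2 ?_
  have hc : 0 < 1 + |c| := by positivity
  have h4 : (1 + |c|) / 2 ^ V < ε / 4 := by
    rw [lt_div_iff₀ hc] at hV
    have : (1 + |c|) / 2 ^ V = (1 / 2) ^ V * (1 + |c|) := by
      rw [one_div_pow]
      ring
    rw [this]
    exact hV
  apply mul_lt_mul_of_pos_right _ hNR
  linarith

end Pool.Agent.H55.DK.SUM
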