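import Pool.Agent.H55.DK.Stm

/-! Project DK: control of the complete rest of the trajectory, down to `1`. -/

set_option autoImplicit false

namespace Pool.Agent.H55.DK.TAIL

open Pool.Agent.H320R2.PD Pool.Agent.H499R2.ND Finset Filter Topology
open Pool.Agent.TH977.IP (Sy ex stf Sy_spec stf_length)

/-! ### finitely many starting points -/

theorem fin_start (T : ℝ) : ∃ CJ : ℝ, 0 ≤ CJ ∧ ∀ M : ℤ, 0 < M → (M : ℝ) ≤ T →
    (∃ i, (Sy 1)^[i] M = 1) → ∀ j, (∀ i < j, (Sy 1)^[i] M ≠ 1) → |((Yz M j : ℤ) : ℝ)| ≤ CJ := by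
  classical
  let i0 : ℤ → ℕ := fun M => if h : ∃ i, (Sy 1)^[i] M = 1 then Nat.find h else 0
  refine ⟨∑ M ∈ Icc (1 : ℤ) ⌊T⌋, ∑ j ∈ range (i0 M + 1), |((Yz M j : ℤ) : ℝ)|,
    sum_nonneg fun _ _ => sum_nonneg fun _ _ => abs_nonneg _, ?_⟩
  intro M hM hMT h j hj
  have h1 : M ∈ Icc (1 : ℤ) ⌊T⌋ := mem_Icc.2 ⟨by omega, Int.le_floor.2 hMT⟩
  have h2 : j ∈ range (i0 M + 1) := by
    rw [mem_range]
    by_contra hcon
    push Not at hcon
    have h3 : i0 M = Nat.find h := dif_pos h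
    exact hj (i0 M) (by omega) (by rw [h3]; exact Nat.find_spec h)
  calc |((Yz M j : ℤ) : ℝ)| ≤ ∑ j ∈ range (i0 M + 1), |((Yz M j : ℤ) : ℝ)| :=
        single_le_sum (f := fun j => |((Yz M j : ℤ) : ℝ)|) (fun _ _ => abs_nonneg _) h2
    _ ≤ _ := single_le_sum (f := fun M : ℤ => ∑ j ∈ range (i0 M + 1), |((Yz M j : ℤ) : ℝ)|)
        (fun _ _ => sum_nonneg fun _ _ => abs_nonneg _) h1

/-! ### paths inside a stage -/

/-- all sums are in the window -/
def Win (k : ℕ) (l : List ℕ) : Prop := ∀ x ∈ l, 20 * |(x : ℝ) - 2 * k| ≤ k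

theorem path_bound (k : ℕ) (b : ℝ) : ∀ (p : ℕ) (a : ℕ → ℕ) (y : ℝ),
    Win k (stf (List.replicate p k) a) →
    ¬ Dv b y (List.replicate p k) (stf (List.replicate p k) a) →
    ∀ j ≤ p * k, |y + (2 * (j : ℝ) - ∑ i ∈ range j, (a i : ℝ))| ≤ b + 3 * k := by
  intro p
  have hk0 := Nat.cast_nonneg (α := ℝ) k
  induction p with
  | zero =>
    intro a y _ hD j hj
    have hj0 : j = 0 := by omega
    subst hj0
    have h1 : ¬ b < |y| := hD
    simp only [Nat.cast_zero, mul_zero, sum_range_zero, sub_zero, add_zero]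
    linarith [not_lt.1 h1]
  | succ p ih =>
    intro a y hW hD j hj
    rw [List.replicate_succ] at hW hD
    simp only [stf] at hW hD
    have hx := hW _ (List.mem_cons_self ..)
    have hW' : Win k (stf (List.replicate p k) fun j => a (k + j)) :=
      fun x hx => hW x (List.mem_cons_of_mem _ hx)
    simp only [Dv, List.headD_cons, List.tail_cons, not_or, not_lt] at hD
    obtain ⟨h1, h2⟩ := hD
    push_cast at hx h2
    have hx1 : (∑ i ∈ range k, (a i : ℝ)) ≤ 2.05 * k := by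
      have := (abs_le.1 (show |(∑ i ∈ range k, (a i : ℝ)) - 2 * k| ≤ k / 20 by linarith)).2
      linarith
    rcases lt_or_ge j k with hjk | hjk
    · have s0 : 0 ≤ ∑ i ∈ range j, (a i : ℝ) := sum_nonneg fun _ _ => Nat.cast_nonneg _
      have s1 : ∑ i ∈ range j, (a i : ℝ) ≤ ∑ i ∈ range k, (a i : ℝ) :=
        sum_le_sum_of_subset_of_nonneg (range_subset_range.2 hjk.le) fun _ _ _ => Nat.cast_nonneg _
      have s2 : (j : ℝ) ≤ k := by exact_mod_cast hjk.le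
      have s3 : |2 * (j : ℝ) - ∑ i ∈ range j, (a i : ℝ)| ≤ 3 * k := by
        rw [abs_le]
        constructor <;> linarith [Nat.cast_nonneg (α := ℝ) j]
      exact (abs_add_le _ _).trans (add_le_add h1 s3)
    · obtain ⟨j', rfl⟩ := Nat.exists_eq_add_of_le hjk
      have h3 := ih (fun j => a (k + j)) (y + (2 * (k : ℝ) - ∑ i ∈ range k, (a i : ℝ))) hW' h2 j'
        (by rw [Nat.add_mul, one_mul] at hj; omega)
      have e : y + (2 * ((k + j' : ℕ) : ℝ) - ∑ i ∈ range (k + j'), (a i : ℝ)) =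
          y + (2 * (k : ℝ) - ∑ i ∈ range k, (a i : ℝ)) +
            (2 * (j' : ℝ) - ∑ i ∈ range j', (a (k + i) : ℝ)) := by
        rw [sum_range_add]
        push_cast
        ring
      rw [e]
      exact h3

theorem win_sum (k : ℕ) : ∀ l : List ℕ, Win k l →
    20 * |(l.sum : ℝ) - 2 * ((l.length * k : ℕ) : ℝ)| ≤ ((l.length * k : ℕ) : ℝ) := by
  intro l
  induction l with
  | nil => intro _; simp
  | cons x l ih =>
    intro h
    have h1 := h x (List.mem_cons_self ..)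
    have h2 := ih fun x hx => h x (List.mem_cons_of_mem _ hx)
    rw [List.sum_cons, List.length_cons, Nat.cast_add]
    have e0 : (((l.length + 1) * k : ℕ) : ℝ) = ((l.length * k : ℕ) : ℝ) + k := by
      rw [Nat.add_mul, one_mul, Nat.cast_add]
    rw [e0]
    have e : (x : ℝ) + (l.sum : ℕ) - 2 * (((l.length * k : ℕ) : ℝ) + k) =
        (x - 2 * k) + (((l.sum : ℕ) : ℝ) - 2 * ((l.length * k : ℕ) : ℝ)) := by ring
    rw [e]
    have := abs_add_le ((x : ℝ) - 2 * k) (((l.sum : ℕ) : ℝ) - 2 * ((l.length * k : ℕ) : ℝ))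
    linarith

theorem dec_bd {Q T : ℕ} (h : 20 * |(T : ℝ) - 2 * Q| ≤ Q) :
    0.24 * (Q : ℝ) ≤ T * Real.log 2 - Q * Real.log 3 ∧ T * Real.log 2 - Q * Real.log 3 ≤ 0.33 * Q := by
  have h1 := abs_le.1 (show |(T : ℝ) - 2 * Q| ≤ Q / 20 by linarith)
  have hl2' := Real.log_two_lt_d9
  have hl2 := Real.log_two_gt_d9
  have hl3 := log3_ge
  have hl3' := log3_le
  have hQ := Nat.cast_nonneg (α := ℝ) Q
  have hT := Nat.cast_nonneg (α := ℝ) T
  have a1 : (T : ℝ) * Real.log 2 ≤ 2.05 * Q * Real.log 2 :=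
    mul_le_mul_of_nonneg_right (by linarith) (by linarith)
  have a2 : 1.95 * (Q : ℝ) * Real.log 2 ≤ T * Real.log 2 :=
    mul_le_mul_of_nonneg_right (by linarith) (by linarith)
  have a3 := mul_le_mul_of_nonneg_left hl3 hQ
  have a4 := mul_le_mul_of_nonneg_left hl3' hQ
  have a5 := mul_le_mul_of_nonneg_left hl2.le hQ
  have a6 := mul_le_mul_of_nonneg_left hl2'.le hQ
  constructor <;> nlinarith

theorem log_next {A : ℝ} (hA : 0 < A) (k T : ℕ) :
    Real.log (A * 3 ^ k / 2 ^ T) = Real.log A - (T * Real.log 2 - k * Real.log 3) := by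
  rw [Real.log_div (by positivity) (by positivity), Real.log_mul (by positivity) (by positivity),
    Real.log_pow, Real.log_pow]
  ring

theorem gf_list {k : ℕ} {τ : ℝ} (hk2 : 2 * (k : ℝ) ≤ τ) : ∀ (p : ℕ) (P : List ℕ → ℝ → Prop) (A : ℝ),
    0 < A → τ + 0.33 * ((p * k : ℕ) : ℝ) ≤ Real.log A → Real.log A ≤ (k : ℝ) ^ 8 →
    (∀ l : List ℕ, Win k l → l.length = p → P l (A * 3 ^ (p * k) / 2 ^ l.sum)) →
    Gf 20 τ (List.replicate p k) P A := by
  intro p
  induction p with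
  | zero =>
    intro P A hA _ _ h
    have := h [] (fun x hx => by simp at hx) rfl
    show P [] A
    simpa using this
  | succ p ih =>
    intro P A hA h1 h2 h
    have e1 : (((p + 1) * k : ℕ) : ℝ) = ((p * k : ℕ) : ℝ) + k := by push_cast; ring
    rw [e1] at h1
    have hk0 := Nat.cast_nonneg (α := ℝ) k
    have hp0 := Nat.cast_nonneg (α := ℝ) (p * k)
    rw [List.replicate_succ]
    refine ⟨by linarith, h2, by linarith, fun T hT => ?_⟩
    have hT' : 20 * |(T : ℝ) - 2 * k| ≤ k := by exact_mod_cast hT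
    have hd := dec_bd hT'
    have hl := log_next hA k T
    refine ih (fun l => P (T :: l)) (A * 3 ^ k / 2 ^ T) (by positivity) (by rw [hl]; linarith)
      (by rw [hl]; linarith) ?_
    intro l hl' hlen
    have h3 := h (T :: l) (fun x hx => by
      rcases List.mem_cons.1 hx with rfl | hx
      · exact hT'
      · exact hl' x hx) (by simp [hlen])
    have e2 : A * 3 ^ k / 2 ^ T * 3 ^ (p * k) / 2 ^ l.sum =
        A * 3 ^ ((p + 1) * k) / 2 ^ (T :: l).sum := by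
      rw [List.sum_cons, Nat.add_mul, one_mul, pow_add, pow_add]
      field_simp
    rw [e2]
    exact h3

/-! ### means -/

theorem WEf_affine (cap : ℕ) (ks : List ℕ) : ∀ (f : List ℕ → ℝ) (a c : ℝ), 0 ≤ c →
    WEf cap ks (fun l => a * f l + c) ≤ a * WEf cap ks f + c := by
  induction ks with
  | nil => intro f a c _; exact le_rfl
  | cons k ks ih =>
    intro f a c hc
    unfold WEf
    have h1 : ∑ w ∈ FW cap k, wwt w * WEf cap ks (fun l => a * f (w.sum :: l) + c) ≤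
        ∑ w ∈ FW cap k, wwt w * (a * WEf cap ks (fun l => f (w.sum :: l)) + c) :=
      sum_le_sum fun w _ => mul_le_mul_of_nonneg_left (ih _ a c hc) (wwt_nonneg w)
    refine h1.trans ?_
    have e : ∑ w ∈ FW cap k, wwt w * (a * WEf cap ks (fun l => f (w.sum :: l)) + c) =
        a * ∑ w ∈ FW cap k, wwt w * WEf cap ks (fun l => f (w.sum :: l)) +
          (∑ w ∈ FW cap k, wwt w) * c := by
      rw [mul_sum, sum_mul, ← sum_add_distrib]
      exact sum_congr rfl fun w _ => by ring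
    rw [e]
    have := mul_le_mul_of_nonneg_right (sum_wwt_le cap k) hc
    linarith

/-! ### the trivial bound -/

theorem PB_triv (S : Set ℤ) {A : ℝ} (hA : 0 < A) (hA2 : 10 ≤ Real.log A) {m : ℕ}
    (hm : (m : ℝ) ^ 16 ≤ Real.log A) : PB S A m 2 := by
  intro u v hu
  have h1 := cls_card_le S (a := A) (b := 2 * A) (by linarith) m hu v
  have h3 : (0 : ℝ) < 3 ^ m := by positivity
  have h2 : 2 * (3 : ℝ) ^ m ≤ A := by
    rw [← Real.log_le_log_iff (by positivity) hA, Real.log_mul (by norm_num) (by positivity),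
      Real.log_pow]
    have hl2 := Real.log_two_lt_d9
    have hl3 := log3_le
    have hm0 := Nat.cast_nonneg (α := ℝ) m
    have hm2 : (m : ℝ) ^ 2 ≤ Real.log A := by
      rcases Nat.eq_zero_or_pos m with h | h
      · subst h
        norm_num
        linarith
      · have h1 : (1 : ℝ) ≤ m := by exact_mod_cast h
        exact (pow_le_pow_right₀ h1 (by norm_num)).trans hm
    nlinarith [mul_le_mul_of_nonneg_left hl3 hm0, sq_nonneg ((m : ℝ) - 1.2)]
  have h4 : 1 ≤ A / (2 * 3 ^ m) := by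
    rw [le_div_iff₀ (by positivity)]
    linarith
  have e : (2 * A - A) / (2 * 3 ^ m) = A / (2 * 3 ^ m) := by ring
  rw [e] at h1
  linarith

theorem PB_empty {S : Set ℤ} {A : ℝ} (hA : 0 < A) {m : ℕ} {ρ : ℝ} (hρ : 0 ≤ ρ)
    (h : ∀ x : ℤ, A ≤ (x : ℝ) → (x : ℝ) < 2 * A → x ∉ S) : PB S A m ρ := by
  intro u v hu
  have e : cls S A (2 * A) m u v = ∅ := by
    rw [Finset.eq_empty_iff_forall_notMem]
    intro x hx
    rw [mem_cls] at hx
    exact h x hx.1.1 hx.1.2 hx.2.2.1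
  rw [e]
  simp only [card_empty, Nat.cast_zero]
  positivity

/-! ### the width function -/

/-- the width -/
noncomputable def ph (B Λ t : ℝ) : ℝ := B * (Real.sqrt (Real.sqrt Λ) * Real.sqrt (Real.sqrt t))

theorem rr {x : ℝ} (_ : 0 ≤ x) : Real.sqrt (Real.sqrt x) ^ 2 = Real.sqrt x :=
  Real.sq_sqrt (Real.sqrt_nonneg _)

theorem rr4 {x : ℝ} (hx : 0 ≤ x) : Real.sqrt (Real.sqrt x) ^ 4 = x := by
  have : Real.sqrt (Real.sqrt x) ^ 4 = (Real.sqrt (Real.sqrt x) ^ 2) ^ 2 := by ring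
  rw [this, rr hx, Real.sq_sqrt hx]

theorem ph_ge {B Λ t : ℝ} (hB : 0 ≤ B) (ht : 0 ≤ t) (h : t ≤ Λ) : B * Real.sqrt t ≤ ph B Λ t := by
  unfold ph
  apply mul_le_mul_of_nonneg_left _ hB
  have h1 : Real.sqrt (Real.sqrt t) ≤ Real.sqrt (Real.sqrt Λ) := Real.sqrt_le_sqrt (Real.sqrt_le_sqrt h)
  calc Real.sqrt t = Real.sqrt (Real.sqrt t) * Real.sqrt (Real.sqrt t) :=
        (Real.mul_self_sqrt (Real.sqrt_nonneg t)).symm
    _ ≤ _ := mul_le_mul_of_nonneg_right h1 (Real.sqrt_nonneg _)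

theorem ph_le {B Λ t : ℝ} (hB : 0 ≤ B) (ht : 0 ≤ t) (h : t ≤ Λ) : ph B Λ t ≤ B * Real.sqrt Λ := by
  unfold ph
  apply mul_le_mul_of_nonneg_left _ hB
  have h1 : Real.sqrt (Real.sqrt t) ≤ Real.sqrt (Real.sqrt Λ) := Real.sqrt_le_sqrt (Real.sqrt_le_sqrt h)
  calc Real.sqrt (Real.sqrt Λ) * Real.sqrt (Real.sqrt t) ≤
      Real.sqrt (Real.sqrt Λ) * Real.sqrt (Real.sqrt Λ) :=
        mul_le_mul_of_nonneg_left h1 (Real.sqrt_nonneg _)
    _ = Real.sqrt Λ := by
        rw [← sq, rr (ht.trans h)]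

theorem ph_step {B Λ t t' : ℝ} (hB : 0 ≤ B) (ht : 0 ≤ t) (h : t' ≤ 0.98 * t) :
    1000 * ph B Λ t' ≤ 999 * ph B Λ t := by
  have h1 : Real.sqrt (Real.sqrt t') ≤ 0.999 * Real.sqrt (Real.sqrt t) := by
    apply Real.sqrt_le_iff.2
    refine ⟨by positivity, ?_⟩
    rw [mul_pow, rr ht]
    apply Real.sqrt_le_iff.2
    refine ⟨by positivity, ?_⟩
    rw [mul_pow, Real.sq_sqrt ht]
    nlinarith
  unfold ph
  have h2 := mul_le_mul_of_nonneg_left h1 (Real.sqrt_nonneg (Real.sqrt Λ))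
  have h3 := mul_le_mul_of_nonneg_left h2 hB
  linarith

theorem exp_two {x : ℝ} (hx : 0 < x) : Real.exp (-x) ≤ 2 / x ^ 2 := by
  have h := Real.pow_div_factorial_le_exp x hx.le 2
  rw [Real.exp_neg, inv_le_comm₀ (Real.exp_pos _) (by positivity), inv_div]
  simpa [Nat.factorial] using h

theorem exp_four {x : ℝ} (hx : 0 < x) : Real.exp (-x) ≤ 24 / x ^ 4 := by
  have h := Real.pow_div_factorial_le_exp x hx.le 4
  rw [Real.exp_neg, inv_le_comm₀ (Real.exp_pos _) (by positivity), inv_div]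
  simpa [Nat.factorial] using h

open Classical in
/-- the probability of a large deviation during a stage -/
theorem dev_bd (hW : S_WMAX) {cap k p : ℕ} {B Λ t : ℝ} (hB : 1 ≤ B) (ht : 1 ≤ t) (htΛ : t ≤ Λ)
    (hq : 8 * ((p * k : ℕ) : ℝ) ≤ t) :
    WEf cap (List.replicate p k)
      (fun l => if Dv (ph B Λ t / 2) 0 (List.replicate p k) l then 1 else 0) ≤
        3145728 * (t / (B ^ 4 * Λ)) := by
  have ht0 : 0 < t := by linarith
  have hΛ0 : 0 < Λ := by linarith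
  have hB0 : 0 < B := by linarith
  obtain ⟨s, hs⟩ : ∃ s, s = Real.sqrt (Real.sqrt t) := ⟨_, rfl⟩
  obtain ⟨r, hr⟩ : ∃ r, r = Real.sqrt (Real.sqrt Λ) := ⟨_, rfl⟩
  have hs0 : 0 < s := by rw [hs]; exact Real.sqrt_pos.2 (Real.sqrt_pos.2 ht0)
  have hr0 : 0 < r := by rw [hr]; exact Real.sqrt_pos.2 (Real.sqrt_pos.2 hΛ0)
  have hs4 : s ^ 4 = t := by rw [hs]; exact rr4 ht0.le
  have hr4 : r ^ 4 = Λ := by rw [hr]; exact rr4 hΛ0.le
  have hph : ph B Λ t = B * (r * s) := by rw [hs, hr]; rfl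
  have hph0 : 0 < ph B Λ t := by rw [hph]; positivity
  have hsum : (List.replicate p k).sum = p * k := by simp
  obtain ⟨q, hqd⟩ : ∃ q : ℝ, q = ((p * k : ℕ) : ℝ) := ⟨_, rfl⟩
  rw [← hqd] at hq
  have hq0 : 0 ≤ q := by rw [hqd]; exact Nat.cast_nonneg _
  have hX : 0 < t / (B ^ 4 * Λ) := by positivity
  rcases le_or_gt (ph B Λ t / 2) q with h | h
  · -- the Gaussian range
    have hqp : 0 < q := lt_of_lt_of_le (by positivity) h
    have h1 := hW cap (List.replicate p k) (ph B Λ t / 2 / (4 * q)) (ph B Λ t / 2) 0 (by positivity)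
      (by rw [div_le_div_iff₀ (by positivity) (by norm_num)]; linarith)
    rw [hsum, ← hqd] at h1
    have e1 : 2 * (ph B Λ t / 2 / (4 * q)) ^ 2 * q + ph B Λ t / 2 / (4 * q) * (0 - ph B Λ t / 2) =
        -((ph B Λ t) ^ 2 / (32 * q)) := by
      field_simp
      ring
    have e2 : 2 * (ph B Λ t / 2 / (4 * q)) ^ 2 * q + ph B Λ t / 2 / (4 * q) * (-0 - ph B Λ t / 2) =
        -((ph B Λ t) ^ 2 / (32 * q)) := by
      field_simp
      ring
    rw [e1, e2] at h1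
    have h2 : Real.exp (-((ph B Λ t) ^ 2 / (32 * q))) ≤ Real.exp (-((ph B Λ t) ^ 2 / (4 * t))) := by
      apply Real.exp_le_exp.2
      apply neg_le_neg
      exact div_le_div_of_nonneg_left (by positivity) (by positivity) (by linarith)
    have h3 := exp_two (show 0 < (ph B Λ t) ^ 2 / (4 * t) by positivity)
    have e3 : 2 / ((ph B Λ t) ^ 2 / (4 * t)) ^ 2 = 32 * (t / (B ^ 4 * Λ)) := by
      rw [hph, ← hr4, ← hs4]
      field_simp
      norm_num
    rw [e3] at h3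
    linarith
  · -- large deviations
    have h1 := hW cap (List.replicate p k) (1 / 4) (ph B Λ t / 2) 0 (by norm_num) le_rfl
    rw [hsum, ← hqd] at h1
    have h2 : Real.exp (2 * (1 / 4 : ℝ) ^ 2 * q + 1 / 4 * (0 - ph B Λ t / 2)) ≤
        Real.exp (-(ph B Λ t / 16)) := by
      apply Real.exp_le_exp.2
      linarith
    have h2' : Real.exp (2 * (1 / 4 : ℝ) ^ 2 * q + 1 / 4 * (-0 - ph B Λ t / 2)) ≤
        Real.exp (-(ph B Λ t / 16)) := by
      apply Real.exp_le_exp.2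
      linarith
    have h3 := exp_four (show 0 < ph B Λ t / 16 by positivity)
    have e3 : 24 / (ph B Λ t / 16) ^ 4 = 1572864 * (1 / t / (B ^ 4 * Λ)) := by
      rw [hph, ← hr4, ← hs4]
      field_simp
      norm_num
    rw [e3] at h3
    have h4 : 1 / t / (B ^ 4 * Λ) ≤ t / (B ^ 4 * Λ) := by
      apply div_le_div_of_nonneg_right _ (by positivity)
      rw [div_le_iff₀ ht0]
      nlinarith
    linarith

/-! ### iterates -/

theorem iter_pos {M : ℤ} (hM : 0 < M) (hodd : Odd M) (j : ℕ) :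
    0 < (Sy 1)^[j] M ∧ Odd ((Sy 1)^[j] M) := by
  induction j with
  | zero => exact ⟨hM, hodd⟩
  | succ j ih =>
    rw [Function.iterate_succ_apply']
    obtain ⟨-, h2, h3⟩ := Sy_spec odd_one isCoprime_one_left ih.2
    refine ⟨?_, h2⟩
    have h4 : 0 < 2 ^ ex 1 ((Sy 1)^[j] M) * Sy 1 ((Sy 1)^[j] M) := by
      rw [← h3]
      linarith [ih.1]
    exact pos_of_mul_pos_right h4 (by positivity)

theorem Yz_add (M : ℤ) (q j : ℕ) : Yz M (q + j) = Yz M q + Yz ((Sy 1)^[q] M) j := by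
  unfold Yz
  rw [sum_range_add]
  have e : ∑ i ∈ range j, (ex 1 ((Sy 1)^[q + i] M) : ℤ) =
      ∑ i ∈ range j, (ex 1 ((Sy 1)^[i] ((Sy 1)^[q] M)) : ℤ) := by
    refine sum_congr rfl fun i _ => ?_
    rw [← Function.iterate_add_apply, add_comm i q]
  rw [e]
  push_cast
  ring

theorem Yz_cast (M : ℤ) (j : ℕ) : ((Yz M j : ℤ) : ℝ) =
    0 + (2 * (j : ℝ) - ∑ i ∈ range j, ((ex 1 ((Sy 1)^[i] M) : ℕ) : ℝ)) := by
  unfold Yz
  push_cast
  ring

theorem BadT_anti {b b' : ℝ} (h : b ≤ b') {M : ℤ} (hM : M ∈ BadT b') : M ∈ BadT b := by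
  obtain ⟨h1, h2, h3, j, h4, h5⟩ := hM
  exact ⟨h1, h2, h3, j, h4, h.trans_lt h5⟩

/-! ### the induction -/

/-- the widths of the induction -/
noncomputable def wd (B CJ Λ t : ℝ) : ℝ := 1000 * ph B Λ t + CJ

/-- the densities of the induction -/
noncomputable def dn (B C tJ Λ t : ℝ) : ℝ :=
  400000000 / B ^ 4 * (t / Λ) + 50 * C * (2 / tJ - 1 / t)

theorem dn_mono {B C tJ Λ t t' : ℝ} (hB : 0 < B) (hC : 0 ≤ C) (hΛ : 0 < Λ) (ht : 0 < t)
    (h : t ≤ t') : dn B C tJ Λ t ≤ dn B C tJ Λ t' := by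
  unfold dn
  have h1 : t / Λ ≤ t' / Λ := div_le_div_of_nonneg_right h hΛ.le
  have h2 : 1 / t' ≤ 1 / t := one_div_le_one_div_of_le ht h
  have h3 := mul_le_mul_of_nonneg_left h1 (show 0 ≤ 400000000 / B ^ 4 by positivity)
  have h4 := mul_le_mul_of_nonneg_left (show 2 / tJ - 1 / t ≤ 2 / tJ - 1 / t' by linarith)
    (show 0 ≤ 50 * C by positivity)
  linarith

theorem dn_nonneg {B C tJ Λ t : ℝ} (hB : 0 < B) (hC : 0 ≤ C) (hΛ : 0 < Λ) (htJ : 0 < tJ)
    (h : tJ / 2 ≤ t) : 0 ≤ dn B C tJ Λ t := by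
  have ht : 0 < t := by linarith
  have h1 : 1 / t ≤ 2 / tJ := by
    rw [div_le_div_iff₀ ht htJ]
    linarith
  unfold dn
  have h2 : 0 ≤ 400000000 / B ^ 4 * (t / Λ) := by positivity
  have h3 := mul_nonneg (show 0 ≤ 50 * C by positivity) (sub_nonneg.2 h1)
  linarith

theorem dn_step {B C tJ Λ t : ℝ} (hB : 0 < B) (hC : 0 ≤ C) (hΛ : 0 < Λ) (ht : 1 ≤ t) :
    2 * (3145728 * (t / (B ^ 4 * Λ))) + dn B C tJ Λ (0.98 * t) + C / t ^ 2 ≤ dn B C tJ Λ t := by
  have ht0 : 0 < t := by linarith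
  unfold dn
  have e1 : t / (B ^ 4 * Λ) = 1 / B ^ 4 * (t / Λ) := by field_simp
  have e2 : 400000000 / B ^ 4 * (0.98 * t / Λ) = 392000000 * (1 / B ^ 4 * (t / Λ)) := by
    field_simp
    norm_num
  have e3 : 400000000 / B ^ 4 * (t / Λ) = 400000000 * (1 / B ^ 4 * (t / Λ)) := by
    field_simp
  have e4 : 1 / (0.98 * t) = 1 / 0.98 * (1 / t) := by
    rw [one_div_mul_one_div]
  have h1 : C / t ^ 2 ≤ C * (1 / t) := by
    rw [mul_one_div]
    apply div_le_div_of_nonneg_left hC ht0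
    nlinarith
  have h2 : 0 ≤ 1 / B ^ 4 * (t / Λ) := by positivity
  have h3 : 0 ≤ C * (1 / t) := by positivity
  rw [e1, e2, e3, e4]
  have e5 : 50 * C * (2 / tJ - 1 / 0.98 * (1 / t)) = 50 * C * (2 / tJ) - 50 / 0.98 * (C * (1 / t)) := by
    ring
  have e6 : 50 * C * (2 / tJ - 1 / t) = 50 * C * (2 / tJ) - 50 * (C * (1 / t)) := by ring
  have e7 : (50 : ℝ) / 0.98 = 2500 / 49 := by norm_num
  rw [e5, e6, e7]
  linarith

theorem stage (hM : S_MEM) (hW : S_WMAX) {C t0 : ℝ} (hC : 0 < C)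
    (hcomp : ∀ τ : ℝ, t0 ≤ τ → ∀ (ks : List ℕ) (cap : ℕ), (∀ k ∈ ks, 3 * k ≤ cap) →
      ∀ (F : List ℕ → Set ℤ) (ρ : List ℕ → ℝ), (∀ l, 0 ≤ ρ l) → ∀ A : ℝ, 0 < A →
      Gf 20 τ ks (fun l A' => ∀ m : ℕ, (m : ℝ) ^ 16 ≤ Real.log A' → PB (F l) A' m (ρ l)) A →
      ∀ m : ℕ, (m : ℝ) ^ 16 ≤ Real.log A →
        PB (SEf ks F) A m (WEf cap ks ρ + ks.length * (C / τ ^ 3)))
    {B CJ tJ Λ : ℝ} (hB : 100 ≤ B) (htJ : 1000000 ≤ tJ) (htJ0 : 2 * t0 ≤ tJ)
    {A : ℝ} (hA : 0 < A) (hCJ : 0 ≤ CJ)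
    (hA1 : tJ ≤ Real.log A) (hA2 : Real.log A ≤ Λ)
    (hrec : ∀ A' : ℝ, 0 < A' → 0.95 * Real.log A ≤ Real.log A' →
      Real.log A' ≤ 0.98 * Real.log A → ∀ m : ℕ, (m : ℝ) ^ 16 ≤ Real.log A' →
        PB (BadT (wd B CJ Λ (Real.log A'))) A' m (dn B C tJ Λ (Real.log A')))
    (m : ℕ) (hm : (m : ℝ) ^ 16 ≤ Real.log A) :
    PB (BadT (wd B CJ Λ (Real.log A))) A m (dn B C tJ Λ (Real.log A)) := by
  classical
  obtain ⟨t, ht⟩ : ∃ t, t = Real.log A := ⟨_, rfl⟩
  rw [← ht] at hA1 hA2 hm hrec ⊢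
  have htM : 1000000 ≤ t := htJ.trans hA1
  have ht0 : 0 < t := by linarith
  have hΛ0 : 0 < Λ := by linarith
  have hB0 : 0 < B := by linarith
  obtain ⟨s, hs⟩ : ∃ s, s = Real.sqrt t := ⟨_, rfl⟩
  have hs2 : s ^ 2 = t := by rw [hs]; exact Real.sq_sqrt ht0.le
  have hs1 : 1000 ≤ s := by
    rw [hs]
    apply Real.le_sqrt_of_sq_le
    linarith
  obtain ⟨k, hk⟩ : ∃ k : ℕ, k = ⌈s⌉₊ := ⟨_, rfl⟩
  have hk1 : s ≤ k := by rw [hk]; exact Nat.le_ceil _
  have hk2 : (k : ℝ) < s + 1 := by rw [hk]; exact Nat.ceil_lt_add_one (by linarith)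
  have hk0 : (0 : ℝ) < k := by linarith
  have hkt : (k : ℝ) ≤ 0.002 * t := by rw [← hs2]; nlinarith
  obtain ⟨p, hp⟩ : ∃ p : ℕ, p = ⌊t / (8 * k)⌋₊ := ⟨_, rfl⟩
  have hp1 : (p : ℝ) ≤ t / (8 * k) := by rw [hp]; exact Nat.floor_le (by positivity)
  have hp2 : t / (8 * k) < p + 1 := by rw [hp]; exact Nat.lt_floor_add_one _
  rw [le_div_iff₀ (by positivity)] at hp1
  rw [div_lt_iff₀ (by positivity)] at hp2
  have hq : ((p * k : ℕ) : ℝ) = p * k := by push_cast; ring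
  have hq1 : 8 * ((p * k : ℕ) : ℝ) ≤ t := by rw [hq]; linarith
  have hq2 : t / 8 - k ≤ ((p * k : ℕ) : ℝ) := by rw [hq]; linarith
  have hk8 : t ≤ (k : ℝ) ^ 8 := by
    have h1 : t ≤ (k : ℝ) ^ 2 := by
      rw [← hs2]
      exact pow_le_pow_left₀ (by linarith) hk1 2
    exact h1.trans (pow_le_pow_right₀ (by linarith) (by norm_num))
  have hphs : 100 * s ≤ ph B Λ t := by
    have h1 := ph_ge (B := B) (Λ := Λ) hB0.le ht0.le hA2
    rw [← hs] at h1
    have h2 := mul_le_mul_of_nonneg_right hB (show 0 ≤ s by linarith)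
    linarith
  obtain ⟨b', hb'⟩ : ∃ b', b' = ph B Λ t / 2 := ⟨_, rfl⟩
  let ks := List.replicate p k
  let t' : List ℕ → ℝ := fun l =>
    t - (((l.sum : ℕ) : ℝ) * Real.log 2 - ((p * k : ℕ) : ℝ) * Real.log 3)
  let F : List ℕ → Set ℤ := fun l =>
    if Win k l ∧ ¬ Dv b' 0 ks l then BadT (wd B CJ Λ (t' l)) else Set.univ
  let ρ : List ℕ → ℝ := fun l =>
    2 * (if Dv b' 0 ks l then 1 else 0) + dn B C tJ Λ (0.98 * t)
  have hdn0 : 0 ≤ dn B C tJ Λ (0.98 * t) :=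
    dn_nonneg hB0 hC.le hΛ0 (by linarith) (by linarith)
  have hρ : ∀ l, 0 ≤ ρ l := by
    intro l
    show 0 ≤ 2 * (if Dv b' 0 ks l then (1 : ℝ) else 0) + dn B C tJ Λ (0.98 * t)
    split_ifs <;> linarith
  -- the scales after the stage
  have hfin : ∀ l : List ℕ, Win k l → l.length = p →
      Real.log (A * 3 ^ (p * k) / 2 ^ l.sum) = t' l ∧ 0.95 * t ≤ t' l ∧ t' l ≤ 0.98 * t := by
    intro l hl hlen
    have h1 := win_sum k l hl
    rw [hlen] at h1
    obtain ⟨h2, h3⟩ := dec_bd h1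
    refine ⟨?_, ?_, ?_⟩
    · rw [log_next hA, ← ht]
    · show 0.95 * t ≤ t - _
      linarith
    · show t - _ ≤ 0.98 * t
      linarith
  have hG : Gf 20 (0.9 * t) ks
      (fun l A' => ∀ m : ℕ, (m : ℝ) ^ 16 ≤ Real.log A' → PB (F l) A' m (ρ l)) A := by
    refine gf_list (by linarith) p _ A hA (by rw [← ht]; linarith) (by rw [← ht]; exact hk8) ?_
    intro l hl hlen m' hm'
    obtain ⟨h1, h2, h3⟩ := hfin l hl hlen
    have hA' : 0 < A * 3 ^ (p * k) / 2 ^ l.sum := by positivity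
    by_cases hD : Dv b' 0 ks l
    · have e2 : ρ l = 2 * 1 + dn B C tJ Λ (0.98 * t) := by
        show 2 * (if Dv b' 0 ks l then (1 : ℝ) else 0) + dn B C tJ Λ (0.98 * t) = _
        rw [if_pos hD]
      refine PB_mono hA' (ρ := 2) (by rw [e2]; linarith) (PB_triv _ hA' ?_ hm')
      rw [h1]
      linarith
    · have e1 : F l = BadT (wd B CJ Λ (t' l)) := if_pos ⟨hl, hD⟩
      have e2 : ρ l = 2 * 0 + dn B C tJ Λ (0.98 * t) := by
        show 2 * (if Dv b' 0 ks l then (1 : ℝ) else 0) + dn B C tJ Λ (0.98 * t) = _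
        rw [if_neg hD]
      have h4 := hrec _ hA' (by rw [h1]; exact h2) (by rw [h1]; exact h3) m' hm'
      rw [h1] at h4
      rw [e1, e2]
      refine PB_mono hA' ?_ h4
      have := dn_mono (B := B) (C := C) (tJ := tJ) (Λ := Λ) hB0 hC.le hΛ0
        (show 0 < t' l by linarith) h3
      linarith
  have hS := hcomp (0.9 * t) (by linarith) ks (3 * k)
    (fun x hx => by rw [List.eq_of_mem_replicate hx]) F ρ hρ A hA hG m (by rw [← ht]; exact hm)
  have hlen : (ks.length : ℝ) = p := by simp [ks]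
  have hWE : WEf (3 * k) ks ρ ≤ 2 * (3145728 * (t / (B ^ 4 * Λ))) + dn B C tJ Λ (0.98 * t) := by
    have h1 := WEf_affine (3 * k) ks (fun l => if Dv b' 0 ks l then (1 : ℝ) else 0) 2
      (dn B C tJ Λ (0.98 * t)) hdn0
    have h2 := dev_bd hW (cap := 3 * k) (k := k) (p := p) (B := B) (Λ := Λ) (t := t)
      (by linarith) (by linarith) hA2 hq1
    rw [← hb'] at h2
    have h3 : WEf (3 * k) ks ρ = WEf (3 * k) ks (fun l => 2 * (if Dv b' 0 ks l then (1 : ℝ) else 0) +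
      dn B C tJ Λ (0.98 * t)) := rfl
    rw [h3]
    have h4 : WEf (3 * k) ks (fun l => if Dv b' 0 ks l then (1 : ℝ) else 0) ≤
      3145728 * (t / (B ^ 4 * Λ)) := h2
    linarith
  have herr : (ks.length : ℝ) * (C / (0.9 * t) ^ 3) ≤ C / t ^ 2 := by
    rw [hlen]
    have h1 : (p : ℝ) ≤ t / 8 := by
      have h2 : (p : ℝ) * 8 ≤ p * (8 * k) :=
        mul_le_mul_of_nonneg_left (by linarith) (Nat.cast_nonneg _)
      linarith
    calc (p : ℝ) * (C / (0.9 * t) ^ 3) ≤ t / 8 * (C / (0.9 * t) ^ 3) :=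
          mul_le_mul_of_nonneg_right h1 (by positivity)
      _ = (1 / (8 * 0.9 ^ 3)) * (C / t ^ 2) := by
          field_simp
      _ ≤ 1 * (C / t ^ 2) := mul_le_mul_of_nonneg_right (by norm_num) (by positivity)
      _ = C / t ^ 2 := one_mul _
  have hstep := dn_step (B := B) (C := C) (tJ := tJ) (Λ := Λ) (t := t) hB0 hC.le hΛ0 (by linarith)
  refine PB_sub (S' := SEf ks F) ?_ (PB_mono hA (by linarith) hS)
  intro M _ _ hMB
  obtain ⟨hM0, hodd, ⟨i1, hi1⟩, j0, hj0, hj1⟩ := hMB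
  apply hM ks F M
  have hks : ks.sum = p * k := by simp [ks]
  rw [hks]
  by_cases hgood : Win k (stf ks fun j => ex 1 ((Sy 1)^[j] M)) ∧
      ¬ Dv b' 0 ks (stf ks fun j => ex 1 ((Sy 1)^[j] M))
  swap
  · have e : F (stf ks fun j => ex 1 ((Sy 1)^[j] M)) = Set.univ := if_neg hgood
    rw [e]
    exact Set.mem_univ _
  have e : F (stf ks fun j => ex 1 ((Sy 1)^[j] M)) =
      BadT (wd B CJ Λ (t' (stf ks fun j => ex 1 ((Sy 1)^[j] M)))) := if_pos hgood
  rw [e]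
  obtain ⟨h1, h2, h3⟩ := hfin _ hgood.1 (by rw [stf_length]; simp [ks])
  have hpath : ∀ j ≤ p * k, |((Yz M j : ℤ) : ℝ)| ≤ ph B Λ t := by
    intro j hj
    have := path_bound k b' p (fun j => ex 1 ((Sy 1)^[j] M)) 0 hgood.1 hgood.2 j hj
    rw [Yz_cast]
    refine this.trans ?_
    rw [hb']
    linarith
  have hph0 : 0 ≤ ph B Λ t := by linarith
  have hj0q : p * k < j0 := by
    by_contra hcon
    push Not at hcon
    have h4 := hpath j0 hcon
    have h5 : 1000 * ph B Λ t + CJ < |((Yz M j0 : ℤ) : ℝ)| := hj1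
    linarith
  obtain ⟨j', rfl⟩ := Nat.exists_eq_add_of_le hj0q.le
  have hi1q : p * k + j' ≤ i1 := by
    by_contra hcon
    push Not at hcon
    exact hj0 i1 hcon hi1
  obtain ⟨hx0, hxodd⟩ := iter_pos hM0 hodd (p * k)
  refine ⟨hx0, hxodd, ⟨i1 - p * k, ?_⟩, j', ?_, ?_⟩
  · rw [← Function.iterate_add_apply, Nat.sub_add_cancel (by omega)]
    exact hi1
  · intro i hi
    rw [← Function.iterate_add_apply]
    exact hj0 _ (by omega)
  · have h4 : ((Yz M (p * k + j') : ℤ) : ℝ) =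
        ((Yz M (p * k) : ℤ) : ℝ) + ((Yz ((Sy 1)^[p * k] M) j' : ℤ) : ℝ) := by
      rw [Yz_add]
      push_cast
      ring
    have h5 : 1000 * ph B Λ t + CJ < |((Yz M (p * k + j') : ℤ) : ℝ)| := hj1
    rw [h4] at h5
    have h6 := abs_add_le ((Yz M (p * k) : ℤ) : ℝ) ((Yz ((Sy 1)^[p * k] M) j' : ℤ) : ℝ)
    have h7 := hpath (p * k) le_rfl
    have h8 := ph_step (B := B) (Λ := Λ) hB0.le ht0.le h3
    show 1000 * ph B Λ (t' _) + CJ < _
    linarith

/-- DK-TAIL -/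
theorem main (hC : S_COMP) (hM : S_MEM) (hW : S_WMAX) : S_TAIL := by
  intro η hη
  obtain ⟨C, t0, hC0, ht0, hcomp⟩ := hC 20 le_rfl
  obtain ⟨B, hB⟩ : ∃ B, B = max 100 (800000000 / η) := ⟨_, rfl⟩
  obtain ⟨tJ, htJ⟩ : ∃ tJ, tJ = max 1000000 (max (2 * t0) (200 * C / η)) := ⟨_, rfl⟩
  have hB1 : 100 ≤ B := hB ▸ le_max_left _ _
  have hB2 : 800000000 / η ≤ B := hB ▸ le_max_right _ _
  have htJ1 : 1000000 ≤ tJ := htJ ▸ le_max_left _ _
  have htJ2 : 2 * t0 ≤ tJ := htJ ▸ (le_max_left _ _).trans (le_max_right _ _)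
  have htJ3 : 200 * C / η ≤ tJ := htJ ▸ (le_max_right _ _).trans (le_max_right _ _)
  have hB0 : 0 < B := by linarith
  have htJ0 : 0 < tJ := by linarith
  obtain ⟨CJ, hCJ0, hCJ⟩ := fin_start (2 * Real.exp tJ)
  refine ⟨1000 * B + 1, max tJ (CJ ^ 2), by positivity, ?_, ?_⟩
  · exact le_trans (by linarith) (le_max_left _ _)
  intro Λ hΛ A hA hA1 hA2 m hm
  have hΛ1 : tJ ≤ Λ := (le_max_left _ _).trans hΛ
  have hΛ2 : CJ ^ 2 ≤ Λ := (le_max_right _ _).trans hΛ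
  have hΛ0 : 0 < Λ := by linarith
  have claim : ∀ n : ℕ, ∀ A : ℝ, 0 < A → Real.log A < n → tJ / 2 ≤ Real.log A → Real.log A ≤ Λ →
      ∀ m : ℕ, (m : ℝ) ^ 16 ≤ Real.log A →
        PB (BadT (wd B CJ Λ (Real.log A))) A m (dn B C tJ Λ (Real.log A)) := by
    intro n
    induction n with
    | zero =>
      intro A _ h1 h2
      rw [Nat.cast_zero] at h1
      linarith
    | succ n ih =>
      intro A hA h1 h2 h3 m hm
      rcases lt_or_ge (Real.log A) tJ with h | h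
      · refine PB_empty hA (dn_nonneg hB0 hC0.le hΛ0 htJ0 h2) ?_
        intro x hx1 hx2 hx
        obtain ⟨hx0, hodd, hreach, j, hj, hj2⟩ := hx
        have h4 : (x : ℝ) ≤ 2 * Real.exp tJ := by
          have h5 : A ≤ Real.exp tJ := by
            rw [← Real.exp_log hA]
            exact Real.exp_le_exp.2 h.le
          linarith
        have h5 := hCJ x hx0 h4 hreach j hj
        have h6 : 0 ≤ ph B Λ (Real.log A) := by
          unfold ph
          positivity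
        have h7 : 1000 * ph B Λ (Real.log A) + CJ < |((Yz x j : ℤ) : ℝ)| := hj2
        linarith
      · refine stage hM hW hC0 hcomp hB1 htJ1 htJ2 hA hCJ0 h h3 ?_ m hm
        intro A' hA' h4 h5 m' hm'
        rw [Nat.cast_succ] at h1
        exact ih A' hA' (by linarith) (by linarith) (by linarith) m' hm'
  have hA1' : tJ ≤ Real.log A := (le_max_left _ _).trans hA1
  have h1 := claim (⌊Real.log A⌋₊ + 1) A hA (by exact_mod_cast Nat.lt_floor_add_one _)
    (by linarith) hA2 m hm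
  have hw : wd B CJ Λ (Real.log A) ≤ (1000 * B + 1) * Real.sqrt Λ := by
    have h2 := ph_le (B := B) (Λ := Λ) hB0.le (show 0 ≤ Real.log A by linarith) hA2
    have h3 : CJ ≤ Real.sqrt Λ := Real.le_sqrt_of_sq_le hΛ2
    unfold wd
    linarith
  refine PB_sub (fun x _ _ hx => BadT_anti hw hx) (PB_mono hA ?_ h1)
  have ht0' : 0 < Real.log A := by linarith
  unfold dn
  have k1 : 400000000 / B ^ 4 * (Real.log A / Λ) ≤ η / 2 := by
    have h2 : Real.log A / Λ ≤ 1 := by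
      rw [div_le_one hΛ0]
      exact hA2
    have h3 : 400000000 / B ^ 4 ≤ η / 2 := by
      have h4 : B ≤ B ^ 4 := by
        calc B = B ^ 1 := (pow_one B).symm
          _ ≤ B ^ 4 := pow_le_pow_right₀ (by linarith) (by norm_num)
      rw [div_le_div_iff₀ (by positivity) (by norm_num)]
      rw [div_le_iff₀ hη] at hB2
      nlinarith [mul_le_mul_of_nonneg_left h4 hη.le]
    calc 400000000 / B ^ 4 * (Real.log A / Λ) ≤ 400000000 / B ^ 4 * 1 :=
          mul_le_mul_of_nonneg_left h2 (by positivity)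
      _ ≤ η / 2 := by linarith
  have k2 : 50 * C * (2 / tJ - 1 / Real.log A) ≤ η / 2 := by
    have h2 : 0 < 1 / Real.log A := by positivity
    have h3 : 50 * C * (2 / tJ) ≤ η / 2 := by
      have e : 50 * C * (2 / tJ) = 100 * C / tJ := by ring
      rw [e, div_le_div_iff₀ htJ0 (by norm_num)]
      rw [div_le_iff₀ hη] at htJ3
      linarith
    have h4 := mul_le_mul_of_nonneg_left (show 2 / tJ - 1 / Real.log A ≤ 2 / tJ by linarith)
      (show 0 ≤ 50 * C by positivity)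
    linarith
  linarith

end Pool.Agent.H55.DK.TAIL
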