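import Pool.Agent.H55.DK.COMP
import Pool.Agent.H55.DK.MEM
import Pool.Agent.H55.DK.WMAX
import Pool.Agent.H55.DK.PMAX
import Pool.Agent.H55.DK.STAGE
import Pool.Agent.H55.DK.TAIL
import Pool.Agent.H55.DK.PULL
import Pool.Agent.H56.DK.COUNT
import Pool.Agent.H55.DK.CTRL
import Pool.Agent.H55.DK.REFL
import Pool.Agent.H55.DK.MLAW
import Pool.Agent.H55.DK.CPATH
import Pool.Agent.H55.DK.FIN
import Pool.Agent.H55.DK.ResA
import Pool.Agent.H55.DK.TV
import Pool.Agent.H55.DK.SUM
import Pool.Agent.H55.DK.WALK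
import Pool.Agent.H55.DK.BM
import Pool.Agent.H55.DK.CDEV
import Pool.Agent.H55.DK.DET2
import Pool.Agent.H55.DK.FCLT

/-!
# Project DK: everything together
-/

set_option autoImplicit false

namespace Pool.Agent.H55.DK

open Finset Filter Topology MeasureTheory ProbabilityTheory
open scoped NNReal
open Pool.Agent.Results.MP_f7abf1_nt.BlockLaw (T Syr wait oddCount HasDensity)

theorem ctrl (hE : S_ERR) : S_CTRL :=
  CTRL.main (STAGE.main (COMP.main hE) MEM.main WMAX.main) (TAIL.main (COMP.main hE) MEM.main WMAX.main)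
    (PULL.main (COMP.main hE) MEM.main) COUNT.main

theorem fin (hE : S_ERR) : S_FIN := FIN.main (ctrl hE) PMAX.main (MLAW.main REFL.main) CPATH.main

theorem fclt (hE : S_ERR) : S_FCLT :=
  FCLT.main (ctrl hE) TV.main SUM.main WALK.main BM.main (DET.main CDEV.main)

/-- reaching `1` under `C` and under `T` -/
theorem reach_iff (n : ℕ) : (∃ k, C^[k] n = 1) ↔ UL.R n := by
  constructor
  · rintro ⟨k, hk⟩
    exact reach_C k n hk
  · rintro ⟨k, hk⟩
    have key : ∀ k n : ℕ, T^[k] n = 1 → ∃ k', C^[k'] n = 1 := by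
      intro k
      induction k with
      | zero => intro n h; exact ⟨0, h⟩
      | succ k ih =>
        intro n h
        rw [Function.iterate_succ_apply] at h
        obtain ⟨k', hk'⟩ := ih _ h
        rcases Nat.mod_two_eq_zero_or_one n with h2 | h2
        · have e : C n = T n := by
            unfold C
            rw [if_pos h2, UL.T_even h2]
          exact ⟨k' + 1, by rw [Function.iterate_succ_apply, e]; exact hk'⟩
        · have e : C (C n) = T n := by
            unfold C
            rw [if_neg (show ¬ n % 2 = 0 by omega), if_pos (by omega), UL.T_odd h2]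
          exact ⟨k' + 2, by rw [Function.iterate_add_apply]; show C^[k'] (C (C n)) = 1; rw [e]; exact hk'⟩
    exact key k n hk

open Classical in
/-- number of the `n ≤ N` which reach `1`, divided by `N` -/
theorem card_lim {δ : ℝ} (hδ : HasDensity UL.R δ) :
    Tendsto (fun N : ℕ => ((((Icc 1 N).filter fun n => UL.R n).card : ℕ) : ℝ) / N) atTop (𝓝 δ) := by
  refine Tendsto.congr (fun N => ?_) hδ
  congr 2
  rw [← Set.ncard_coe_finset]
  congr 1
  ext n
  simp only [Set.mem_ofPred_eq, Finset.coe_filter, Finset.mem_Icc]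
  tauto

open Classical in
/-- means over the numbers which reach `1` -/
theorem mean_lim (hF : S_FCLT) {δ : ℝ} (hδ : HasDensity UL.R δ) (hδ0 : 0 < δ)
    (Ω : Type) [MeasurableSpace Ω] (P : Measure Ω) [IsProbabilityMeasure P] (B : ℝ≥0 → Ω → ℝ)
    (hBM : IsBrownianReal B P) (F : (ℝ → ℝ) → ℝ) (hb : ∃ M : ℝ, ∀ f, |F f| ≤ M)
    (hu : ∀ ε : ℝ, 0 < ε → ∃ η : ℝ, 0 < η ∧
      ∀ f g : ℝ → ℝ, (∀ s, 0 ≤ s → s ≤ 1 → |f s - g s| ≤ η) → |F f - F g| ≤ ε) :
    Tendsto (fun N : ℕ => (∑ n ∈ (Icc 1 N).filter (fun n => UL.R n), F (path n)) /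
      (((Icc 1 N).filter fun n => UL.R n).card : ℕ)) atTop (𝓝 (∫ ω, F (fun s => B s.toNNReal ω) ∂P)) := by
  obtain ⟨M, hM⟩ := hb
  set K : ℝ := |M| + 1 with hK
  have hK0 : 0 < K := by positivity
  have hA : Adm (fun f => F f / K) := by
    constructor
    · intro f
      rw [abs_div, abs_of_pos hK0, div_le_one hK0]
      have := hM f
      have := le_abs_self M
      linarith
    · intro ε hε
      obtain ⟨η, hη, h⟩ := hu (ε * K) (by positivity)
      refine ⟨η, hη, fun f g hfg => ?_⟩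
      rw [← sub_div, abs_div, abs_of_pos hK0, div_le_iff₀ hK0]
      exact h f g hfg
  have h1 := hF δ hδ Ω P B hBM _ hA
  have h2 := card_lim hδ
  have h3 := (h1.div h2 hδ0.ne').const_mul K
  have e1 : K * (δ * (∫ ω, F (fun s => B s.toNNReal ω) / K ∂P) / δ) = ∫ ω, F (fun s => B s.toNNReal ω) ∂P := by
    rw [integral_div]
    field_simp
  rw [e1] at h3
  refine h3.congr' ?_
  filter_upwards [eventually_ge_atTop 1] with N hN
  have hN0 : (0 : ℝ) < N := by exact_mod_cast hN
  have e2 : (∑ n ∈ Icc 1 N, if UL.R n then F (path n) / K else 0) =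
      (∑ n ∈ (Icc 1 N).filter (fun n => UL.R n), F (path n)) / K := by
    rw [← Finset.sum_filter, Finset.sum_div]
  simp only [Pi.div_apply]
  rw [e2]
  have hc : ((((Icc 1 N).filter fun n => UL.R n).card : ℕ) : ℝ) ≠ 0 := by
    have : 1 ∈ (Icc 1 N).filter fun n => UL.R n := by
      rw [Finset.mem_filter, Finset.mem_Icc]
      exact ⟨⟨le_rfl, hN⟩, 0, rfl⟩
    have := Finset.card_pos.2 ⟨1, this⟩
    exact_mod_cast this.ne'
  field_simp

end Pool.Agent.H55.DK
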