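import Pool.Agent.H55.DK.Stm

/-! Project DK: composition of short stages with a polynomial error. -/

set_option autoImplicit false

namespace Pool.Agent.H55.DK.COMP

open Pool.Agent.H320R2.PD Pool.Agent.H499R2.ND Finset Filter Topology
open Pool.Agent.TH977.IP (next_k)

theorem WEf_nonneg (cap : ℕ) (ks : List ℕ) : ∀ ρ : List ℕ → ℝ, (∀ l, 0 ≤ ρ l) → 0 ≤ WEf cap ks ρ := by
  induction ks with
  | nil => intro ρ h; exact h []
  | cons k ks ih =>
    intro ρ h
    unfold WEf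
    exact sum_nonneg fun w _ => mul_nonneg (wwt_nonneg w) (ih _ fun l => h _)

/-- `exp (-c u) ≤ C / u ^ 24` for `u > 0` -/
theorem exp_small {c : ℝ} (hc : 0 < c) {u : ℝ} (hu : 0 < u) :
    Real.exp (-(c * u)) ≤ (Nat.factorial 24 / c ^ 24) / u ^ 24 := by
  have h := Real.pow_div_factorial_le_exp (c * u) (by positivity) 24
  rw [Real.exp_neg, div_div, inv_le_comm₀ (Real.exp_pos _) (by positivity)]
  calc (((Nat.factorial 24 : ℕ) : ℝ) / (c ^ 24 * u ^ 24))⁻¹ = (c * u) ^ 24 / (Nat.factorial 24 : ℕ) := by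
        rw [inv_div, mul_pow]
    _ ≤ Real.exp (c * u) := h

/-- the mass outside of the window -/
theorem mass_small {N : ℕ} (hN : 20 ≤ N) {t : ℝ} (ht : 1 ≤ t) {k : ℕ} (hk : t ≤ (k : ℝ) ^ 8) :
    3 * Real.exp (-(((k : ℝ) / N) ^ 2 / (32 * k))) ≤
      3 * ((Nat.factorial 24 : ℕ) / (1 / (32 * (N : ℝ) ^ 2)) ^ 24) / t ^ 3 := by
  have hNR : (20 : ℝ) ≤ N := by exact_mod_cast hN
  have hk0 : 0 < (k : ℝ) := by
    rcases Nat.eq_zero_or_pos k with h | h
    · subst h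
      norm_num at hk
      linarith
    · exact_mod_cast h
  have e : ((k : ℝ) / N) ^ 2 / (32 * k) = 1 / (32 * (N : ℝ) ^ 2) * k := by field_simp
  rw [e]
  have h1 := exp_small (show (0 : ℝ) < 1 / (32 * (N : ℝ) ^ 2) by positivity) hk0
  have h2 : t ^ 3 ≤ (k : ℝ) ^ 24 := by
    calc t ^ 3 ≤ ((k : ℝ) ^ 8) ^ 3 := pow_le_pow_left₀ (by linarith) hk 3
      _ = (k : ℝ) ^ 24 := by rw [← pow_mul]
  have h3 : ((Nat.factorial 24 : ℕ) / (1 / (32 * (N : ℝ) ^ 2)) ^ 24 : ℝ) / (k : ℝ) ^ 24 ≤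
      ((Nat.factorial 24 : ℕ) / (1 / (32 * (N : ℝ) ^ 2)) ^ 24 : ℝ) / t ^ 3 :=
    div_le_div_of_nonneg_left (by positivity) (by positivity) h2
  rw [mul_div_assoc]
  linarith

theorem main (hE : S_ERR) : S_COMP := by
  classical
  intro N hN
  obtain ⟨Ce, te, hCe, hte, herr⟩ := hE
  have hNR : (20 : ℝ) ≤ N := by exact_mod_cast hN
  set Cm : ℝ := 3 * ((Nat.factorial 24 : ℕ) / (1 / (32 * (N : ℝ) ^ 2)) ^ 24) with hCm
  have hCm0 : 0 < Cm := by rw [hCm]; positivity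
  refine ⟨Ce + Cm, te, by positivity, hte, ?_⟩
  intro τ hτ ks cap
  have hτ0 : 0 < τ := by linarith
  induction ks with
  | nil =>
    intro _ F ρ hρ A hA hG m hm
    have h := hG m hm
    show PB (F []) A m (ρ [] + ((([] : List ℕ).length : ℕ) : ℝ) * _)
    simpa using h
  | cons k ks ih =>
    intro hcap F ρ hρ A hA hG m hm
    obtain ⟨hG1, hG2, hG3, hG4⟩ := hG
    have hcapk : 3 * k ≤ cap := hcap k (by simp)
    have hcap' : ∀ k' ∈ ks, 3 * k' ≤ cap := fun k' hk' => hcap k' (by simp [hk'])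
    set t := Real.log A with ht
    have hAt : te ≤ t := hτ.trans hG1
    have ht1000 : 1000 ≤ t := hte.trans hAt
    set m' := ⌊(0.8 * t) ^ (1 / 16 : ℝ)⌋₊ with hm'
    obtain ⟨hk1, hm'k, hp⟩ := herr A hA hAt k m m' hm hG2 hG3 rfl
    have hkpos : (0:ℝ) < k := by exact_mod_cast hk1
    set a : ℝ := (k:ℝ) / N with ha
    have ha0 : 0 < a := by positivity
    have hak : a ≤ k / 20 := by
      rw [ha]
      exact div_le_div_of_nonneg_left hkpos.le (by norm_num) hNR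
    obtain ⟨Tl, Tm, hTm, hT, hmass⟩ := mass_win hk1 ha0 hak
    have hmass' : 1 - ∑ w ∈ GW (3 * k) k Tl Tm, wwt w ≤ Cm / t ^ 3 :=
      hmass.trans (mass_small hN (by linarith) hG2)
    have ht3 : (Ce + Cm) / t ^ 3 ≤ (Ce + Cm) / τ ^ 3 := by
      apply div_le_div_of_nonneg_left (by positivity) (by positivity)
      exact pow_le_pow_left₀ hτ0.le hG1 3
    have hm'16 : (m' : ℝ) ^ 16 ≤ 0.8 * t := by
      have h1 : (m' : ℝ) ≤ (0.8 * t) ^ (1 / 16 : ℝ) := Nat.floor_le (by positivity)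
      calc (m' : ℝ) ^ 16 ≤ ((0.8 * t) ^ (1 / 16 : ℝ)) ^ 16 := pow_le_pow_left₀ (Nat.cast_nonneg _) h1 16
        _ = 0.8 * t := by
          rw [← Real.rpow_natCast, ← Real.rpow_mul (by positivity)]
          norm_num
    have hstage := stageW odd_one (isCoprime_one_left) (S := SEf (k :: ks) F)
      (fun T => SEf ks (fun l => F (T :: l))) hA (k := k) (m := m) (m' := m') (Tl := Tl) (Tm := Tm)
      hk1 hm'k hTm (ρ := fun T => WEf cap ks (fun l => ρ (T :: l)) + ks.length * ((Ce + Cm) / τ ^ 3)) ?_ ?_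
    · refine PB_mono hA ?_ hstage
      have hw1 : ∑ w ∈ GW (3 * k) k Tl Tm, wwt w ≤ 1 := by
        refine le_trans (sum_le_sum_of_subset_of_nonneg (filter_subset _ _)
          (fun w _ _ => wwt_nonneg w)) (sum_wwt_le (3 * k) k)
      have hc0 : 0 ≤ ks.length * ((Ce + Cm) / τ ^ 3) := by positivity
      have e1 : ∑ w ∈ GW (3 * k) k Tl Tm, wwt w * (WEf cap ks (fun l => ρ (w.sum :: l)) + ks.length * ((Ce + Cm) / τ ^ 3)) =
          ∑ w ∈ GW (3 * k) k Tl Tm, wwt w * WEf cap ks (fun l => ρ (w.sum :: l)) +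
            (∑ w ∈ GW (3 * k) k Tl Tm, wwt w) * (ks.length * ((Ce + Cm) / τ ^ 3)) := by
        rw [sum_mul, ← sum_add_distrib]
        apply sum_congr rfl
        intro w _
        ring
      have e2 : (∑ w ∈ GW (3 * k) k Tl Tm, wwt w) * (ks.length * ((Ce + Cm) / τ ^ 3)) ≤
          1 * (ks.length * ((Ce + Cm) / τ ^ 3)) := mul_le_mul_of_nonneg_right hw1 hc0
      have e3 : ∑ w ∈ GW (3 * k) k Tl Tm, wwt w * WEf cap ks (fun l => ρ (w.sum :: l)) ≤
          WEf cap (k :: ks) ρ := by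
        have hsub : GW (3 * k) k Tl Tm ⊆ FW cap k := by
          intro w hw
          have hw' := (mem_filter.1 hw).1
          rw [mem_FW] at hw' ⊢
          exact ⟨hw'.1, fun e he => ⟨(hw'.2 e he).1, (hw'.2 e he).2.trans hcapk⟩⟩
        exact sum_le_sum_of_subset_of_nonneg hsub
          (fun w _ _ => mul_nonneg (wwt_nonneg w) (WEf_nonneg _ _ _ fun l => hρ _))
      have e4 : (((k :: ks).length : ℕ) : ℝ) * ((Ce + Cm) / τ ^ 3) =
          ks.length * ((Ce + Cm) / τ ^ 3) + (Ce + Cm) / τ ^ 3 := by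
        rw [List.length_cons]
        push_cast
        ring
      have e5 : Ce / t ^ 3 + Cm / t ^ 3 = (Ce + Cm) / t ^ 3 := by ring
      rw [e1, e4]
      linarith
    · intro w hw M x hM hx _ _ hMS hV
      have hw' := (mem_filter.1 hw).1
      rw [mem_FW] at hw'
      exact hMS w hw'.1 (fun a ha => (hw'.2 a ha).1) x hx hV
    · intro T hTl hTm'
      have hTa : |(T:ℝ) - 2 * k| ≤ a := (hT T).1 ⟨hTl, hTm'⟩
      have hTk : |(T:ℝ) - 2 * k| ≤ k / 20 := hTa.trans hak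
      have n1 := next_k hA hG3 hTk
      rw [← ht] at n1
      have hAT : 0 < A * 3 ^ k / 2 ^ T := by positivity
      have hG4' := hG4 T (by
        rw [ha, le_div_iff₀ (by positivity)] at hTa
        linarith)
      exact ih hcap' (fun l => F (T :: l)) (fun l => ρ (T :: l)) (fun l => hρ _) (A * 3 ^ k / 2 ^ T) hAT hG4'
        m' (hm'16.trans n1)

end Pool.Agent.H55.DK.COMP
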