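import Pool.Agent.H55.DK.FStm

/-!
# Project DK: the trajectory is close to the step function of the block sums
-/

set_option autoImplicit false

namespace Pool.Agent.H55.DK.DET

open Finset Filter Topology MeasureTheory ProbabilityTheory
open Pool.Agent.H499R2.ND.TJ (PP)
open Pool.Agent.Results.MP_f7abf1_nt.BlockLaw (T Syr wait oddCount HasDensity)
open Pool.Agent.H55.UL (R slow log_tendsto sqrt_diff log43_lo log43_hi log2_hi)

theorem len_eq {n t : ℕ} (h : IsTC n t) : len n = t := by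
  unfold len
  apply le_antisymm
  · exact Nat.sInf_le h.1
  · apply le_csInf ⟨t, h.1⟩
    intro k hk
    by_contra hcon
    exact h.2 k (not_le.1 hcon) hk

/-- the step function is a partial sum -/
theorem stp_eq (r G : ℕ) (f : ℕ → ℝ) (s : ℝ) (hs : 0 ≤ s) :
    stp G (fun i : Fin r => f ((i : ℕ) + 1) - f (i : ℕ)) s = f (min ⌊s * G⌋₊ r) - f 0 := by
  unfold stp
  have h0 : 0 ≤ s * G := by positivity
  have h1 : ∑ i : Fin r, (if ((i : ℕ) : ℝ) + 1 ≤ s * G then f ((i : ℕ) + 1) - f (i : ℕ) else 0) =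
      ∑ i ∈ range r, (if (i : ℝ) + 1 ≤ s * G then f (i + 1) - f i else 0) := by
    rw [Fin.sum_univ_eq_sum_range (fun i : ℕ => if (i : ℝ) + 1 ≤ s * G then f (i + 1) - f i else 0) r]
  rw [h1, ← Finset.sum_filter]
  have h2 : (range r).filter (fun i : ℕ => (i : ℝ) + 1 ≤ s * G) = range (min ⌊s * G⌋₊ r) := by
    ext i
    rw [Finset.mem_filter, Finset.mem_range, Finset.mem_range, lt_min_iff]
    have h3 : (i : ℝ) + 1 ≤ s * G ↔ i < ⌊s * G⌋₊ := by
      rw [← Nat.succ_le_iff, Nat.le_floor_iff h0]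
      push_cast
      rfl
    rw [h3]
    tauto
  rw [h2, Finset.sum_range_sub]

/-- the index of the block of `j` -/
def bt (r b j : ℕ) : ℕ := min (j / b) r

theorem osc {m J r b : ℕ} {w : ℝ} (hJ : Syr^[J] m = 1) (hJ' : ∀ i < J, Syr^[i] m ≠ 1) (hb : 0 < b) (hw : 0 ≤ w)
    (hctl : Ctl w r b m) (j : ℕ) : |((Yn m j : ℤ) : ℝ) - ((Yn m (bt r b j * b) : ℤ) : ℝ)| ≤ w := by
  unfold bt
  rcases lt_or_ge j (r * b) with h | h
  · have h2 : j / b < r := by rwa [Nat.div_lt_iff_lt_mul hb]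
    rw [min_eq_left h2.le]
    have h3 := hctl.1 (j / b) h2 (j % b) (Nat.mod_lt j hb).le
    rw [Nat.div_add_mod' j b] at h3
    push_cast at h3
    exact h3
  · have h2 : r ≤ j / b := by rwa [Nat.le_div_iff_mul_le hb]
    rw [min_eq_right h2]
    rcases le_total J (r * b) with h1 | h1
    · rw [Yn_const hJ h1, Yn_const hJ (h1.trans h)]
      simpa using hw
    · rcases le_total j J with h2 | h2
      · have h3 := hctl.2 (j - r * b) fun i _ hi => hJ' i (by omega)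
        rw [show r * b + (j - r * b) = j by omega] at h3
        push_cast at h3
        exact h3
      · have h3 := hctl.2 (J - r * b) fun i _ hi => hJ' i (by omega)
        rw [show r * b + (J - r * b) = J by omega] at h3
        rw [Yn_const hJ h2]
        push_cast at h3
        exact h3

theorem grid {m r b : ℕ} {w : ℝ} (hctl : Ctl w r b m) (i d : ℕ) (h : i + d ≤ r) :
    |((Yn m ((i + d) * b) : ℤ) : ℝ) - ((Yn m (i * b) : ℤ) : ℝ)| ≤ d * w := by
  induction d with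
  | zero => simp
  | succ d ih =>
    have h4 := ih (by omega)
    have h5 := hctl.1 (i + d) (by omega) b le_rfl
    rw [show (i + d) * b + b = (i + (d + 1)) * b by ring] at h5
    push_cast at h5 ⊢
    have h6 : ((Yn m ((i + (d + 1)) * b) : ℤ) : ℝ) - ((Yn m (i * b) : ℤ) : ℝ) =
      (((Yn m ((i + (d + 1)) * b) : ℤ) : ℝ) - ((Yn m ((i + d) * b) : ℤ) : ℝ)) +
      (((Yn m ((i + d) * b) : ℤ) : ℝ) - ((Yn m (i * b) : ℤ) : ℝ)) := by ring
    rw [h6]
    refine (abs_add_le _ _).trans ?_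
    linarith

/-- two grid points -/
theorem grid2 {m r b : ℕ} {w : ℝ} (hw : 0 ≤ w) (hctl : Ctl w r b m) {i i' : ℕ} (h : i ≤ r) (h' : i' ≤ r) (h1 : i ≤ i' + 1)
    (h2 : i' ≤ i + 1) : |((Yn m (i * b) : ℤ) : ℝ) - ((Yn m (i' * b) : ℤ) : ℝ)| ≤ w := by
  rcases lt_trichotomy i i' with h3 | h3 | h3
  · obtain rfl : i' = i + 1 := by omega
    rw [abs_sub_comm]
    have := grid hctl i 1 h'
    simpa using this
  · subst h3
    simpa using hw
  · obtain rfl : i = i' + 1 := by omega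
    have := grid hctl i' 1 h
    simpa using this

theorem bound {m J r b : ℕ} {w : ℝ} (hJ : Syr^[J] m = 1) (hJ' : ∀ i < J, Syr^[i] m ≠ 1) (hb : 0 < b) (hw : 0 ≤ w)
    (hctl : Ctl w r b m) (j : ℕ) : |((Yn m j : ℤ) : ℝ)| ≤ (r + 1) * w := by
  have h1 := osc hJ hJ' hb hw hctl j
  have h2 := grid hctl 0 (bt r b j) (by rw [zero_add]; exact min_le_right _ _)
  rw [zero_add, zero_mul, Yn_zero] at h2
  have h3 : ((bt r b j : ℕ) : ℝ) ≤ r := by exact_mod_cast min_le_right _ _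
  have h4 : ((bt r b j : ℕ) : ℝ) * w ≤ r * w := mul_le_mul_of_nonneg_right h3 hw
  have h5 : ((Yn m j : ℤ) : ℝ) = (((Yn m j : ℤ) : ℝ) - ((Yn m (bt r b j * b) : ℤ) : ℝ)) +
    (((Yn m (bt r b j * b) : ℤ) : ℝ) - ((0 : ℤ) : ℝ)) := by push_cast; ring
  rw [h5]
  refine (abs_add_le _ _).trans ?_
  linarith

theorem incr {m J r b : ℕ} {w : ℝ} (hJ : Syr^[J] m = 1) (hJ' : ∀ i < J, Syr^[i] m ≠ 1) (hb : 0 < b) (hw : 0 ≤ w)
    (hctl : Ctl w r b m) (j : ℕ) : |((Yn m (j + 1) - Yn m j : ℤ) : ℝ)| ≤ 3 * w := by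
  have h1 := osc hJ hJ' hb hw hctl j
  have h2 := osc hJ hJ' hb hw hctl (j + 1)
  have h3 : |((Yn m (bt r b (j + 1) * b) : ℤ) : ℝ) - ((Yn m (bt r b j * b) : ℤ) : ℝ)| ≤ w := by
    have a1 : j / b ≤ (j + 1) / b := Nat.div_le_div_right (Nat.le_succ j)
    have a2 : (j + 1) / b ≤ j / b + 1 := by
      have : (j + 1) / b ≤ (j + b) / b := Nat.div_le_div_right (by omega)
      rwa [Nat.add_div_right _ hb] at this
    apply grid2 hw hctl (min_le_right _ _) (min_le_right _ _) <;> omega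
  push_cast
  have h6 : ((Yn m (j + 1) : ℤ) : ℝ) - ((Yn m j : ℤ) : ℝ) =
      (((Yn m (j + 1) : ℤ) : ℝ) - ((Yn m (bt r b (j + 1) * b) : ℤ) : ℝ)) +
      ((((Yn m (bt r b (j + 1) * b) : ℤ) : ℝ) - ((Yn m (bt r b j * b) : ℤ) : ℝ)) +
      (((Yn m (bt r b j * b) : ℤ) : ℝ) - ((Yn m j : ℤ) : ℝ))) := by ring
  rw [h6]
  rw [abs_sub_comm] at h1
  refine (abs_add_le _ _).trans ?_
  have := abs_add_le (((Yn m (bt r b (j + 1) * b) : ℤ) : ℝ) - ((Yn m (bt r b j * b) : ℤ) : ℝ))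
      (((Yn m (bt r b j * b) : ℤ) : ℝ) - ((Yn m j : ℤ) : ℝ))
  linarith

theorem c6_hi : Real.log 6 / 3 ≤ 1 := by
  have h1 : Real.log 6 ≤ Real.log (2 ^ (3 : ℕ)) := Real.log_le_log (by norm_num) (by norm_num)
  rw [Real.log_pow] at h1
  have := Real.log_two_lt_d9
  push_cast at h1
  linarith

/-- the deterministic comparison -/
theorem comp (hD : S_CDEV) {m J v r G b : ℕ} {w M D L s : ℝ} (hm : m % 2 = 1) (hJ : Syr^[J] m = 1)
    (hJ' : ∀ i < J, Syr^[i] m ≠ 1) (hb : 0 < b) (hw : 0 ≤ w) (hctl : Ctl w r b m) (hM : (r + 1) * w ≤ M)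
    (hL : |Real.log ((2 ^ v * m : ℕ) : ℝ) - L| ≤ D) (hb1 : |L / Real.log (4 / 3) - G * b| ≤ G)
    (hs0 : 0 ≤ s) (hs1 : s ≤ 1)
    (hbig : (v + 3 + 2 * M) / 3 + 1 / 3 + 4 * (M + 3 * w + er0 v J + D) + G ≤ b) :
    ∃ t, IsTC (2 ^ v * m) t ∧ |dev (2 ^ v * m) ⌊s * t⌋₊ - Real.log 6 / 3 *
      ((Yn m (min ⌊s * G⌋₊ r * b) : ℤ) : ℝ)| ≤ 5 * w + er0 v J := by
  have hc := c6_lo
  have hc1 := c6_hi
  set c : ℝ := Real.log 6 / 3 with hcd
  have hqlo := log43_lo
  have hqhi := log43_hi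
  set q := Real.log (4 / 3) with hq
  have hqpos : 0 < q := by linarith
  have hT : ∃ t, IsTC (2 ^ v * m) t := by
    have hR : R m := by
      refine ⟨UL.S m J, ?_⟩
      rw [UL.T_S hm, hJ]
    have hR2 : R (2 ^ v * m) := UL.R_two.2 hR
    obtain ⟨k, hk⟩ : ∃ k, C^[k] (2 ^ v * m) = 1 := by
      obtain ⟨k, hk⟩ := hR2
      have key : ∀ k n : ℕ, T^[k] n = 1 → ∃ k', C^[k'] n = 1 := by
        intro k
        induction k with
        | zero => intro n h; exact ⟨0, h⟩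
        | succ k ih =>
          intro n h
          rw [Function.iterate_succ_apply] at h
          obtain ⟨k', hk'⟩ := ih _ h
          rcases Nat.mod_two_eq_zero_or_one n with h2 | h2
          · have e : C n = T n := by
              unfold C
              rw [if_pos h2, UL.T_even h2]
            exact ⟨k' + 1, by rw [Function.iterate_succ_apply, e]; exact hk'⟩
          · have e : C (C n) = T n := by
              unfold C
              rw [if_neg (show ¬ n % 2 = 0 by omega), if_pos (by omega), UL.T_odd h2]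
            exact ⟨k' + 2, by rw [Function.iterate_add_apply]; show C^[k'] (C (C n)) = 1; rw [e]; exact hk'⟩
      exact key k _ hk
    classical
    have hex : ∃ k, C^[k] (2 ^ v * m) = 1 := ⟨k, hk⟩
    exact ⟨Nat.find hex, Nat.find_spec hex, fun j hj => Nat.find_min hex hj⟩
  obtain ⟨t, ht⟩ := hT
  refine ⟨t, ht, ?_⟩
  have hk : ∀ k ≤ t, ∃ j ≤ J,
    |dev (2 ^ v * m) k - c * (Yn m j : ℤ)| ≤ |((Yn m (j + 1) - Yn m j : ℤ) : ℝ)| + er0 v J ∧
    |(k : ℝ) - 3 * j| ≤ v + 3 + |((Yn m j : ℤ) : ℝ)| + |((Yn m (j + 1) : ℤ) : ℝ)| := (hD v m J t hm hJ hJ' ht).2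
  have hE0 := er0_nonneg v J
  set E := er0 v J with hE
  have hv : (0 : ℝ) ≤ v := Nat.cast_nonneg v
  have hG : (0 : ℝ) ≤ G := Nat.cast_nonneg G
  have hYM : ∀ j, |((Yn m j : ℤ) : ℝ)| ≤ M := fun j => (bound hJ hJ' hb hw hctl j).trans hM
  have hM0 : 0 ≤ M := (abs_nonneg _).trans (hYM 0)
  -- the total stopping time
  have ht1 : |(t : ℝ) / 3 - L / q| ≤ 4 * (M + 3 * w + E + D) := by
    obtain ⟨j, _, h1, _⟩ := hk t le_rfl
    have h2 := (h1.trans (add_le_add (incr hJ hJ' hb hw hctl j) le_rfl))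
    have h3 : |c * ((Yn m j : ℤ) : ℝ)| ≤ M := by
      rw [abs_mul, abs_of_nonneg (by linarith : 0 ≤ c)]
      calc c * |((Yn m j : ℤ) : ℝ)| ≤ 1 * |((Yn m j : ℤ) : ℝ)| := mul_le_mul_of_nonneg_right hc1 (abs_nonneg _)
        _ ≤ M := by rw [one_mul]; exact hYM j
    rw [dev_end ht, ← hq] at h2
    have h4 : (t : ℝ) / 3 - L / q = ((t : ℝ) / 3 * q - L) / q := by field_simp
    rw [h4, abs_div, abs_of_pos hqpos, div_le_iff₀ hqpos]
    have h5 : |(t : ℝ) / 3 * q - L| ≤ M + 3 * w + E + D := by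
      have h6 := abs_le.1 h2
      have h7 := abs_le.1 h3
      have h8 := abs_le.1 hL
      rw [abs_le]
      constructor <;> linarith
    have h6 : 0 ≤ M + 3 * w + E + D := (abs_nonneg _).trans h5
    nlinarith
  set k := ⌊s * t⌋₊ with hkd
  have hst0 : 0 ≤ s * t := by positivity
  have hkt : k ≤ t := by
    have h1 : (k : ℝ) ≤ s * t := Nat.floor_le hst0
    have h2 : s * t ≤ t := by
      have : (0 : ℝ) ≤ t := Nat.cast_nonneg t
      nlinarith
    exact_mod_cast h1.trans h2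
  obtain ⟨j, _, h1, h2⟩ := hk k hkt
  have h3 := (h1.trans (add_le_add (incr hJ hJ' hb hw hctl j) le_rfl))
  -- the position
  have hpos : |(j : ℝ) - s * G * b| ≤ b := by
    have a1 : |(k : ℝ) - 3 * j| ≤ v + 3 + 2 * M := by
      refine h2.trans ?_
      have := hYM j
      have := hYM (j + 1)
      linarith
    have a2 : |(k : ℝ) - s * t| ≤ 1 := by
      have h4 : (k : ℝ) ≤ s * t := Nat.floor_le hst0
      have h5 : s * t < k + 1 := Nat.lt_floor_add_one _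
      rw [abs_le]
      constructor <;> linarith
    have a3 : |s * ((t : ℝ) / 3) - s * (L / q)| ≤ 4 * (M + 3 * w + E + D) := by
      rw [← mul_sub, abs_mul, abs_of_nonneg hs0]
      have h6 : 0 ≤ |(t : ℝ) / 3 - L / q| := abs_nonneg _
      nlinarith
    have a4 : |s * (L / q) - s * (G * b)| ≤ G := by
      rw [← mul_sub, abs_mul, abs_of_nonneg hs0]
      have h6 : 0 ≤ |L / q - G * b| := abs_nonneg _
      nlinarith
    have b1 := abs_le.1 a1
    have b2 := abs_le.1 a2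
    have b3 := abs_le.1 a3
    have b4 := abs_le.1 a4
    rw [abs_le]
    constructor <;> linarith
  have hbR : (0 : ℝ) < b := by exact_mod_cast hb
  have hidx : j / b ≤ ⌊s * G⌋₊ + 1 ∧ ⌊s * G⌋₊ ≤ j / b + 1 := by
    have hsG0 : 0 ≤ s * G := by positivity
    have c1 := abs_le.1 hpos
    constructor
    · have h4 : ((j / b : ℕ) : ℝ) ≤ (j : ℝ) / b := Nat.cast_div_le
      have h5 : (j : ℝ) / b ≤ s * G + 1 := by
        rw [div_le_iff₀ hbR]
        linarith
      have h6 : s * G < ⌊s * G⌋₊ + 1 := Nat.lt_floor_add_one _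
      have h7 : ((j / b : ℕ) : ℝ) < ((⌊s * G⌋₊ + 2 : ℕ) : ℝ) := by
        push_cast
        linarith
      have : j / b < ⌊s * G⌋₊ + 2 := by exact_mod_cast h7
      omega
    · have h4 : (⌊s * G⌋₊ : ℝ) ≤ s * G := Nat.floor_le hsG0
      have h5 : s * G ≤ (j : ℝ) / b + 1 := by
        rw [← sub_le_iff_le_add, le_div_iff₀ hbR]
        linarith
      have h6 : (j : ℝ) / b < ((j / b : ℕ) : ℝ) + 1 := by
        rw [div_lt_iff₀ hbR]
        have : j < (j / b + 1) * b := by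
          have h8 := Nat.div_add_mod j b
          have h9 := Nat.mod_lt j hb
          nlinarith
        exact_mod_cast this
      have h7 : ((⌊s * G⌋₊ : ℕ) : ℝ) < ((j / b + 2 : ℕ) : ℝ) := by
        push_cast
        linarith
      have : ⌊s * G⌋₊ < j / b + 2 := by exact_mod_cast h7
      omega
  have hY : |((Yn m j : ℤ) : ℝ) - ((Yn m (min ⌊s * G⌋₊ r * b) : ℤ) : ℝ)| ≤ 2 * w := by
    have h4 := osc hJ hJ' hb hw hctl j
    have h5 : |((Yn m (bt r b j * b) : ℤ) : ℝ) - ((Yn m (min ⌊s * G⌋₊ r * b) : ℤ) : ℝ)| ≤ w := by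
      apply grid2 hw hctl (min_le_right _ _) (min_le_right _ _) <;> omega
    have h6 : ((Yn m j : ℤ) : ℝ) - ((Yn m (min ⌊s * G⌋₊ r * b) : ℤ) : ℝ) =
      (((Yn m j : ℤ) : ℝ) - ((Yn m (bt r b j * b) : ℤ) : ℝ)) +
      (((Yn m (bt r b j * b) : ℤ) : ℝ) - ((Yn m (min ⌊s * G⌋₊ r * b) : ℤ) : ℝ)) := by ring
    rw [h6]
    refine (abs_add_le _ _).trans ?_
    linarith
  have hYc : |c * ((Yn m j : ℤ) : ℝ) - c * ((Yn m (min ⌊s * G⌋₊ r * b) : ℤ) : ℝ)| ≤ 2 * w := by
    rw [← mul_sub, abs_mul, abs_of_nonneg (by linarith : 0 ≤ c)]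
    have h6 := abs_nonneg (((Yn m j : ℤ) : ℝ) - ((Yn m (min ⌊s * G⌋₊ r * b) : ℤ) : ℝ))
    nlinarith
  have d1 := abs_le.1 h3
  have d2 := abs_le.1 hYc
  rw [abs_le]
  constructor <;> linarith

end Pool.Agent.H55.DK.DET
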