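import Pool.Agent.H55.DK.Stm

/-!
# Project DK: the deterministic part of the assembly
-/

set_option autoImplicit false

namespace Pool.Agent.H55.DK

open Finset Filter Topology MeasureTheory
open Pool.Agent.Results.MP_f7abf1_nt.BlockLaw (T Syr wait oddCount HasDensity)
open Pool.Agent.H55.UL (R IsT O T_S O_S S_end er er_nonneg er_bound' log43_lo log43_hi log2_hi log43_eq syr_iter_odd)

theorem Syr_one : Syr 1 = 1 := by
  unfold Syr
  have h : padicValNat 2 (3 * 1 + 1) = 2 := by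
    have : (3 * 1 + 1 : ℕ) = 2 ^ 2 := by norm_num
    rw [this]
    exact padicValNat.prime_pow 2
  rw [h]
  norm_num

theorem Syr_iter_const {m J : ℕ} (hJ : Syr^[J] m = 1) {j : ℕ} (h : J ≤ j) : Syr^[j] m = 1 := by
  obtain ⟨d, rfl⟩ := Nat.exists_eq_add_of_le h
  rw [add_comm, Function.iterate_add_apply, hJ]
  exact Function.iterate_fixed Syr_one d

theorem wait_one {m j : ℕ} (h : Syr^[j] m = 1) : wait m j = 2 := by
  unfold wait
  rw [h]
  have : (3 * 1 + 1 : ℕ) = 2 ^ 2 := by norm_num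
  rw [this]
  exact padicValNat.prime_pow 2

theorem Yn_const {m J : ℕ} (hJ : Syr^[J] m = 1) {j : ℕ} (h : J ≤ j) : Yn m j = Yn m J := by
  induction j, h using Nat.le_induction with
  | base => rfl
  | succ j hj ih =>
    rw [← ih]
    unfold Yn
    rw [UL.S_succ, wait_one (Syr_iter_const hJ hj)]
    push_cast
    ring

theorem Yn_zero (m : ℕ) : Yn m 0 = 0 := by simp [Yn, UL.S]

theorem IsTC_unique {n t t' : ℕ} (h : IsTC n t) (h' : IsTC n t') : t = t' := by
  rcases lt_trichotomy t t' with h1 | h1 | h1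
  · exact absurd h.1 (h'.2 t h1)
  · exact h1
  · exact absurd h'.1 (h.2 t' h1)

/-- the number of the odd steps until `1` -/
theorem exists_J {m : ℕ} (hm : m % 2 = 1) (hR : R m) :
    ∃ J, Syr^[J] m = 1 ∧ (∀ i < J, Syr^[i] m ≠ 1) ∧ IsT m (UL.S m J) := by
  classical
  obtain ⟨t, ht⟩ := UL.exists_IsT hR
  have h1 := S_end (v := 0) hm (by rw [pow_zero, one_mul]; exact ht) (Nat.zero_le t)
  rw [pow_zero, one_mul, add_zero] at h1
  have hex : ∃ j, Syr^[j] m = 1 := ⟨O m t, by rw [← T_S hm, h1]; exact ht.1⟩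
  refine ⟨Nat.find hex, Nat.find_spec hex, fun i hi => Nat.find_min hex hi, ?_⟩
  have h2 : Nat.find hex ≤ O m t := Nat.find_min' hex (by rw [← T_S hm, h1]; exact ht.1)
  have h3 : UL.S m (Nat.find hex) ≤ t := by
    rw [← h1]
    unfold UL.S
    apply Finset.sum_le_sum_of_subset
    intro i hi
    rw [Finset.mem_range] at hi ⊢
    omega
  have h4 : T^[UL.S m (Nat.find hex)] m = 1 := by rw [T_S hm]; exact Nat.find_spec hex
  have h5 : t ≤ UL.S m (Nat.find hex) := by
    by_contra hcon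
    exact ht.2 _ (not_le.1 hcon) h4
  have h6 : UL.S m (Nat.find hex) = t := le_antisymm h3 h5
  rw [h6]
  exact ht

/-- `Y (i b) ≤ p` for `i ≤ r` and `Y (r b) ≤ q` -/
def Co (r b : ℕ) (p q : ℝ) (Y : ℕ → ℤ) : Prop :=
  (∀ i ≤ r, ((Y (i * b) : ℤ) : ℝ) ≤ p) ∧ ((Y (r * b) : ℤ) : ℝ) ≤ q

theorem c6_lo : (1 / 2 : ℝ) ≤ Real.log 6 / 3 := by
  have h1 : (2 * Real.log 2 + Real.log (3 / 2) : ℝ) = Real.log 6 := by
    rw [← Real.log_rpow (by norm_num), ← Real.log_mul (by norm_num) (by norm_num)]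
    norm_num
  have h2 := Real.log_two_gt_d9
  have h3 : (1 : ℝ) / 3 ≤ Real.log (3 / 2) := by
    have := Real.one_sub_inv_le_log_of_pos (show (0 : ℝ) < 3 / 2 by norm_num)
    norm_num at this ⊢
    linarith
  linarith

theorem ctl_le {m J r b : ℕ} {w : ℝ} (hJ : Syr^[J] m = 1) (hJ' : ∀ i < J, Syr^[i] m ≠ 1) (hb : 0 < b) (hw : 0 ≤ w)
    (hctl : Ctl w r b m) (j : ℕ) : ∃ i ≤ r, |((Yn m j - Yn m (i * b) : ℤ) : ℝ)| ≤ w := by
  rcases le_total j (r * b) with h | h
  · rcases h.eq_or_lt with h1 | h1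
    · refine ⟨r, le_rfl, ?_⟩
      rw [h1]
      simpa using hw
    · have h2 : j / b < r := by rwa [Nat.div_lt_iff_lt_mul hb]
      refine ⟨j / b, h2.le, ?_⟩
      have h3 := hctl.1 (j / b) h2 (j % b) (Nat.mod_lt j hb).le
      have h4 : j / b * b + j % b = j := Nat.div_add_mod' j b
      rwa [h4] at h3
  · refine ⟨r, le_rfl, ?_⟩
    rcases le_total J (r * b) with h1 | h1
    · rw [Yn_const hJ h1, Yn_const hJ (h1.trans h)]
      simpa using hw
    · rcases le_total j J with h2 | h2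
      · have h3 := hctl.2 (j - r * b) fun i _ hi => hJ' i (by omega)
        rwa [show r * b + (j - r * b) = j by omega] at h3
      · have h3 := hctl.2 (J - r * b) fun i _ hi => hJ' i (by omega)
        rw [show r * b + (J - r * b) = J by omega] at h3
        rwa [Yn_const hJ h2]

theorem ctl_end {m J r b : ℕ} {w : ℝ} (hJ : Syr^[J] m = 1) (hJ' : ∀ i < J, Syr^[i] m ≠ 1) (hw : 0 ≤ w)
    (hctl : Ctl w r b m) : |((Yn m J - Yn m (r * b) : ℤ) : ℝ)| ≤ w := by
  rcases le_total J (r * b) with h1 | h1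
  · rw [Yn_const hJ h1]
    simpa using hw
  · have h3 := hctl.2 (J - r * b) fun i _ hi => hJ' i (by omega)
    rwa [show r * b + (J - r * b) = J by omega] at h3

theorem er0_nonneg (v J : ℕ) : 0 ≤ er0 v J := by
  unfold er0
  have : 0 ≤ Real.log ((J : ℝ) + 2) := Real.log_nonneg (by have : (0 : ℝ) ≤ J := Nat.cast_nonneg J; linarith)
  have : (0 : ℝ) ≤ v := Nat.cast_nonneg v
  linarith

theorem sandwich (hC : S_CPATH) {v m J r b : ℕ} {y z w e τ : ℝ} (hm : m % 2 = 1) (hJ : Syr^[J] m = 1)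
    (hJ' : ∀ i < J, Syr^[i] m ≠ 1) (hb : 0 < b) (hw : 0 ≤ w) (hctl : Ctl w r b m)
    (hy : |y| * |Real.sqrt (2 * Real.log ((2 ^ v * m : ℕ) : ℝ) / Real.log (4 / 3)) - τ| + w + 2 * er0 v J ≤ e * τ)
    (hz : |z| * |Real.sqrt (2 * Real.log ((2 ^ v * m : ℕ) : ℝ) / Real.log (4 / 3)) - τ| + w + 2 * er0 v J ≤ e * τ) :
    (Set1 y z (2 ^ v * m) → Co r b ((y + e) * τ) ((z + e) * τ) (Yn m)) ∧
    (Co r b ((y - e) * τ) ((z - e) * τ) (Yn m) → Set1 y z (2 ^ v * m)) := by
  obtain ⟨t, ht, hdev, hpath⟩ := hC v m J hm hJ hJ'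
  set n : ℕ := 2 ^ v * m with hn
  set σ : ℝ := Real.sqrt (2 * Real.log ((n : ℕ) : ℝ) / Real.log (4 / 3)) with hσ
  set q : ℝ := Real.log (4 / 3) with hq
  have hqpos : 0 < q := by linarith [log43_lo]
  set c : ℝ := Real.log 6 / 3 with hc
  have hc0 : (1 / 2 : ℝ) ≤ c := c6_lo
  have hcpos : 0 < c := by linarith
  have hE0 := er0_nonneg v J
  set E := er0 v J with hE
  have hy1 : |y * σ - y * τ| + w + 2 * E ≤ e * τ := by rwa [← mul_sub, abs_mul]
  have hz1 : |z * σ - z * τ| + w + 2 * E ≤ e * τ := by rwa [← mul_sub, abs_mul]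
  have hc6 : Real.log 6 / q = 3 * c / q := by rw [hc]; ring
  have hEc : E ≤ c * (2 * E) := by nlinarith
  have aux : ∀ {u x : ℝ}, c * u ≤ c * x + E → u ≤ x + 2 * E := by
    intro u x h
    have h1 : c * u ≤ c * (x + 2 * E) := by linarith
    exact le_of_mul_le_mul_left h1 hcpos
  have hend := abs_le.1 (ctl_end hJ hJ' hw hctl)
  have hdev' := abs_le.1 hdev
  push_cast at hend
  -- the condition on the total stopping time
  have hiff : (t : ℝ) ≤ 3 / q * Real.log n + z * (Real.log 6 / q * σ) ↔ (t : ℝ) * q / 3 - Real.log n ≤ c * (z * σ) := by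
    rw [hc6]
    have h1 : 3 / q * Real.log n + z * (3 * c / q * σ) = 3 / q * (Real.log n + c * (z * σ)) := by ring
    have h2 : (t : ℝ) = 3 / q * (t * q / 3) := by field_simp
    rw [h1]
    conv_lhs => rw [h2]
    rw [mul_le_mul_iff_right₀ (by positivity)]
    constructor <;> intro h <;> linarith
  constructor
  · rintro ⟨t', ht', h1, h2⟩
    have : t' = t := IsTC_unique ht' ht
    subst this
    have h3 := (hpath (y * (c * σ))).2 h1
    have h4 : ∀ j, ((Yn m j : ℤ) : ℝ) ≤ (y + e) * τ := by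
      intro j
      have h5 : ∀ j ≤ J, ((Yn m j : ℤ) : ℝ) ≤ (y + e) * τ := by
        intro j hj
        have h6 := h3 j hj
        have h7 : c * ((Yn m j : ℤ) : ℝ) ≤ c * (y * σ) + E := by
          have : c * (y * σ) = y * (c * σ) := by ring
          rw [this]
          exact h6
        have h8 := aux h7
        have h9 := (abs_le.1 (le_refl |y * σ - y * τ|)).2
        nlinarith
      rcases le_total j J with h | h
      · exact h5 j h
      · rw [Yn_const hJ h]
        exact h5 J le_rfl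
    refine ⟨fun i _ => h4 _, ?_⟩
    have h5 := hiff.1 h2
    have h6 : c * ((Yn m J : ℤ) : ℝ) ≤ c * (z * σ) + E := by linarith [hdev'.1]
    have h7 := aux h6
    have h9 := (abs_le.1 (le_refl |z * σ - z * τ|)).2
    nlinarith [hend.1]
  · rintro ⟨h1, h2⟩
    refine ⟨t, ht, ?_, ?_⟩
    · apply (hpath (y * (c * σ))).1
      intro j _
      obtain ⟨i, hi, h3⟩ := ctl_le hJ hJ' hb hw hctl j
      have h4 := h1 i hi
      have h5 := (abs_le.1 h3).2
      push_cast at h5
      have h9 := (abs_le.1 (le_refl |y * σ - y * τ|)).1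
      have h6 : ((Yn m j : ℤ) : ℝ) + 2 * E ≤ y * σ := by nlinarith
      have h7 : c * (((Yn m j : ℤ) : ℝ) + 2 * E) ≤ c * (y * σ) := mul_le_mul_of_nonneg_left h6 hcpos.le
      calc c * ((Yn m j : ℤ) : ℝ) + E ≤ c * (((Yn m j : ℤ) : ℝ) + 2 * E) := by linarith
        _ ≤ c * (y * σ) := h7
        _ = y * (c * σ) := by ring
    · apply hiff.2
      have h9 := (abs_le.1 (le_refl |z * σ - z * τ|)).1
      have h6 : ((Yn m J : ℤ) : ℝ) + 2 * E ≤ z * σ := by nlinarith [hend.2]
      have h7 : c * (((Yn m J : ℤ) : ℝ) + 2 * E) ≤ c * (z * σ) := mul_le_mul_of_nonneg_left h6 hcpos.le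
      linarith [hdev'.2]

/-- the number of the odd steps is at most `24 log X` -/
theorem J_le {m J r b X : ℕ} {w : ℝ} (hm : m % 2 = 1) (hJ : Syr^[J] m = 1)
    (hJ' : ∀ i < J, Syr^[i] m ≠ 1) (hT : IsT m (UL.S m J)) (hw : 0 ≤ w) (hctl : Ctl w r b m) (hmX : m ≤ X)
    (h1 : (r : ℝ) * b * Real.log (4 / 3) ≤ Real.log X) (h2 : 2 * ((r : ℝ) + 1) * w + 3 ≤ Real.log X) :
    (J : ℝ) ≤ 24 * Real.log X := by
  have hlo := log43_lo
  have hm1 : 1 ≤ m := by omega
  have hrb0 : (0 : ℝ) ≤ r * b := by positivity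
  have hL0 : 0 ≤ Real.log X := le_trans (by positivity) h1
  rcases le_total J (r * b) with h | h
  · have h3 : (J : ℝ) ≤ r * b := by exact_mod_cast h
    have h4 : (r : ℝ) * b * (1 / 4) ≤ r * b * Real.log (4 / 3) := mul_le_mul_of_nonneg_left hlo hrb0
    linarith
  · -- `|Y (r b)| ≤ r w`
    have h3 : ∀ i ≤ r, |((Yn m (i * b) : ℤ) : ℝ)| ≤ i * w := by
      intro i
      induction i with
      | zero => intro _; simp [Yn_zero]
      | succ i ih =>
        intro hi
        have h4 := ih (by omega)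
        have h5 := hctl.1 i (by omega) b le_rfl
        rw [show i * b + b = (i + 1) * b by ring] at h5
        push_cast at h5 ⊢
        have h6 : ((Yn m ((i + 1) * b) : ℤ) : ℝ) = ((Yn m (i * b) : ℤ) : ℝ) +
          (((Yn m ((i + 1) * b) : ℤ) : ℝ) - ((Yn m (i * b) : ℤ) : ℝ)) := by ring
        rw [h6]
        refine (abs_add_le _ _).trans ?_
        linarith
    have h4 := h3 r le_rfl
    have h5 := ctl_end hJ hJ' hw hctl
    push_cast at h5
    have h6 : |((Yn m J : ℤ) : ℝ)| ≤ (r + 1) * w := by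
      have h7 : ((Yn m J : ℤ) : ℝ) = ((Yn m (r * b) : ℤ) : ℝ) +
          (((Yn m J : ℤ) : ℝ) - ((Yn m (r * b) : ℤ) : ℝ)) := by ring
      rw [h7]
      refine (abs_add_le _ _).trans ?_
      linarith
    have h7 := er_bound' hm1 hT le_rfl
    have h8 : er m (UL.S m J) = - Real.log m - J * Real.log 3 + (UL.S m J : ℝ) * Real.log 2 := by
      unfold er
      rw [T_S hm, O_S hm, hJ]
      simp
    rw [h8] at h7
    have h9 : ((Yn m J : ℤ) : ℝ) = 2 * J - (UL.S m J : ℝ) := by
      unfold Yn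
      push_cast
      ring
    set Y : ℝ := ((Yn m J : ℤ) : ℝ) with hY
    have h10 : (UL.S m J : ℝ) = 2 * J - Y := by linarith
    have h6' := abs_le.1 h6
    have h11 : Real.log (UL.S m J : ℕ) ≤ (UL.S m J : ℝ) / 16 + 2 := by
      rcases (Nat.cast_nonneg (UL.S m J) : (0 : ℝ) ≤ (UL.S m J : ℕ)).eq_or_lt with h0 | h0
      · rw [← h0]; norm_num
      · have h12 : Real.log (UL.S m J : ℕ) = Real.log ((UL.S m J : ℕ) / 16) + Real.log 16 := by
          rw [← Real.log_mul (by positivity) (by norm_num)]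
          congr 1
          ring
        have h13 := Real.log_le_sub_one_of_pos (show (0 : ℝ) < (UL.S m J : ℕ) / 16 by positivity)
        have h14 : Real.log 16 ≤ 3 := by
          have : (16 : ℝ) = 2 ^ (4 : ℕ) := by norm_num
          rw [this, Real.log_pow]
          have := Real.log_two_lt_d9
          push_cast
          linarith
        linarith
    have hmL : Real.log m ≤ Real.log X := by
      apply Real.log_le_log
      · exact_mod_cast hm1
      · exact_mod_cast hmX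
    have h2l := log2_hi
    have h2pos : 0 < Real.log 2 := Real.log_pos (by norm_num)
    have h12 : (J : ℝ) * Real.log (4 / 3) ≤ Real.log X + Y * Real.log 2 + 1 + (UL.S m J : ℝ) / 16 + 2 := by
      rw [log43_eq]
      have : -Real.log m - J * Real.log 3 + (2 * J - Y) * Real.log 2 ≤ 1 + Real.log (UL.S m J : ℕ) := by
        rw [← h10]; exact h7
      linarith
    rw [h10] at h12
    have h13 : Y * Real.log 2 ≤ (r + 1) * w := by
      have hpos : 0 ≤ ((r : ℝ) + 1) * w := by positivity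
      calc Y * Real.log 2 ≤ ((r + 1) * w) * Real.log 2 := mul_le_mul_of_nonneg_right h6'.2 h2pos.le
        _ ≤ (r + 1) * w * 1 := mul_le_mul_of_nonneg_left h2l hpos
        _ = (r + 1) * w := mul_one _
    have h14 : (J : ℝ) * (1 / 4) ≤ J * Real.log (4 / 3) := mul_le_mul_of_nonneg_left hlo (Nat.cast_nonneg J)
    have hpos : 0 ≤ ((r : ℝ) + 1) * w := by positivity
    linarith [h6'.1]

end Pool.Agent.H55.DK
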