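import Pool.Agent.H55.DK.F1

/-!
# Project DK: the block law for the maximum over the grid, and the model
-/

set_option autoImplicit false

namespace Pool.Agent.H55.DK

open Finset Filter Topology MeasureTheory ProbabilityTheory
open Pool.Agent.H499R2.ND.TJ (PP)
open Pool.Agent.Results.MP_f7abf1_nt.BlockLaw (T Syr wait blocks Admissible prob oddCount HasDensity)
open Pool.Agent.H55.UL (R R_T ps ps_blocks)

/-- the block law for the grid event -/
theorem co_law {δ : ℝ} (hδ : HasDensity R δ) {κ ε : ℝ} (hκ : 0 < κ) (hε : 0 < ε) : ∀ᶠ X : ℕ in atTop, ∀ r b : ℕ,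
    κ * Real.log X ≤ b → ((r * b : ℕ) : ℝ) ≤ (1 - κ) * Real.log X / Real.log (4 / 3) → ∀ p q : ℝ,
    |oddCount X (fun n => R n ∧ Co r b p q (Yn n)) - δ / 2 * PP.real {ω | Co r b p q (Yw ω)} * X| ≤ ε * X := by
  obtain ⟨δ', h0, h1, h2, _, h3⟩ := Pool.Agent.Results.MP_f7abf1_nt.BlockLaw.result.1 R (fun _ _ => R_T)
  have hδ' : δ' = δ := tendsto_nhds_unique h2 hδ
  subst hδ'
  obtain ⟨X₀, hX⟩ := h3 κ ε hκ hε
  filter_upwards [eventually_ge_atTop X₀] with X hX₀ r b h4 h5 p q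
  have hadm : Admissible κ X r (fun i => i * b) := by
    refine ⟨by simp, ?_, by simpa using h5⟩
    intro i _
    push_cast
    linarith
  have h := hX X hX₀ r (fun i => i * b) hadm
    {v | (∀ i ≤ r, ((2 * ((i * b : ℕ) : ℤ) - (ps v i : ℤ) : ℤ) : ℝ) ≤ p) ∧
      ((2 * ((r * b : ℕ) : ℤ) - (ps v r : ℤ) : ℤ) : ℝ) ≤ q}
  have e1 : ∀ x : ℕ → ℕ, blocks (fun i => i * b) r x ∈
      {v : Fin r → ℕ | (∀ i ≤ r, ((2 * ((i * b : ℕ) : ℤ) - (ps v i : ℤ) : ℤ) : ℝ) ≤ p) ∧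
      ((2 * ((r * b : ℕ) : ℤ) - (ps v r : ℤ) : ℤ) : ℝ) ≤ q} ↔
      Co r b p q (fun j => 2 * (j : ℤ) - ∑ i ∈ range j, (x i : ℤ)) := by
    intro x
    rw [Set.mem_ofPred_eq, ps_blocks x le_rfl]
    unfold Co
    constructor
    · rintro ⟨a1, a2⟩
      refine ⟨fun i hi => ?_, ?_⟩
      · have := a1 i hi
        rw [ps_blocks x hi] at this
        push_cast at this ⊢
        exact this
      · push_cast at a2 ⊢
        exact a2
    · rintro ⟨a1, a2⟩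
      refine ⟨fun i hi => ?_, ?_⟩
      · have := a1 i hi
        rw [ps_blocks x hi]
        push_cast at this ⊢
        exact this
      · push_cast at a2 ⊢
        exact a2
  have e2 : prob (fun i => i * b) r {v | (∀ i ≤ r, ((2 * ((i * b : ℕ) : ℤ) - (ps v i : ℤ) : ℤ) : ℝ) ≤ p) ∧
      ((2 * ((r * b : ℕ) : ℤ) - (ps v r : ℤ) : ℤ) : ℝ) ≤ q} = PP.real {ω | Co r b p q (Yw ω)} := by
    unfold prob
    rw [Pool.Agent.Results.MP_f7abf1_nt.BlockLaw.model_eq]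
    congr 1
    ext ω
    rw [Set.mem_ofPred_eq, e1 (fun j => ω j + 1), Set.mem_ofPred_eq]
    unfold Yw Co
    push_cast
    rfl
  have e3 : (fun n => R n ∧ Co r b p q (Yn n)) = (fun n => R n ∧ blocks (fun i => i * b) r (wait n) ∈
      {v : Fin r → ℕ | (∀ i ≤ r, ((2 * ((i * b : ℕ) : ℤ) - (ps v i : ℤ) : ℤ) : ℝ) ≤ p) ∧
      ((2 * ((r * b : ℕ) : ℤ) - (ps v r : ℤ) : ℤ) : ℝ) ≤ q}) := by
    funext n
    rw [e1]
    unfold Yn UL.S Co
    push_cast
    rfl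
  rw [e3, ← e2]
  exact h

/-- the full event in the model -/
def Fu (K : ℕ) (y z : ℝ) : Set (ℕ → ℕ) := {ω : ℕ → ℕ |
  (∀ j ≤ K, ((Yw ω j : ℤ) : ℝ) ≤ y * Real.sqrt (2 * K)) ∧ ((Yw ω K : ℤ) : ℝ) ≤ z * Real.sqrt (2 * K)}

theorem full_le_co (r b : ℕ) (y z : ℝ) : PP.real (Fu (r * b) y z) ≤
    PP.real {ω | Co r b (y * Real.sqrt (2 * (r * b : ℕ))) (z * Real.sqrt (2 * (r * b : ℕ))) (Yw ω)} := by
  apply measureReal_mono
  · rintro ω ⟨h1, h2⟩
    exact ⟨fun i hi => h1 _ (Nat.mul_le_mul_right b hi), h2⟩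
  · exact measure_ne_top _ _

theorem co_le_full (hP : S_PMAX) {r b : ℕ} (hb : 0 < b) (y z : ℝ) {e : ℝ} (he : 0 < e)
    (hbe : 2 * e ^ 2 * r ≤ b) :
    PP.real {ω | Co r b (y * Real.sqrt (2 * (r * b : ℕ))) (z * Real.sqrt (2 * (r * b : ℕ))) (Yw ω)} ≤
      PP.real (Fu (r * b) (y + e) z) + r * (2 * Real.exp (-(e ^ 2 * r / 4))) := by
  set τ : ℝ := Real.sqrt (2 * (r * b : ℕ)) with hτ
  have hbR : (0 : ℝ) < b := by exact_mod_cast hb
  have hτ2 : τ ^ 2 = 2 * (r * b) := by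
    rw [hτ, Real.sq_sqrt (by positivity)]
    push_cast
    ring
  have hτ0 : 0 ≤ τ := Real.sqrt_nonneg _
  set lam : ℝ := e * τ / (4 * b) with hlam
  have hlam0 : 0 ≤ lam := by positivity
  have hlam1 : lam ≤ 1 / 4 := by
    rw [hlam, div_le_iff₀ (by positivity)]
    have h1 : e * τ ≤ b := by
      have h2 : (e * τ) ^ 2 ≤ (b : ℝ) ^ 2 := by
        rw [mul_pow, hτ2]
        nlinarith
      exact (pow_le_pow_iff_left₀ (by positivity) hbR.le (by norm_num)).1 h2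
    linarith
  have hexp : 2 * lam ^ 2 * b - lam * (e * τ) = -(e ^ 2 * r / 4) := by
    rw [hlam]
    field_simp
    rw [hτ2]
    ring
  have hA : ∀ i ∈ range r, PP.real {ω : ℕ → ℕ | ∃ j ≤ b, e * τ < |((Yw ω (i * b + j) - Yw ω (i * b) : ℤ) : ℝ)|} ≤
      2 * Real.exp (-(e ^ 2 * r / 4)) := by
    intro i _
    have := hP (i * b) b lam (e * τ) hlam0 hlam1
    rwa [hexp] at this
  have hsub : {ω : ℕ → ℕ | Co r b (y * τ) (z * τ) (Yw ω)} ⊆ Fu (r * b) (y + e) z ∪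
      ⋃ i ∈ range r, {ω : ℕ → ℕ | ∃ j ≤ b, e * τ < |((Yw ω (i * b + j) - Yw ω (i * b) : ℤ) : ℝ)|} := by
    rintro ω ⟨h1, h2⟩
    by_cases h : ∃ i ∈ range r, ∃ j ≤ b, e * τ < |((Yw ω (i * b + j) - Yw ω (i * b) : ℤ) : ℝ)|
    · right
      simp only [Set.mem_iUnion]
      obtain ⟨i, hi, h⟩ := h
      exact ⟨i, hi, h⟩
    · left
      push Not at h
      refine ⟨fun j hj => ?_, h2⟩
      have h3 : ((Yw ω j : ℤ) : ℝ) ≤ y * τ + e * τ := by
        rcases hj.eq_or_lt with h4 | h4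
        · have h5 := h1 r le_rfl
          rw [← h4] at h5
          have : 0 ≤ e * τ := by positivity
          linarith
        · have h5 : j / b < r := by rwa [Nat.div_lt_iff_lt_mul hb]
          have h6 := h (j / b) (by rwa [Finset.mem_range]) (j % b) (Nat.mod_lt j hb).le
          rw [Nat.div_add_mod' j b] at h6
          have h7 := h1 (j / b) h5.le
          have h8 := (abs_le.1 h6).2
          push_cast at h8
          linarith
      calc ((Yw ω j : ℤ) : ℝ) ≤ y * τ + e * τ := h3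
        _ = (y + e) * Real.sqrt (2 * (r * b : ℕ)) := by rw [hτ]; ring
  calc PP.real {ω : ℕ → ℕ | Co r b (y * τ) (z * τ) (Yw ω)}
      ≤ PP.real (Fu (r * b) (y + e) z ∪
        ⋃ i ∈ range r, {ω : ℕ → ℕ | ∃ j ≤ b, e * τ < |((Yw ω (i * b + j) - Yw ω (i * b) : ℤ) : ℝ)|}) :=
        measureReal_mono hsub (measure_ne_top _ _)
    _ ≤ PP.real (Fu (r * b) (y + e) z) + PP.real
        (⋃ i ∈ range r, {ω : ℕ → ℕ | ∃ j ≤ b, e * τ < |((Yw ω (i * b + j) - Yw ω (i * b) : ℤ) : ℝ)|}) :=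
        measureReal_union_le _ _
    _ ≤ PP.real (Fu (r * b) (y + e) z) + ∑ i ∈ range r, PP.real
        {ω : ℕ → ℕ | ∃ j ≤ b, e * τ < |((Yw ω (i * b + j) - Yw ω (i * b) : ℤ) : ℝ)|} := by
        gcongr
        exact measureReal_biUnion_finset_le _ _
    _ ≤ PP.real (Fu (r * b) (y + e) z) + ∑ i ∈ range r, 2 * Real.exp (-(e ^ 2 * r / 4)) := by
        gcongr with i hi
        exact hA i hi
    _ = PP.real (Fu (r * b) (y + e) z) + r * (2 * Real.exp (-(e ^ 2 * r / 4))) := by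
        rw [Finset.sum_const, Finset.card_range, nsmul_eq_mul]

theorem FF_mem (hM : S_MLAW) {y : ℝ} (z : ℝ) (hy : 0 ≤ y) : 0 ≤ FF y z ∧ FF y z ≤ 1 := by
  have h := hM y z hy
  refine ⟨ge_of_tendsto' h fun K => measureReal_nonneg, le_of_tendsto' h fun K => ?_⟩
  exact measureReal_le_one

/-- `(1 + r) exp (- c r)` is small -/
theorem exp_small {c ε : ℝ} (hc : 0 < c) (hε : 0 < ε) : ∃ r₀ : ℕ, 0 < r₀ ∧ ∀ r : ℕ, r₀ ≤ r →
    (r : ℝ) * (2 * Real.exp (-(c * r))) ≤ ε := by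
  have h1 : Tendsto (fun x : ℝ => x * Real.exp (-x)) atTop (𝓝 0) := by
    have := Real.tendsto_pow_mul_exp_neg_atTop_nhds_zero 1
    simpa using this
  have h2 : Tendsto (fun r : ℕ => c * (r : ℝ)) atTop atTop :=
    tendsto_natCast_atTop_atTop.const_mul_atTop hc
  have h3 := h1.comp h2
  have h4 : ∀ᶠ r : ℕ in atTop, c * (r : ℝ) * Real.exp (-(c * r)) ≤ c * ε / 2 := by
    have := h3.eventually_le_const (show (0 : ℝ) < c * ε / 2 by positivity)
    exact this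
  obtain ⟨r₀, hr₀⟩ := eventually_atTop.1 h4
  refine ⟨max r₀ 1, by positivity, fun r hr => ?_⟩
  have h5 := hr₀ r ((le_max_left _ _).trans hr)
  have h6 : c * ((r : ℝ) * (2 * Real.exp (-(c * r)))) ≤ c * ε := by linarith
  exact le_of_mul_le_mul_left h6 hc

end Pool.Agent.H55.DK
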