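import Pool.Agent.H55.DK.F2

/-!
# Project DK: numerical estimates for the assembly
-/

set_option autoImplicit false

namespace Pool.Agent.H55.DK

open Finset Filter Topology MeasureTheory ProbabilityTheory
open Pool.Agent.H499R2.ND.TJ (PP)
open Pool.Agent.Results.MP_f7abf1_nt.BlockLaw (T Syr wait blocks Admissible prob oddCount HasDensity)
open Pool.Agent.H55.UL (R slow log_tendsto sqrt_diff log43_lo log43_hi log2_hi)

theorem numeric {a e κ θ : ℝ} (he : 0 < e) (hκ : 0 < κ) (hκ4 : κ ≤ 1 / 4) (ha : |a| * (16 * κ) ≤ e) (v r : ℕ)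
    (hθ : 0 < θ) : ∀ᶠ X : ℕ in atTop, ∀ b : ℕ,
      (1 - 2 * κ) * Real.log X ≤ r * b * Real.log (4 / 3) → r * b * Real.log (4 / 3) ≤ (1 - κ) * Real.log X →
      ∀ m J : ℕ, m ≤ X → θ * X ≤ m → 1 ≤ m → (J : ℝ) ≤ 24 * Real.log X →
      |a| * |Real.sqrt (2 * Real.log ((2 ^ v * m : ℕ) : ℝ) / Real.log (4 / 3)) - Real.sqrt (2 * (r * b : ℕ))| +
        e / 8 * Real.sqrt (Real.log X) + 2 * er0 v J ≤ e * Real.sqrt (2 * (r * b : ℕ)) := by
  set A : ℝ := |a| * (8 * (v + |Real.log θ|)) + 2 * v + 40 with hA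
  have hA0 : 0 ≤ A := by positivity
  have h1 := log_tendsto.eventually (slow A (show (0 : ℝ) < e / 4 by positivity))
  filter_upwards [h1, log_tendsto.eventually_ge_atTop 1] with X hX hX1 b h2 h3 m J hmX hmθ hm1 hJ
  obtain ⟨_, hs1, _⟩ := hX
  set L := Real.log X with hL
  set q := Real.log (4 / 3) with hq
  have hlo : (1 / 4 : ℝ) ≤ q := log43_lo
  have hhi : q ≤ 1 / 3 := log43_hi
  have hqpos : 0 < q := by linarith
  have hL0 : 0 < L := by linarith
  set sg : ℝ := Real.sqrt (2 * L / q) with hsg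
  have hsg0 : 0 ≤ sg := Real.sqrt_nonneg _
  have hsg2 : sg ^ 2 = 2 * L / q := Real.sq_sqrt (by positivity)
  set τ : ℝ := Real.sqrt (2 * (r * b : ℕ)) with hτ
  have hτ0 : 0 ≤ τ := Real.sqrt_nonneg _
  have hτ2 : τ ^ 2 = 2 * (r * b) := by
    rw [hτ, Real.sq_sqrt (by positivity)]
    push_cast
    ring
  -- comparison of `τ` and `sg`
  have k1 : τ ≤ sg := by
    have : τ ^ 2 ≤ sg ^ 2 := by
      rw [hτ2, hsg2, le_div_iff₀ hqpos]
      nlinarith
    exact (pow_le_pow_iff_left₀ hτ0 hsg0 (by norm_num)).1 this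
  have k2 : (1 - 2 * κ) * sg ≤ τ := by
    have h4 : ((1 - 2 * κ) * sg) ^ 2 ≤ τ ^ 2 := by
      rw [mul_pow, hτ2, hsg2]
      have h5 : (1 - 2 * κ) ^ 2 ≤ 1 - 2 * κ := by nlinarith
      have h6 : 0 ≤ 2 * L / q := by positivity
      calc (1 - 2 * κ) ^ 2 * (2 * L / q) ≤ (1 - 2 * κ) * (2 * L / q) := mul_le_mul_of_nonneg_right h5 h6
        _ = (2 * ((1 - 2 * κ) * L)) / q := by ring
        _ ≤ 2 * (r * b) := by
          rw [div_le_iff₀ hqpos]
          linarith
    exact (pow_le_pow_iff_left₀ (mul_nonneg (by linarith) hsg0) hτ0 (by norm_num)).1 h4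
  have k3 : sg / 2 ≤ τ := by nlinarith
  have k4 : |sg - τ| ≤ 2 * κ * sg := by
    rw [abs_of_nonneg (by linarith)]
    linarith
  have k5 : Real.sqrt L ≤ sg := by
    apply Real.sqrt_le_sqrt
    rw [le_div_iff₀ hqpos]
    nlinarith
  -- comparison of `σ` and `sg`
  have hX0 : (0 : ℝ) < X := by
    rcases (Nat.cast_nonneg X : (0 : ℝ) ≤ X).eq_or_lt with h | h
    · exfalso
      rw [← h] at hL
      rw [Real.log_zero] at hL
      linarith
    · exact h
  have hmR : (0 : ℝ) < m := by exact_mod_cast hm1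
  have hlogm0 : 0 ≤ Real.log m := Real.log_natCast_nonneg m
  have hmX' : Real.log m ≤ L := by
    apply Real.log_le_log hmR
    exact_mod_cast hmX
  have hlogn : Real.log ((2 ^ v * m : ℕ) : ℝ) = v * Real.log 2 + Real.log m := by
    push_cast
    rw [Real.log_mul (by positivity) hmR.ne', Real.log_pow]
  have h2l := log2_hi
  have h2pos : 0 < Real.log 2 := Real.log_pos (by norm_num)
  have hmL : L - |Real.log θ| ≤ Real.log m := by
    have h1 := Real.log_le_log (by positivity) hmθ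
    rw [Real.log_mul hθ.ne' hX0.ne'] at h1
    have := neg_abs_le (Real.log θ)
    linarith
  set ln := Real.log ((2 ^ v * m : ℕ) : ℝ) with hln
  have hv0 : (0 : ℝ) ≤ v := Nat.cast_nonneg v
  have hln0 : 0 ≤ ln := by rw [hlogn]; positivity
  have hlnL : |ln - L| ≤ v + |Real.log θ| := by
    have q1 : (v : ℝ) * Real.log 2 ≤ v * 1 := mul_le_mul_of_nonneg_left h2l hv0
    have q2 : 0 ≤ (v : ℝ) * Real.log 2 := by positivity
    have q3 := abs_nonneg (Real.log θ)
    rw [abs_le]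
    constructor <;> linarith
  have hrd : |Real.sqrt (2 * ln / q) - sg| ≤ 8 * (v + |Real.log θ|) := by
    have h1 : 1 ≤ 2 * L / q := by
      rw [le_div_iff₀ hqpos]
      linarith
    refine (sqrt_diff (by positivity) h1).trans ?_
    have h2 : 2 * ln / q - 2 * L / q = (2 / q) * (ln - L) := by ring
    rw [h2, abs_mul, abs_of_pos (by positivity)]
    apply mul_le_mul _ hlnL (abs_nonneg _) (by norm_num)
    rw [div_le_iff₀ hqpos]
    linarith
  -- the error term
  have hE : 2 * er0 v J ≤ 2 * v + 36 + 4 * Real.log L := by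
    unfold er0
    have h5 : Real.log ((J : ℝ) + 2) ≤ Real.log (26 * L) := by
      apply Real.log_le_log
      · positivity
      · linarith
    have h6 : Real.log (26 * L) = Real.log 26 + Real.log L := Real.log_mul (by norm_num) hL0.ne'
    have h7 : Real.log 26 ≤ 4 := by
      have h8 : Real.log 26 ≤ Real.log (2 ^ (5 : ℕ)) := Real.log_le_log (by norm_num) (by norm_num)
      rw [Real.log_pow] at h8
      have := Real.log_two_lt_d9
      push_cast at h8
      linarith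
    linarith
  have hlogL : 0 ≤ Real.log L := Real.log_nonneg hX1
  have hmain : |a| * |Real.sqrt (2 * ln / q) - τ| ≤ |a| * (8 * (v + |Real.log θ|)) + e / 8 * sg := by
    have h5 : |Real.sqrt (2 * ln / q) - τ| ≤ 8 * (v + |Real.log θ|) + 2 * κ * sg := by
      have h6 : Real.sqrt (2 * ln / q) - τ = (Real.sqrt (2 * ln / q) - sg) + (sg - τ) := by ring
      rw [h6]
      exact (abs_add_le _ _).trans (add_le_add hrd k4)
    calc |a| * |Real.sqrt (2 * ln / q) - τ| ≤ |a| * (8 * (v + |Real.log θ|) + 2 * κ * sg) :=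
          mul_le_mul_of_nonneg_left h5 (abs_nonneg a)
      _ = |a| * (8 * (v + |Real.log θ|)) + (|a| * (16 * κ)) / 8 * sg := by ring
      _ ≤ |a| * (8 * (v + |Real.log θ|)) + e / 8 * sg := by
          gcongr
  have h5 : e / 8 * Real.sqrt L ≤ e / 8 * sg := by gcongr
  have h6 : e / 4 * Real.sqrt L ≤ e / 4 * sg := by gcongr
  have h7 : |a| * (8 * (v + |Real.log θ|)) + 2 * v + 36 + 4 * Real.log L ≤ A * (1 + Real.log L) := by
    rw [hA]
    have q1 : 0 ≤ (|a| * (8 * (v + |Real.log θ|)) + 2 * v + 36) * Real.log L := by positivity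
    nlinarith
  have h8 : e * (sg / 2) ≤ e * τ := by gcongr
  linarith

theorem FF_cont : Continuous fun p : ℝ × ℝ => FF p.1 p.2 := by
  have h : Continuous Pool.Agent.Results.MP_f7abf1_nt.BlockLaw.Phi := by
    have e : Pool.Agent.Results.MP_f7abf1_nt.BlockLaw.Phi = Pool.Agent.H499R2.ND.Phi := by
      funext x
      exact (Pool.Agent.H499R2.ND.phi_cdf x).symm
    rw [e]
    exact Pool.Agent.H499R2.ND.Phi_continuous
  unfold FF
  fun_prop

/-- the choice of `e` -/
theorem choice {y : ℝ} (z : ℝ) (hy : 0 ≤ y) {η : ℝ} (hη : 0 < η) : ∃ e : ℝ, 0 < e ∧ FF (y + 2 * e) (z + e) ≤ FF y z + η ∧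
    (y = 0 ∨ (0 ≤ y - e ∧ FF y z - η ≤ FF (y - e) (z - e))) := by
  have h1 : Tendsto (fun e : ℝ => FF (y + 2 * e) (z + e)) (𝓝[>] 0) (𝓝 (FF y z)) := by
    have h2 : Continuous fun e : ℝ => FF (y + 2 * e) (z + e) :=
      FF_cont.comp (by fun_prop : Continuous fun e : ℝ => (y + 2 * e, z + e))
    have h3 := h2.tendsto 0
    simp only [mul_zero, add_zero] at h3
    exact h3.mono_left nhdsWithin_le_nhds
  have h2 : Tendsto (fun e : ℝ => FF (y - e) (z - e)) (𝓝[>] 0) (𝓝 (FF y z)) := by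
    have h2 : Continuous fun e : ℝ => FF (y - e) (z - e) :=
      FF_cont.comp (by fun_prop : Continuous fun e : ℝ => (y - e, z - e))
    have h3 := h2.tendsto 0
    simp only [sub_zero] at h3
    exact h3.mono_left nhdsWithin_le_nhds
  have h3 : ∀ᶠ e : ℝ in 𝓝[>] 0, FF (y + 2 * e) (z + e) ≤ FF y z + η := h1.eventually_le_const (by linarith)
  have h4 : ∀ᶠ e : ℝ in 𝓝[>] 0, FF y z - η ≤ FF (y - e) (z - e) := h2.eventually_const_le (by linarith)
  have h5 : ∀ᶠ e : ℝ in 𝓝[>] 0, 0 < e := self_mem_nhdsWithin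
  rcases hy.eq_or_lt with h0 | h0
  · obtain ⟨e, a1, a2⟩ := (h3.and h5).exists
    exact ⟨e, a2, a1, Or.inl h0.symm⟩
  · have h6 : ∀ᶠ e : ℝ in 𝓝[>] 0, e < y := by
      have : ∀ᶠ e : ℝ in 𝓝 (0 : ℝ), e < y := eventually_lt_nhds h0
      exact this.filter_mono nhdsWithin_le_nhds
    obtain ⟨e, ⟨⟨a1, a2⟩, a3⟩, a4⟩ := (((h3.and h4).and h5).and h6).exists
    exact ⟨e, a3, a1, Or.inr ⟨by linarith, a2⟩⟩

end Pool.Agent.H55.DK
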