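import Pool.Agent.H55.DK.Defs2
import Mathlib.Probability.BrownianMotion.Basic

/-!
# Project DK, second part: Brownian motion

For a Brownian motion `B` (Mathlib's `IsBrownianReal`) and every bounded functional `F` of paths on `[0, 1]` which is
uniformly continuous in the sup norm, the mean of `F (path n)` over the `n ≤ N` that reach `1` tends to `E F(B)`.
`path n s = dev n ⌊s l(n)⌋ / scale n` is the COMPLETE trajectory down to `1`.
-/

set_option autoImplicit false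

namespace Pool.Agent.H55.DK

open Finset Filter Topology MeasureTheory ProbabilityTheory
open scoped NNReal
open Pool.Agent.H499R2.ND.TJ (PP)
open Pool.Agent.Results.MP_f7abf1_nt.BlockLaw (T Syr wait blocks Admissible prob oddCount HasDensity)

/-- bounded by `1` and uniformly continuous in the sup norm on `[0, 1]` -/
def Adm (F : (ℝ → ℝ) → ℝ) : Prop := (∀ f, |F f| ≤ 1) ∧ ∀ ε : ℝ, 0 < ε → ∃ η : ℝ, 0 < η ∧
  ∀ f g : ℝ → ℝ, (∀ s, 0 ≤ s → s ≤ 1 → |f s - g s| ≤ η) → |F f - F g| ≤ ε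

/-- the total stopping time (for the numbers which reach `1`) -/
noncomputable def len (n : ℕ) : ℕ := sInf {k : ℕ | C^[k] n = 1}

/-- the rescaled trajectory -/
noncomputable def path (n : ℕ) (s : ℝ) : ℝ := dev n ⌊s * len n⌋₊ / scale n

/-- the step function with the increments `v i` at the times `(i + 1) / G` -/
noncomputable def stp {r : ℕ} (G : ℕ) (v : Fin r → ℝ) (s : ℝ) : ℝ :=
  ∑ i : Fin r, if ((i : ℕ) : ℝ) + 1 ≤ s * G then v i else 0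

/-- sum over the odd `m ≤ X` -/
noncomputable def oddSum (X : ℕ) (f : ℕ → ℝ) : ℝ := ∑ m ∈ (range (X + 1)).filter Odd, f m

open Classical in
/-- DK-TV: from sets to functions. `BlockLaw.result.1 UL.R` gives (see `co_law` in `F2.lean`) the same for indicator
functions, uniformly in the set. Layer cake with `N = ⌈4/ε⌉` levels: `0 ≤ Φ - (1/N) #{i ∈ [1,N] : Φ ≥ i/N} ≤ 1/N`. -/
def S_TV : Prop := ∀ δ : ℝ, HasDensity UL.R δ → ∀ κ ε : ℝ, 0 < κ → 0 < ε → ∀ᶠ X : ℕ in atTop, ∀ r b : ℕ,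
  κ * Real.log X ≤ b → ((r * b : ℕ) : ℝ) ≤ (1 - κ) * Real.log X / Real.log (4 / 3) →
  ∀ Φ : (Fin r → ℕ) → ℝ, (∀ v, 0 ≤ Φ v ∧ Φ v ≤ 1) →
  |oddSum X (fun m => if UL.R m then Φ (blocks (fun i => i * b) r (wait m)) else 0) -
    δ / 2 * (∫ ω : ℕ → ℕ, Φ (blocks (fun i => i * b) r (fun j => ω j + 1)) ∂PP) * X| ≤ ε * X

/-- DK-SUM: from the classes `2 ^ v * (odd)` to all integers, as `odd_dens` and `dens_transfer` in `UL/Dens.lean`. -/
def S_SUM : Prop := ∀ f : ℕ → ℝ, (∀ n, |f n| ≤ 1) → ∀ c : ℝ,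
  (∀ v : ℕ, Tendsto (fun X : ℕ => oddSum X (fun m => f (2 ^ v * m)) / X) atTop (𝓝 (c / 2))) →
  Tendsto (fun N : ℕ => (∑ n ∈ Icc 1 N, f n) / N) atTop (𝓝 c)

/-- DK-WALK: the law of the vector of the block sums converges to the product of normal laws. The blocks are
independent (`UL.indep_wt`, `Measure.pi_map_pi` / `iIndepFun_iff_map_fun_eq_pi_map`), each of them by the central limit
theorem (`TJ.clt`, with `UL.bs_XX`), products by `ProbabilityMeasure.continuous_pi`. -/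
def S_WALK : Prop := ∀ G : ℕ, 0 < G → ∀ r : ℕ, ∀ Φ : (Fin r → ℝ) → ℝ, Continuous Φ → (∀ v, |Φ v| ≤ 1) →
  Tendsto (fun b : ℕ => ∫ ω : ℕ → ℕ, Φ (fun i : Fin r =>
    ((Yw ω (((i : ℕ) + 1) * b) - Yw ω ((i : ℕ) * b) : ℤ) : ℝ) / Real.sqrt (2 * G * b)) ∂PP) atTop
    (𝓝 (∫ v : Fin r → ℝ, Φ v ∂(Measure.pi fun _ => gaussianReal 0 (1 / (G : ℝ≥0)))))

/-- DK-BM: the step functions with grid values of Brownian motion, stopped at `(g - 1) / g`. The increments have the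
product law (`IsPreBrownianReal.hasIndepIncrements`, `hasLaw_sub`), so the integral on the left is
`∫ F (fun s => B (min ⌊s G⌋ r / G)) dP`; for continuous paths this function tends to `B` uniformly on `[0, 1]`
(all times are moved by at most `1 / g`), dominated convergence. -/
def S_BM : Prop := ∀ (Ω : Type) [MeasurableSpace Ω] (P : Measure Ω) [IsProbabilityMeasure P] (B : ℝ≥0 → Ω → ℝ),
  IsBrownianReal B P → ∀ F : (ℝ → ℝ) → ℝ, Adm F → ∀ h : ℕ → ℕ, (∀ g, 0 < h g) →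
  Tendsto (fun g : ℕ => ∫ v : Fin ((g - 1) * h g) → ℝ, F (stp (g * h g) v)
    ∂(Measure.pi fun _ => gaussianReal 0 (1 / ((g * h g : ℕ) : ℝ≥0)))) atTop
    (𝓝 (∫ ω, F (fun s => B s.toNNReal ω) ∂P))

/-- DK-CDEV: all terms of the trajectory of `C` (compare `S_CPATH`). Time of the `j`-th odd term: `v + 3 j - Yn m j`. -/
def S_CDEV : Prop := ∀ v m J t : ℕ, m % 2 = 1 → Syr^[J] m = 1 → (∀ i < J, Syr^[i] m ≠ 1) → IsTC (2 ^ v * m) t →
  (t : ℤ) = v + 3 * J - Yn m J ∧ ∀ k ≤ t, ∃ j ≤ J,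
    |dev (2 ^ v * m) k - Real.log 6 / 3 * (Yn m j : ℤ)| ≤ |((Yn m (j + 1) - Yn m j : ℤ) : ℝ)| + er0 v J ∧
    |(k : ℝ) - 3 * j| ≤ v + 3 + |((Yn m j : ℤ) : ℝ)| + |((Yn m (j + 1) : ℤ) : ℝ)|

/-- DK-DET (helper55): from `S_CDEV` -/
def S_DET : Prop := ∀ η : ℝ, 0 < η → ∃ e : ℝ, 0 < e ∧ ∀ g h v : ℕ, 1 < g → 0 < h → ∀ θ : ℝ, 0 < θ →
  ∀ᶠ X : ℕ in atTop, ∀ b : ℕ, b = ⌊Real.log X / Real.log (4 / 3) / (g * h : ℕ)⌋₊ → ∀ m : ℕ, m ≤ X → θ * X ≤ m →
    m % 2 = 1 → UL.R m → Ctl (e * Real.sqrt (Real.log X)) ((g - 1) * h) b m → ∀ s : ℝ, 0 ≤ s → s ≤ 1 →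
    |path (2 ^ v * m) s - stp (g * h) (fun i : Fin ((g - 1) * h) =>
      ((Yn m (((i : ℕ) + 1) * b) - Yn m ((i : ℕ) * b) : ℤ) : ℝ) / Real.sqrt (2 * (g * h : ℕ) * b)) s| ≤ η

open Classical in
/-- DK-FCLT (helper55): from `S_CTRL`, `S_TV`, `S_SUM`, `S_WALK`, `S_BM`, `S_DET` -/
def S_FCLT : Prop := ∀ δ : ℝ, HasDensity UL.R δ →
  ∀ (Ω : Type) [MeasurableSpace Ω] (P : Measure Ω) [IsProbabilityMeasure P] (B : ℝ≥0 → Ω → ℝ),
  IsBrownianReal B P → ∀ F : (ℝ → ℝ) → ℝ, Adm F →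
  Tendsto (fun N : ℕ => (∑ n ∈ Icc 1 N, if UL.R n then F (path n) else 0) / N) atTop
    (𝓝 (δ * ∫ ω, F (fun s => B s.toNNReal ω) ∂P))

end Pool.Agent.H55.DK
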