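import Pool.Agent.H55.DK.Stm

/-!
# Independence of the past and the next letter in the model
-/

set_option autoImplicit false

namespace Pool.Agent.H55.DK.PT

open Finset Filter Topology MeasureTheory ProbabilityTheory
open Pool.Agent.H499R2.ND.TJ (PP geo)
open Pool.Agent.Results.MP_f7abf1_nt.BlockLaw (Syr wait)
open Pool.Agent.H55.UL (wt meas_wt indep_wt wt_law bs meas_bs)


/-- waiting times of the first `K` coordinates -/
def res (K : ℕ) (ω : ℕ → ℕ) : (↥(Finset.range K) → ℕ) := fun i => wt i ω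

/-- a function which depends on the coordinates `< K` only -/
def Dep {α : Type} (K : ℕ) (F : (ℕ → ℕ) → α) : Prop := ∀ ω ω' : ℕ → ℕ, (∀ i < K, ω i = ω' i) → F ω = F ω'

/-- extension by zero -/
def ext (K : ℕ) (r : ↥(Finset.range K) → ℕ) (i : ℕ) : ℕ := if h : i ∈ range K then r ⟨i, h⟩ - 1 else 0

theorem Dep.factor {α : Type} {K : ℕ} {F : (ℕ → ℕ) → α} (h : Dep K F) (ω : ℕ → ℕ) :
    F ω = F (ext K (res K ω)) := by
  apply h
  intro i hi
  unfold ext res wt
  rw [dif_pos (mem_range.2 hi)]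
  simp

theorem meas_res (K : ℕ) : Measurable (res K) := measurable_pi_lambda _ fun i => meas_wt i

theorem Dep.meas {α : Type} [MeasurableSpace α] {K : ℕ} {F : (ℕ → ℕ) → α} (h : Dep K F) : Measurable F := by
  have h1 : F = (fun r => F (ext K r)) ∘ res K := funext fun ω => h.factor ω
  rw [h1]
  exact (Measurable.of_discrete).comp (meas_res K)

theorem indep_res (K : ℕ) : IndepFun (res K) (fun ω : ℕ → ℕ => ω K) PP := by
  have h1 := indep_wt.indepFun_finset (range K) {K} (by simp) meas_wt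
  have h2 := h1.comp (φ := id) (ψ := fun g : ({K} : Finset ℕ) → ℕ => g ⟨K, mem_singleton_self K⟩ - 1)
    measurable_id Measurable.of_discrete
  exact h2

theorem lint_mul {K : ℕ} {F : (ℕ → ℕ) → ENNReal} (h : Dep K F) (G : ℕ → ENNReal) :
    ∫⁻ ω, F ω * G (ω K) ∂PP = (∫⁻ ω, F ω ∂PP) * ∫⁻ ω, G (ω K) ∂PP := by
  have h1 : IndepFun F (fun ω : ℕ → ℕ => G (ω K)) PP := by
    have h2 := (indep_res K).comp (φ := fun r => F (ext K r)) (ψ := G) Measurable.of_discrete Measurable.of_discrete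
    have h3 : F = (fun r => F (ext K r)) ∘ res K := funext fun ω => h.factor ω
    rw [h3]
    exact h2
  exact lintegral_mul_eq_lintegral_mul_lintegral_of_indepFun h.meas (Measurable.of_discrete.comp (measurable_pi_apply K)) h1

theorem split {K : ℕ} {D : Set (ℕ → ℕ)} (h : Dep K (fun ω => ω ∈ D)) (x : ℕ) :
    PP.real (D ∩ {ω | ω K = x}) = PP.real D * (1 / 2 : ℝ) ^ (x + 1) := by
  have h3 : D = res K ⁻¹' {r | ext K r ∈ D} := by
    ext ω
    exact (Iff.of_eq (h.factor ω))
  have h4 : {ω : ℕ → ℕ | ω K = x} = (fun ω : ℕ → ℕ => ω K) ⁻¹' {x} := rfl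
  have h1 := (indep_res K).measure_inter_preimage_eq_mul {r | ext K r ∈ D} {x} (MeasurableSet.of_discrete)
    (measurableSet_singleton x)
  rw [← h3, ← h4] at h1
  have h5 : PP.real {ω : ℕ → ℕ | ω K = x} = (1 / 2 : ℝ) ^ (x + 1) := by
    rw [← wt_law K x]
    congr 1
    ext ω
    simp [wt]
  rw [← h5]
  simp only [measureReal_def]
  rw [← ENNReal.toReal_mul, ← h1]

theorem meas_dep {K : ℕ} {D : Set (ℕ → ℕ)} (h : Dep K (fun ω => ω ∈ D)) : MeasurableSet D := by
  have h3 : D = res K ⁻¹' {r | ext K r ∈ D} := by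
    ext ω
    exact (Iff.of_eq (h.factor ω))
  rw [h3]
  exact meas_res K MeasurableSet.of_discrete

theorem bs_dep (K : ℕ) (ω ω' : ℕ → ℕ) (h : ∀ i < K, ω i = ω' i) : bs (range K) ω = bs (range K) ω' := by
  unfold bs
  exact Finset.sum_congr rfl fun i hi => by rw [h i (mem_range.1 hi)]

theorem conv' {K : ℕ} {D : Set (ℕ → ℕ)} (h : Dep K (fun ω => ω ∈ D)) (x : ℕ) :
    PP.real (D ∩ {ω | bs (range (K + 1)) ω = x}) =
      ∑ y ∈ range x, PP.real (D ∩ {ω | bs (range K) ω = y}) * (1 / 2 : ℝ) ^ (x - y) := by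
  have e : D ∩ {ω | bs (range (K + 1)) ω = x} =
      ⋃ y ∈ range x, ((D ∩ {ω | bs (range K) ω = y}) ∩ {ω | ω K = x - y - 1}) := by
    ext ω
    simp only [Set.mem_ofPred_eq, Set.mem_iUnion, Set.mem_inter_iff, Finset.mem_range, exists_prop]
    have h1 : bs (range (K + 1)) ω = bs (range K) ω + (ω K + 1) := by
      unfold bs
      rw [Finset.sum_range_succ]
    rw [h1]
    constructor
    · rintro ⟨h2, h3⟩
      refine ⟨bs (range K) ω, by omega, ⟨h2, rfl⟩, by omega⟩
    · rintro ⟨y, h2, ⟨h3, h4⟩, h5⟩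
      exact ⟨h3, by omega⟩
  have hdep : ∀ y, Dep K (fun ω => ω ∈ D ∩ {ω | bs (range K) ω = y}) := by
    intro y ω ω' hω
    have h1 := h ω ω' hω
    have h2 := bs_dep K ω ω' hω
    simp only [Set.mem_inter_iff, Set.mem_ofPred_eq]
    rw [h2]
    simp only at h1
    rw [h1]
  rw [e, measureReal_biUnion_finset]
  · apply Finset.sum_congr rfl
    intro y hy
    rw [Finset.mem_range] at hy
    rw [split (hdep y)]
    congr 2
    omega
  · intro i _ j _ hij
    refine Set.disjoint_left.2 ?_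
    rintro ω ⟨⟨_, h1⟩, _⟩ ⟨⟨_, h2⟩, _⟩
    exact hij (h1.symm.trans h2)
  · intro y _
    exact (meas_dep (hdep y)).inter ((measurable_pi_apply K) (measurableSet_singleton _))

end Pool.Agent.H55.DK.PT
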