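import Pool.Agent.H55.UL.Fin

/-!
# Project DK (MP_e43fce_nt): the maximal deviation of complete Collatz trajectories

Final theorem: the joint law of the total stopping time `l(n)` and of the maximum over the WHOLE trajectory of
`log C^k(n) - log n + (k/3) log (4/3)`. Definitions and the statements of the stubs.
-/

set_option autoImplicit false

namespace Pool.Agent.H55.DK

open Pool.Agent.H320R2.PD Pool.Agent.H499R2.ND Finset Filter Topology MeasureTheory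
open Pool.Agent.TH977.IP (Sy ex stf)
open Pool.Agent.H499R2.ND.TJ (PP)
open Pool.Agent.H319R2.Lln (mu)
open Pool.Agent.Results.MP_f7abf1_nt.BlockLaw (Syr wait oddCount HasDensity)

/-! ## composition of stages (compare `Pool.Agent.TH977.IP.SE, WE, Gk` in `IP/Core.lean`) -/

/-- starting points whose stages have sums `l` and whose endpoint is in `F l` -/
def SEf : List ℕ → (List ℕ → Set ℤ) → Set ℤ
  | [], F => F []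
  | k :: ks, F => {M | ∀ w : List ℕ, w.length = k → (∀ a ∈ w, 1 ≤ a) → ∀ x : ℤ, Odd x → Vw 1 w M x →
      x ∈ SEf ks (fun l => F (w.sum :: l))}

/-- mean of `ρ (sums of the stages)` -/
noncomputable def WEf (cap : ℕ) : List ℕ → (List ℕ → ℝ) → ℝ
  | [], ρ => ρ []
  | k :: ks, ρ => ∑ w ∈ FW cap k, wwt w * WEf cap ks (fun l => ρ (w.sum :: l))

/-- all scales `≥ τ` along the stages, `P l A'` for the sums `l` and the final scale `A'` -/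
def Gf (N : ℕ) (τ : ℝ) : List ℕ → (List ℕ → ℝ → Prop) → ℝ → Prop
  | [], P, A => P [] A
  | k :: ks, P, A => τ ≤ Real.log A ∧ Real.log A ≤ (k : ℝ) ^ 8 ∧ (k : ℝ) ≤ Real.log A / 2 ∧
      ∀ T : ℕ, N * |(T : ℝ) - 2 * k| ≤ k → Gf N τ ks (fun l => P (T :: l)) (A * 3 ^ k / 2 ^ T)

/-- DK-ERR (as `err_k`, `err_flex`; `mix 64`; all exponentials are `≤ C / t^3` for large `t`) -/
def S_ERR : Prop := ∃ C t0 : ℝ, 0 < C ∧ 1000 ≤ t0 ∧ ∀ A : ℝ, 0 < A → t0 ≤ Real.log A → ∀ k m m' : ℕ,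
  (m : ℝ) ^ 16 ≤ Real.log A → Real.log A ≤ (k : ℝ) ^ 8 → (k : ℝ) ≤ Real.log A / 2 →
  m' = ⌊(0.8 * Real.log A) ^ (1 / 16 : ℝ)⌋₊ → 1 ≤ k ∧ m' ≤ k ∧ Err 1 A k m m' ≤ C / (Real.log A) ^ 3

/-- DK-COMP (helper55) -/
def S_COMP : Prop := ∀ N : ℕ, 20 ≤ N → ∃ C t0 : ℝ, 0 < C ∧ 1000 ≤ t0 ∧ ∀ τ : ℝ, t0 ≤ τ →
  ∀ (ks : List ℕ) (cap : ℕ), (∀ k ∈ ks, 3 * k ≤ cap) → ∀ (F : List ℕ → Set ℤ) (ρ : List ℕ → ℝ),
  (∀ l, 0 ≤ ρ l) → ∀ A : ℝ, 0 < A →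
    Gf N τ ks (fun l A' => ∀ m : ℕ, (m : ℝ) ^ 16 ≤ Real.log A' → PB (F l) A' m (ρ l)) A →
    ∀ m : ℕ, (m : ℝ) ^ 16 ≤ Real.log A → PB (SEf ks F) A m (WEf cap ks ρ + ks.length * (C / τ ^ 3))

/-- DK-MEM (as `mem_SE` in `IP/Word.lean`) -/
def S_MEM : Prop := ∀ (ks : List ℕ) (F : List ℕ → Set ℤ) (M : ℤ),
  (Sy 1)^[ks.sum] M ∈ F (stf ks fun j => ex 1 ((Sy 1)^[j] M)) → M ∈ SEf ks F

/-- one of the partial sums `y + Σ_{s<i} (2 k_s - l_s)`, `0 ≤ i ≤ length`, is larger than `b` in absolute value -/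
def Dv (b : ℝ) : ℝ → List ℕ → List ℕ → Prop
  | y, [], _ => b < |y|
  | y, k :: ks, l => b < |y| ∨ Dv b (y + (2 * (k : ℝ) - (l.headD 0 : ℕ))) ks l.tail

open Classical in
/-- DK-WMAX: maximal inequality. Induction on `ks`: if `b < |y|` the right side is `≥ 1`; otherwise one step with
`Σ_{w ∈ FW cap k} wwt w e^{±λ(2k - Σ w)} ≤ e^{2λ²k}`, from `Σ_a 2^{-a} e^{λ(2-a)} = e^λ/(2-e^{-λ}) ≤ e^{2λ²}`, `|λ| ≤ 1/4`. -/
def S_WMAX : Prop := ∀ (cap : ℕ) (ks : List ℕ) (lam b y : ℝ), 0 ≤ lam → lam ≤ 1 / 4 →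
  WEf cap ks (fun l => if Dv b y ks l then 1 else 0) ≤
    Real.exp (2 * lam ^ 2 * (ks.sum : ℕ) + lam * (y - b)) + Real.exp (2 * lam ^ 2 * (ks.sum : ℕ) + lam * (-y - b))

/-! ## paths -/

/-- `2 j` minus the sum of the first `j` waiting times, for an integer -/
def Yz (M : ℤ) (j : ℕ) : ℤ := 2 * (j : ℤ) - ∑ i ∈ range j, (ex 1 ((Sy 1)^[i] M) : ℤ)

/-- the same for a natural number, `Syr` and `wait` -/
def Yn (n j : ℕ) : ℤ := 2 * (j : ℤ) - (UL.S n j : ℤ)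

/-- the same in the model -/
def Yw (ω : ℕ → ℕ) (j : ℕ) : ℤ := 2 * (j : ℤ) - ∑ i ∈ range j, ((ω i : ℤ) + 1)

/-- DK-PMAX: maximal inequality in the model, for the increments from time `a` (`PP` is a product measure; e.g. Doob,
or induction on `q`, or Mathlib's `maximal_ineq` for the submartingales `exp (± λ Y)`). -/
def S_PMAX : Prop := ∀ (a q : ℕ) (lam b : ℝ), 0 ≤ lam → lam ≤ 1 / 4 →
  PP.real {ω : ℕ → ℕ | ∃ j ≤ q, b < |((Yw ω (a + j) - Yw ω a : ℤ) : ℝ)|} ≤ 2 * Real.exp (2 * lam ^ 2 * q - lam * b)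

/-- DK-STAGE: from `S_COMP`, `S_MEM`, `S_WMAX`. Blocks of length `k = ⌈t^(1/4)⌉` (`t = log A`), `p = q/k + 1` of them,
`N = 20`, `τ = 0.9 t`, `F l = univ` if `Dv (b/2) 0 ks l` or some `20 |l_s - 2k| > k`, else `∅`;
`ρ l = 2` if `Dv (b/2) 0 ks l`, else `0`; inside a block the path moves by at most `3k ≤ b/2`. -/
def S_STAGE : Prop := ∃ C t0 : ℝ, 0 < C ∧ 1000 ≤ t0 ∧ ∀ A : ℝ, 0 < A → t0 ≤ Real.log A → ∀ q : ℕ,
  (q : ℝ) ≤ Real.log A / 8 → ∀ lam b : ℝ, 0 ≤ lam → lam ≤ 1 / 4 → 12 * (Real.log A) ^ (1 / 4 : ℝ) ≤ b →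
  ∀ m : ℕ, (m : ℝ) ^ 16 ≤ Real.log A → PB {M : ℤ | ∃ j ≤ q, b < |((Yz M j : ℤ) : ℝ)|} A m
    (4 * Real.exp (2 * lam ^ 2 * (q + 2 * (Real.log A) ^ (1 / 4 : ℝ) + 1) - lam * b / 2) + C / (Real.log A) ^ 2)

/-- the trajectory reaches `1` and the path is somewhere before larger than `b` in absolute value -/
def BadT (b : ℝ) : Set ℤ := {M | 0 < M ∧ Odd M ∧ (∃ i, (Sy 1)^[i] M = 1) ∧
  ∃ j, (∀ i < j, (Sy 1)^[i] M ≠ 1) ∧ b < |((Yz M j : ℤ) : ℝ)|}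

/-- DK-TAIL: control of the complete rest of the trajectory, down to `1`. -/
def S_TAIL : Prop := ∀ η : ℝ, 0 < η → ∃ B t1 : ℝ, 0 < B ∧ 1000 ≤ t1 ∧ ∀ Λ : ℝ, t1 ≤ Λ → ∀ A : ℝ, 0 < A →
  t1 ≤ Real.log A → Real.log A ≤ Λ → ∀ m : ℕ, (m : ℝ) ^ 16 ≤ Real.log A → PB (BadT (B * Real.sqrt Λ)) A m η

/-- DK-PULL: from `S_COMP`, `S_MEM` (as `upper` in `IP/Upper.lean` with `E = True`, one list of constant length). -/
def S_PULL : Prop := ∀ κ η : ℝ, 0 < κ → κ ≤ 1 → 0 < η → ∃ L0 : ℝ, ∀ L : ℝ, L0 ≤ L → ∀ (S : Set ℤ) (ρ : ℝ), 0 ≤ ρ →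
  ∀ K : ℕ, (K = 0 ∨ Real.sqrt L ≤ K) → 2 * mu * K ≤ (1 - κ) * L →
  (∀ A' : ℝ, 0 < A' → |Real.log A' - (L - 2 * mu * K)| ≤ κ * L / 4 → ∀ m : ℕ, (m : ℝ) ^ 16 ≤ Real.log A' → PB S A' m ρ) →
  ∀ A : ℝ, 0 < A → |Real.log A - L| ≤ κ * L / 8 → PB {M : ℤ | (Sy 1)^[K] M ∈ S} A 0 (ρ + η)

/-- DK-COUNT: from windows `[A, 2A)` to `[0, X]`. -/
def S_COUNT : Prop := ∀ κ η : ℝ, 0 < κ → κ ≤ 1 → 0 < η → ∀ᶠ X : ℕ in atTop, ∀ S : Set ℤ,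
  (∀ A : ℝ, 0 < A → |Real.log A - Real.log X| ≤ κ * Real.log X → PB S A 0 η) →
  ((cls S 0 (X + 1) 0 1 0).card : ℝ) ≤ η * X

/-- control of the path of `n` inside the blocks `[i b, (i+1) b]`, `i < r`, and after `r b`, until `1` is reached -/
def Ctl (w : ℝ) (r b n : ℕ) : Prop :=
  (∀ i < r, ∀ j ≤ b, |((Yn n (i * b + j) - Yn n (i * b) : ℤ) : ℝ)| ≤ w) ∧
  ∀ j, (∀ i, r * b ≤ i → i < r * b + j → Syr^[i] n ≠ 1) → |((Yn n (r * b + j) - Yn n (r * b) : ℤ) : ℝ)| ≤ w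

/-- DK-CTRL: from `S_STAGE`, `S_TAIL`, `S_PULL`, `S_COUNT`. -/
def S_CTRL : Prop := ∀ ε η : ℝ, 0 < ε → 0 < η → ∃ κ₀ : ℝ, 0 < κ₀ ∧ κ₀ ≤ 1 / 4 ∧ ∀ κ : ℝ, 0 < κ → κ ≤ κ₀ →
  ∃ r₀ : ℕ, 0 < r₀ ∧ ∀ r : ℕ, r₀ ≤ r → ∀ᶠ X : ℕ in atTop, ∀ b : ℕ, 0 < b →
    (1 - 2 * κ) * Real.log X ≤ r * b * Real.log (4 / 3) → r * b * Real.log (4 / 3) ≤ (1 - κ) * Real.log X →
    oddCount X (fun n => UL.R n ∧ ¬ Ctl (ε * Real.sqrt (Real.log X)) r b n) ≤ η * X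

/-! ## the model -/

/-- DK-REFL: reflection identity. Both sides are `C(T-1, K-a-1) 2^(-T)` (`UL.bs_law`); induction on `K` over the last
waiting time and two hockey stick sums, see `dk_proof.md`. -/
def S_REFL : Prop := ∀ K a T : ℕ, a < K → 2 * K ≤ T + a + 1 →
  PP.real {ω : ℕ → ℕ | (∃ j < K, (a : ℤ) ≤ Yw ω j) ∧ ∑ i ∈ range K, (ω i + 1) = T} =
    PP.real {ω : ℕ → ℕ | ∑ i ∈ range (K - a), (ω i + 1) = T}

/-- the joint distribution function of the maximum over `[0,1]` and the value at `1` of Brownian motion -/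
noncomputable def FF (y z : ℝ) : ℝ := Pool.Agent.Results.MP_f7abf1_nt.BlockLaw.Phi (min y z) -
  Pool.Agent.Results.MP_f7abf1_nt.BlockLaw.Phi (min y z - 2 * y)

/-- DK-MLAW: from `S_REFL` and the central limit theorem `Pool.Agent.H499R2.ND.TJ.clt` (`CL/J.lean`). -/
def S_MLAW : Prop := ∀ y z : ℝ, 0 ≤ y → Tendsto (fun K : ℕ => PP.real {ω : ℕ → ℕ |
  (∀ j ≤ K, ((Yw ω j : ℤ) : ℝ) ≤ y * Real.sqrt (2 * K)) ∧ ((Yw ω K : ℤ) : ℝ) ≤ z * Real.sqrt (2 * K)}) atTop (𝓝 (FF y z))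

/-! ## the trajectory of `C` -/

/-- the Collatz function -/
def C (n : ℕ) : ℕ := if n % 2 = 0 then n / 2 else 3 * n + 1

/-- `t` is the total stopping time `l(n)` -/
def IsTC (n t : ℕ) : Prop := C^[t] n = 1 ∧ ∀ j < t, C^[j] n ≠ 1

/-- error term -/
noncomputable def er0 (v J : ℕ) : ℝ := v + 10 + 2 * Real.log (J + 2)

/-- DK-CPATH: the path of `C` from `n = 2^v m` in terms of `Yn m` (`J` odd steps until `1`). -/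
def S_CPATH : Prop := ∀ v m J : ℕ, m % 2 = 1 → Syr^[J] m = 1 → (∀ i < J, Syr^[i] m ≠ 1) →
  ∃ t : ℕ, IsTC (2 ^ v * m) t ∧
    |(t : ℝ) * Real.log (4 / 3) / 3 - Real.log ((2 ^ v * m : ℕ) : ℝ) - Real.log 6 / 3 * (Yn m J : ℤ)| ≤ er0 v J ∧
    ∀ thr : ℝ,
      ((∀ j ≤ J, Real.log 6 / 3 * (Yn m j : ℤ) + er0 v J ≤ thr) → ∀ k ≤ t, Real.log ((C^[k] (2 ^ v * m) : ℕ) : ℝ) ≤
        Real.log ((2 ^ v * m : ℕ) : ℝ) - k / 3 * Real.log (4 / 3) + thr) ∧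
      ((∀ k ≤ t, Real.log ((C^[k] (2 ^ v * m) : ℕ) : ℝ) ≤
        Real.log ((2 ^ v * m : ℕ) : ℝ) - k / 3 * Real.log (4 / 3) + thr) →
        ∀ j ≤ J, Real.log 6 / 3 * (Yn m j : ℤ) ≤ thr + er0 v J)

/-- the set of the theorem -/
def Set1 (y z : ℝ) (n : ℕ) : Prop := ∃ t : ℕ, IsTC n t ∧
  (∀ k ≤ t, Real.log ((C^[k] n : ℕ) : ℝ) ≤ Real.log n - k / 3 * Real.log (4 / 3) +
    y * (Real.log 6 / 3 * Real.sqrt (2 * Real.log n / Real.log (4 / 3)))) ∧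
  (t : ℝ) ≤ 3 / Real.log (4 / 3) * Real.log n +
    z * (Real.log 6 / Real.log (4 / 3) * Real.sqrt (2 * Real.log n / Real.log (4 / 3)))

/-- DK-FIN (helper55): from `S_CTRL`, `S_PMAX`, `S_MLAW`, `S_CPATH`. -/
def S_FIN : Prop := ∀ δ : ℝ, HasDensity UL.R δ → ∀ y z : ℝ, 0 ≤ y → HasDensity (Set1 y z) (FF y z * δ)

end Pool.Agent.H55.DK
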